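import Mathlib

/-!
Likelihood ratios `(1+x)^a (1-x)^b` on a finite probability space, where `a`, `b` are the numbers
of heads and tails of a stopped sequence of coins: total variation bounds.
-/

namespace Q291.EP

open Finset

/-- The likelihood ratio. -/
noncomputable def lk {ι : Type*} (a b : ι → ℕ) (x : ℝ) (i : ι) : ℝ := (1 + x) ^ a i * (1 - x) ^ b i

/-- A finite probability space on which all the likelihood ratios have mean one. -/
structure Sys {ι : Type*} (S : Finset ι) (w : ι → ℝ) (a b : ι → ℕ) : Prop where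
  nn : ∀ i ∈ S, 0 ≤ w i
  one : ∀ x : ℝ, -1 ≤ x → x ≤ 1 → ∑ i ∈ S, w i * lk a b x i = 1

variable {ι : Type*} {S : Finset ι} {w : ι → ℝ} {a b : ι → ℕ}

theorem lk_nonneg (a b : ι → ℕ) {x : ℝ} (h1 : -1 ≤ x) (h2 : x ≤ 1) (i : ι) : 0 ≤ lk a b x i := by
  unfold lk
  apply mul_nonneg <;> apply pow_nonneg <;> linarith

theorem lk_pos (a b : ι → ℕ) {x : ℝ} (h1 : -1 < x) (h2 : x < 1) (i : ι) : 0 < lk a b x i := by
  unfold lk
  apply mul_pos <;> apply pow_pos <;> linarith

theorem lk_zero (a b : ι → ℕ) (i : ι) : lk a b 0 i = 1 := by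
  unfold lk; simp

theorem Sys.sum_w (h : Sys S w a b) : ∑ i ∈ S, w i = 1 := by
  have := h.one 0 (by norm_num) (by norm_num)
  simpa only [lk_zero, mul_one] using this

/-- The first moment identity. -/
theorem Sys.mean (h : Sys S w a b) {x : ℝ} (h1 : -1 < x) (h2 : x < 1) :
    ∑ i ∈ S, w i * lk a b x i * ((a i : ℝ) * (1 - x) - b i * (1 + x)) = 0 := by
  have hd : HasDerivAt (fun y : ℝ => ∑ i ∈ S, w i * lk a b y i)
      (∑ i ∈ S, w i * ((a i : ℝ) * (1 + x) ^ (a i - 1) * 1 * (1 - x) ^ b i +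
        (1 + x) ^ a i * ((b i : ℝ) * (1 - x) ^ (b i - 1) * (-1)))) x := by
    apply HasDerivAt.fun_sum
    intro i _
    apply HasDerivAt.const_mul
    unfold lk
    apply HasDerivAt.mul
    · exact ((hasDerivAt_id x).const_add 1).pow (a i)
    · exact ((hasDerivAt_id x).const_sub 1).pow (b i)
  have hc : HasDerivAt (fun y : ℝ => ∑ i ∈ S, w i * lk a b y i) 0 x := by
    have h3 : (fun y : ℝ => ∑ i ∈ S, w i * lk a b y i) =ᶠ[nhds x] fun _ => 1 := by
      filter_upwards [Ioo_mem_nhds h1 h2] with y hy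
      exact h.one y hy.1.le hy.2.le
    exact (hasDerivAt_const x (1:ℝ)).congr_of_eventuallyEq h3
  have h4 := hd.unique hc
  have h5 : (1 + x) * (1 - x) * ∑ i ∈ S, w i * ((a i : ℝ) * (1 + x) ^ (a i - 1) * 1 *
      (1 - x) ^ b i + (1 + x) ^ a i * ((b i : ℝ) * (1 - x) ^ (b i - 1) * (-1))) = 0 := by
    rw [h4, mul_zero]
  rw [← h5, Finset.mul_sum]
  apply Finset.sum_congr rfl
  intro i _
  have e1 : (a i : ℝ) * (1 + x) ^ (a i - 1) * (1 + x) = a i * (1 + x) ^ a i := by
    rcases Nat.eq_zero_or_pos (a i) with h0 | h0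
    · simp [h0]
    · rw [mul_assoc, ← pow_succ, Nat.sub_add_cancel h0]
  have e2 : (b i : ℝ) * (1 - x) ^ (b i - 1) * (1 - x) = b i * (1 - x) ^ b i := by
    rcases Nat.eq_zero_or_pos (b i) with h0 | h0
    · simp [h0]
    · rw [mul_assoc, ← pow_succ, Nat.sub_add_cancel h0]
  unfold lk
  linear_combination (-(w i * (1 - x) * (1 - x) ^ b i)) * e1 +
    (w i * (1 + x) * (1 + x) ^ a i) * e2

/-- At `x = 0` the means of `a` and `b` agree. -/
theorem Sys.mean0 (h : Sys S w a b) : ∑ i ∈ S, w i * ((a i : ℝ) - b i) = 0 := by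
  have := h.mean (x := 0) (by norm_num) (by norm_num)
  simpa only [lk_zero, mul_one, sub_zero, add_zero] using this

/-- Under the tilted weights the mean of `a - b` is `x` times the mean of `a + b`. -/
theorem Sys.mean1 (h : Sys S w a b) {x : ℝ} (h1 : -1 < x) (h2 : x < 1) :
    ∑ i ∈ S, w i * lk a b x i * ((a i : ℝ) - b i) =
      x * ∑ i ∈ S, w i * lk a b x i * ((a i : ℝ) + b i) := by
  have h3 := h.mean h1 h2
  rw [Finset.mul_sum, ← sub_eq_zero, ← Finset.sum_sub_distrib]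
  rw [← h3]
  apply Finset.sum_congr rfl
  intro i _
  ring

/-- Cauchy–Schwarz for weighted sums. -/
theorem cs (hw : ∀ i ∈ S, 0 ≤ w i) (f g : ι → ℝ) :
    ∑ i ∈ S, w i * (|f i| * |g i|) ≤
      Real.sqrt (∑ i ∈ S, w i * f i ^ 2) * Real.sqrt (∑ i ∈ S, w i * g i ^ 2) := by
  have h := Finset.sum_mul_sq_le_sq_mul_sq S (fun i => Real.sqrt (w i) * |f i|)
    (fun i => Real.sqrt (w i) * |g i|)
  have e1 : ∑ i ∈ S, (Real.sqrt (w i) * |f i|) * (Real.sqrt (w i) * |g i|) =
      ∑ i ∈ S, w i * (|f i| * |g i|) := by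
    apply Finset.sum_congr rfl
    intro i hi
    have := Real.mul_self_sqrt (hw i hi)
    linear_combination |f i| * |g i| * this
  have e2 : ∀ k : ι → ℝ, ∑ i ∈ S, (Real.sqrt (w i) * |k i|) ^ 2 = ∑ i ∈ S, w i * k i ^ 2 := by
    intro k
    apply Finset.sum_congr rfl
    intro i hi
    rw [mul_pow, Real.sq_sqrt (hw i hi), sq_abs]
  rw [e1, e2, e2] at h
  rw [← Real.sqrt_mul (Finset.sum_nonneg fun i hi => mul_nonneg (hw i hi) (sq_nonneg _))]
  apply Real.le_sqrt_of_sq_le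
  exact h

/-- The affinity is large. -/
theorem Sys.aff (h : Sys S w a b) {x : ℝ} (hx : |x| ≤ 1/2) :
    1 - x ^ 2 / 3 * ∑ i ∈ S, w i * ((a i : ℝ) + b i) ≤ ∑ i ∈ S, w i * Real.sqrt (lk a b x i) := by
  rw [abs_le] at hx
  have p1 : (0:ℝ) < 1 + x := by linarith [hx.1]
  have p2 : (0:ℝ) < 1 - x := by linarith [hx.2]
  have h1 : ∀ i ∈ S, w i * (1 + 1/2 * (a i * Real.log (1 + x) + b i * Real.log (1 - x))) ≤
      w i * Real.sqrt (lk a b x i) := by
    intro i hi
    apply mul_le_mul_of_nonneg_left _ (h.nn i hi)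
    have hp := lk_pos a b (by linarith [hx.1] : -1 < x) (by linarith [hx.2] : x < 1) i
    have h2 : Real.log (lk a b x i) = a i * Real.log (1 + x) + b i * Real.log (1 - x) := by
      unfold lk
      rw [Real.log_mul (pow_pos p1 _).ne' (pow_pos p2 _).ne', Real.log_pow, Real.log_pow]
    have h3 := Real.log_le_sub_one_of_pos (Real.sqrt_pos.mpr hp)
    rw [Real.log_sqrt hp.le, h2] at h3
    linarith
  refine le_trans ?_ (Finset.sum_le_sum h1)
  have h2 := h.mean0
  have h3 := h.sum_w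
  have h4 : ∑ i ∈ S, w i * (1 + 1/2 * (a i * Real.log (1 + x) + b i * Real.log (1 - x))) =
      1 + 1/4 * (Real.log (1 + x) + Real.log (1 - x)) * ∑ i ∈ S, w i * ((a i : ℝ) + b i) := by
    have e : ∀ i ∈ S, w i * (1 + 1/2 * (a i * Real.log (1 + x) + b i * Real.log (1 - x))) =
        w i + (1/4 * (Real.log (1 + x) + Real.log (1 - x)) * (w i * ((a i : ℝ) + b i)) +
          1/4 * (Real.log (1 + x) - Real.log (1 - x)) * (w i * ((a i : ℝ) - b i))) := by
      intro i _
      ring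
    rw [Finset.sum_congr rfl e, Finset.sum_add_distrib, Finset.sum_add_distrib, ← Finset.mul_sum,
      ← Finset.mul_sum, h2, h3]
    ring
  rw [h4]
  have h5 : -(4/3 * x ^ 2) ≤ Real.log (1 + x) + Real.log (1 - x) := by
    rw [← Real.log_mul p1.ne' p2.ne']
    have h6 : (0:ℝ) < (1 + x) * (1 - x) := mul_pos p1 p2
    have h7 := Real.one_sub_inv_le_log_of_pos h6
    have h8 : x ^ 2 ≤ 1/4 := by nlinarith
    have h9 : (3/4 : ℝ) ≤ (1 + x) * (1 - x) := by nlinarith
    have h10 : -(4/3 * x^2) ≤ 1 - ((1 + x) * (1 - x))⁻¹ := by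
      rw [le_sub_iff_add_le, ← sub_nonneg]
      have : 1 - (-(4/3 * x^2) + ((1 + x) * (1 - x))⁻¹) =
          ((1 + 4/3 * x^2) * ((1 + x) * (1 - x)) - 1) / ((1 + x) * (1 - x)) := by
        field_simp
        ring
      rw [this]
      apply div_nonneg _ h6.le
      nlinarith [sq_nonneg x]
    linarith
  have h6 : 0 ≤ ∑ i ∈ S, w i * ((a i : ℝ) + b i) :=
    Finset.sum_nonneg fun i hi => mul_nonneg (h.nn i hi) (by positivity)
  nlinarith [mul_le_mul_of_nonneg_right h5 h6]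

/-- Total variation, upper bound. -/
theorem Sys.tv_up (h : Sys S w a b) {x : ℝ} (hx : |x| ≤ 1/2) :
    ∑ i ∈ S, w i * |lk a b x i - 1| ≤
      2 * |x| * Real.sqrt (∑ i ∈ S, w i * ((a i : ℝ) + b i)) := by
  set N := ∑ i ∈ S, w i * ((a i : ℝ) + b i) with hN
  have hN0 : 0 ≤ N := Finset.sum_nonneg fun i hi => mul_nonneg (h.nn i hi) (by positivity)
  have h0 := h.aff hx
  have hx2 := abs_le.mp hx
  have p1 : -1 ≤ x := by linarith [hx2.1]
  have p2 : x ≤ 1 := by linarith [hx2.2]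
  have h1 : ∑ i ∈ S, w i * |lk a b x i - 1| = ∑ i ∈ S, w i *
      (|Real.sqrt (lk a b x i) - 1| * |Real.sqrt (lk a b x i) + 1|) := by
    apply Finset.sum_congr rfl
    intro i _
    rw [← abs_mul]
    congr 2
    have := Real.mul_self_sqrt (lk_nonneg a b p1 p2 i)
    linear_combination -this
  rw [h1]
  refine (cs h.nn _ _).trans ?_
  have e1 : ∀ i ∈ S, w i * (Real.sqrt (lk a b x i) - 1) ^ 2 =
      w i * lk a b x i + w i - 2 * (w i * Real.sqrt (lk a b x i)) := by
    intro i _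
    have := Real.mul_self_sqrt (lk_nonneg a b p1 p2 i)
    linear_combination w i * this
  have e2 : ∀ i ∈ S, w i * (Real.sqrt (lk a b x i) + 1) ^ 2 =
      w i * lk a b x i + w i + 2 * (w i * Real.sqrt (lk a b x i)) := by
    intro i _
    have := Real.mul_self_sqrt (lk_nonneg a b p1 p2 i)
    linear_combination w i * this
  rw [Finset.sum_congr rfl e1, Finset.sum_congr rfl e2, Finset.sum_sub_distrib,
    Finset.sum_add_distrib, Finset.sum_add_distrib, Finset.sum_add_distrib, ← Finset.mul_sum,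
    h.one x p1 p2, h.sum_w]
  set ρ := ∑ i ∈ S, w i * Real.sqrt (lk a b x i) with hρ
  have e3 : 1 + 1 - 2 * ρ ≤ x ^ 2 * N := by nlinarith [mul_nonneg (sq_nonneg x) hN0]
  have e4 : ρ ≤ 1 := by
    have h5 : 0 ≤ 1 + 1 - 2 * ρ := by
      have : ∑ i ∈ S, w i * (Real.sqrt (lk a b x i) - 1) ^ 2 = 1 + 1 - 2 * ρ := by
        rw [Finset.sum_congr rfl e1, Finset.sum_sub_distrib,
          Finset.sum_add_distrib, ← Finset.mul_sum, h.one x p1 p2, h.sum_w]
      rw [← this]
      exact Finset.sum_nonneg fun i hi => mul_nonneg (h.nn i hi) (sq_nonneg _)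
    linarith
  have e5 : Real.sqrt (1 + 1 - 2 * ρ) ≤ |x| * Real.sqrt N := by
    rw [← Real.sqrt_sq_eq_abs, ← Real.sqrt_mul (sq_nonneg x)]
    exact Real.sqrt_le_sqrt e3
  have e6 : Real.sqrt (1 + 1 + 2 * ρ) ≤ 2 := by
    rw [Real.sqrt_le_left (by norm_num)]
    linarith
  calc Real.sqrt (1 + 1 - 2 * ρ) * Real.sqrt (1 + 1 + 2 * ρ) ≤ (|x| * Real.sqrt N) * 2 :=
        mul_le_mul e5 e6 (Real.sqrt_nonneg _) (by positivity)
    _ = _ := by ring

/-- Second moment of a truncated likelihood ratio. -/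
theorem Sys.sq_up (h : Sys S w a b) {m : ℕ} (hm : ∀ i ∈ S, a i + b i ≤ m) {x : ℝ}
    (h1 : -1 ≤ x) (h2 : x ≤ 1) :
    ∑ i ∈ S, w i * (lk a b x i - 1) ^ 2 ≤ (1 + x ^ 2) ^ m - 1 := by
  have q : (0:ℝ) < 1 + x ^ 2 := by positivity
  have y1 : -1 ≤ 2 * x / (1 + x ^ 2) := by rw [le_div_iff₀ q]; nlinarith [sq_nonneg (x + 1)]
  have y2 : 2 * x / (1 + x ^ 2) ≤ 1 := by rw [div_le_one q]; nlinarith [sq_nonneg (x - 1)]
  have h3 : ∀ i ∈ S, w i * (lk a b x i - 1) ^ 2 ≤
      (1 + x ^ 2) ^ m * (w i * lk a b (2 * x / (1 + x ^ 2)) i) - 2 * (w i * lk a b x i) + w i := by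
    intro i hi
    have e : lk a b x i ^ 2 = (1 + x ^ 2) ^ (a i + b i) * lk a b (2 * x / (1 + x ^ 2)) i := by
      unfold lk
      rw [mul_pow, ← pow_mul, ← pow_mul, mul_comm (a i), mul_comm (b i), pow_mul, pow_mul,
        pow_add, mul_mul_mul_comm, ← mul_pow, ← mul_pow]
      congr 2
      · field_simp; ring
      · field_simp; ring
    have h4 : (1 + x ^ 2) ^ (a i + b i) ≤ (1 + x ^ 2) ^ m :=
      pow_le_pow_right₀ (by nlinarith [sq_nonneg x]) (hm i hi)
    have h5 := mul_le_mul_of_nonneg_right h4 (mul_nonneg (h.nn i hi) (lk_nonneg a b y1 y2 i))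
    have h6 : w i * (lk a b x i - 1) ^ 2 = (1 + x ^ 2) ^ (a i + b i) *
        (w i * lk a b (2 * x / (1 + x ^ 2)) i) - 2 * (w i * lk a b x i) + w i := by
      linear_combination w i * e
    rw [h6]
    linarith
  refine (Finset.sum_le_sum h3).trans ?_
  rw [Finset.sum_add_distrib, Finset.sum_sub_distrib, ← Finset.mul_sum, ← Finset.mul_sum,
    h.one _ y1 y2, h.one x h1 h2, h.sum_w]
  linarith

/-- Exponential moments. -/
theorem Sys.exp_up (h : Sys S w a b) {m : ℕ} (hm : ∀ i ∈ S, a i + b i ≤ m) (l : ℝ) :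
    ∑ i ∈ S, w i * Real.exp (l * ((a i : ℝ) - b i)) ≤ Real.exp (m * (l ^ 2 / 2)) := by
  have q : 0 < Real.cosh l := Real.cosh_pos l
  have y1 : -1 ≤ Real.tanh l := by
    rw [Real.tanh_eq_sinh_div_cosh, le_div_iff₀ q]
    have := Real.exp_pos l
    rw [Real.cosh_eq, Real.sinh_eq]
    linarith
  have y2 : Real.tanh l ≤ 1 := by
    rw [Real.tanh_eq_sinh_div_cosh, div_le_one q]
    have := Real.exp_pos (-l)
    rw [Real.cosh_eq, Real.sinh_eq]
    linarith
  have e1 : Real.cosh l * (1 + Real.tanh l) = Real.exp l := by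
    rw [Real.tanh_eq_sinh_div_cosh, mul_add, mul_one, mul_div_cancel₀ _ q.ne',
      Real.cosh_add_sinh]
  have e2 : Real.cosh l * (1 - Real.tanh l) = Real.exp (-l) := by
    rw [Real.tanh_eq_sinh_div_cosh, mul_sub, mul_one, mul_div_cancel₀ _ q.ne',
      Real.cosh_sub_sinh]
  have h3 : ∀ i ∈ S, w i * Real.exp (l * ((a i : ℝ) - b i)) ≤
      Real.cosh l ^ m * (w i * lk a b (Real.tanh l) i) := by
    intro i hi
    have e : Real.exp (l * ((a i : ℝ) - b i)) = Real.cosh l ^ (a i + b i) *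
        lk a b (Real.tanh l) i := by
      unfold lk
      rw [pow_add, mul_mul_mul_comm, ← mul_pow, ← mul_pow, e1, e2, ← Real.exp_nat_mul,
        ← Real.exp_nat_mul, ← Real.exp_add]
      congr 1
      ring
    have h4 : Real.cosh l ^ (a i + b i) ≤ Real.cosh l ^ m :=
      pow_le_pow_right₀ (Real.one_le_cosh l) (hm i hi)
    have h5 := mul_le_mul_of_nonneg_right h4 (mul_nonneg (h.nn i hi) (lk_nonneg a b y1 y2 i))
    rw [e]
    nlinarith [h5]
  refine (Finset.sum_le_sum h3).trans ?_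
  rw [← Finset.mul_sum, h.one _ y1 y2, mul_one, Real.exp_nat_mul]
  exact pow_le_pow_left₀ q.le (Real.cosh_le_exp_half_sq l) m

/-- The fourth moment of `a - b`. -/
theorem Sys.m4 (h : Sys S w a b) {m : ℕ} (hm0 : 1 ≤ m) (hm : ∀ i ∈ S, a i + b i ≤ m) :
    ∑ i ∈ S, w i * ((a i : ℝ) - b i) ^ 4 ≤ 80 * (m:ℝ) ^ 2 := by
  have hm1 : (0:ℝ) < m := by exact_mod_cast hm0
  set s := Real.sqrt m with hs
  have hs0 : 0 < s := Real.sqrt_pos.mpr hm1
  have hss : s ^ 2 = m := Real.sq_sqrt hm1.le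
  have key : ∀ z : ℝ, z ^ 4 ≤ 24 * (Real.exp z + Real.exp (-z)) := by
    intro z
    have h1 := Real.pow_div_factorial_le_exp |z| (abs_nonneg z) 4
    have h2 : |z| ^ 4 = z ^ 4 := by
      rw [show (4:ℕ) = 2 * 2 by norm_num, pow_mul, pow_mul, sq_abs]
    rw [h2] at h1
    have h3 : Real.exp |z| ≤ Real.exp z + Real.exp (-z) := by
      rcases abs_cases z with ⟨h, _⟩ | ⟨h, _⟩ <;> rw [h]
      · linarith [Real.exp_pos (-z)]
      · linarith [Real.exp_pos z]
    have h4 : ((Nat.factorial 4 : ℕ) : ℝ) = 24 := by norm_num [Nat.factorial]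
    rw [h4] at h1
    have := h1.trans h3
    rw [div_le_iff₀ (by norm_num)] at this
    linarith
  have h1 : ∀ i ∈ S, w i * ((a i : ℝ) - b i) ^ 4 ≤
      24 * (m:ℝ) ^ 2 * (w i * Real.exp (1 / s * ((a i : ℝ) - b i)) +
        w i * Real.exp (-(1 / s) * ((a i : ℝ) - b i))) := by
    intro i hi
    have h2 := key (1 / s * ((a i : ℝ) - b i))
    have h3 : (1 / s * ((a i : ℝ) - b i)) ^ 4 * (m:ℝ) ^ 2 = ((a i : ℝ) - b i) ^ 4 := by
      rw [← hss]
      field_simp
    have h4 := mul_le_mul_of_nonneg_right h2 (by positivity : (0:ℝ) ≤ (m:ℝ) ^ 2)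
    rw [h3] at h4
    have h5 := mul_le_mul_of_nonneg_left h4 (h.nn i hi)
    rw [neg_mul]
    refine h5.trans (le_of_eq ?_)
    ring
  refine (Finset.sum_le_sum h1).trans ?_
  rw [← Finset.mul_sum, Finset.sum_add_distrib]
  have h2 := h.exp_up hm (1 / s)
  have h3 := h.exp_up hm (-(1 / s))
  have e1 : (m:ℝ) * ((1 / s) ^ 2 / 2) = 1/2 := by
    rw [div_pow, hss]; field_simp
  have e2 : (m:ℝ) * ((-(1 / s)) ^ 2 / 2) = 1/2 := by
    rw [neg_sq, div_pow, hss]; field_simp
  rw [e1] at h2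
  rw [e2] at h3
  have h4 : Real.exp (1/2) ≤ 5/3 := by
    have h5 := Real.exp_one_lt_d9
    have h6 : Real.exp (1/2) ^ 2 = Real.exp 1 := by
      rw [← Real.exp_nat_mul]; norm_num
    nlinarith [Real.exp_pos (1/2:ℝ)]
  have h5 := mul_le_mul_of_nonneg_left (add_le_add (h2.trans h4) (h3.trans h4))
    (by positivity : (0:ℝ) ≤ 24 * (m:ℝ) ^ 2)
  refine h5.trans (le_of_eq ?_)
  ring

/-- Total variation, lower bound. -/
theorem Sys.tv_low (h : Sys S w a b) {m : ℕ} (hm0 : 1 ≤ m) (hm : ∀ i ∈ S, a i + b i ≤ m)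
    (hN : (m:ℝ) / 2 ≤ ∑ i ∈ S, w i * ((a i : ℝ) + b i)) {x : ℝ} (h1 : -1 < x) (h2 : x < 1)
    (hx : x ^ 2 * m ≤ 1) :
    |x| * Real.sqrt m / 300 ≤ ∑ i ∈ S, w i * |lk a b x i - 1| := by
  have hm1 : (0:ℝ) < m := by exact_mod_cast hm0
  set s := Real.sqrt m with hs
  have hs0 : 0 < s := Real.sqrt_pos.mpr hm1
  have hss : s ^ 2 = m := Real.sq_sqrt hm1.le
  set η := ∑ i ∈ S, w i * |lk a b x i - 1| with hη
  have hη0 : 0 ≤ η := Finset.sum_nonneg fun i hi => mul_nonneg (h.nn i hi) (abs_nonneg _)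
  -- lower bound for the mean
  have a1 : (m:ℝ)/2 - m * η ≤ ∑ i ∈ S, w i * lk a b x i * ((a i : ℝ) + b i) := by
    have : ∑ i ∈ S, w i * ((a i : ℝ) + b i) - m * η ≤
        ∑ i ∈ S, w i * lk a b x i * ((a i : ℝ) + b i) := by
      rw [hη, Finset.mul_sum, ← Finset.sum_sub_distrib]
      apply Finset.sum_le_sum
      intro i hi
      have c1 : ((a i : ℝ) + b i) ≤ m := by exact_mod_cast hm i hi
      have c2 : (0:ℝ) ≤ (a i : ℝ) + b i := by positivity
      have c3 := neg_abs_le (lk a b x i - 1)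
      have c4 := h.nn i hi
      have c5 : w i * ((a i : ℝ) + b i) - w i * lk a b x i * ((a i : ℝ) + b i) ≤
          w i * (|lk a b x i - 1| * ((a i : ℝ) + b i)) := by
        have : 1 - lk a b x i ≤ |lk a b x i - 1| := by linarith
        have := mul_le_mul_of_nonneg_left (mul_le_mul_of_nonneg_right this c2) c4
        linarith
      have c6 : w i * (|lk a b x i - 1| * ((a i : ℝ) + b i)) ≤ m * (w i * |lk a b x i - 1|) := by
        have := mul_le_mul_of_nonneg_left c1 (mul_nonneg c4 (abs_nonneg (lk a b x i - 1)))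
        linarith
      linarith
    linarith
  have a2 := h.mean1 h1 h2
  have a3 : |x| * ((m:ℝ)/2 - m * η) ≤ ∑ i ∈ S, w i * (|lk a b x i - 1| * |(a i : ℝ) - b i|) := by
    have b1 : x * ∑ i ∈ S, w i * lk a b x i * ((a i : ℝ) + b i) =
        ∑ i ∈ S, w i * ((lk a b x i - 1) * ((a i : ℝ) - b i)) := by
      rw [← a2, ← sub_zero (∑ i ∈ S, w i * lk a b x i * ((a i : ℝ) - b i)), ← h.mean0,
        ← Finset.sum_sub_distrib]
      apply Finset.sum_congr rfl
      intro i _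
      ring
    have b2 : |x * ∑ i ∈ S, w i * lk a b x i * ((a i : ℝ) + b i)| ≤
        ∑ i ∈ S, w i * (|lk a b x i - 1| * |(a i : ℝ) - b i|) := by
      rw [b1]
      refine (Finset.abs_sum_le_sum_abs _ _).trans (le_of_eq ?_)
      apply Finset.sum_congr rfl
      intro i hi
      rw [abs_mul, abs_mul, abs_of_nonneg (h.nn i hi)]
    refine le_trans ?_ b2
    rw [abs_mul]
    exact mul_le_mul_of_nonneg_left (a1.trans (le_abs_self _)) (abs_nonneg _)
  -- upper bound for the right side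
  have a4 : ∑ i ∈ S, w i * (|lk a b x i - 1| * |(a i : ℝ) - b i|) ≤
      50 * s * η + 1 / (50 * s) * ∑ i ∈ S, w i * (|lk a b x i - 1| * |((a i : ℝ) - b i) ^ 2|) := by
    rw [hη, Finset.mul_sum, Finset.mul_sum, ← Finset.sum_add_distrib]
    apply Finset.sum_le_sum
    intro i hi
    have b1 : |(a i : ℝ) - b i| ≤ 50 * s + 1 / (50 * s) * |((a i : ℝ) - b i) ^ 2| := by
      rw [abs_pow]
      set z := |(a i : ℝ) - b i| with hz
      have hz0 : 0 ≤ z := abs_nonneg _
      have c1 : 1 / (50 * s) * z ^ 2 = z ^ 2 / (50 * s) := by ring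
      rw [c1]
      rcases le_total z (50 * s) with h | h
      · have : 0 ≤ z ^ 2 / (50 * s) := by positivity
        linarith
      · have : z ≤ z ^ 2 / (50 * s) := by
          rw [le_div_iff₀ (by positivity)]
          nlinarith
        have : 0 < 50 * s := by positivity
        linarith
    have b2 := mul_le_mul_of_nonneg_left b1 (mul_nonneg (h.nn i hi) (abs_nonneg (lk a b x i - 1)))
    refine le_trans (le_of_eq ?_) (b2.trans (le_of_eq ?_)) <;> ring
  have a5 : ∑ i ∈ S, w i * (|lk a b x i - 1| * |((a i : ℝ) - b i) ^ 2|) ≤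
      13 * (|x| * s) * m := by
    refine (cs h.nn _ _).trans ?_
    have b1 : Real.sqrt (∑ i ∈ S, w i * (lk a b x i - 1) ^ 2) ≤ Real.sqrt 2 * (|x| * s) := by
      have c1 := h.sq_up hm h1.le h2.le
      have c2 : (1 + x ^ 2) ^ m - 1 ≤ 2 * (x ^ 2 * m) := by
        have d1 : 1 + x ^ 2 ≤ Real.exp (x ^ 2) := by
          have := Real.add_one_le_exp (x ^ 2)
          linarith
        have d2 := pow_le_pow_left₀ (by positivity) d1 m
        rw [← Real.exp_nat_mul] at d2
        have d3 := Real.abs_exp_sub_one_le (x := (m:ℝ) * x ^ 2)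
          (by rw [abs_of_nonneg (by positivity)]; linarith)
        rw [abs_of_nonneg (by positivity : (0:ℝ) ≤ m * x ^ 2)] at d3
        have d4 := le_abs_self (Real.exp ((m:ℝ) * x ^ 2) - 1)
        linarith
      have c3 : Real.sqrt 2 * (|x| * s) = Real.sqrt (2 * (x ^ 2 * m)) := by
        rw [Real.sqrt_mul (by norm_num), Real.sqrt_mul (sq_nonneg x), Real.sqrt_sq_eq_abs]
      rw [c3]
      exact Real.sqrt_le_sqrt (c1.trans c2)
    have b2 : Real.sqrt (∑ i ∈ S, w i * (((a i : ℝ) - b i) ^ 2) ^ 2) ≤ Real.sqrt 80 * m := by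
      have c1 := h.m4 hm0 hm
      have c2 : ∑ i ∈ S, w i * (((a i : ℝ) - b i) ^ 2) ^ 2 ≤ 80 * (m:ℝ) ^ 2 := by
        refine le_trans (le_of_eq ?_) c1
        apply Finset.sum_congr rfl
        intro i _
        ring
      have c3 : Real.sqrt 80 * m = Real.sqrt (80 * (m:ℝ) ^ 2) := by
        rw [Real.sqrt_mul (by norm_num), Real.sqrt_sq hm1.le]
      rw [c3]
      exact Real.sqrt_le_sqrt c2
    have b3 : Real.sqrt 2 * Real.sqrt 80 ≤ 13 := by
      rw [← Real.sqrt_mul (by norm_num), Real.sqrt_le_left (by norm_num)]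
      norm_num
    calc _ ≤ (Real.sqrt 2 * (|x| * s)) * (Real.sqrt 80 * m) :=
          mul_le_mul b1 b2 (Real.sqrt_nonneg _) (by positivity)
      _ = (Real.sqrt 2 * Real.sqrt 80) * (|x| * s * m) := by ring
      _ ≤ 13 * (|x| * s * m) := mul_le_mul_of_nonneg_right b3 (by positivity)
      _ = _ := by ring
  have a6 : |x| * ((m:ℝ)/2 - m * η) ≤ 50 * s * η + 13/50 * (|x| * m) := by
    refine a3.trans (a4.trans ?_)
    have b1 : 1 / (50 * s) * (∑ i ∈ S, w i * (|lk a b x i - 1| * |((a i : ℝ) - b i) ^ 2|)) ≤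
        1 / (50 * s) * (13 * (|x| * s) * m) := mul_le_mul_of_nonneg_left a5 (by positivity)
    have b2 : 1 / (50 * s) * (13 * (|x| * s) * m) = 13/50 * (|x| * m) := by
      field_simp
    linarith
  have a7 : |x| * s ≤ 1 := by
    have : (|x| * s) ^ 2 ≤ 1 := by
      rw [mul_pow, sq_abs, hss]; exact hx
    have h3 : 0 ≤ |x| * s := by positivity
    nlinarith
  -- conclusion
  have a8 : 24/100 * (|x| * s ^ 2) ≤ 51 * s * η := by
    rw [← hss] at a6
    have : |x| * (s ^ 2 * η) ≤ s * η := by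
      have := mul_le_mul_of_nonneg_right a7 (mul_nonneg hs0.le hη0)
      nlinarith
    nlinarith
  have a9 : 24/100 * (|x| * s) ≤ 51 * η := by
    have : s * (24/100 * (|x| * s)) ≤ s * (51 * η) := by nlinarith
    exact le_of_mul_le_mul_left this hs0
  linarith [mul_nonneg (abs_nonneg x) hs0.le]

/-- The affinity is small if many coins are tossed. -/
theorem Sys.sing (h : Sys S w a b) {x : ℝ} (h1 : -1 ≤ x) (h2 : x ≤ 1) (m : ℕ) :
    ∑ i ∈ S, w i * Real.sqrt (lk a b x i) ≤ Real.exp (-(x ^ 2 * m / 8)) +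
      Real.sqrt (∑ i ∈ S with a i + b i < m, w i) := by
  classical
  set u := Real.sqrt (1 + x) with hu
  set v := Real.sqrt (1 - x) with hv
  have hu0 : 0 ≤ u := Real.sqrt_nonneg _
  have hv0 : 0 ≤ v := Real.sqrt_nonneg _
  have hu2 : u ^ 2 = 1 + x := Real.sq_sqrt (by linarith)
  have hv2 : v ^ 2 = 1 - x := Real.sq_sqrt (by linarith)
  have huv : 0 < u + v := by
    rcases eq_or_lt_of_le hu0 with h | h
    · have : v ^ 2 = 2 := by rw [← h] at hu2; nlinarith
      have : v ≠ 0 := fun h0 => by rw [h0] at this; norm_num at this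
      have := lt_of_le_of_ne hv0 (Ne.symm this)
      linarith
    · linarith
  set κ := (u + v) / 2 with hκ
  have hκ0 : 0 < κ := by positivity
  set y := (u - v) / (u + v) with hy
  have y1 : -1 ≤ y := by rw [hy, le_div_iff₀ huv]; linarith
  have y2 : y ≤ 1 := by rw [hy, div_le_one huv]; linarith
  have e1 : κ * (1 + y) = u := by rw [hκ, hy]; field_simp; ring
  have e2 : κ * (1 - y) = v := by rw [hκ, hy]; field_simp; ring
  have hκ1 : κ ≤ Real.exp (-(x ^ 2 / 8)) := by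
    have c1 : u * v ≤ 1 - x ^ 2 / 2 := by
      have d1 : (u * v) ^ 2 = 1 - x ^ 2 := by rw [mul_pow, hu2, hv2]; ring
      have d2 : 0 ≤ 1 - x ^ 2 / 2 := by nlinarith
      have d3 : (u * v) ^ 2 ≤ (1 - x ^ 2 / 2) ^ 2 := by rw [d1]; nlinarith [sq_nonneg (x ^ 2)]
      exact le_of_sq_le_sq d3 d2 |> fun h => h
    have c2 : κ ^ 2 ≤ Real.exp (-(x ^ 2 / 8)) ^ 2 := by
      have d1 : κ ^ 2 ≤ 1 - x ^ 2 / 4 := by rw [hκ]; nlinarith
      have d2 := Real.add_one_le_exp (-(x ^ 2 / 4))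
      have d3 : Real.exp (-(x ^ 2 / 8)) ^ 2 = Real.exp (-(x ^ 2 / 4)) := by
        rw [← Real.exp_nat_mul]; congr 1; push_cast; ring
      rw [d3]; linarith
    exact le_of_sq_le_sq c2 (Real.exp_pos _).le |> fun h => h
  have hκ2 : κ ≤ 1 := hκ1.trans (Real.exp_le_one_iff.mpr (by nlinarith [sq_nonneg x]))
  have e3 : ∀ i, Real.sqrt (lk a b x i) = κ ^ (a i + b i) * lk a b y i := by
    intro i
    unfold lk
    have s1 : (1 + x) ^ a i = (u ^ a i) ^ 2 := by rw [← hu2, ← pow_mul, ← pow_mul, mul_comm]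
    have s2 : (1 - x) ^ b i = (v ^ b i) ^ 2 := by rw [← hv2, ← pow_mul, ← pow_mul, mul_comm]
    rw [s1, s2, ← mul_pow, Real.sqrt_sq (by positivity)]
    rw [pow_add, mul_mul_mul_comm, ← mul_pow, ← mul_pow, e1, e2]
  rw [← Finset.sum_filter_add_sum_filter_not S (fun i => a i + b i < m), add_comm]
  apply add_le_add
  · have c1 : ∀ i ∈ S.filter (fun i => ¬ a i + b i < m), w i * Real.sqrt (lk a b x i) ≤
        κ ^ m * (w i * lk a b y i) := by
      intro i hi
      rw [Finset.mem_filter, not_lt] at hi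
      rw [e3]
      have d1 : κ ^ (a i + b i) ≤ κ ^ m := pow_le_pow_of_le_one hκ0.le hκ2 hi.2
      have d2 := mul_le_mul_of_nonneg_right d1
        (mul_nonneg (h.nn i hi.1) (lk_nonneg a b y1 y2 i))
      nlinarith [d2]
    refine (Finset.sum_le_sum c1).trans ?_
    rw [← Finset.mul_sum]
    have c2 : ∑ i ∈ S.filter (fun i => ¬ a i + b i < m), w i * lk a b y i ≤ 1 := by
      rw [← h.one y y1 y2]
      exact Finset.sum_le_sum_of_subset_of_nonneg (Finset.filter_subset _ _)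
        fun i hi _ => mul_nonneg (h.nn i hi) (lk_nonneg a b y1 y2 i)
    have c3 : κ ^ m ≤ Real.exp (-(x ^ 2 * m / 8)) := by
      have d1 := pow_le_pow_left₀ hκ0.le hκ1 m
      rw [← Real.exp_nat_mul] at d1
      refine d1.trans (le_of_eq ?_)
      congr 1
      ring
    calc κ ^ m * _ ≤ κ ^ m * 1 := mul_le_mul_of_nonneg_left c2 (by positivity)
      _ ≤ _ := by rw [mul_one]; exact c3
  · have c1 := cs (S := S.filter (fun i => a i + b i < m)) (w := w)
      (fun i hi => h.nn i (Finset.mem_filter.mp hi).1) (fun _ => 1)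
      (fun i => Real.sqrt (lk a b x i))
    simp only [abs_one, one_mul, one_pow, mul_one] at c1
    have c2 : ∑ i ∈ S.filter (fun i => a i + b i < m), w i * Real.sqrt (lk a b x i) =
        ∑ i ∈ S.filter (fun i => a i + b i < m), w i * |Real.sqrt (lk a b x i)| := by
      apply Finset.sum_congr rfl
      intro i _
      rw [abs_of_nonneg (Real.sqrt_nonneg _)]
    rw [c2]
    refine c1.trans ?_
    have c3 : Real.sqrt (∑ i ∈ S.filter (fun i => a i + b i < m),
        w i * Real.sqrt (lk a b x i) ^ 2) ≤ 1 := by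
      rw [Real.sqrt_le_left (by norm_num), one_pow]
      · rw [← h.one x h1 h2]
        have : ∀ i ∈ S.filter (fun i => a i + b i < m), w i * Real.sqrt (lk a b x i) ^ 2 =
            w i * lk a b x i := by
          intro i _
          rw [Real.sq_sqrt (lk_nonneg a b h1 h2 i)]
        rw [Finset.sum_congr rfl this]
        exact Finset.sum_le_sum_of_subset_of_nonneg (Finset.filter_subset _ _)
          fun i hi _ => mul_nonneg (h.nn i hi) (lk_nonneg a b h1 h2 i)
    calc _ ≤ Real.sqrt (∑ i ∈ S.filter (fun i => a i + b i < m), w i) * 1 :=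
          mul_le_mul_of_nonneg_left c3 (Real.sqrt_nonneg _)
      _ = _ := mul_one _

end Q291.EP
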