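import Pool.Agent.H974R2.Basic
import Pool.Agent.Q291.EP.Ana

/-!
Stopping sets on the cube: change of the parameter, total variation of the stopped configuration.
-/

namespace Q291.EP

open Finset H974

variable {E : Type*} [DecidableEq E]

/-- `X` is a stopping set: it is determined by the configuration on it. -/
structure Stp (S : Finset E) (X : Finset E → Finset E) : Prop where
  sub : ∀ F, F ⊆ S → X F ⊆ S
  st : ∀ F G, F ⊆ S → G ⊆ S → F ∩ X F = G ∩ X F → X G = X F

/-- `g` is a function of the configuration on the stopping set. -/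
def Msr {β : Type*} (S : Finset E) (X : Finset E → Finset E) (g : Finset E → β) : Prop :=
  ∀ F G, F ⊆ S → G ⊆ S → F ∩ X F = G ∩ X F → g G = g F

/-- The weight of a configuration. -/
noncomputable def wt (r : ℝ) (S F : Finset E) : ℝ := r ^ F.card * (1 - r) ^ (S \ F).card

theorem Ex_wt (r : ℝ) (S : Finset E) (f : Finset E → ℝ) :
    Ex (fun _ => r) S f = ∑ F ∈ S.powerset, wt r S F * f F := by
  unfold Ex wt
  simp only [Finset.prod_const]

theorem wt_nonneg {r : ℝ} (h0 : 0 ≤ r) (h1 : r ≤ 1) (S F : Finset E) : 0 ≤ wt r S F := by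
  unfold wt
  apply mul_nonneg <;> apply pow_nonneg <;> linarith

theorem cyl (r : ℝ) {S K A : Finset E} (hK : K ⊆ S) (hA : A ⊆ K) :
    ∑ F ∈ S.powerset with F ∩ K = A, wt r S F = r ^ A.card * (1 - r) ^ (K \ A).card := by
  have h1 : ∑ F ∈ S.powerset with F ∩ K = A, wt r S F =
      Ex (fun _ => r) S (fun F => ind (F ∩ K = A)) := by
    rw [Ex_wt, Finset.sum_filter]
    apply Finset.sum_congr rfl
    intro F _
    by_cases h : F ∩ K = A
    · rw [if_pos h, ind_of h, mul_one]
    · rw [if_neg h, ind_not_of h, mul_zero]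
  rw [h1]
  have h2 : S = K ∪ (S \ K) := by rw [Finset.union_sdiff_of_subset hK]
  conv_lhs => rw [h2]
  rw [Ex_union Finset.disjoint_sdiff]
  have h3 : ∀ B, B ⊆ K → Ex (fun _ => r) (S \ K) (fun C => ind ((B ∪ C) ∩ K = A)) =
      ind (B = A) := by
    intro B hB
    rw [← Ex_const (fun _ => r) (S \ K) (ind (B = A))]
    apply Ex_congr
    intro C hC
    congr 1
    have : (B ∪ C) ∩ K = B := by
      ext x
      simp only [Finset.mem_inter, Finset.mem_union]
      constructor
      · rintro ⟨h | h, h'⟩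
        · exact h
        · exact absurd h' (Finset.mem_sdiff.mp (hC h)).2
      · intro h
        exact ⟨Or.inl h, hB h⟩
    rw [this]
  rw [Ex_congr h3, Ex_wt, Finset.sum_eq_single A]
  · rw [ind_of rfl, mul_one]; rfl
  · intro B _ hB
    rw [ind_not_of hB, mul_zero]
  · intro h
    exact absurd (Finset.mem_powerset.mpr hA) h

/-- Number of open and of closed edges in the stopping set. -/
def na (X : Finset E → Finset E) (F : Finset E) : ℕ := (F ∩ X F).card
def nb (X : Finset E → Finset E) (F : Finset E) : ℕ := (X F \ F).card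

theorem na_add_nb (X : Finset E → Finset E) (F : Finset E) : na X F + nb X F = (X F).card := by
  unfold na nb
  rw [Finset.inter_comm, Finset.card_inter_add_card_sdiff]

theorem Msr.na {S : Finset E} {X : Finset E → Finset E} (h : Stp S X) : Msr S X (na X) := by
  intro F G hF hG hFG
  unfold Q291.EP.na
  rw [h.st F G hF hG hFG, hFG]

theorem sdiff_eq_of {X F G : Finset E} (h : F ∩ X = G ∩ X) : X \ F = X \ G := by
  ext x
  have h1 : x ∈ F ∩ X ↔ x ∈ G ∩ X := by rw [h]
  simp only [Finset.mem_inter] at h1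
  simp only [Finset.mem_sdiff]
  tauto

theorem Msr.nb {S : Finset E} {X : Finset E → Finset E} (h : Stp S X) : Msr S X (nb X) := by
  intro F G hF hG hFG
  unfold Q291.EP.nb
  rw [h.st F G hF hG hFG, sdiff_eq_of hFG]

/-- Change of the parameter. -/
theorem change {S : Finset E} {X : Finset E → Finset E} (hX : Stp S X) {g : Finset E → ℝ}
    (hg : Msr S X g) (x : ℝ) :
    Ex (fun _ => (1 + x) / 2) S g = Ex (fun _ => 1/2) S (fun F => lk (na X) (nb X) x F * g F) := by
  rw [Ex_wt, Ex_wt]
  set κ : Finset E → Finset E × Finset E := fun F => (X F, F ∩ X F) with hκ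
  have hmap : ∀ F ∈ S.powerset, κ F ∈ S.powerset.image κ := fun F hF =>
    Finset.mem_image_of_mem _ hF
  rw [← Finset.sum_fiberwise_of_maps_to hmap, ← Finset.sum_fiberwise_of_maps_to hmap]
  apply Finset.sum_congr rfl
  intro c hc
  obtain ⟨F0, hF0, rfl⟩ := Finset.mem_image.mp hc
  rw [Finset.mem_powerset] at hF0
  have hfib : S.powerset.filter (fun F => κ F = κ F0) =
      S.powerset.filter (fun F => F ∩ X F0 = F0 ∩ X F0) := by
    apply Finset.filter_congr
    intro F hF
    rw [Finset.mem_powerset] at hF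
    rw [hκ]
    simp only [Prod.mk.injEq]
    constructor
    · rintro ⟨h1, h2⟩
      rw [h1] at h2
      exact h2
    · intro h
      have h1 := hX.st F0 F hF0 hF h.symm
      refine ⟨h1, ?_⟩
      rw [h1]
      exact h
  rw [hfib]
  have hval : ∀ F ∈ S.powerset.filter (fun F => F ∩ X F0 = F0 ∩ X F0),
      g F = g F0 ∧ lk (na X) (nb X) x F = lk (na X) (nb X) x F0 := by
    intro F hF
    rw [Finset.mem_filter, Finset.mem_powerset] at hF
    refine ⟨hg F0 F hF0 hF.1 hF.2.symm, ?_⟩
    unfold lk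
    rw [Msr.na hX F0 F hF0 hF.1 hF.2.symm, Msr.nb hX F0 F hF0 hF.1 hF.2.symm]
  have e1 : ∑ F ∈ S.powerset.filter (fun F => F ∩ X F0 = F0 ∩ X F0), wt ((1 + x) / 2) S F * g F =
      (∑ F ∈ S.powerset.filter (fun F => F ∩ X F0 = F0 ∩ X F0), wt ((1 + x) / 2) S F) * g F0 := by
    rw [Finset.sum_mul]
    apply Finset.sum_congr rfl
    intro F hF
    rw [(hval F hF).1]
  have e2 : ∑ F ∈ S.powerset.filter (fun F => F ∩ X F0 = F0 ∩ X F0),
      wt (1/2) S F * (lk (na X) (nb X) x F * g F) =
      (∑ F ∈ S.powerset.filter (fun F => F ∩ X F0 = F0 ∩ X F0), wt (1/2) S F) *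
        (lk (na X) (nb X) x F0 * g F0) := by
    rw [Finset.sum_mul]
    apply Finset.sum_congr rfl
    intro F hF
    rw [(hval F hF).1, (hval F hF).2]
  rw [e1, e2, cyl _ (hX.sub F0 hF0) Finset.inter_subset_right,
    cyl _ (hX.sub F0 hF0) Finset.inter_subset_right]
  have e3 : X F0 \ (F0 ∩ X F0) = X F0 \ F0 := by
    ext y
    simp only [Finset.mem_sdiff, Finset.mem_inter]
    tauto
  rw [e3]
  unfold lk na nb
  have e4 : 1 - (1 + x) / 2 = (1 - x) / 2 := by ring
  rw [e4, show (1 - 1/2 : ℝ) = 1/2 by norm_num, div_pow, div_pow, one_div, inv_pow, inv_pow]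
  ring

/-- The system of a stopping set. -/
theorem sys {S : Finset E} {X : Finset E → Finset E} (hX : Stp S X) :
    Sys S.powerset (wt (1/2) S) (na X) (nb X) where
  nn F _ := wt_nonneg (by norm_num) (by norm_num) S F
  one x _ _ := by
    have h := change hX (g := fun _ => 1) (fun _ _ _ _ _ => rfl) x
    rw [Ex_const, Ex_wt] at h
    simpa only [mul_one] using h.symm

/-- The law at `p = (1 + x)/2` minus the law at `1/2`, on an event. -/
theorem diff_eq {S : Finset E} {X : Finset E → Finset E} (hX : Stp S X) {A : Finset E → Prop}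
    (hA : Msr S X A) (x : ℝ) :
    Pr (fun _ => (1 + x) / 2) S A - Pr (fun _ => 1/2) S A =
      ∑ F ∈ S.powerset, wt (1/2) S F * ((lk (na X) (nb X) x F - 1) * ind (A F)) := by
  unfold Pr
  have hg : Msr S X (fun F => ind (A F)) := by
    intro F G hF hG h
    show ind (A G) = ind (A F)
    rw [hA F G hF hG h]
  rw [change hX hg, Ex_wt, Ex_wt, ← Finset.sum_sub_distrib]
  apply Finset.sum_congr rfl
  intro F _
  ring

/-- Mean size of the stopping set. -/
theorem mean_card (S : Finset E) (X : Finset E → Finset E) :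
    ∑ F ∈ S.powerset, wt (1/2) S F * ((na X F : ℝ) + nb X F) =
      Ex (fun _ => 1/2) S (fun F => ((X F).card : ℝ)) := by
  rw [Ex_wt]
  apply Finset.sum_congr rfl
  intro F _
  rw [← na_add_nb X F]
  push_cast
  ring

/-- Upper bound for the total variation. -/
theorem tv_up {S : Finset E} {X : Finset E → Finset E} (hX : Stp S X) {A : Finset E → Prop}
    (hA : Msr S X A) {x : ℝ} (hx : |x| ≤ 1/2) :
    |Pr (fun _ => (1 + x) / 2) S A - Pr (fun _ => 1/2) S A| ≤
      2 * |x| * Real.sqrt (Ex (fun _ => 1/2) S (fun F => ((X F).card : ℝ))) := by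
  rw [diff_eq hX hA, ← mean_card]
  refine le_trans ?_ ((sys hX).tv_up hx)
  refine (Finset.abs_sum_le_sum_abs _ _).trans ?_
  apply Finset.sum_le_sum
  intro F hF
  have h0 := (sys hX).nn F hF
  rw [abs_mul, abs_of_nonneg h0, abs_mul]
  apply mul_le_mul_of_nonneg_left _ h0
  have h1 : |ind (A F)| ≤ 1 := by
    rw [abs_of_nonneg (ind_nonneg _)]
    exact ind_le_one _
  calc _ ≤ |lk (na X) (nb X) x F - 1| * 1 := mul_le_mul_of_nonneg_left h1 (abs_nonneg _)
    _ = _ := mul_one _

/-- The event that the likelihood ratio is larger than one. -/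
def Lg (X : Finset E → Finset E) (x : ℝ) (F : Finset E) : Prop := 1 < lk (na X) (nb X) x F

theorem Lg_msr {S : Finset E} {X : Finset E → Finset E} (hX : Stp S X) (x : ℝ) :
    Msr S X (Lg X x) := by
  intro F G hF hG h
  unfold Lg lk
  rw [Msr.na hX F G hF hG h, Msr.nb hX F G hF hG h]

/-- Lower bound for the total variation, for a stopping set with at most `m` elements. -/
theorem tv_low {S : Finset E} {X : Finset E → Finset E} (hX : Stp S X) {m : ℕ} (hm0 : 1 ≤ m)
    (hm : ∀ F, F ⊆ S → (X F).card ≤ m)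
    (hN : (m:ℝ) / 2 ≤ Ex (fun _ => 1/2) S (fun F => ((X F).card : ℝ)))
    {x : ℝ} (h1 : -1 < x) (h2 : x < 1) (hx : x ^ 2 * m ≤ 1) :
    |x| * Real.sqrt m / 600 ≤
      Pr (fun _ => (1 + x) / 2) S (Lg X x) - Pr (fun _ => 1/2) S (Lg X x) := by
  have h := sys hX
  have h3 := h.tv_low hm0 (fun F hF => by
    rw [na_add_nb]
    exact hm F (Finset.mem_powerset.mp hF)) (by rw [mean_card]; exact hN) h1 h2 hx
  rw [diff_eq hX (Lg_msr hX x)]
  have h4 : ∑ F ∈ S.powerset, wt (1/2) S F * (lk (na X) (nb X) x F - 1) = 0 := by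
    have e1 : ∑ F ∈ S.powerset, wt (1/2) S F * (lk (na X) (nb X) x F - 1) =
        ∑ F ∈ S.powerset, wt (1/2) S F * lk (na X) (nb X) x F - ∑ F ∈ S.powerset, wt (1/2) S F := by
      rw [← Finset.sum_sub_distrib]
      apply Finset.sum_congr rfl
      intro F _
      ring
    rw [e1, h.one x h1.le h2.le, h.sum_w, sub_self]
  have h5 : ∑ F ∈ S.powerset, wt (1/2) S F * |lk (na X) (nb X) x F - 1| =
      2 * ∑ F ∈ S.powerset, wt (1/2) S F * ((lk (na X) (nb X) x F - 1) * ind (Lg X x F)) -
        ∑ F ∈ S.powerset, wt (1/2) S F * (lk (na X) (nb X) x F - 1) := by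
    rw [Finset.mul_sum, ← Finset.sum_sub_distrib]
    apply Finset.sum_congr rfl
    intro F _
    by_cases hF : Lg X x F
    · rw [ind_of hF]
      unfold Lg at hF
      rw [abs_of_pos (by linarith)]
      ring
    · rw [ind_not_of hF]
      unfold Lg at hF
      rw [abs_of_nonpos (by linarith)]
      ring
  rw [h4, sub_zero] at h5
  linarith

/-- Asymptotic singularity. -/
theorem sing {S : Finset E} {X : Finset E → Finset E} (hX : Stp S X) (m : ℕ)
    {x : ℝ} (h1 : -1 ≤ x) (h2 : x ≤ 1) :
    Pr (fun _ => 1/2) S (Lg X x) ≤ Real.exp (-(x ^ 2 * m / 8)) +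
        Real.sqrt (Pr (fun _ => 1/2) S (fun F => (X F).card < m)) ∧
      Pr (fun _ => (1 + x) / 2) S (fun F => ¬ Lg X x F) ≤ Real.exp (-(x ^ 2 * m / 8)) +
        Real.sqrt (Pr (fun _ => 1/2) S (fun F => (X F).card < m)) := by
  classical
  have h := sys hX
  have h3 := h.sing h1 h2 m
  have h4 : ∑ F ∈ S.powerset with na X F + nb X F < m, wt (1/2) S F =
      Pr (fun _ => 1/2) S (fun F => (X F).card < m) := by
    unfold Pr
    rw [Ex_wt, Finset.sum_filter]
    apply Finset.sum_congr rfl
    intro F _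
    rw [na_add_nb]
    by_cases hF : (X F).card < m
    · rw [if_pos hF, ind_of hF, mul_one]
    · rw [if_neg hF, ind_not_of hF, mul_zero]
  rw [h4] at h3
  constructor
  · refine le_trans ?_ h3
    unfold Pr
    rw [Ex_wt]
    apply Finset.sum_le_sum
    intro F hF
    apply mul_le_mul_of_nonneg_left _ (h.nn F hF)
    by_cases hL : Lg X x F
    · rw [ind_of hL]
      unfold Lg at hL
      rw [Real.one_le_sqrt]
      exact hL.le
    · rw [ind_not_of hL]
      exact Real.sqrt_nonneg _
  · refine le_trans ?_ h3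
    have hM : Msr S X (fun F => ¬ Lg X x F) := by
      intro F G hF hG h
      show (¬ Lg X x G) = (¬ Lg X x F)
      rw [Lg_msr hX x F G hF hG h]
    have hg : Msr S X (fun F => ind (¬ Lg X x F)) := by
      intro F G hF hG h
      show ind (¬ Lg X x G) = ind (¬ Lg X x F)
      rw [Lg_msr hX x F G hF hG h]
    unfold Pr
    rw [change hX hg, Ex_wt]
    apply Finset.sum_le_sum
    intro F hF
    apply mul_le_mul_of_nonneg_left _ (h.nn F hF)
    have h0 := lk_nonneg (na X) (nb X) h1 h2 F
    by_cases hL : Lg X x F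
    · rw [ind_not_of (not_not_intro hL), mul_zero]
      exact Real.sqrt_nonneg _
    · rw [ind_of hL, mul_one]
      unfold Lg at hL
      apply Real.le_sqrt_of_sq_le
      nlinarith

end Q291.EP
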