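import Pool.Agent.H984R4.NP.Walk
import Pool.Agent.H984R4.NP.Clu
import Pool.Agent.Q291.EP.Cyl

/-!
The edges examined by the exploration path form a stopping set; so do the first `m` of them.
-/

namespace Q291.EP

open H974 Finset H342P H984P H984N

/-- The random edges. -/
noncomputable def rnd (D : Dm) : Finset Edg := by
  classical exact D.edges.filter (fun e => e ∉ D.wir)

theorem mem_rnd {D : Dm} {e : Edg} : e ∈ rnd D ↔ e ∈ D.edges ∧ e ∉ D.wir := by
  classical
  unfold rnd
  rw [Finset.mem_filter]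

/-- The random edges examined in the first `k` steps. -/
noncomputable def Yk (D : Dm) (F : Finset Edg) (k : ℕ) : Finset Edg :=
  Exm (D.cfg F) D.start k ∩ rnd D

theorem mem_Yk {D : Dm} {F : Finset Edg} {k : ℕ} {e : Edg} :
    e ∈ Yk D F k ↔ (∃ s < k, ae (D.walk F s) = e) ∧ e ∈ D.edges ∧ e ∉ D.wir := by
  unfold Yk
  rw [Finset.mem_inter, mem_Exm, mem_rnd]
  rfl

/-- The time at which the path ends or has examined `m` random edges. -/
noncomputable def tm (D : Dm) (m : ℕ) (F : Finset Edg) : ℕ :=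
  sInf {k | D.walk F k = Dm.stop ∨ m ≤ (Yk D F k).card}

/-- The first `m` random edges examined by the path. -/
noncomputable def Xm (D : Dm) (m : ℕ) (F : Finset Edg) : Finset Edg := Yk D F (tm D m F)

/-- The path, stopped at its end. -/
noncomputable def path (D : Dm) (F : Finset Edg) (k : ℕ) : St := D.walk F (min k (D.len F))

theorem agree {D : Dm} {F G : Finset Edg} (hF : F ⊆ D.edges) (hG : G ⊆ D.edges) {T : ℕ}
    (h : F ∩ Yk D F T = G ∩ Yk D F T) : ∀ k ≤ T, D.walk G k = D.walk F k := by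
  intro k
  induction k with
  | zero => intro _; rw [walk_zero, walk_zero]
  | succ k ih =>
    intro hk
    have h1 := ih (by omega)
    rw [walk_succ, walk_succ, h1]
    have key : ae (D.walk F k) ∈ D.cfg G ↔ ae (D.walk F k) ∈ D.cfg F := by
      set e := ae (D.walk F k) with he
      unfold Dm.cfg
      simp only [Set.mem_union, Finset.mem_coe]
      by_cases hw : e ∈ D.wir
      · simp [hw]
      · by_cases hE : e ∈ D.edges
        · have h2 : e ∈ Yk D F T := mem_Yk.mpr ⟨⟨k, by omega, rfl⟩, hE, hw⟩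
          have h3 : e ∈ F ∩ Yk D F T ↔ e ∈ G ∩ Yk D F T := by rw [h]
          simp only [Finset.mem_inter] at h3
          tauto
        · have a1 : e ∉ F := fun h => hE (hF h)
          have a2 : e ∉ G := fun h => hE (hG h)
          tauto
    by_cases hc : ae (D.walk F k) ∈ D.cfg F
    · rw [nxt_open hc, nxt_open (key.mpr hc)]
    · rw [nxt_closed hc, nxt_closed (fun h => hc (key.mp h))]

theorem Yk_congr {D : Dm} {F G : Finset Edg} {T : ℕ}
    (h : ∀ k ≤ T, D.walk G k = D.walk F k) : ∀ k ≤ T, Yk D G k = Yk D F k := by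
  intro k hk
  ext e
  rw [mem_Yk, mem_Yk]
  constructor
  · rintro ⟨⟨s, hs, h1⟩, h2⟩
    rw [h s (by omega)] at h1
    exact ⟨⟨s, hs, h1⟩, h2⟩
  · rintro ⟨⟨s, hs, h1⟩, h2⟩
    rw [← h s (by omega)] at h1
    exact ⟨⟨s, hs, h1⟩, h2⟩

theorem tm_spec {D : Dm} (hD : D.Ok) (m : ℕ) {F : Finset Edg} (hF : F ⊆ D.edges) :
    D.walk F (tm D m F) = Dm.stop ∨ m ≤ (Yk D F (tm D m F)).card :=
  Nat.sInf_mem (s := {k | D.walk F k = Dm.stop ∨ m ≤ (Yk D F k).card})
    ⟨D.len F, Or.inl (walk_len hD hF)⟩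

theorem tm_min {D : Dm} {m : ℕ} {F : Finset Edg} {k : ℕ} (hk : k < tm D m F) :
    ¬ (D.walk F k = Dm.stop ∨ m ≤ (Yk D F k).card) := by
  intro h
  exact absurd (Nat.sInf_le (s := {k | D.walk F k = Dm.stop ∨ m ≤ (Yk D F k).card}) h)
    (not_le.mpr hk)

theorem tm_le_len {D : Dm} (hD : D.Ok) (m : ℕ) {F : Finset Edg} (hF : F ⊆ D.edges) :
    tm D m F ≤ D.len F := Nat.sInf_le (Or.inl (walk_len hD hF))

theorem tm_congr {D : Dm} (hD : D.Ok) (m : ℕ) {F G : Finset Edg} (hF : F ⊆ D.edges)
    (h : ∀ k ≤ tm D m F, D.walk G k = D.walk F k) : tm D m G = tm D m F := by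
  have hY := Yk_congr h
  apply le_antisymm
  · apply Nat.sInf_le
    show D.walk G (tm D m F) = Dm.stop ∨ m ≤ (Yk D G (tm D m F)).card
    rw [h _ le_rfl, hY _ le_rfl]
    exact tm_spec hD m hF
  · by_contra hlt
    push Not at hlt
    have h1 := tm_min hlt
    have hne : ({k | D.walk G k = Dm.stop ∨ m ≤ (Yk D G k).card} : Set ℕ).Nonempty := by
      refine ⟨tm D m F, ?_⟩
      show D.walk G (tm D m F) = Dm.stop ∨ m ≤ (Yk D G (tm D m F)).card
      rw [h _ le_rfl, hY _ le_rfl]
      exact tm_spec hD m hF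
    have h2 := Nat.sInf_mem hne
    change D.walk G (tm D m G) = Dm.stop ∨ m ≤ (Yk D G (tm D m G)).card at h2
    rw [h _ hlt.le, hY _ hlt.le] at h2
    exact h1 h2

/-- The first `m` examined edges form a stopping set. -/
theorem Xm_stp {D : Dm} (hD : D.Ok) (m : ℕ) : Stp D.edges (Xm D m) where
  sub F _ := fun e he => (mem_Yk.mp he).2.1
  st F G hF hG h := by
    have h1 := agree hF hG h
    have h2 := tm_congr hD m hF h1
    unfold Xm
    rw [h2]
    exact Yk_congr h1 _ le_rfl

theorem Yk_zero (D : Dm) (F : Finset Edg) : Yk D F 0 = ∅ := by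
  ext e
  rw [mem_Yk]
  simp

theorem Yk_succ_card (D : Dm) (F : Finset Edg) (k : ℕ) :
    (Yk D F (k + 1)).card ≤ (Yk D F k).card + 1 := by
  have h : Yk D F (k + 1) ⊆ insert (ae (D.walk F k)) (Yk D F k) := by
    intro e he
    rw [mem_Yk] at he
    obtain ⟨⟨s, hs, h1⟩, h2⟩ := he
    rw [Finset.mem_insert]
    rcases Nat.lt_succ_iff_lt_or_eq.mp hs with h | h
    · right
      exact mem_Yk.mpr ⟨⟨s, h, h1⟩, h2⟩
    · left
      rw [← h1, h]
  exact (Finset.card_le_card h).trans (Finset.card_insert_le _ _)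

theorem Xm_card {D : Dm} (m : ℕ) (F : Finset Edg) : (Xm D m F).card ≤ m := by
  unfold Xm
  rcases Nat.eq_zero_or_pos (tm D m F) with h | h
  · rw [h, Yk_zero]; simp
  · obtain ⟨k, hk⟩ : ∃ k, tm D m F = k + 1 := ⟨tm D m F - 1, by omega⟩
    have h1 := tm_min (D := D) (m := m) (F := F) (k := k) (by omega)
    push Not at h1
    rw [hk]
    have := Yk_succ_card D F k
    omega

theorem Yk_mono (D : Dm) (F : Finset Edg) {k l : ℕ} (h : k ≤ l) : Yk D F k ⊆ Yk D F l := by
  intro e he
  rw [mem_Yk] at he ⊢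
  obtain ⟨⟨s, hs, h1⟩, h2⟩ := he
  exact ⟨⟨s, by omega, h1⟩, h2⟩

/-- If fewer than `m` edges are in the stopping set, then the path examines fewer than `m`. -/
theorem Xm_lt {D : Dm} (hD : D.Ok) {m : ℕ} {F : Finset Edg} (hF : F ⊆ D.edges)
    (h : (Xm D m F).card < m) : (Yk D F (D.len F)).card < m := by
  rcases tm_spec hD m hF with h1 | h1
  · have h2 : D.len F ≤ tm D m F := Nat.sInf_le h1
    have h3 : tm D m F = D.len F := le_antisymm (tm_le_len hD m hF) h2
    rw [← h3]
    exact h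
  · exact absurd h1 (not_le.mpr h)

/-- With a large `m` the stopping set consists of all the examined edges. -/
theorem Xm_full {D : Dm} (hD : D.Ok) {m : ℕ} (hm : D.edges.card < m) {F : Finset Edg}
    (hF : F ⊆ D.edges) : tm D m F = D.len F := by
  rcases tm_spec hD m hF with h1 | h1
  · exact le_antisymm (tm_le_len hD m hF) (Nat.sInf_le h1)
  · exfalso
    have h2 : Yk D F (tm D m F) ⊆ D.edges := fun e he => (mem_Yk.mp he).2.1
    have := Finset.card_le_card h2
    omega

/-- The path is a function of the examined edges. -/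
theorem path_msr {D : Dm} (hD : D.Ok) {m : ℕ} (hm : D.edges.card < m) :
    Msr D.edges (Xm D m) (path D) := by
  intro F G hF hG h
  have h1 := agree hF hG h
  rw [Xm_full hD hm hF] at h1
  have h2 : D.len G = D.len F := by
    have := tm_congr hD m hF (by rw [Xm_full hD hm hF]; exact h1)
    rwa [Xm_full hD hm hF, Xm_full hD hm hG] at this
  funext k
  unfold path
  rw [h2]
  exact h1 _ (min_le_right _ _)

theorem path_len {D : Dm} (hD : D.Ok) {F G : Finset Edg} (hF : F ⊆ D.edges) (hG : G ⊆ D.edges)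
    (h : path D F = path D G) : D.len F = D.len G := by
  have key : ∀ {F G : Finset Edg}, F ⊆ D.edges → G ⊆ D.edges → path D F = path D G →
      D.len G ≤ D.len F := by
    intro F G hF hG h
    by_contra hlt
    push Not at hlt
    have h1 := congrFun h (D.len F)
    unfold path at h1
    rw [min_self, min_eq_left hlt.le, walk_len hD hF] at h1
    exact absurd (Nat.sInf_le (s := {k | D.walk G k = Dm.stop}) h1.symm) (not_le.mpr hlt)
  exact le_antisymm (key hG hF h.symm) (key hF hG h)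

theorem mv_ne_rt (σ : St) : mv σ ≠ rt σ := by
  obtain ⟨⟨x, y⟩, q⟩ := σ
  cases q <;> simp

/-- The examined edges and their states are functions of the path. -/
theorem data_of_path {D : Dm} (hD : D.Ok) (m : ℕ) {F G : Finset Edg} (hF : F ⊆ D.edges)
    (hG : G ⊆ D.edges) (h : path D F = path D G) :
    Xm D m F = Xm D m G ∧ F ∩ Xm D m F = G ∩ Xm D m G := by
  have hl := path_len hD hF hG h
  have hw : ∀ k ≤ D.len F, D.walk G k = D.walk F k := by
    intro k hk
    have h1 := congrFun h k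
    unfold path at h1
    rw [min_eq_left hk, min_eq_left (hl ▸ hk)] at h1
    exact h1.symm
  have h0 : tm D m F ≤ D.len F := tm_le_len hD m hF
  have h1 : ∀ k ≤ tm D m F, D.walk G k = D.walk F k := fun k hk => hw k (hk.trans h0)
  have h2 := tm_congr hD m hF h1
  have h3 : Xm D m F = Xm D m G := by
    unfold Xm
    rw [h2]
    exact (Yk_congr h1 _ le_rfl).symm
  refine ⟨h3, ?_⟩
  rw [← h3]
  ext e
  simp only [Finset.mem_inter]
  have key : e ∈ Xm D m F → (e ∈ F ↔ e ∈ G) := by
    intro he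
    obtain ⟨⟨s, hs, h4⟩, h5, h6⟩ := mem_Yk.mp he
    have h7 : D.walk G (s + 1) = D.walk F (s + 1) := h1 _ (by omega)
    rw [walk_succ, walk_succ, h1 s (by omega)] at h7
    have h8 : ae (D.walk F s) ∈ D.cfg G ↔ ae (D.walk F s) ∈ D.cfg F := by
      by_cases c1 : ae (D.walk F s) ∈ D.cfg F
      · refine iff_of_true ?_ c1
        by_contra c2
        rw [nxt_open c1, nxt_closed c2] at h7
        exact mv_ne_rt _ h7.symm
      · refine iff_of_false ?_ c1
        intro c2
        rw [nxt_closed c1, nxt_open c2] at h7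
        exact mv_ne_rt _ h7
    rw [h4] at h8
    unfold Dm.cfg at h8
    simp only [Set.mem_union, Finset.mem_coe, h6, or_false] at h8
    exact h8.symm
  exact ⟨fun h => ⟨(key h.2).mp h.1, h.2⟩, fun h => ⟨(key h.2).mpr h.1, h.2⟩⟩

/-- Events of the stopped configuration are events of the path. -/
theorem ev_of_path {D : Dm} (hD : D.Ok) (m : ℕ) {A : Finset Edg → Prop}
    (hA : Msr D.edges (Xm D m) A) : ∃ B : Set (ℕ → St), ∀ F, F ⊆ D.edges →
      (path D F ∈ B ↔ A F) := by
  refine ⟨{γ | ∃ F, F ⊆ D.edges ∧ A F ∧ path D F = γ}, fun F hF => ⟨?_, fun h => ⟨F, hF, h, rfl⟩⟩⟩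
  rintro ⟨G, hG, h1, h2⟩
  obtain ⟨h3, h4⟩ := data_of_path hD m hG hF h2
  have h5 := hA G F hG hF (by rw [h4, h3])
  rw [h5]
  exact h1

/-! ### Counting -/

/-- The two states which examine an edge. -/
def s1 (e : Edg) : St := if e.2.2 then ((e.1, e.2.1), .ne) else ((e.1, e.2.1), .nw)
def s2 (e : Edg) : St := if e.2.2 then ((e.1 + 1, e.2.1), .sw) else ((e.1, e.2.1 + 1), .se)

theorem ae_cases (σ : St) : σ = s1 (ae σ) ∨ σ = s2 (ae σ) := by
  obtain ⟨⟨x, y⟩, q⟩ := σ
  cases q <;> simp [s1, s2]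

/-- The wired edges and the outer faces, as finite sets. -/
noncomputable def wirF (D : Dm) : Finset Edg :=
  ((Finset.Ico D.l D.t).image (fun x => ((x, D.h, true) : Edg)) ∪
    (Finset.Ico 0 D.h).image (fun y => ((D.l, y, false) : Edg))) ∪
    (Finset.Ico D.l 0).image (fun x => ((x, 0, true) : Edg))

noncomputable def outF (D : Dm) : Finset Vtx :=
  ((Finset.Icc 0 D.r).image (fun x => ((x, -1) : Vtx)) ∪
    (Finset.Icc (-1) D.h).image (fun y => ((D.r, y) : Vtx))) ∪
    (Finset.Icc D.t D.r).image (fun x => ((x, D.h) : Vtx))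

theorem mem_wirF {D : Dm} {e : Edg} (h : e ∈ D.wir) : e ∈ wirF D := by
  obtain ⟨x, y, b⟩ := e
  unfold wirF
  simp only [Finset.mem_union, Finset.mem_image, Finset.mem_Ico, Prod.mk.injEq]
  rcases h with ⟨h1, h2, h3, h4⟩ | ⟨h1, h2, h3, h4⟩ | ⟨h1, h2, h3, h4⟩
  · simp only at h1 h2 h3 h4
    exact Or.inl (Or.inl ⟨x, ⟨h3, h4⟩, rfl, h2.symm, h1.symm⟩)
  · simp only at h1 h2 h3 h4
    exact Or.inl (Or.inr ⟨y, ⟨h3, h4⟩, h2.symm, rfl, h1.symm⟩)
  · simp only at h1 h2 h3 h4
    exact Or.inr ⟨x, ⟨h3, h4⟩, rfl, h2.symm, h1.symm⟩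

theorem mem_outF {D : Dm} {f : Vtx} (h : f ∈ D.outer) : f ∈ outF D := by
  obtain ⟨x, y⟩ := f
  unfold outF
  simp only [Finset.mem_union, Finset.mem_image, Finset.mem_Icc, Prod.mk.injEq]
  rcases h with ⟨h1, h2, h3⟩ | ⟨h1, h2, h3⟩ | ⟨h1, h2, h3⟩
  · simp only at h1 h2 h3
    exact Or.inl (Or.inl ⟨x, ⟨h2, h3⟩, rfl, h1.symm⟩)
  · simp only at h1 h2 h3
    exact Or.inl (Or.inr ⟨y, ⟨h2, h3⟩, h1.symm, rfl⟩)
  · simp only at h1 h2 h3
    exact Or.inr ⟨x, ⟨h2, h3⟩, rfl, h1.symm⟩

theorem card_wirF {D : Dm} {n : ℤ} (h1 : D.r - D.l ≤ n) (h2 : D.h ≤ n) (hD : D.Ok) :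
    ((wirF D).card : ℤ) ≤ 3 * n := by
  have a1 := hD.l_neg
  have a2 := hD.r_pos
  have a3 := hD.h_pos
  have a4 := hD.l_le
  have a5 := hD.le_r
  have b1 := Finset.card_image_le (s := Finset.Ico D.l D.t) (f := fun x => ((x, D.h, true) : Edg))
  have b2 := Finset.card_image_le (s := Finset.Ico 0 D.h) (f := fun y => ((D.l, y, false) : Edg))
  have b3 := Finset.card_image_le (s := Finset.Ico D.l 0) (f := fun x => ((x, 0, true) : Edg))
  have b4 := Finset.card_union_le ((Finset.Ico D.l D.t).image (fun x => ((x, D.h, true) : Edg)) ∪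
    (Finset.Ico 0 D.h).image (fun y => ((D.l, y, false) : Edg)))
    ((Finset.Ico D.l 0).image (fun x => ((x, 0, true) : Edg)))
  have b5 := Finset.card_union_le ((Finset.Ico D.l D.t).image (fun x => ((x, D.h, true) : Edg)))
    ((Finset.Ico 0 D.h).image (fun y => ((D.l, y, false) : Edg)))
  rw [Int.card_Ico] at b1 b2 b3
  unfold wirF
  omega

theorem card_outF {D : Dm} {n : ℤ} (h1 : D.r - D.l ≤ n) (h2 : D.h ≤ n) (hD : D.Ok) :
    ((outF D).card : ℤ) ≤ 3 * n + 4 := by
  have a1 := hD.l_neg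
  have a2 := hD.r_pos
  have a3 := hD.h_pos
  have a4 := hD.l_le
  have a5 := hD.le_r
  have b1 := Finset.card_image_le (s := Finset.Icc 0 D.r) (f := fun x => ((x, -1) : Vtx))
  have b2 := Finset.card_image_le (s := Finset.Icc (-1) D.h) (f := fun y => ((D.r, y) : Vtx))
  have b3 := Finset.card_image_le (s := Finset.Icc D.t D.r) (f := fun x => ((x, D.h) : Vtx))
  have b4 := Finset.card_union_le ((Finset.Icc 0 D.r).image (fun x => ((x, -1) : Vtx)) ∪
    (Finset.Icc (-1) D.h).image (fun y => ((D.r, y) : Vtx)))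
    ((Finset.Icc D.t D.r).image (fun x => ((x, D.h) : Vtx)))
  have b5 := Finset.card_union_le ((Finset.Icc 0 D.r).image (fun x => ((x, -1) : Vtx)))
    ((Finset.Icc (-1) D.h).image (fun y => ((D.r, y) : Vtx)))
  rw [Int.card_Icc] at b1 b2 b3
  unfold outF
  omega

/-- The states with a given face. -/
noncomputable def fst4 (T : Finset Vtx) : Finset St :=
  (T ×ˢ (Finset.univ : Finset Q4)).image (fun p => match p.2 with
    | .ne => ((p.1.1, p.1.2), .ne)
    | .nw => ((p.1.1 + 1, p.1.2), .nw)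
    | .sw => ((p.1.1 + 1, p.1.2 + 1), .sw)
    | .se => ((p.1.1, p.1.2 + 1), .se))

theorem mem_fst4 {T : Finset Vtx} {σ : St} (h : face σ ∈ T) : σ ∈ fst4 T := by
  unfold fst4
  rw [Finset.mem_image]
  obtain ⟨⟨x, y⟩, q⟩ := σ
  refine ⟨(face ((x, y), q), q), Finset.mem_product.mpr ⟨h, Finset.mem_univ _⟩, ?_⟩
  cases q <;> simp

theorem card_fst4 (T : Finset Vtx) : (fst4 T).card ≤ 4 * T.card := by
  unfold fst4
  refine Finset.card_image_le.trans ?_
  rw [Finset.card_product]
  have : (Finset.univ : Finset Q4).card = 4 := by decide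
  rw [this, mul_comm]

/-- The length of the path is at most twice the number of examined random edges, up to the
perimeter. -/
theorem len_le {D : Dm} (hD : D.Ok) {n : ℤ} (h1 : D.r - D.l ≤ n) (h2 : D.h ≤ n)
    {F : Finset Edg} (hF : F ⊆ D.edges) :
    (D.len F : ℤ) ≤ 2 * (Yk D F (D.len F)).card + 18 * n + 16 := by
  classical
  set Y := Yk D F (D.len F) with hY
  have hinj : Set.InjOn (fun k => D.walk F k) (↑(Finset.range (D.len F)) : Set ℕ) := by
    intro i hi j hj hij
    rw [Finset.mem_coe, Finset.mem_range] at hi hj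
    rcases lt_trichotomy i j with h | h | h
    · exact absurd hij (walk_inj hD hF h hj.le)
    · exact h
    · exact absurd hij.symm (walk_inj hD hF h hi.le)
  have hsub : (Finset.range (D.len F)).image (fun k => D.walk F k) ⊆
      ((Y.image s1 ∪ Y.image s2) ∪ ((wirF D).image s1 ∪ (wirF D).image s2)) ∪ fst4 (outF D) := by
    intro σ hσ
    rw [Finset.mem_image] at hσ
    obtain ⟨k, hk, rfl⟩ := hσ
    rw [Finset.mem_range] at hk
    simp only [Finset.mem_union]
    by_cases hw : ae (D.walk F k) ∈ D.wir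
    · left; right
      rcases ae_cases (D.walk F k) with h | h
      · left; exact Finset.mem_image.mpr ⟨_, mem_wirF hw, h.symm⟩
      · right; exact Finset.mem_image.mpr ⟨_, mem_wirF hw, h.symm⟩
    · by_cases hE : ae (D.walk F k) ∈ D.edges
      · left; left
        have : ae (D.walk F k) ∈ Y := mem_Yk.mpr ⟨⟨k, hk, rfl⟩, hE, hw⟩
        rcases ae_cases (D.walk F k) with h | h
        · left; exact Finset.mem_image.mpr ⟨_, this, h.symm⟩
        · right; exact Finset.mem_image.mpr ⟨_, this, h.symm⟩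
      · right
        have hc : ae (D.walk F k) ∉ D.cfg F := by
          unfold Dm.cfg
          rintro (h | h)
          · exact hE (hF (Finset.mem_coe.mp h))
          · exact hw h
        rcases walk_closed hD hF hk hc with h | h
        · exact absurd h hE
        · exact mem_fst4 (mem_outF h)
  have c1 := Finset.card_le_card hsub
  rw [Finset.card_image_of_injOn hinj, Finset.card_range] at c1
  have c2 := Finset.card_union_le ((Y.image s1 ∪ Y.image s2) ∪
    ((wirF D).image s1 ∪ (wirF D).image s2)) (fst4 (outF D))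
  have c3 := Finset.card_union_le (Y.image s1 ∪ Y.image s2) ((wirF D).image s1 ∪ (wirF D).image s2)
  have c4 := Finset.card_union_le (Y.image s1) (Y.image s2)
  have c5 := Finset.card_union_le ((wirF D).image s1) ((wirF D).image s2)
  have c6 := Finset.card_image_le (s := Y) (f := s1)
  have c7 := Finset.card_image_le (s := Y) (f := s2)
  have c8 := Finset.card_image_le (s := wirF D) (f := s1)
  have c9 := Finset.card_image_le (s := wirF D) (f := s2)
  have c10 := card_fst4 (outF D)
  have c11 := card_wirF h1 h2 hD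
  have c12 := card_outF h1 h2 hD
  omega

theorem card_Yk_le (D : Dm) (F : Finset Edg) (k : ℕ) : (Yk D F k).card ≤ k := by
  induction k with
  | zero => rw [Yk_zero]; simp
  | succ k ih => exact (Yk_succ_card D F k).trans (by omega)

end Q291.EP
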