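import Pool.Agent.H984R4.NP.Final2
import Pool.Agent.Q291.EP.Wk

/-!
The total variation window of the exploration path.
-/

namespace Q291.EP

open H974 Finset H342P H984P H984N

/-- Probability at parameter `p` and mesh `δ`. -/
noncomputable def prp (R : Rect) (p δ : ℝ) (A : Finset Edg → Prop) : ℝ :=
  Pr (fun _ => p) (R.dm δ).edges A

theorem prp_half (R : Rect) (δ : ℝ) (A : Finset Edg → Prop) : prp R (1/2) δ A = R.prob δ A := rfl

theorem okp {p : ℝ} (h0 : 0 ≤ p) (h1 : p ≤ 1) : Ok (fun _ : Edg => p) := fun _ => ⟨h0, h1⟩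

theorem dpow {δ : ℝ} (hδ : 0 < δ) (s : ℝ) : 0 < δ ^ s := Real.rpow_pos_of_pos hδ s

/-- Many edges are examined. -/
theorem many (R : Rect) (ht : ∀ ε : ℝ, 0 < ε → ∃ Λ δ0 : ℝ, 0 < Λ ∧ 0 < δ0 ∧
      ∀ δ : ℝ, 0 < δ → δ ≤ δ0 → 1 - ε ≤ R.prob δ (fun F => 1 / Λ ≤ R.time δ F)) {ε : ℝ}
    (hε : 0 < ε) : ∃ c1 δ0 : ℝ, 0 < c1 ∧ 0 < δ0 ∧ ∀ δ : ℝ, 0 < δ → δ ≤ δ0 →
      (R.dm δ).Ok ∧ R.prob δ (fun F => (((Yk (R.dm δ) F ((R.dm δ).len F)).card : ℕ) : ℝ) <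
        c1 * δ ^ (-(7/4) : ℝ)) ≤ ε := by
  obtain ⟨κ, S, δ1, hκ, hS, hδ1, hδ1', hsh⟩ := R.shape
  obtain ⟨Λ, δ2, hΛ, hδ2, h⟩ := ht ε hε
  obtain ⟨δ3, hδ3⟩ : ∃ δ3 : ℝ, δ3 = (1 / (2 * Λ * (18 * S + 16))) ^ (4/3 : ℝ) := ⟨_, rfl⟩
  have hδ30 : 0 < δ3 := by rw [hδ3]; positivity
  refine ⟨1 / (4 * Λ), min δ1 (min δ2 δ3), by positivity, lt_min hδ1 (lt_min hδ2 hδ30),
    fun δ hδ hδ' => ?_⟩
  have hd1 : δ ≤ δ1 := hδ'.trans (min_le_left _ _)
  have hd2 : δ ≤ δ2 := hδ'.trans ((min_le_right _ _).trans (min_le_left _ _))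
  have hd3 : δ ≤ δ3 := hδ'.trans ((min_le_right _ _).trans (min_le_right _ _))
  have hs := hsh δ hδ hd1
  refine ⟨hs.ok, ?_⟩
  have h1 := h δ hδ hd2
  have h2 : R.prob δ (fun F => ¬ (1 / Λ ≤ R.time δ F)) =
      1 - R.prob δ (fun F => 1 / Λ ≤ R.time δ F) := Pr_not _ _
  have h3 : R.prob δ (fun F => (((Yk (R.dm δ) F ((R.dm δ).len F)).card : ℕ) : ℝ) <
        1 / (4 * Λ) * δ ^ (-(7/4) : ℝ)) ≤ R.prob δ (fun F => ¬ (1 / Λ ≤ R.time δ F)) := by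
    apply Pr_mono
    · intro e; norm_num
    · intro F hF hlt hge
      have a1 : (R.dm δ).r - (R.dm δ).l ≤ ⌊S / δ⌋ := Int.le_floor.mpr hs.w_le
      have a2 : (R.dm δ).h ≤ ⌊S / δ⌋ := Int.le_floor.mpr hs.h_le
      have a3 := len_le hs.ok a1 a2 hF
      have a4 : (((R.dm δ).len F : ℕ) : ℝ) ≤
          2 * ((Yk (R.dm δ) F ((R.dm δ).len F)).card : ℕ) + 18 * (S / δ) + 16 := by
        have a5 : (((R.dm δ).len F : ℤ) : ℝ) ≤
          ((2 * ((Yk (R.dm δ) F ((R.dm δ).len F)).card : ℕ) + 18 * ⌊S / δ⌋ + 16 : ℤ) : ℝ) := by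
          exact_mod_cast a3
        push_cast at a5
        have a6 := Int.floor_le (S / δ)
        linarith
      have a7 : δ ^ (-(7/4) : ℝ) / Λ ≤ ((R.dm δ).len F : ℝ) := by
        have b1 : δ ^ (-(7/4) : ℝ) * δ ^ (7/4 : ℝ) = 1 := by
          rw [← Real.rpow_add hδ]; norm_num
        have b2 := mul_le_mul_of_nonneg_left hge (dpow hδ (-(7/4))).le
        unfold Rect.time at b2
        rw [← mul_assoc, b1, one_mul] at b2
        refine le_trans (le_of_eq ?_) b2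
        ring
      have a8 : 18 * (S / δ) + 16 ≤ δ ^ (-(7/4) : ℝ) / (2 * Λ) := by
        have b1 : δ ^ (3/4 : ℝ) ≤ 1 / (2 * Λ * (18 * S + 16)) := by
          calc δ ^ (3/4 : ℝ) ≤ δ3 ^ (3/4 : ℝ) := Real.rpow_le_rpow hδ.le hd3 (by norm_num)
            _ = _ := by
              rw [hδ3, ← Real.rpow_mul (by positivity)]
              norm_num
        have b2 : δ ^ (-(7/4) : ℝ) * δ ^ (3/4 : ℝ) = δ⁻¹ := by
          rw [← Real.rpow_add hδ, ← Real.rpow_neg_one]; norm_num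
        have b3 : (18 * S + 16) * δ⁻¹ ≤ δ ^ (-(7/4) : ℝ) / (2 * Λ) := by
          rw [← b2]
          have b4 : (18 * S + 16) * (δ ^ (-(7/4) : ℝ) * δ ^ (3/4 : ℝ)) =
              δ ^ (-(7/4) : ℝ) * ((18 * S + 16) * δ ^ (3/4 : ℝ)) := by ring
          rw [b4, div_eq_mul_one_div]
          apply mul_le_mul_of_nonneg_left _ (dpow hδ _).le
          calc (18 * S + 16) * δ ^ (3/4 : ℝ) ≤ (18 * S + 16) * (1 / (2 * Λ * (18 * S + 16))) :=
                mul_le_mul_of_nonneg_left b1 (by positivity)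
            _ = (2 * Λ)⁻¹ := by field_simp
            _ ≤ _ := by exact le_rfl
        have b5 : (1:ℝ) ≤ δ⁻¹ := by
          rw [one_le_inv₀ hδ]; exact hd1.trans hδ1'
        have b6 : 18 * (S / δ) + 16 ≤ (18 * S + 16) * δ⁻¹ := by
          rw [div_eq_mul_inv]; nlinarith
        exact b6.trans b3
      have a9 : δ ^ (-(7/4) : ℝ) / Λ = δ ^ (-(7/4) : ℝ) / (2 * Λ) + 2 * (1 / (4 * Λ) *
          δ ^ (-(7/4) : ℝ)) := by field_simp; ring
      linarith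
  linarith

/-- The path events, upper bound. -/
theorem path_up {C' : ℝ} {R : Rect} {δ n : ℝ} (hs : (R.dm δ).Ok)
    (hE : E (R.dm δ).edges (fun F => ((R.dm δ).len F : ℝ) + 1) ≤ C' * n ^ (7/4 : ℝ)) {p : ℝ}
    (hx : |2 * p - 1| ≤ 1/2) (B : Set (ℕ → St)) :
    |prp R p δ (fun F => path (R.dm δ) F ∈ B) - R.prob δ (fun F => path (R.dm δ) F ∈ B)| ≤
      2 * |2 * p - 1| * Real.sqrt (C' * n ^ (7/4 : ℝ)) := by
  set D := R.dm δ with hD
  have hm : D.edges.card < D.edges.card + 1 := Nat.lt_succ_self _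
  have hA : Msr D.edges (Xm D (D.edges.card + 1)) (fun F => path D F ∈ B) := by
    intro F G hF hG h
    show (path D G ∈ B) = (path D F ∈ B)
    rw [path_msr hs hm F G hF hG h]
  have h1 := tv_up (Xm_stp hs _) hA hx
  have e1 : (1 + (2 * p - 1)) / 2 = p := by ring
  rw [e1] at h1
  refine h1.trans ?_
  apply mul_le_mul_of_nonneg_left _ (by positivity)
  apply Real.sqrt_le_sqrt
  refine le_trans ?_ hE
  apply Ex_mono
  · intro e; norm_num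
  · intro F hF
    unfold Xm
    rw [Xm_full hs hm hF]
    have := card_Yk_le D F (D.len F)
    have h2 : ((Yk D F (D.len F)).card : ℝ) ≤ (D.len F : ℝ) := by exact_mod_cast this
    linarith

/-- The stopping set has `m` elements with high probability. -/
theorem few {R : Rect} {δ ε c1 : ℝ} (hs : (R.dm δ).Ok)
    (h : R.prob δ (fun F => (((Yk (R.dm δ) F ((R.dm δ).len F)).card : ℕ) : ℝ) < c1) ≤ ε) {m : ℕ}
    (hm : (m:ℝ) ≤ c1) :
    Pr (fun _ => 1/2) (R.dm δ).edges (fun F => (Xm (R.dm δ) m F).card < m) ≤ ε := by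
  refine le_trans ?_ h
  apply Pr_mono
  · intro e; norm_num
  · intro F hF hlt
    have h1 := Xm_lt hs hF hlt
    have h2 : ((Yk (R.dm δ) F ((R.dm δ).len F)).card : ℝ) < m := by exact_mod_cast h1
    linarith

theorem mean_ge {D : Dm} {m : ℕ}
    (h : Pr (fun _ => 1/2) D.edges (fun F => (Xm D m F).card < m) ≤ 1/64) :
    (m:ℝ) / 2 ≤ Ex (fun _ => 1/2) D.edges (fun F => ((Xm D m F).card : ℝ)) := by
  have h1 : Ex (fun _ => (1/2:ℝ)) D.edges (fun F => (m:ℝ) - m * ind ((Xm D m F).card < m)) ≤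
      Ex (fun _ => 1/2) D.edges (fun F => ((Xm D m F).card : ℝ)) := by
    apply Ex_mono
    · intro e; norm_num
    · intro F _
      by_cases hF : (Xm D m F).card < m
      · rw [ind_of hF]
        have : (0:ℝ) ≤ (Xm D m F).card := Nat.cast_nonneg _
        linarith
      · rw [ind_not_of hF]
        push Not at hF
        have : (m:ℝ) ≤ (Xm D m F).card := by exact_mod_cast hF
        linarith
  rw [Ex_sub, Ex_const, Ex_mul_left] at h1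
  have h2 := mul_le_mul_of_nonneg_left h (Nat.cast_nonneg m : (0:ℝ) ≤ m)
  have h3 : (0:ℝ) ≤ m := Nat.cast_nonneg m
  unfold Pr at h2
  linarith

/-- Total variation window, upper and lower bounds. -/
theorem window {C' : ℝ} (hC' : 0 < C') (hlen : ∀ (D : Dm) (n : ℝ), D.Ok → 1 ≤ n →
      ((D.r - D.l : ℤ) : ℝ) ≤ n → (D.h : ℝ) ≤ n →
      E D.edges (fun F => (D.len F : ℝ) + 1) ≤ C' * n ^ (7/4 : ℝ)) (R : Rect)
    (ht : ∀ ε : ℝ, 0 < ε → ∃ Λ δ0 : ℝ, 0 < Λ ∧ 0 < δ0 ∧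
      ∀ δ : ℝ, 0 < δ → δ ≤ δ0 → 1 - ε ≤ R.prob δ (fun F => 1 / Λ ≤ R.time δ F)) :
    ∃ c C δ0 : ℝ, 0 < c ∧ 0 < C ∧ 0 < δ0 ∧ ∀ δ : ℝ, 0 < δ → δ ≤ δ0 →
      ∀ p : ℝ, 0 ≤ p → p ≤ 1 →
      (∀ B : Set (ℕ → St), |prp R p δ (fun F => path (R.dm δ) F ∈ B) -
        R.prob δ (fun F => path (R.dm δ) F ∈ B)| ≤ C * (|p - 1/2| * δ ^ (-(7/8) : ℝ))) ∧
      ∃ B : Set (ℕ → St), c * min 1 (|p - 1/2| * δ ^ (-(7/8) : ℝ)) ≤
        prp R p δ (fun F => path (R.dm δ) F ∈ B) - R.prob δ (fun F => path (R.dm δ) F ∈ B) := by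
  obtain ⟨κ, S, δ1, hκ, hS, hδ1, hδ1', hsh⟩ := R.shape
  obtain ⟨c1, δ2, hc1, hδ2, hmany⟩ := many R ht (ε := 1/64) (by norm_num)
  obtain ⟨δ3, hδ3⟩ : ∃ δ3 : ℝ, δ3 = (c1 / 100) ^ (4/7 : ℝ) := ⟨_, rfl⟩
  have hδ30 : 0 < δ3 := by rw [hδ3]; positivity
  obtain ⟨c, hc⟩ : ∃ c : ℝ, c = min (1/2) (Real.sqrt (c1 / 96) / 300) := ⟨_, rfl⟩
  obtain ⟨C, hC⟩ : ∃ C : ℝ, C = max 4 (4 * Real.sqrt (C' * S ^ (7/4 : ℝ))) := ⟨_, rfl⟩
  have hc0 : 0 < c := by rw [hc]; exact lt_min (by norm_num) (by positivity)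
  have hC4 : 4 ≤ C := by rw [hC]; exact le_max_left _ _
  refine ⟨c, C, min δ1 (min S (min δ2 δ3)), hc0, by linarith,
    lt_min hδ1 (lt_min hS (lt_min hδ2 hδ30)), fun δ hδ hδ' p hp0 hp1 => ?_⟩
  have hd1 : δ ≤ δ1 := hδ'.trans (min_le_left _ _)
  have hdS : δ ≤ S := hδ'.trans ((min_le_right _ _).trans (min_le_left _ _))
  have hd2 : δ ≤ δ2 := hδ'.trans ((min_le_right _ _).trans ((min_le_right _ _).trans
    (min_le_left _ _)))
  have hd3 : δ ≤ δ3 := hδ'.trans ((min_le_right _ _).trans ((min_le_right _ _).trans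
    (min_le_right _ _)))
  have hsa := hsh δ hδ hd1
  have hs := hsa.ok
  have hx2 : |p - 1/2| = |2 * p - 1| / 2 := by
    rw [show p - 1/2 = (2 * p - 1) / 2 by ring, abs_div, abs_two]
  have hδ78 : (1:ℝ) ≤ δ ^ (-(7/8) : ℝ) :=
    Real.one_le_rpow_of_pos_of_le_one_of_nonpos hδ (hd1.trans hδ1') (by norm_num)
  constructor
  · intro B
    rcases le_or_gt |2 * p - 1| (1/2) with hx | hx
    · have h1 := hlen (R.dm δ) (S / δ) hs ((one_le_div hδ).mpr hdS) hsa.w_le hsa.h_le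
      refine (path_up hs h1 hx B).trans ?_
      have e1 : Real.sqrt (C' * (S / δ) ^ (7/4 : ℝ)) =
          Real.sqrt (C' * S ^ (7/4 : ℝ)) * δ ^ (-(7/8) : ℝ) := by
        rw [Real.div_rpow hS.le hδ.le, ← mul_div_assoc, Real.sqrt_div' _ (dpow hδ _).le,
          div_eq_mul_inv]
        congr 1
        rw [Real.sqrt_eq_rpow, ← Real.rpow_mul hδ.le, ← Real.rpow_neg hδ.le]
        norm_num
      rw [e1]
      have h2 : 4 * Real.sqrt (C' * S ^ (7/4 : ℝ)) ≤ C := by rw [hC]; exact le_max_right _ _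
      rw [hx2]
      have h3 := mul_le_mul_of_nonneg_right h2 (by positivity :
        (0:ℝ) ≤ |2 * p - 1| / 2 * δ ^ (-(7/8) : ℝ))
      refine le_trans (le_of_eq ?_) h3
      ring
    · have h1 : |prp R p δ (fun F => path (R.dm δ) F ∈ B) -
        R.prob δ (fun F => path (R.dm δ) F ∈ B)| ≤ 1 := by
        rw [abs_le]
        have a1 : 0 ≤ prp R p δ (fun F => path (R.dm δ) F ∈ B) := Pr_nonneg (okp hp0 hp1) _ _
        have a2 : prp R p δ (fun F => path (R.dm δ) F ∈ B) ≤ 1 := Pr_le_one (okp hp0 hp1) _ _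
        have a3 : 0 ≤ R.prob δ (fun F => path (R.dm δ) F ∈ B) :=
          Pr_nonneg (okp (by norm_num) (by norm_num)) _ _
        have a4 : R.prob δ (fun F => path (R.dm δ) F ∈ B) ≤ 1 :=
          Pr_le_one (okp (by norm_num) (by norm_num)) _ _
        constructor <;> linarith
      refine h1.trans ?_
      rw [hx2]
      have h4 : (1:ℝ) ≤ C * (|2 * p - 1| / 2) := by nlinarith
      nlinarith
  · obtain ⟨m0, hm0⟩ : ∃ m0 : ℕ, m0 = ⌊c1 * δ ^ (-(7/4) : ℝ)⌋₊ := ⟨_, rfl⟩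
    have hbig : (100:ℝ) ≤ c1 * δ ^ (-(7/4) : ℝ) := by
      have b1 : δ ^ (7/4 : ℝ) ≤ c1 / 100 := by
        calc δ ^ (7/4 : ℝ) ≤ δ3 ^ (7/4 : ℝ) := Real.rpow_le_rpow hδ.le hd3 (by norm_num)
          _ = _ := by
            rw [hδ3, ← Real.rpow_mul (by positivity)]
            norm_num
      rw [Real.rpow_neg hδ.le, ← div_eq_mul_inv, le_div_iff₀ (dpow hδ _)]
      linarith
    have hm0a : (m0:ℝ) ≤ c1 * δ ^ (-(7/4) : ℝ) := by rw [hm0]; exact Nat.floor_le (by linarith)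
    have hm0b : c1 * δ ^ (-(7/4) : ℝ) < m0 + 1 := by rw [hm0]; exact Nat.lt_floor_add_one _
    have hm0c : (99:ℝ) < m0 := by linarith
    have hP := (hmany δ hδ hd2).2
    obtain ⟨x, hx⟩ : ∃ x : ℝ, x = 2 * p - 1 := ⟨_, rfl⟩
    have hp : p = (1 + x) / 2 := by rw [hx]; ring
    have hx1 : -1 ≤ x := by linarith
    have hx1' : x ≤ 1 := by linarith
    rw [← hx] at hx2
    have hmin : min 1 (|p - 1/2| * δ ^ (-(7/8) : ℝ)) ≤ 1 := min_le_left _ _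
    have hmin0 : 0 ≤ min 1 (|p - 1/2| * δ ^ (-(7/8) : ℝ)) := le_min (by norm_num) (by positivity)
    rcases le_or_gt 24 (x ^ 2 * m0) with hbigx | hsmall
    · -- asymptotic singularity
      obtain ⟨h1, h2⟩ := sing (Xm_stp hs m0) m0 hx1 hx1'
      obtain ⟨B, hB⟩ := ev_of_path hs m0 (Lg_msr (Xm_stp hs m0) x)
      refine ⟨B, ?_⟩
      have h3 := few hs hP hm0a
      have h4 : Real.sqrt (Pr (fun _ => 1/2) (R.dm δ).edges
          (fun F => (Xm (R.dm δ) m0 F).card < m0)) ≤ 1/8 := by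
        rw [Real.sqrt_le_left (by norm_num)]
        norm_num at h3 ⊢
        exact h3
      have h5 : Real.exp (-(x ^ 2 * m0 / 8)) ≤ 1/8 := by
        have a1 : Real.exp (-(x ^ 2 * m0 / 8)) ≤ Real.exp (-3) :=
          Real.exp_le_exp.mpr (by linarith)
        refine a1.trans ?_
        rw [Real.exp_neg, ← one_div]
        apply one_div_le_one_div_of_le (by norm_num)
        have a2 := Real.exp_one_gt_d9
        have a3 : Real.exp 3 = Real.exp 1 ^ 3 := by rw [← Real.exp_nat_mul]; norm_num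
        rw [a3]
        have a4 : (2:ℝ) ^ 3 ≤ Real.exp 1 ^ 3 := pow_le_pow_left₀ (by norm_num) (by linarith) 3
        linarith
      have e1 : prp R p δ (fun F => path (R.dm δ) F ∈ B) =
          Pr (fun _ => (1 + x)/2) (R.dm δ).edges (Lg (Xm (R.dm δ) m0) x) := by
        unfold prp
        rw [hp]
        exact Pr_congr hB
      have e2 : R.prob δ (fun F => path (R.dm δ) F ∈ B) =
          Pr (fun _ => 1/2) (R.dm δ).edges (Lg (Xm (R.dm δ) m0) x) := Pr_congr hB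
      rw [e1, e2]
      have e3 : Pr (fun _ => (1 + x)/2) (R.dm δ).edges (fun F => ¬ Lg (Xm (R.dm δ) m0) x F) =
        1 - Pr (fun _ => (1 + x)/2) (R.dm δ).edges (Lg (Xm (R.dm δ) m0) x) := Pr_not _ _
      have e4 : c ≤ 1/2 := by rw [hc]; exact min_le_left _ _
      rw [e3] at h2
      have e5 : c * min 1 (|p - 1/2| * δ ^ (-(7/8) : ℝ)) ≤ 1/2 := by nlinarith
      linarith
    · -- small parameter
      obtain ⟨m1, hm1⟩ : ∃ m1 : ℕ, m1 = m0 / 24 := ⟨_, rfl⟩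
      have hm0d : 100 ≤ m0 := by
        have : (99:ℝ) < (m0:ℝ) := hm0c
        have : 99 < m0 := by exact_mod_cast this
        omega
      have hm1a : 1 ≤ m1 := by omega
      have hm1b : 24 * m1 ≤ m0 := by omega
      have hm1c : m0 ≤ 48 * m1 := by omega
      have hm1b' : 24 * (m1:ℝ) ≤ m0 := by exact_mod_cast hm1b
      have hm1c' : (m0:ℝ) ≤ 48 * m1 := by exact_mod_cast hm1c
      have hx3 : x ^ 2 * m1 ≤ 1 := by nlinarith [sq_nonneg x]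
      have hx4 : x ^ 2 < 1 := by nlinarith [sq_nonneg x]
      have hx5 := abs_lt.mp ((sq_lt_one_iff_abs_lt_one x).mp hx4)
      have h3 := few hs hP (m := m1) (by
        have : (m1:ℝ) ≤ m0 := by nlinarith
        linarith)
      have h4 := tv_low (Xm_stp hs m1) hm1a (fun F _ => Xm_card m1 F) (mean_ge h3) hx5.1 hx5.2 hx3
      obtain ⟨B, hB⟩ := ev_of_path hs m1 (Lg_msr (Xm_stp hs m1) x)
      refine ⟨B, ?_⟩
      have e1 : prp R p δ (fun F => path (R.dm δ) F ∈ B) =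
          Pr (fun _ => (1 + x)/2) (R.dm δ).edges (Lg (Xm (R.dm δ) m1) x) := by
        unfold prp
        rw [hp]
        exact Pr_congr hB
      have e2 : R.prob δ (fun F => path (R.dm δ) F ∈ B) =
          Pr (fun _ => 1/2) (R.dm δ).edges (Lg (Xm (R.dm δ) m1) x) := Pr_congr hB
      rw [e1, e2]
      refine le_trans ?_ h4
      have e4 : c ≤ Real.sqrt (c1 / 96) / 300 := by rw [hc]; exact min_le_right _ _
      have e5 : Real.sqrt (c1 / 96) * δ ^ (-(7/8) : ℝ) ≤ Real.sqrt m1 := by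
        have a1 : δ ^ (-(7/8) : ℝ) = Real.sqrt (δ ^ (-(7/4) : ℝ)) := by
          rw [Real.sqrt_eq_rpow, ← Real.rpow_mul hδ.le]
          norm_num
        rw [a1, ← Real.sqrt_mul (by positivity)]
        apply Real.sqrt_le_sqrt
        linarith
      have e6 : min 1 (|p - 1/2| * δ ^ (-(7/8) : ℝ)) ≤ |p - 1/2| * δ ^ (-(7/8) : ℝ) :=
        min_le_right _ _
      calc c * min 1 (|p - 1/2| * δ ^ (-(7/8) : ℝ)) ≤
            (Real.sqrt (c1 / 96) / 300) * (|p - 1/2| * δ ^ (-(7/8) : ℝ)) :=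
              mul_le_mul e4 e6 hmin0 (by positivity)
        _ = |x| * (Real.sqrt (c1 / 96) * δ ^ (-(7/8) : ℝ)) / 600 := by rw [hx2]; ring
        _ ≤ |x| * Real.sqrt m1 / 600 := by
            apply div_le_div_of_nonneg_right _ (by norm_num)
            exact mul_le_mul_of_nonneg_left e5 (abs_nonneg _)

/-- Total variation window, singularity. -/
theorem window_sing (R : Rect)
    (ht : ∀ ε : ℝ, 0 < ε → ∃ Λ δ0 : ℝ, 0 < Λ ∧ 0 < δ0 ∧
      ∀ δ : ℝ, 0 < δ → δ ≤ δ0 → 1 - ε ≤ R.prob δ (fun F => 1 / Λ ≤ R.time δ F)) {ε : ℝ}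
    (hε : 0 < ε) :
    ∃ K δ0 : ℝ, 0 < K ∧ 0 < δ0 ∧ ∀ δ : ℝ, 0 < δ → δ ≤ δ0 →
      ∀ p : ℝ, 0 ≤ p → p ≤ 1 → K ≤ |p - 1/2| * δ ^ (-(7/8) : ℝ) →
      ∃ B : Set (ℕ → St), 1 - ε ≤ prp R p δ (fun F => path (R.dm δ) F ∈ B) ∧
        R.prob δ (fun F => path (R.dm δ) F ∈ B) ≤ ε := by
  obtain ⟨c1, δ2, hc1, hδ2, hmany⟩ := many R ht (ε := (ε / 2) ^ 2) (by positivity)
  obtain ⟨L, hL0, hL⟩ : ∃ L : ℝ, 0 < L ∧ Real.exp (-L) ≤ ε / 2 := by
    refine ⟨|Real.log (ε / 2)| + 1, by positivity, ?_⟩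
    rw [← Real.exp_log (by positivity : (0:ℝ) < ε / 2), Real.exp_le_exp]
    have h := neg_abs_le (Real.log (ε / 2))
    rw [Real.exp_log (by positivity : (0:ℝ) < ε / 2)]
    linarith
  obtain ⟨δ3, hδ3⟩ : ∃ δ3 : ℝ, δ3 = (c1 / 2) ^ (4/7 : ℝ) := ⟨_, rfl⟩
  have hδ30 : 0 < δ3 := by rw [hδ3]; positivity
  refine ⟨Real.sqrt (4 * L / c1) + 1, min δ2 δ3, by positivity, lt_min hδ2 hδ30,
    fun δ hδ hδ' p hp0 hp1 hK => ?_⟩
  have hd2 : δ ≤ δ2 := hδ'.trans (min_le_left _ _)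
  have hd3 : δ ≤ δ3 := hδ'.trans (min_le_right _ _)
  obtain ⟨hs, hP⟩ := hmany δ hδ hd2
  obtain ⟨m0, hm0⟩ : ∃ m0 : ℕ, m0 = ⌊c1 * δ ^ (-(7/4) : ℝ)⌋₊ := ⟨_, rfl⟩
  have hbig : (2:ℝ) ≤ c1 * δ ^ (-(7/4) : ℝ) := by
    have b1 : δ ^ (7/4 : ℝ) ≤ c1 / 2 := by
      calc δ ^ (7/4 : ℝ) ≤ δ3 ^ (7/4 : ℝ) := Real.rpow_le_rpow hδ.le hd3 (by norm_num)
        _ = _ := by
          rw [hδ3, ← Real.rpow_mul (by positivity)]
          norm_num
    rw [Real.rpow_neg hδ.le, ← div_eq_mul_inv, le_div_iff₀ (dpow hδ _)]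
    linarith
  have hm0a : (m0:ℝ) ≤ c1 * δ ^ (-(7/4) : ℝ) := by rw [hm0]; exact Nat.floor_le (by linarith)
  have hm0b : c1 * δ ^ (-(7/4) : ℝ) < m0 + 1 := by rw [hm0]; exact Nat.lt_floor_add_one _
  obtain ⟨x, hx⟩ : ∃ x : ℝ, x = 2 * p - 1 := ⟨_, rfl⟩
  have hp : p = (1 + x) / 2 := by rw [hx]; ring
  have hx1 : -1 ≤ x := by linarith
  have hx1' : x ≤ 1 := by linarith
  have hx2 : |p - 1/2| = |x| / 2 := by
    rw [show p - 1/2 = x / 2 by rw [hp]; ring, abs_div, abs_two]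
  obtain ⟨h1, h2⟩ := sing (Xm_stp hs m0) m0 hx1 hx1'
  obtain ⟨B, hB⟩ := ev_of_path hs m0 (Lg_msr (Xm_stp hs m0) x)
  refine ⟨B, ?_⟩
  have h3 := few hs hP hm0a
  have h4 : Real.sqrt (Pr (fun _ => 1/2) (R.dm δ).edges
      (fun F => (Xm (R.dm δ) m0 F).card < m0)) ≤ ε / 2 := by
    rw [Real.sqrt_le_left (by positivity)]
    exact h3
  have h5 : Real.exp (-(x ^ 2 * m0 / 8)) ≤ ε / 2 := by
    refine le_trans (Real.exp_le_exp.mpr ?_) hL
    have a1 : c1 * δ ^ (-(7/4) : ℝ) / 2 ≤ m0 := by linarith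
    have a2 : 4 * L / c1 ≤ (|p - 1/2| * δ ^ (-(7/8) : ℝ)) ^ 2 := by
      have b1 : Real.sqrt (4 * L / c1) ≤ |p - 1/2| * δ ^ (-(7/8) : ℝ) := by linarith
      have b2 := pow_le_pow_left₀ (Real.sqrt_nonneg _) b1 2
      rwa [Real.sq_sqrt (by positivity)] at b2
    have a3 : (|p - 1/2| * δ ^ (-(7/8) : ℝ)) ^ 2 = x ^ 2 / 4 * δ ^ (-(7/4) : ℝ) := by
      rw [mul_pow, hx2, ← Real.rpow_natCast, ← Real.rpow_natCast, ← Real.rpow_mul hδ.le]
      norm_num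
      rw [div_pow, sq_abs]
      norm_num
    rw [a3, div_le_iff₀ hc1] at a2
    have a4 : x ^ 2 * (c1 * δ ^ (-(7/4) : ℝ) / 2) ≤ x ^ 2 * m0 :=
      mul_le_mul_of_nonneg_left a1 (sq_nonneg x)
    linarith
  have e1 : prp R p δ (fun F => path (R.dm δ) F ∈ B) =
      Pr (fun _ => (1 + x)/2) (R.dm δ).edges (Lg (Xm (R.dm δ) m0) x) := by
    unfold prp
    rw [hp]
    exact Pr_congr hB
  have e2 : R.prob δ (fun F => path (R.dm δ) F ∈ B) =
      Pr (fun _ => 1/2) (R.dm δ).edges (Lg (Xm (R.dm δ) m0) x) := Pr_congr hB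
  rw [e1, e2]
  have e3 : Pr (fun _ => (1 + x)/2) (R.dm δ).edges (fun F => ¬ Lg (Xm (R.dm δ) m0) x F) =
    1 - Pr (fun _ => (1 + x)/2) (R.dm δ).edges (Lg (Xm (R.dm δ) m0) x) := Pr_not _ _
  rw [e3] at h2
  constructor <;> linarith

end Q291.EP
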