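import Pool.Agent.Q291.EP.Curve
import Pool.Agent.Q291.EP.Tv
import Pool.Agent.H984R4.NP.Arms
import Pool.Agent.H12R2.Sep.Win1
import Pool.Agent.W424.NC.Win

/-!
Off the critical window the exploration path follows one of the two boundary arcs.
-/

set_option maxHeartbeats 1000000

namespace Q291.EP

open H974 Finset H342P H984P H984N H12S

/-- Crossings of an annulus by an open path below criticality. -/
theorem crs_small : ∃ c C : ℝ, 0 < c ∧ 0 < C ∧ ∀ q : ℝ, 0 ≤ q → q ≤ 1/2 → ∀ m : ℕ, 1 ≤ m →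
    ∀ (c1 c2 : ℤ) (S : Finset Edg), PQ q S (fun F => Crs c1 c2 m (3 * m) ↑F) ≤
      C * Real.exp (-(c * (m * (1/2 - q)^(4/3 : ℝ)))) := by
  obtain ⟨c, C, hc, hC, hw⟩ := Pool.Agent.W424.NC.win_upper 3 (by norm_num)
  refine ⟨2 * c, 4 * C, by positivity, by positivity, ?_⟩
  intro q h0 h2 m hm c1 c2 S
  have h1 : q ≤ 1 := by linarith
  have ok := okq h0 h1
  have e1 : Pr (fun _ => q) S (fun F => Crs c1 c2 m (3 * m) ↑F) ≤
      Pr (fun _ => q) S (fun F => ¬ Blk m (3 * m : ℕ) ((trl (-c1) (-c2)).mp F)) :=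
    Pr_mono ok (fun F _ hF => crs_blk hm hF)
  have e2 : Pr (fun _ => q) S (fun F => ¬ Blk m (3 * m : ℕ) ((trl (-c1) (-c2)).mp F)) ≤
      Pr (fun _ => q) (annE m (3 * m)) (fun F => ¬ Blk m (3 * m : ℕ) F) := by
    refine Pr_shift_le h0 h1 (trl (-c1) (-c2)) S
      (B := annE m (3 * m)) (A := fun F => ¬ Blk m (3 * m : ℕ) F) ?_ ?_
    · intro F G hFG hF hG
      apply hF
      refine ⟨fun h => hG.1 (h.imp (LRc.mono hFG) (LRc.mono hFG)),
        fun h => hG.2 (h.imp (TBc.mono hFG) (TBc.mono hFG))⟩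
    · intro F
      exact not_congr (Blk_local (by omega) (Finset.Subset.refl _) F)
  obtain ⟨s1, s2, s3, s4⟩ := ann_sub (n := m) (m := 3 * m) (by omega)
  set R2 : ℤ := ((3 * m : ℕ) : ℤ) with hR2
  have hR2' : R2 = 3 * m := by rw [hR2]; push_cast; ring
  have f1 := pr_LRc q s1
  have f2 := pr_LRc q s2
  have f3 := pr_TBc q s3
  have f4 := pr_TBc q s4
  have d1 : R2 - m = 2 * m := by omega
  have d2 : R2 - -R2 = 6 * m := by omega
  have d3 : -(m:ℤ) - -R2 = 2 * m := by omega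
  rw [d1, d2] at f1
  rw [d3, d2] at f2
  rw [d1, d2] at f3
  rw [d3, d2] at f4
  have e3 : Pr (fun _ => q) (annE m (3 * m)) (fun F => ¬ Blk m R2 F) ≤
      4 * hh q (2 * m) (6 * m) := by
    have g1 : Pr (fun _ => q) (annE m (3 * m)) (fun F => ¬ Blk m R2 F) ≤
        Pr (fun _ => q) (annE m (3 * m)) (fun F => (LRc m R2 (-R2) R2 F ∨
          LRc (-R2) (-m) (-R2) R2 F) ∨ (TBc (-R2) R2 m R2 F ∨ TBc (-R2) R2 (-R2) (-m) F)) := by
      refine Pr_mono ok (fun F _ hF => ?_)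
      by_contra hc'
      push Not at hc'
      exact hF ⟨fun h => h.elim hc'.1.1 hc'.1.2, fun h => h.elim hc'.2.1 hc'.2.2⟩
    have g2 := Pr_or_le ok (annE m (3 * m)) (fun F => LRc m R2 (-R2) R2 F ∨
          LRc (-R2) (-m) (-R2) R2 F) (fun F => TBc (-R2) R2 m R2 F ∨ TBc (-R2) R2 (-R2) (-m) F)
    have g3 := Pr_or_le ok (annE m (3 * m)) (LRc m R2 (-R2) R2) (LRc (-R2) (-m) (-R2) R2)
    have g4 := Pr_or_le ok (annE m (3 * m)) (TBc (-R2) R2 m R2) (TBc (-R2) R2 (-R2) (-m))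
    rw [f1, f2] at g3
    rw [f3, f4] at g4
    linarith
  have e4 := hw q h0 h2 (2 * m) (6 * m) (by omega) (by omega) (by omega)
  push_cast at e4
  have e5 : c * (2 * (m:ℝ) * (1/2 - q)^(4/3 : ℝ)) = 2 * c * (m * (1/2 - q)^(4/3 : ℝ)) := by ring
  rw [e5] at e4
  unfold PQ
  calc _ ≤ _ := e1
    _ ≤ _ := e2
    _ ≤ 4 * hh q (2 * m) (6 * m) := e3
    _ ≤ 4 * (C * Real.exp (-(2 * c * (m * (1/2 - q)^(4/3 : ℝ))))) := by linarith
    _ = _ := by ring

/-- Crossings of an annulus by a dual path above criticality. -/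
theorem dcrs_small : ∃ c C : ℝ, 0 < c ∧ 0 < C ∧
    (∀ q : ℝ, 0 ≤ q → q ≤ 1/2 → ∀ m : ℕ, 1 ≤ m → ∀ (c1 c2 : ℤ) (S : Finset Edg),
      PQ q S (fun F => Crs c1 c2 m (3 * m) ↑F) ≤
        C * Real.exp (-(c * (m * |q - 1/2|^(4/3 : ℝ))))) ∧
    (∀ q : ℝ, 1/2 ≤ q → q ≤ 1 → ∀ m : ℕ, 1 ≤ m → ∀ (c1 c2 : ℤ) (S : Finset Edg),
      PQ q S (fun F => DCrs c1 c2 m (3 * m) (↑(S \ F) : Set Edg)) ≤
        C * Real.exp (-(c * (m * |q - 1/2|^(4/3 : ℝ))))) := by
  obtain ⟨c, C, hc, hC, hw⟩ := crs_small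
  refine ⟨c, C, hc, hC, ?_, ?_⟩
  · intro q h0 h2 m hm c1 c2 S
    rw [abs_of_nonpos (by linarith), show -(q - 1/2) = 1/2 - q by ring]
    exact hw q h0 h2 m hm c1 c2 S
  · intro q h2 h1 m hm c1 c2 S
    rw [abs_of_nonneg (by linarith)]
    have e := hw (1 - q) (by linarith) (by linarith) m hm c1 c2 (dmp S)
    rw [← pr_dual] at e
    rw [show 1/2 - (1 - q) = q - 1/2 by ring] at e
    refine le_trans (le_of_eq ?_) e
    apply Pr_congr
    intro F _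
    rw [dcrs_iff]

/-- The free boundary arc. -/
def arcF (R : Rect) : Set ℂ := {z | (z.im = 0 ∧ 0 ≤ z.re ∧ z.re ≤ R.B) ∨
  (z.re = R.B ∧ 0 ≤ z.im ∧ z.im ≤ R.H) ∨ (z.im = R.H ∧ R.t ≤ z.re ∧ z.re ≤ R.B)}

/-- The wired boundary arc. -/
def arcW (R : Rect) : Set ℂ := {z | (z.im = 0 ∧ -R.A ≤ z.re ∧ z.re ≤ 0) ∨
  (z.re = -R.A ∧ 0 ≤ z.im ∧ z.im ≤ R.H) ∨ (z.im = R.H ∧ -R.A ≤ z.re ∧ z.re ≤ R.t)}

/-- The vertices of the wired arc. -/
def wv (D : Dm) : Set Vtx := {v | (v.2 = D.h ∧ D.l ≤ v.1 ∧ v.1 ≤ D.t) ∨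
  (v.1 = D.l ∧ 0 ≤ v.2 ∧ v.2 ≤ D.h) ∨ (v.2 = 0 ∧ D.l ≤ v.1 ∧ v.1 ≤ 0)}

theorem wir_wv {D : Dm} {e : Edg} (he : e ∈ D.wir) : src e ∈ wv D ∧ tgt e ∈ wv D := by
  obtain ⟨x, y, _ | _⟩ := e
  · unfold Dm.wir wv at *
    simp only [Set.mem_ofPred_eq, Bool.false_eq_true, false_and, true_and, false_or, or_false,
      src_mk, tgt_false] at he ⊢
    refine ⟨Or.inr (Or.inl ⟨he.1, by omega, by omega⟩), Or.inr (Or.inl ⟨he.1, by omega, by omega⟩)⟩
  · unfold Dm.wir wv at *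
    simp only [Set.mem_ofPred_eq, Bool.true_eq_false, false_and, true_and, false_or, or_false,
      src_mk, tgt_true] at he ⊢
    rcases he with ⟨h1, h2, h3⟩ | ⟨h1, h2, h3⟩
    · exact ⟨Or.inl ⟨h1, by omega, by omega⟩, Or.inl ⟨h1, by omega, by omega⟩⟩
    · exact ⟨Or.inr (Or.inr ⟨h1, by omega, by omega⟩), Or.inr (Or.inr ⟨h1, by omega, by omega⟩)⟩

/-- The vertices of the cluster are joined to the wired arc by open edges. -/
theorem clu_wv {D : Dm} (hD : D.Ok) {F : Finset Edg} {v : Vtx} (hv : v ∈ D.clu F) :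
    ∃ z ∈ wv D, Reach (↑F : Set Edg) v z := by
  have h0 : (0, 0) ∈ wv D := by
    have := hD.l_neg
    exact Or.inr (Or.inr ⟨rfl, by simp only; omega, le_refl _⟩)
  have h : Reach (D.cfg F) v (0, 0) := Reach.symm hv
  obtain ⟨z, hz, hr⟩ := arms_reach (F := D.cfg F) (X := (↑F : Set Edg)) (G := (↑F : Set Edg))
    (fun u => u ∉ wv D) (by
      intro e he hB
      rcases he with he | he
      · exact he
      · exact absurd hB (by
          obtain ⟨h1, h2⟩ := wir_wv he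
          push Not
          exact ⟨h1, h2⟩)) (Set.inter_subset_right) h (by push Not; exact h0)
  push Not at hz
  exact ⟨z, hz, hr⟩

theorem dm_l (R : Rect) {δ : ℝ} (hδ : 0 < δ) : -R.A < δ * (R.dm δ).l ∧ δ * (R.dm δ).l ≤ -R.A + δ := by
  have h1 := Int.floor_le (-(R.A / δ))
  have h2 := Int.lt_floor_add_one (-(R.A / δ))
  have e : (((R.dm δ).l : ℤ) : ℝ) = (⌊-(R.A / δ)⌋ : ℝ) + 1 := by
    unfold Rect.dm; push_cast; ring
  have e2 : δ * (R.A / δ) = R.A := by field_simp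
  rw [e]
  constructor
  · have := mul_lt_mul_of_pos_left h2 hδ
    linarith
  · have := mul_le_mul_of_nonneg_left h1 hδ.le
    linarith

theorem dm_r (R : Rect) {δ : ℝ} (hδ : 0 < δ) : R.B - δ ≤ δ * (R.dm δ).r ∧ δ * (R.dm δ).r < R.B := by
  have h1 := Int.le_ceil (R.B / δ)
  have h2 := Int.ceil_lt_add_one (R.B / δ)
  have e : (((R.dm δ).r : ℤ) : ℝ) = (⌈R.B / δ⌉ : ℝ) - 1 := by
    unfold Rect.dm; push_cast; ring
  have e2 : δ * (R.B / δ) = R.B := by field_simp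
  rw [e]
  constructor
  · have := mul_le_mul_of_nonneg_left h1 hδ.le
    linarith
  · have := mul_lt_mul_of_pos_left h2 hδ
    linarith

theorem dm_h (R : Rect) {δ : ℝ} (hδ : 0 < δ) :
    R.H - 2 * δ ≤ δ * (R.dm δ).h ∧ δ * (R.dm δ).h < R.H - δ := by
  have h1 := Int.le_ceil (R.H / δ)
  have h2 := Int.ceil_lt_add_one (R.H / δ)
  have e : (((R.dm δ).h : ℤ) : ℝ) = (⌈R.H / δ⌉ : ℝ) - 2 := by
    unfold Rect.dm; push_cast; ring
  have e2 : δ * (R.H / δ) = R.H := by field_simp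
  rw [e]
  constructor
  · have := mul_le_mul_of_nonneg_left h1 hδ.le
    linarith
  · have := mul_lt_mul_of_pos_left h2 hδ
    linarith

theorem dm_t (R : Rect) {δ : ℝ} (hδ : 0 < δ) : R.t - δ < δ * (R.dm δ).t ∧ δ * (R.dm δ).t ≤ R.t := by
  have h1 := Int.floor_le (R.t / δ)
  have h2 := Int.lt_floor_add_one (R.t / δ)
  have e : (((R.dm δ).t : ℤ) : ℝ) = (⌊R.t / δ⌋ : ℝ) := by
    unfold Rect.dm; rfl
  have e2 : δ * (R.t / δ) = R.t := by field_simp
  rw [e]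
  constructor
  · have := mul_lt_mul_of_pos_left h2 hδ
    linarith
  · have := mul_le_mul_of_nonneg_left h1 hδ.le
    linarith

theorem outer_near {R : Rect} {δ : ℝ} (hδ : 0 < δ) {g : Vtx} (hg : g ∈ (R.dm δ).outer) :
    ∃ z ∈ arcF R, |δ * g.1 - z.re| ≤ δ ∧ |δ * (g.2 + 1) - z.im| ≤ δ := by
  have hr := dm_r R hδ
  have hh := dm_h R hδ
  have ht := dm_t R hδ
  have mulle : ∀ {a b : ℤ}, a ≤ b → δ * (a:ℝ) ≤ δ * (b:ℝ) := by
    intro a b hab
    exact mul_le_mul_of_nonneg_left (by exact_mod_cast hab) hδ.le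
  rcases hg with ⟨h1, h2, h3⟩ | ⟨h1, h2, h3⟩ | ⟨h1, h2, h3⟩
  · refine ⟨⟨δ * g.1, 0⟩, Or.inl ⟨rfl, ?_, ?_⟩, ?_, ?_⟩
    · have := mulle h2
      push_cast at this
      simpa using this
    · have := mulle h3
      simp only
      linarith
    · simp only [sub_self, abs_zero]; exact hδ.le
    · rw [h1]
      push_cast
      simp only [neg_add_cancel, mul_zero, sub_self, abs_zero]
      exact hδ.le
  · refine ⟨⟨R.B, δ * (g.2 + 1)⟩, Or.inr (Or.inl ⟨rfl, ?_, ?_⟩), ?_, ?_⟩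
    · have := mulle h2
      push_cast at this
      simp only
      linarith
    · have := mulle h3
      simp only
      linarith
    · rw [h1]
      simp only
      rw [abs_le]
      constructor <;> linarith
    · simp only [sub_self, abs_zero]; exact hδ.le
  · have k1 := mulle h2
    have k2 := mulle h3
    refine ⟨⟨max (δ * g.1) R.t, R.H⟩, Or.inr (Or.inr ⟨rfl, le_max_right _ _, ?_⟩), ?_, ?_⟩
    · exact max_le (by linarith) R.ht2.le
    · simp only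
      rw [abs_le]
      rcases le_total (δ * (g.1:ℝ)) R.t with h | h
      · rw [max_eq_right h]; constructor <;> linarith
      · rw [max_eq_left h]; constructor <;> linarith
    · rw [h1]
      simp only
      rw [abs_le]
      constructor <;> linarith

theorem wv_near {R : Rect} {δ : ℝ} (hδ : 0 < δ) {g : Vtx} (hg : g ∈ wv (R.dm δ)) :
    ∃ z ∈ arcW R, |δ * g.1 - z.re| ≤ δ ∧ |δ * (g.2 + 1) - z.im| ≤ δ := by
  have hl := dm_l R hδ
  have hh := dm_h R hδ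
  have ht := dm_t R hδ
  have mulle : ∀ {a b : ℤ}, a ≤ b → δ * (a:ℝ) ≤ δ * (b:ℝ) := by
    intro a b hab
    exact mul_le_mul_of_nonneg_left (by exact_mod_cast hab) hδ.le
  rcases hg with ⟨h1, h2, h3⟩ | ⟨h1, h2, h3⟩ | ⟨h1, h2, h3⟩
  · have k1 := mulle h2
    have k2 := mulle h3
    refine ⟨⟨δ * g.1, R.H⟩, Or.inr (Or.inr ⟨rfl, ?_, ?_⟩), ?_, ?_⟩
    · simp only; linarith
    · simp only; linarith
    · simp only [sub_self, abs_zero]; exact hδ.le
    · rw [h1]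
      simp only
      rw [abs_le]
      constructor <;> linarith
  · have k1 := mulle h2
    have k2 := mulle h3
    push_cast at k1
    refine ⟨⟨-R.A, δ * (g.2 + 1)⟩, Or.inr (Or.inl ⟨rfl, ?_, ?_⟩), ?_, ?_⟩
    · simp only; linarith
    · simp only; linarith
    · rw [h1]
      simp only
      rw [abs_le]
      constructor <;> linarith
    · simp only [sub_self, abs_zero]; exact hδ.le
  · have k1 := mulle h2
    have k2 := mulle h3
    push_cast at k2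
    refine ⟨⟨δ * g.1, 0⟩, Or.inl ⟨rfl, ?_, ?_⟩, ?_, ?_⟩
    · simp only; linarith
    · simp only; linarith
    · simp only [sub_self, abs_zero]; exact hδ.le
    · rw [h1]
      simp only
      push_cast
      rw [abs_le]
      constructor <;> linarith

/-- A far point gives a crossing of an annulus. -/
theorem far_end {δ : ℝ} (hδ : 0 < δ) {ε : ℝ} {m : ℕ} (hme : δ * (8 * m + 5) ≤ ε)
    {σ : St} {f g : Vtx} (hf : sd σ.1 f ≤ 1) {z : ℂ} (h1 : |δ * g.1 - z.re| ≤ δ)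
    (h2 : |δ * (g.2 + 1) - z.im| ≤ δ) (hz : ε ≤ dist (pos δ σ) z) {c1 c2 : ℤ}
    (hc : inR (c1 - m) (c1 + m) (c2 - m) (c2 + m) f) :
    g.1 ≤ c1 - ((3 * m : ℕ) : ℤ) ∨ c1 + ((3 * m : ℕ) : ℤ) ≤ g.1 ∨ g.2 ≤ c2 - ((3 * m : ℕ) : ℤ) ∨
      c2 + ((3 * m : ℕ) : ℤ) ≤ g.2 := by
  by_contra hcon
  push Not at hcon
  obtain ⟨a1, a2, a3, a4⟩ := hcon
  push_cast at a1 a2 a3 a4
  unfold inR at hc
  unfold sd at hf
  have f1 := (le_max_left _ _).trans hf
  have f2 := (le_max_right _ _).trans hf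
  rw [abs_le] at f1 f2
  have b1 : |((σ.1.1 - g.1 : ℤ) : ℝ)| ≤ 4 * m := by
    rw [abs_le]
    constructor
    · have : -(4 * (m:ℤ)) ≤ σ.1.1 - g.1 := by omega
      have h : ((-(4 * (m:ℤ)) : ℤ) : ℝ) ≤ ((σ.1.1 - g.1 : ℤ) : ℝ) := by exact_mod_cast this
      push_cast at h ⊢
      exact h
    · have : σ.1.1 - g.1 ≤ 4 * (m:ℤ) := by omega
      have h : ((σ.1.1 - g.1 : ℤ) : ℝ) ≤ ((4 * (m:ℤ) : ℤ) : ℝ) := by exact_mod_cast this
      push_cast at h ⊢
      exact h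
  have b2 : |((σ.1.2 - g.2 : ℤ) : ℝ)| ≤ 4 * m := by
    rw [abs_le]
    constructor
    · have : -(4 * (m:ℤ)) ≤ σ.1.2 - g.2 := by omega
      have h : ((-(4 * (m:ℤ)) : ℤ) : ℝ) ≤ ((σ.1.2 - g.2 : ℤ) : ℝ) := by exact_mod_cast this
      push_cast at h ⊢
      exact h
    · have : σ.1.2 - g.2 ≤ 4 * (m:ℤ) := by omega
      have h : ((σ.1.2 - g.2 : ℤ) : ℝ) ≤ ((4 * (m:ℤ) : ℤ) : ℝ) := by exact_mod_cast this
      push_cast at h ⊢
      exact h
  have q1 := ML.qx_le σ.2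
  have q2 := ML.qy_le σ.2
  rw [abs_le] at h1 h2 b1 b2 q1 q2
  push_cast at b1 b2
  have t1 : |(pos δ σ).re - z.re| ≤ δ * (4 * m + 5/4) := by
    rw [ML.pos_re, abs_le]
    have k1 := mul_le_mul_of_nonneg_left b1.1 hδ.le
    have k2 := mul_le_mul_of_nonneg_left b1.2 hδ.le
    have k3 := mul_le_mul_of_nonneg_left q1.1 hδ.le
    have k4 := mul_le_mul_of_nonneg_left q1.2 hδ.le
    constructor <;> nlinarith [h1.1, h1.2]
  have t2 : |(pos δ σ).im - z.im| ≤ δ * (4 * m + 5/4) := by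
    rw [ML.pos_im, abs_le]
    have k1 := mul_le_mul_of_nonneg_left b2.1 hδ.le
    have k2 := mul_le_mul_of_nonneg_left b2.2 hδ.le
    have k3 := mul_le_mul_of_nonneg_left q2.1 hδ.le
    have k4 := mul_le_mul_of_nonneg_left q2.2 hδ.le
    constructor <;> nlinarith [h2.1, h2.2]
  have t3 := ML.dist_le_of t1 t2
  nlinarith

/-- The grid points. -/
noncomputable def gJ (N : ℕ) : Finset (ℤ × ℤ) := Finset.Icc (-(N:ℤ)) N ×ˢ Finset.Icc (-(N:ℤ)) N

theorem card_gJ (N : ℕ) : (gJ N).card = (2 * N + 1) ^ 2 := by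
  unfold gJ
  rw [Finset.card_product, Int.card_Icc]
  have : ((N:ℤ) + 1 - -(N:ℤ)).toNat = 2 * N + 1 := by omega
  rw [this, sq]

theorem near_grid {m N n : ℕ} (hm : 1 ≤ m) (hN : n < N * m) {f : Vtx} (h1 : |f.1| ≤ n)
    (h2 : |f.2| ≤ n) : (f.1 / m, f.2 / m) ∈ gJ N ∧
      inR (m * (f.1 / m) - m) (m * (f.1 / m) + m) (m * (f.2 / m) - m) (m * (f.2 / m) + m) f := by
  have hm0 : (0:ℤ) < m := by exact_mod_cast hm
  rw [abs_le] at h1 h2
  have hN' : (n:ℤ) < N * m := by exact_mod_cast hN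
  have key : ∀ x : ℤ, -(n:ℤ) ≤ x → x ≤ n → -(N:ℤ) ≤ x / m ∧ x / m ≤ N := by
    intro x hx1 hx2
    constructor
    · rw [Int.le_ediv_iff_mul_le hm0]
      linarith [neg_mul (N:ℤ) (m:ℤ)]
    · have : x / m < N := by
        rw [Int.ediv_lt_iff_lt_mul hm0]
        linarith
      omega
  have r1 := Int.emod_add_mul_ediv f.1 m
  have r2 := Int.emod_add_mul_ediv f.2 m
  have s1 := Int.emod_nonneg f.1 hm0.ne'
  have s2 := Int.emod_lt_of_pos f.1 hm0
  have s3 := Int.emod_nonneg f.2 hm0.ne'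
  have s4 := Int.emod_lt_of_pos f.2 hm0
  refine ⟨?_, ?_⟩
  · unfold gJ
    rw [Finset.mem_product, Finset.mem_Icc, Finset.mem_Icc]
    exact ⟨key _ h1.1 h1.2, key _ h2.1 h2.2⟩
  · unfold inR
    refine ⟨⟨by linarith, by linarith⟩, by linarith, by linarith⟩

/-- The probability that the walk has a point far from the arc. -/
theorem far_walk {c C : ℝ}
    (hs1 : ∀ q : ℝ, 0 ≤ q → q ≤ 1/2 → ∀ m : ℕ, 1 ≤ m → ∀ (c1 c2 : ℤ) (S : Finset Edg),
      PQ q S (fun F => Crs c1 c2 m (3 * m) ↑F) ≤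
        C * Real.exp (-(c * (m * |q - 1/2|^(4/3 : ℝ)))))
    (hs2 : ∀ q : ℝ, 1/2 ≤ q → q ≤ 1 → ∀ m : ℕ, 1 ≤ m → ∀ (c1 c2 : ℤ) (S : Finset Edg),
      PQ q S (fun F => DCrs c1 c2 m (3 * m) (↑(S \ F) : Set Edg)) ≤
        C * Real.exp (-(c * (m * |q - 1/2|^(4/3 : ℝ)))))
    {R : Rect} {δ ε : ℝ} (hδ : 0 < δ) (hD : (R.dm δ).Ok) {m N n : ℕ} (hm : 1 ≤ m)
    (hme : δ * (8 * m + 5) ≤ ε) (hN : n < N * m) (hn1 : (R.dm δ).r - (R.dm δ).l ≤ n)
    (hn2 : (R.dm δ).h + 1 ≤ n) {p : ℝ} (h0 : 0 ≤ p) (h1 : p ≤ 1) :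
    (1/2 ≤ p → prp R p δ (fun F => ∃ k ≤ (R.dm δ).len F, ∀ z ∈ arcF R,
      ε ≤ dist (pos δ ((R.dm δ).walk F k)) z) ≤
        (2 * N + 1) ^ 2 * (C * Real.exp (-(c * (m * |p - 1/2|^(4/3 : ℝ)))))) ∧
    (p ≤ 1/2 → prp R p δ (fun F => ∃ k ≤ (R.dm δ).len F, ∀ z ∈ arcW R,
      ε ≤ dist (pos δ ((R.dm δ).walk F k)) z) ≤
        (2 * N + 1) ^ 2 * (C * Real.exp (-(c * (m * |p - 1/2|^(4/3 : ℝ)))))) := by
  classical
  have ok := okp h0 h1
  obtain ⟨D, hDe⟩ : ∃ D : Dm, D = R.dm δ := ⟨_, rfl⟩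
  rw [← hDe] at hD hn1 hn2 ⊢
  have hl := hD.l_neg
  have hr := hD.r_pos
  have hh := hD.h_pos
  constructor
  · intro hp
    have hsub : ∀ F, F ⊆ D.edges → (∃ k ≤ D.len F, ∀ z ∈ arcF R, ε ≤ dist (pos δ (D.walk F k)) z) →
        ∃ j ∈ gJ N, DCrs (m * j.1) (m * j.2) m (3 * m) (↑(D.edges \ F) : Set Edg) := by
      rintro F hF ⟨k, hk, hz⟩
      obtain ⟨g, hg, hr⟩ := (walk_clu hD hF hk).2
      have hin := walk_in hD hF k
      obtain ⟨fa, fb⟩ := arms_face (D.walk F k)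
      unfold inR at hin
      obtain ⟨j1, j2⟩ := near_grid (m := m) (N := N) (n := n) hm hN (f := face (D.walk F k))
        (by rw [abs_le]; omega) (by rw [abs_le]; omega)
      refine ⟨_, j1, face (D.walk F k), g, j2, ?_, ?_⟩
      · rw [hDe] at hg
        obtain ⟨z, hz1, hz2, hz3⟩ := outer_near hδ hg
        refine far_end hδ hme (σ := D.walk F k) (f := face (D.walk F k)) ?_ hz2 hz3 (hz z hz1) j2
        unfold sd
        refine max_le ?_ ?_ <;> rw [abs_le] <;> omega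
      · refine DReach.symm (DReach.mono ?_ hr)
        intro e he
        rw [Finset.coe_sdiff]
        exact ⟨he.1, fun h => he.2 (Or.inl h)⟩
    unfold prp
    rw [← hDe]
    refine (Pr_mono ok hsub).trans ((Pr_exists_le ok D.edges (gJ N) (fun j F =>
      DCrs (m * j.1) (m * j.2) m (3 * m) (↑(D.edges \ F) : Set Edg))).trans ?_)
    refine (Finset.sum_le_card_nsmul _ _ _ (fun j _ => hs2 p hp h1 m hm _ _ D.edges)).trans ?_
    rw [card_gJ, nsmul_eq_mul]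
    push_cast
    exact le_refl _
  · intro hp
    have hsub : ∀ F, F ⊆ D.edges → (∃ k ≤ D.len F, ∀ z ∈ arcW R, ε ≤ dist (pos δ (D.walk F k)) z) →
        ∃ j ∈ gJ N, Crs (m * j.1) (m * j.2) m (3 * m) (↑F : Set Edg) := by
      rintro F hF ⟨k, hk, hz⟩
      obtain ⟨g, hg, hr⟩ := clu_wv hD (walk_clu hD hF hk).1
      have hin := walk_in hD hF k
      unfold inR at hin
      obtain ⟨j1, j2⟩ := near_grid (m := m) (N := N) (n := n) hm hN (f := (D.walk F k).1)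
        (by rw [abs_le]; omega) (by rw [abs_le]; omega)
      refine ⟨_, j1, (D.walk F k).1, g, j2, ?_, hr⟩
      rw [hDe] at hg
      obtain ⟨z, hz1, hz2, hz3⟩ := wv_near hδ hg
      refine far_end hδ hme (σ := D.walk F k) (f := (D.walk F k).1) ?_ hz2 hz3 (hz z hz1) j2
      rw [Walk_sd_self]
      norm_num
    unfold prp
    rw [← hDe]
    refine (Pr_mono ok hsub).trans ((Pr_exists_le ok D.edges (gJ N) (fun j F =>
      Crs (m * j.1) (m * j.2) m (3 * m) (↑F : Set Edg))).trans ?_)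
    refine (Finset.sum_le_card_nsmul _ _ _ (fun j _ => hs1 p h0 hp m hm _ _ D.edges)).trans ?_
    rw [card_gJ, nsmul_eq_mul]
    push_cast
    exact le_refl _

theorem curve_far {R : Rect} {δ ε : ℝ} (hδ : 0 < δ) (hε : δ ≤ ε) {F : Finset Edg} {A : Set ℂ}
    (h : ∃ s : unitInterval, ∀ z ∈ A, ε ≤ dist (R.curve δ F s) z) :
    ∃ k ≤ (R.dm δ).len F, ∀ z ∈ A, ε / 2 ≤ dist (pos δ ((R.dm δ).walk F k)) z := by
  obtain ⟨s, hs⟩ := h
  obtain ⟨k, hk, hd⟩ := pl_close (N := (R.dm δ).len F)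
    (p := fun k => pos δ ((R.dm δ).walk F k)) (δ := δ / 2) (by positivity) (fun k _ => by
      rw [walk_succ]
      exact pos_nxt hδ.le _ _) s
  refine ⟨k, hk, fun z hz => ?_⟩
  have h1 := hs z hz
  have h2 := dist_triangle (R.curve δ F s) (pos δ ((R.dm δ).walk F k)) z
  have h3 : dist (R.curve δ F s) (pos δ ((R.dm δ).walk F k)) ≤ δ / 2 := hd
  linarith

/-- Off the critical window the curve is close to a boundary arc. -/
theorem collapse (R : Rect) : ∃ c C δ0 : ℝ, 0 < c ∧ 0 < C ∧ 0 < δ0 ∧ ∀ δ : ℝ, 0 < δ → δ ≤ δ0 →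
    ∀ ε : ℝ, 0 < ε → ε ≤ 1 → ∀ p : ℝ, 0 ≤ p → p ≤ 1 →
      (1/2 ≤ p → prp R p δ (fun F => ∃ s : unitInterval, ∀ z ∈ arcF R,
        ε ≤ dist (R.curve δ F s) z) ≤
        C * (ε ^ 2)⁻¹ * Real.exp (-(c * ε * (|p - 1/2| * δ ^ (-(3/4) : ℝ)) ^ (4/3 : ℝ)))) ∧
      (p ≤ 1/2 → prp R p δ (fun F => ∃ s : unitInterval, ∀ z ∈ arcW R,
        ε ≤ dist (R.curve δ F s) z) ≤
        C * (ε ^ 2)⁻¹ * Real.exp (-(c * ε * (|p - 1/2| * δ ^ (-(3/4) : ℝ)) ^ (4/3 : ℝ)))) := by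
  obtain ⟨c, C, hc, hC, hs1, hs2⟩ := dcrs_small
  obtain ⟨κ, S, δ0, hκ, hS, hδ0, hδ01, hsh⟩ := R.shape
  obtain ⟨A, hA⟩ : ∃ A : ℝ, A = 256 * S + 515 := ⟨_, rfl⟩
  have hA0 : 0 < A := by rw [hA]; positivity
  refine ⟨c / 128, max (A ^ 2 * C) (Real.exp (c / 2)), δ0, by positivity,
    lt_of_lt_of_le (by positivity) (le_max_left _ _), hδ0, ?_⟩
  intro δ hδ hδ' ε hε hε1 p h0 h1
  have hδ1 : δ ≤ 1 := hδ'.trans hδ01
  have hy : |p - 1/2| ≤ 1 := by rw [abs_le]; constructor <;> linarith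
  obtain ⟨y, hyd⟩ : ∃ y : ℝ, y = |p - 1/2| ^ (4/3 : ℝ) := ⟨_, rfl⟩
  have hy0 : 0 ≤ y := by rw [hyd]; positivity
  have hy1 : y ≤ 1 := by rw [hyd]; exact Real.rpow_le_one (abs_nonneg _) hy (by norm_num)
  have hyx : (|p - 1/2| * δ ^ (-(3/4) : ℝ)) ^ (4/3 : ℝ) = y / δ := by
    rw [Real.mul_rpow (abs_nonneg _) (by positivity), ← Real.rpow_mul hδ.le, hyd]
    rw [show (-(3/4) : ℝ) * (4/3) = -1 by norm_num, Real.rpow_neg_one]
    rfl
  rw [hyx]
  have hε2 : 1 ≤ (ε ^ 2)⁻¹ := by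
    rw [one_le_inv₀ (by positivity)]
    exact pow_le_one₀ hε.le hε1
  rcases lt_or_ge ε (64 * δ) with hsm | hbig
  · have hone : 1 ≤ max (A ^ 2 * C) (Real.exp (c / 2)) * (ε ^ 2)⁻¹ *
        Real.exp (-(c / 128 * ε * (y / δ))) := by
      have e1 : c / 128 * ε * (y / δ) ≤ c / 2 := by
        have : ε * (y / δ) ≤ 64 := by
          rw [mul_div_assoc', div_le_iff₀ hδ]
          nlinarith
        nlinarith
      have e2 : Real.exp (-(c / 2)) ≤ Real.exp (-(c / 128 * ε * (y / δ))) :=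
        Real.exp_le_exp.mpr (by linarith)
      have e3 : Real.exp (c / 2) * Real.exp (-(c / 2)) = 1 := by
        rw [← Real.exp_add]; simp
      calc (1:ℝ) = Real.exp (c / 2) * 1 * Real.exp (-(c / 2)) := by rw [mul_one, e3]
        _ ≤ _ := by
          refine mul_le_mul (mul_le_mul (le_max_right _ _) hε2 zero_le_one ?_) e2
            (Real.exp_pos _).le ?_
          · exact (Real.exp_pos _).le.trans (le_max_right _ _)
          · exact mul_nonneg ((Real.exp_pos _).le.trans (le_max_right _ _)) (by positivity)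
    exact ⟨fun _ => (Pr_le_one (okp h0 h1) _ _).trans hone,
      fun _ => (Pr_le_one (okp h0 h1) _ _).trans hone⟩
  · have hsp := hsh δ hδ hδ'
    have hD := hsp.ok
    obtain ⟨m, hmd⟩ : ∃ m : ℕ, m = ⌊ε / (64 * δ)⌋₊ := ⟨_, rfl⟩
    have hx1 : 1 ≤ ε / (64 * δ) := by rw [le_div_iff₀ (by positivity)]; linarith
    have m1 : (m:ℝ) ≤ ε / (64 * δ) := by rw [hmd]; exact Nat.floor_le (by positivity)
    have m2 : ε / (64 * δ) < m + 1 := by rw [hmd]; exact Nat.lt_floor_add_one _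
    have hm : 1 ≤ m := by
      rw [hmd]
      exact Nat.le_floor (by exact_mod_cast hx1)
    have hm' : (1:ℝ) ≤ m := by exact_mod_cast hm
    have m3 : ε / (128 * δ) ≤ m := by
      have : ε / (128 * δ) = ε / (64 * δ) / 2 := by field_simp; norm_num
      rw [this]; linarith
    obtain ⟨n, hnd⟩ : ∃ n : ℕ, n = ⌈S / δ⌉₊ + 1 := ⟨_, rfl⟩
    have n1 : S / δ + 1 ≤ n := by
      rw [hnd]; push_cast
      linarith [Nat.le_ceil (S / δ)]
    have n2 : (n:ℝ) ≤ S / δ + 2 := by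
      rw [hnd]; push_cast
      linarith [Nat.ceil_lt_add_one (show 0 ≤ S / δ by positivity)]
    obtain ⟨N, hNd⟩ : ∃ N : ℕ, N = n / m + 1 := ⟨_, rfl⟩
    have hN : n < N * m := by
      rw [hNd, mul_comm]
      exact Nat.lt_mul_div_succ n (by omega)
    have hNr : (2 * (N:ℝ) + 1) ≤ A / ε := by
      have g1 : (N:ℝ) ≤ n / m + 1 := by
        rw [hNd]; push_cast
        have := @Nat.cast_div_le ℝ _ _ _ n m
        linarith
      have g2 : (n:ℝ) / m ≤ (128 * S + 256) / ε := by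
        rw [div_le_div_iff₀ (by linarith) hε]
        have g3 : (n:ℝ) * ε ≤ (S / δ + 2) * ε := mul_le_mul_of_nonneg_right n2 hε.le
        have g4 : (128 * S + 256) * (ε / (128 * δ)) ≤ (128 * S + 256) * m :=
          mul_le_mul_of_nonneg_left m3 (by positivity)
        have g5 : (S / δ + 2) * ε ≤ (128 * S + 256) * (ε / (128 * δ)) := by
          have e : (128 * S + 256) * (ε / (128 * δ)) = S / δ * ε + 2 * ε / δ := by
            field_simp; ring
          rw [e, add_mul]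
          have : 2 * ε ≤ 2 * ε / δ := by
            rw [le_div_iff₀ hδ]
            nlinarith
          linarith
        linarith
      have g6 : (1:ℝ) ≤ 1 / ε := by rw [le_div_iff₀ hε]; linarith
      have e : A / ε = 2 * ((128 * S + 256) / ε) + 3 * (1 / ε) := by rw [hA]; field_simp; ring
      rw [e]; linarith
    have hme : δ * (8 * m + 5) ≤ ε / 2 := by
      have : (m:ℝ) * (64 * δ) ≤ ε := by rwa [le_div_iff₀ (by positivity)] at m1
      nlinarith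
    have hn1 : (R.dm δ).r - (R.dm δ).l ≤ n := by
      have := hsp.w_le
      have h : (((R.dm δ).r - (R.dm δ).l : ℤ) : ℝ) ≤ ((n : ℤ) : ℝ) := by push_cast at this ⊢; linarith
      exact_mod_cast h
    have hn2 : (R.dm δ).h + 1 ≤ n := by
      have := hsp.h_le
      have h : (((R.dm δ).h + 1 : ℤ) : ℝ) ≤ ((n : ℤ) : ℝ) := by push_cast at this ⊢; linarith
      exact_mod_cast h
    have hfin : (2 * (N:ℝ) + 1) ^ 2 * (C * Real.exp (-(c * (m * |p - 1/2|^(4/3 : ℝ))))) ≤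
        max (A ^ 2 * C) (Real.exp (c / 2)) * (ε ^ 2)⁻¹ *
          Real.exp (-(c / 128 * ε * (y / δ))) := by
      rw [← hyd]
      have k1 : (2 * (N:ℝ) + 1) ^ 2 ≤ A ^ 2 * (ε ^ 2)⁻¹ := by
        have := pow_le_pow_left₀ (by positivity : (0:ℝ) ≤ 2 * (N:ℝ) + 1) hNr 2
        rwa [div_pow, div_eq_mul_inv] at this
      have k2 : Real.exp (-(c * (m * y))) ≤ Real.exp (-(c / 128 * ε * (y / δ))) := by
        apply Real.exp_le_exp.mpr
        have : ε / (128 * δ) * y ≤ m * y := mul_le_mul_of_nonneg_right m3 hy0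
        have e : c / 128 * ε * (y / δ) = c * (ε / (128 * δ) * y) := by field_simp
        rw [e]
        have := mul_le_mul_of_nonneg_left this hc.le
        linarith
      calc _ ≤ (A ^ 2 * (ε ^ 2)⁻¹) * (C * Real.exp (-(c / 128 * ε * (y / δ)))) :=
            mul_le_mul k1 (mul_le_mul_of_nonneg_left k2 hC.le) (by positivity) (by positivity)
        _ = (A ^ 2 * C) * (ε ^ 2)⁻¹ * Real.exp (-(c / 128 * ε * (y / δ))) := by ring
        _ ≤ _ := by
          refine mul_le_mul_of_nonneg_right (mul_le_mul_of_nonneg_right (le_max_left _ _) ?_) ?_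
          · positivity
          · exact (Real.exp_pos _).le
    obtain ⟨w1, w2⟩ := far_walk hs1 hs2 hδ hD hm hme hN hn1 hn2 h0 h1
    refine ⟨fun hp => ?_, fun hp => ?_⟩
    · exact (Pr_mono (okp h0 h1) (fun F _ hF => curve_far hδ (by linarith) hF)).trans
        ((w1 hp).trans hfin)
    · exact (Pr_mono (okp h0 h1) (fun F _ hF => curve_far hδ (by linarith) hF)).trans
        ((w2 hp).trans hfin)

end Q291.EP
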