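import Pool.Agent.Q291.EP.Coll
import Pool.Agent.TH992.T.Vis
import Pool.Agent.H984R3.Per.LowEV

/-!
At `p = 1/2` the exploration path has points far from each of the two boundary arcs with
probability bounded below.
-/

set_option maxHeartbeats 1000000

namespace Q291.EP

open H974 Finset H342P H984P H984N H12S

theorem pr_nmem {S : Finset Edg} {e : Edg} (he : e ∈ S) :
    Pr (fun _ => (1/2:ℝ)) S (fun F => e ∉ F) = 1/2 := by
  rw [Pr_local (S' := {e}) (by simpa using he) (fun F _ => by simp)]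
  unfold Pr
  rw [show ({e} : Finset Edg) = insert e ∅ from rfl, Ex_insert _ (Finset.notMem_empty e), Ex_empty,
    Ex_empty, ind_not_of (by simp), ind_of (by simp)]
  norm_num

theorem curve_at (R : Rect) {δ : ℝ} {F : Finset Edg} {k : ℕ} (hk : k ≤ (R.dm δ).len F) :
    ∃ s : unitInterval, R.curve δ F s = pos δ ((R.dm δ).walk F k) := by
  unfold Rect.curve
  obtain ⟨N, hN⟩ : ∃ N, N = (R.dm δ).len F := ⟨_, rfl⟩
  rw [← hN] at hk ⊢
  rcases Nat.lt_or_ge k N with h | h
  · have hN0 : (0:ℝ) < N := by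
      have : 0 < N := by omega
      exact_mod_cast this
    have hkN : (k:ℝ) ≤ N := by exact_mod_cast hk
    refine ⟨⟨(k:ℝ) / N, by positivity, by rw [div_le_one hN0]; exact hkN⟩, ?_⟩
    have e : ((⟨(k:ℝ) / N, by positivity, by rw [div_le_one hN0]; exact hkN⟩ : unitInterval) : ℝ) * N
        = k := by
      simp only
      field_simp
    rw [pl_seg h (by rw [e]) (by rw [e]; linarith), e]
    simp
  · have : k = N := by omega
    rw [this]
    exact ⟨1, pl_one _ _⟩

/-- The left column is in the cluster. -/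
theorem left_clu {D : Dm} (hD : D.Ok) (F : Finset Edg) {y : ℤ} (h0 : 0 ≤ y) (h1 : y ≤ D.h) :
    (D.l, y) ∈ D.clu F := by
  have hl := hD.l_neg
  have e2 := clu_bottom (D := D) F (-D.l).toNat (by omega)
  have e3 := clu_left (D := D) F y.toNat (by omega)
  rw [show -(((-D.l).toNat : ℕ) : ℤ) = D.l by omega] at e2
  rw [show ((y.toNat : ℕ) : ℤ) = y by omega] at e3
  exact e2.trans e3

/-- A dual crossing of the middle gives a visit of the left column. -/
theorem vis_left {D : Dm} (hD : D.Ok) {F : Finset Edg} (hF : F ⊆ D.edges) {c d : ℤ} (hc : 1 ≤ c)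
    (hd : d ≤ D.h - 2) (h : LRc D.l D.r c d (dmp (D.edges \ F))) :
    ∃ y, c ≤ y ∧ y ≤ d ∧ D.Vis F ((D.l, y), .ne) := by
  obtain ⟨y, y', ⟨h1, h2⟩, ⟨h3, h4⟩, hr⟩ := h
  have hl := hD.l_neg
  have hr0 := hD.r_pos
  refine ⟨y, h1, h2, TH992.T.vis_of hD hF (left_clu hD F (by omega) (by omega)) ?_ ?_⟩
  · refine ⟨(D.r, y'), Or.inr (Or.inl ⟨rfl, by simp only; omega, by simp only; omega⟩), ?_⟩
    rw [face_ne]
    refine DReach.symm (reach_dl.mp (hr.mono ?_))
    rintro f ⟨hf1, hf2⟩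
    rw [mem_coe, mem_dmp, mem_sdiff] at hf1
    rw [mem_coe] at hf2
    refine ⟨dl.symm f, ⟨hf1.1, ?_⟩, Equiv.apply_symm_apply _ _⟩
    rintro (hcon | hcon)
    · exact hf1.2 hcon
    · obtain ⟨x, z, _ | _⟩ := f
      · rw [mem_LRE_false] at hf2
        rw [dls_f] at hcon
        unfold Dm.wir at hcon
        simp only [Set.mem_ofPred_eq, true_and, Bool.true_eq_false, false_and, false_or] at hcon
        omega
      · rw [mem_LRE_true] at hf2
        rw [dls_t] at hcon
        unfold Dm.wir at hcon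
        simp only [Set.mem_ofPred_eq, true_and, Bool.false_eq_true, false_and, false_or,
          or_false] at hcon
        omega
  · rw [face_ne]
    unfold TH992.T.Out
    push Not
    simp only
    exact ⟨⟨le_refl _, by omega⟩, by omega, by omega⟩

/-- An open crossing of the middle and a closed edge at its end point give a visit of the right
column. -/
theorem vis_right {D : Dm} (hD : D.Ok) {F : Finset Edg} (hF : F ⊆ D.edges) {y y' : ℤ}
    (hy : 1 ≤ y) (hy2 : y ≤ D.h - 2) (hy' : 1 ≤ y') (hy2' : y' ≤ D.h - 2)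
    (hr : Reach (↑F : Set Edg) (D.l, y) (D.r, y')) (he : (D.r, y', false) ∉ F) :
    D.Vis F ((D.r, y'), .nw) := by
  have hl := hD.l_neg
  have hr0 := hD.r_pos
  refine TH992.T.vis_of hD hF ?_ ?_ ?_
  · have h1 := left_clu hD F (y := y) (by omega) (by omega)
    exact Reach.trans h1 (hr.mono (fun e he => Or.inl he))
  · rw [face_nw]
    refine ⟨(D.r, y'), Or.inr (Or.inl ⟨rfl, by simp only; omega, by simp only; omega⟩),
      DAdj.reach ⟨(D.r, y', false), ⟨?_, ?_⟩, Or.inr ⟨?_, ?_⟩⟩⟩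
    · unfold Dm.edges
      rw [mem_coe, mem_RE_false]
      omega
    · rintro (hcon | hcon)
      · exact he hcon
      · unfold Dm.wir at hcon
        simp only [Set.mem_ofPred_eq, true_and, Bool.false_eq_true, false_and, false_or,
          or_false] at hcon
        omega
    · simp
    · simp
  · rw [face_nw]
    unfold TH992.T.Out
    push Not
    simp only
    exact ⟨⟨by omega, by omega⟩, by omega, by omega⟩

theorem pr_left {D : Dm} {c d : ℤ} (hc : 1 ≤ c) (hd : d ≤ D.h - 2) {q : ℝ}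
    (hq : q ≤ hh (1/2) (D.r - D.l) (d - c)) :
    q ≤ P D.edges (fun F => LRc D.l D.r c d (dmp (D.edges \ F))) := by
  have e := pr_dual (q := 1/2) D.edges (LRc D.l D.r c d)
  unfold PQ at e
  unfold P
  rw [e, show (1:ℝ) - 1/2 = 1/2 by norm_num, pr_LRc]
  · exact hq
  · rintro ⟨x, y, _ | _⟩ h
    · rw [mem_dmp, dls_f]
      rw [mem_LRE_false] at h
      unfold Dm.edges
      rw [mem_RE_true]
      omega
    · rw [mem_dmp, dls_t]
      rw [mem_LRE_true] at h
      unfold Dm.edges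
      rw [mem_RE_false]
      omega

theorem pr_right {D : Dm} (hD : D.Ok) {c d : ℤ} (hc : 1 ≤ c) (hd : d ≤ D.h - 2) {q : ℝ}
    (hq : q ≤ hh (1/2) (D.r - D.l) (d - c)) :
    q * (1/2) ≤ P D.edges (fun F => ∃ y, c ≤ y ∧ y ≤ d ∧ D.Vis F ((D.r, y), .nw)) := by
  classical
  obtain ⟨U, hU⟩ : ∃ U : Finset Edg, U = LRE D.l D.r c d := ⟨_, rfl⟩
  obtain ⟨V, hV⟩ : ∃ V : Finset Edg, V = D.edges \ U := ⟨_, rfl⟩
  have hUS : U ⊆ D.edges := by
    rw [hU]
    rintro ⟨x, y, _ | _⟩ h
    · rw [mem_LRE_false] at h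
      unfold Dm.edges
      rw [mem_RE_false]
      omega
    · rw [mem_LRE_true] at h
      unfold Dm.edges
      rw [mem_RE_true]
      omega
  have hUV : U ∪ V = D.edges := by rw [hV]; exact Finset.union_sdiff_of_subset hUS
  have hdis : Disjoint U V := by rw [hV]; exact Finset.disjoint_sdiff
  have ok : Ok (fun _ : Edg => (1/2:ℝ)) := okq (by norm_num) (by norm_num)
  unfold P Pr
  rw [← hUV, Ex_union hdis]
  have key : ∀ G, G ⊆ U → ind (LRc D.l D.r c d G) * (1/2) ≤ Ex (fun _ => (1/2:ℝ)) V (fun H =>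
      ind (∃ y, c ≤ y ∧ y ≤ d ∧ D.Vis (G ∪ H) ((D.r, y), .nw))) := by
    intro G hG
    by_cases hL : LRc D.l D.r c d G
    · rw [ind_of hL, one_mul]
      obtain ⟨y, y', ⟨h1, h2⟩, ⟨h3, h4⟩, hr⟩ := hL
      have heV : ((D.r, y', false) : Edg) ∈ V := by
        rw [hV, mem_sdiff]
        constructor
        · unfold Dm.edges
          rw [mem_RE_false]
          have := hD.l_neg
          have := hD.r_pos
          omega
        · rw [hU, mem_LRE_false]
          omega
      refine (pr_nmem heV).symm.le.trans ?_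
      unfold Pr
      refine Ex_mono ok (fun H hH => ind_mono (fun hne => ?_))
      refine ⟨y', h3, h4, vis_right hD ?_ (y := y) (by omega) (by omega) (by omega) (by omega)
        (hr.mono ?_) ?_⟩
      · exact (Finset.union_subset (hG.trans hUS) (hH.trans (by rw [hV]; exact Finset.sdiff_subset)))
      · rintro e ⟨he, -⟩
        rw [mem_coe, mem_union]
        exact Or.inl he
      · rw [mem_union]
        rintro (hcon | hcon)
        · exact (Finset.disjoint_left.mp hdis (hG hcon)) heV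
        · exact hne hcon
    · rw [ind_not_of hL, zero_mul]
      exact Ex_nonneg ok (fun H _ => ind_nonneg _)
  have hE := Ex_mono ok key
  refine le_trans ?_ hE
  rw [Ex_mul_right]
  refine mul_le_mul_of_nonneg_right ?_ (by norm_num)
  have e := pr_LRc (1/2) (a := D.l) (b := D.r) (c := c) (d := d) (S := U) (by rw [hU])
  unfold Pr at e
  rw [e]
  exact hq

/-- The middle third is far from the horizontal sides. -/
theorem mid_im (R : Rect) {δ : ℝ} (hδ : 0 < δ) (hδH : 10 * δ ≤ R.H) {y : ℤ} {Q : Q4}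
    (h1 : (R.dm δ).h / 3 ≤ y) (h2 : y ≤ 2 * (R.dm δ).h / 3) (x : ℤ) (hQ : Q = .ne ∨ Q = .nw) :
    R.H / 8 ≤ (pos δ ((x, y), Q)).im ∧ (pos δ ((x, y), Q)).im ≤ R.H - R.H / 8 := by
  have hh := dm_h R hδ
  have e : (pos δ ((x, y), Q)).im = δ * (y + 1 + 1/4) := by
    rcases hQ with h | h <;> rw [h] <;> rfl
  have a1 : (R.dm δ).h ≤ 3 * y + 2 := by omega
  have a2 : 3 * y ≤ 2 * (R.dm δ).h := by omega
  have b1 : (((R.dm δ).h : ℤ) : ℝ) ≤ 3 * y + 2 := by exact_mod_cast a1
  have b2 : (3:ℝ) * y ≤ 2 * (((R.dm δ).h : ℤ) : ℝ) := by exact_mod_cast a2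
  rw [e]
  constructor <;> nlinarith

theorem nondeg (R : Rect) : ∃ c δ0 : ℝ, 0 < c ∧ 0 < δ0 ∧ ∀ δ : ℝ, 0 < δ → δ ≤ δ0 →
    c ≤ R.prob δ (fun F => ∃ s : unitInterval, ∀ z ∈ arcF R, c ≤ dist (R.curve δ F s) z) ∧
    c ≤ R.prob δ (fun F => ∃ s : unitInterval, ∀ z ∈ arcW R, c ≤ dist (R.curve δ F s) z) := by
  obtain ⟨κ, S, δ0, hκ, hS, hδ0, hδ01, hsh⟩ := R.shape
  have hA := R.hA
  have hB := R.hB
  have hH := R.hH
  obtain ⟨K, hK⟩ : ∃ K : ℕ, K = ⌈4 / κ⌉₊ := ⟨_, rfl⟩
  obtain ⟨q, hq0, hq1, hq⟩ := H984P.LEV.hh_low K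
  obtain ⟨c, hc⟩ : ∃ c : ℝ, c = min (min (R.H / 8) (min (R.A / 2) (R.B / 2))) (q * (1/2)) := ⟨_, rfl⟩
  have c1 : c ≤ R.H / 8 := by rw [hc]; exact (min_le_left _ _).trans (min_le_left _ _)
  have c2 : c ≤ R.A / 2 := by
    rw [hc]; exact (min_le_left _ _).trans ((min_le_right _ _).trans (min_le_left _ _))
  have c3 : c ≤ R.B / 2 := by
    rw [hc]; exact (min_le_left _ _).trans ((min_le_right _ _).trans (min_le_right _ _))
  have c4 : c ≤ q * (1/2) := by rw [hc]; exact min_le_right _ _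
  have c0 : 0 < c := by rw [hc]; positivity
  refine ⟨c, min δ0 (min (R.H / 20) (min (R.A / 4) (R.B / 4))), c0, by positivity, ?_⟩
  intro δ hδ hδm
  have hδ' : δ ≤ δ0 := hδm.trans (min_le_left _ _)
  have hδH : δ ≤ R.H / 20 := hδm.trans ((min_le_right _ _).trans (min_le_left _ _))
  have hδA : δ ≤ R.A / 4 :=
    hδm.trans ((min_le_right _ _).trans ((min_le_right _ _).trans (min_le_left _ _)))
  have hδB : δ ≤ R.B / 4 :=
    hδm.trans ((min_le_right _ _).trans ((min_le_right _ _).trans (min_le_right _ _)))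
  have hsp := hsh δ hδ hδ'
  have hD := hsp.ok
  have hl := dm_l R hδ
  have hr := dm_r R hδ
  have hhd := dm_h R hδ
  have hh12 : 12 ≤ (R.dm δ).h := by
    have h : ((12 : ℤ) : ℝ) ≤ (((R.dm δ).h : ℤ) : ℝ) := by
      push_cast
      by_contra hcon
      push Not at hcon
      have := mul_lt_mul_of_pos_left hcon hδ
      linarith
    exact_mod_cast h
  have hqq : q ≤ hh (1/2) ((R.dm δ).r - (R.dm δ).l) (2 * (R.dm δ).h / 3 - (R.dm δ).h / 3) := by
    apply hq
    · omega
    · have := hD.l_neg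
      have := hD.r_pos
      omega
    · have g1 := hsp.w_le
      have g2 := hsp.h_ge
      have g3 : (R.dm δ).h ≤ 4 * (2 * (R.dm δ).h / 3 - (R.dm δ).h / 3) := by omega
      have g4 : (((R.dm δ).h : ℤ) : ℝ) ≤
          4 * ((2 * (R.dm δ).h / 3 - (R.dm δ).h / 3 : ℤ) : ℝ) := by exact_mod_cast g3
      have g5 : 4 / κ ≤ K := by rw [hK]; exact Nat.le_ceil _
      have g6 : S / δ ≤ (((R.dm δ).h : ℤ) : ℝ) / κ := by
        rw [le_div_iff₀ hκ]; linarith
      have g7 : (((R.dm δ).h : ℤ) : ℝ) / κ ≤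
          4 / κ * ((2 * (R.dm δ).h / 3 - (R.dm δ).h / 3 : ℤ) : ℝ) := by
        rw [div_mul_eq_mul_div, div_le_div_iff_of_pos_right hκ]
        exact g4
      have g8 : (0:ℝ) ≤ ((2 * (R.dm δ).h / 3 - (R.dm δ).h / 3 : ℤ) : ℝ) := by
        have : (0:ℤ) ≤ 2 * (R.dm δ).h / 3 - (R.dm δ).h / 3 := by omega
        exact_mod_cast this
      have g9 : (((R.dm δ).r - (R.dm δ).l : ℤ) : ℝ) ≤
          (K:ℝ) * ((2 * (R.dm δ).h / 3 - (R.dm δ).h / 3 : ℤ) : ℝ) :=
        (g1.trans (g6.trans g7)).trans (mul_le_mul_of_nonneg_right g5 g8)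
      exact_mod_cast g9
  have ok : Ok (fun _ : Edg => (1/2:ℝ)) := okq (by norm_num) (by norm_num)
  constructor
  · refine (c4.trans (by linarith : q * (1/2) ≤ q)).trans ((pr_left (D := R.dm δ)
      (c := (R.dm δ).h / 3) (d := 2 * (R.dm δ).h / 3) (by omega) (by omega) hqq).trans ?_)
    unfold Rect.prob P
    refine Pr_mono ok (fun F hF hL => ?_)
    obtain ⟨y, h1, h2, k, hk, hw⟩ := vis_left hD hF (by omega) (by omega) hL
    obtain ⟨s, hs⟩ := curve_at R hk
    refine ⟨s, fun z hz => ?_⟩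
    rw [hs, hw]
    obtain ⟨i1, i2⟩ := mid_im R hδ (by linarith) h1 h2 (R.dm δ).l (Or.inl rfl)
    have ere : (pos δ (((R.dm δ).l, y), Q4.ne)).re = δ * ((R.dm δ).l + 1/4) := rfl
    have hneg : (pos δ (((R.dm δ).l, y), Q4.ne)).re ≤ 0 := by
      rw [ere]
      nlinarith
    rcases hz with ⟨z1, z2, z3⟩ | ⟨z1, z2, z3⟩ | ⟨z1, z2, z3⟩
    · refine le_trans ?_ (ML.le_dist_im _ _)
      rw [z1, sub_zero]
      exact (c1.trans i1).trans (le_abs_self _)
    · refine le_trans ?_ (ML.le_dist_re _ _)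
      rw [z1, abs_sub_comm]
      exact le_trans (by linarith) (le_abs_self _)
    · refine le_trans ?_ (ML.le_dist_im _ _)
      rw [z1, abs_sub_comm]
      exact le_trans (by linarith) (le_abs_self _)
  · refine c4.trans ((pr_right (D := R.dm δ) hD
      (c := (R.dm δ).h / 3) (d := 2 * (R.dm δ).h / 3) (by omega) (by omega) hqq).trans ?_)
    unfold Rect.prob P
    refine Pr_mono ok (fun F hF hL => ?_)
    obtain ⟨y, h1, h2, k, hk, hw⟩ := hL
    obtain ⟨s, hs⟩ := curve_at R hk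
    refine ⟨s, fun z hz => ?_⟩
    rw [hs, hw]
    obtain ⟨i1, i2⟩ := mid_im R hδ (by linarith) h1 h2 (R.dm δ).r (Or.inr rfl)
    have ere : (pos δ (((R.dm δ).r, y), Q4.nw)).re = δ * ((R.dm δ).r - 1/4) := rfl
    have hpos : 0 ≤ (pos δ (((R.dm δ).r, y), Q4.nw)).re := by
      rw [ere]
      nlinarith
    rcases hz with ⟨z1, z2, z3⟩ | ⟨z1, z2, z3⟩ | ⟨z1, z2, z3⟩
    · refine le_trans ?_ (ML.le_dist_im _ _)
      rw [z1, sub_zero]
      exact (c1.trans i1).trans (le_abs_self _)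
    · refine le_trans ?_ (ML.le_dist_re _ _)
      rw [z1]
      exact le_trans (by linarith) (le_abs_self _)
    · refine le_trans ?_ (ML.le_dist_im _ _)
      rw [z1, abs_sub_comm]
      exact le_trans (by linarith) (le_abs_self _)

end Q291.EP
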