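import Pool.Agent.Q291.EP.Flip

/-!
The coarse path: the cells of side `w` at the successive times at which the path leaves the block
of nine cells around the last recorded cell.
-/

namespace Q291.EP

open H974 Finset H342P H984P H984N

/-- The cell of a vertex. -/
def cell (w : ℕ) (v : Vtx) : ℤ × ℤ := (v.1 / w, v.2 / w)

/-- Neighbouring cells. -/
def Nr (a b : ℤ × ℤ) : Prop := |a.1 - b.1| ≤ 1 ∧ |a.2 - b.2| ≤ 1

theorem Nr.refl (a : ℤ × ℤ) : Nr a a := by unfold Nr; simp

open Classical in
/-- The recorded cells, `c` being the current one. -/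
noncomputable def crs (w : ℕ) : ℤ × ℤ → List St → List (ℤ × ℤ)
  | _, [] => []
  | c, σ :: l => if Nr (cell w σ.1) c then crs w c l else cell w σ.1 :: crs w (cell w σ.1) l

open Classical in
/-- The current cell after a list of states. -/
noncomputable def cur (w : ℕ) : ℤ × ℤ → List St → ℤ × ℤ
  | c, [] => c
  | c, σ :: l => if Nr (cell w σ.1) c then cur w c l else cur w (cell w σ.1) l

theorem crs_append (w : ℕ) (A B : List St) : ∀ c : ℤ × ℤ,
    crs w c (A ++ B) = crs w c A ++ crs w (cur w c A) B := by
  induction A with
  | nil => intro c; simp [crs, cur]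
  | cons σ l ih =>
    intro c
    simp only [List.cons_append, crs, cur]
    by_cases h : Nr (cell w σ.1) c
    · rw [if_pos h, if_pos h, if_pos h, ih]
    · rw [if_neg h, if_neg h, if_neg h, ih, List.cons_append]

theorem cur_append (w : ℕ) (A B : List St) : ∀ c : ℤ × ℤ,
    cur w c (A ++ B) = cur w (cur w c A) B := by
  induction A with
  | nil => intro c; simp [cur]
  | cons σ l ih =>
    intro c
    simp only [List.cons_append, cur]
    by_cases h : Nr (cell w σ.1) c
    · rw [if_pos h, if_pos h, ih]
    · rw [if_neg h, if_neg h, ih]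

theorem crs_near (w : ℕ) {c : ℤ × ℤ} {B : List St} (h : ∀ σ ∈ B, Nr (cell w σ.1) c) :
    crs w c B = [] ∧ cur w c B = c := by
  induction B with
  | nil => simp [crs, cur]
  | cons σ l ih =>
    simp only [crs, cur]
    rw [if_pos (h σ (by simp)), if_pos (h σ (by simp))]
    exact ih (fun τ hτ => h τ (by simp [hτ]))

/-- The states up to time `n`. -/
def upto (f : ℕ → St) (n : ℕ) : List St := (List.range (n + 1)).map f

theorem upto_succ (f : ℕ → St) (n : ℕ) : upto f (n + 1) = upto f n ++ [f (n + 1)] := by
  unfold upto
  rw [List.range_succ, List.map_append, List.map_singleton]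

theorem crs_one (w : ℕ) (c : ℤ × ℤ) (σ : St) (h : Nr (cell w σ.1) c) :
    crs w c [σ] = [] ∧ cur w c [σ] = c := crs_near w (by simpa using h)

theorem crs_one' (w : ℕ) (c : ℤ × ℤ) (σ : St) (h : ¬ Nr (cell w σ.1) c) :
    crs w c [σ] = [cell w σ.1] ∧ cur w c [σ] = cell w σ.1 := by
  simp only [crs, cur]
  rw [if_neg h, if_neg h]
  exact ⟨rfl, rfl⟩

/-- The time at which the current cell was recorded. -/
theorem anchor (w : ℕ) (f : ℕ → St) (i : ℕ) :
    ∃ T ≤ i, cell w (f T).1 = cur w (cell w (f 0).1) (upto f i) ∧
      ∀ k, T ≤ k → k ≤ i → Nr (cell w (f k).1) (cell w (f T).1) := by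
  induction i with
  | zero =>
    refine ⟨0, le_rfl, ?_, ?_⟩
    · have : upto f 0 = [f 0] := by simp [upto]
      rw [this, (crs_one w _ _ (Nr.refl _)).2]
    · intro k _ hk
      have : k = 0 := by omega
      rw [this]
      exact Nr.refl _
  | succ i ih =>
    obtain ⟨T, hT, h1, h2⟩ := ih
    rw [upto_succ, cur_append, ← h1]
    by_cases h : Nr (cell w (f (i + 1)).1) (cell w (f T).1)
    · refine ⟨T, by omega, (crs_one w _ _ h).2.symm, ?_⟩
      intro k h3 h4
      rcases Nat.lt_or_ge k (i + 1) with h5 | h5
      · exact h2 k h3 (by omega)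
      · have : k = i + 1 := by omega
        rw [this]
        exact h
    · refine ⟨i + 1, le_rfl, (crs_one' w _ _ h).2.symm, ?_⟩
      intro k h3 h4
      have : k = i + 1 := by omega
      rw [this]
      exact Nr.refl _

/-- The coarse path. -/
noncomputable def cp (D : Dm) (w : ℕ) (G : Finset Edg) : List (ℤ × ℤ) :=
  crs w (cell w D.start.1) (upto (D.walk G) (D.len G))

theorem upto_add (f : ℕ → St) (a b : ℕ) :
    upto f (a + b) = upto f a ++ (List.range b).map (fun k => f (a + 1 + k)) := by
  unfold upto
  rw [show a + b + 1 = (a + 1) + b by ring, List.range_add, List.map_append, List.map_map]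
  rfl

/-- If flipping `e` changes the coarse path, then the loop leaves the block which contains the part
of the path just before it. -/
theorem surg_coarse {D : Dm} {e : Edg} {G G' : Finset Edg} {i j : ℕ} {σ τ : St}
    (h : Surg D e G G' i j σ τ) {w : ℕ} (hne : cp D w G ≠ cp D w G') :
    ∃ T t, T ≤ i ∧ i < t ∧ t ≤ j ∧
      (∀ k, T ≤ k → k < t → Nr (cell w (D.walk G k).1) (cell w (D.walk G T).1)) ∧
      ¬ Nr (cell w (D.walk G t).1) (cell w (D.walk G T).1) := by
  classical
  set f := D.walk G with hf
  have hlt := h.lt
  have hle := h.le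
  have hl := h.len
  obtain ⟨T, hT, h1, h2⟩ := anchor w f i
  have hf0 : f 0 = D.start := rfl
  rw [hf0] at h1
  -- decompositions
  have d1 : upto f (D.len G) = upto f i ++ ((List.range (j - i)).map (fun k => f (i + 1 + k)) ++
      (List.range (D.len G - j)).map (fun k => f (j + 1 + k))) := by
    rw [← List.append_assoc, ← upto_add, ← show j = i + (j - i) by omega, ← upto_add]
    congr 1
    omega
  have d2 : upto (D.walk G') (D.len G') = upto f i ++
      (List.range (D.len G - j)).map (fun k => f (j + 1 + k)) := by
    have e1 : D.len G' = i + (D.len G - j) := by omega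
    rw [e1, upto_add]
    congr 1
    · unfold upto
      apply List.map_congr_left
      intro k hk
      rw [List.mem_range] at hk
      exact h.pre k (by omega)
    · apply List.map_congr_left
      intro k hk
      rw [List.mem_range] at hk
      exact h.post k (by omega)
  by_cases hex : ∃ t, i < t ∧ t ≤ j ∧ ¬ Nr (cell w (f t).1) (cell w (f T).1)
  · have hs := Nat.find_spec hex
    refine ⟨T, Nat.find hex, hT, hs.1, hs.2.1, ?_, hs.2.2⟩
    intro k h3 h4
    rcases Nat.lt_or_ge i k with h5 | h5
    · by_contra h6
      exact Nat.find_min hex h4 ⟨h5, by omega, h6⟩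
    · exact h2 k h3 h5
  · exfalso
    apply hne
    push Not at hex
    unfold cp
    rw [← hf, d1, d2, crs_append, crs_append, crs_append, ← h1]
    have h3 : ∀ σ ∈ (List.range (j - i)).map (fun k => f (i + 1 + k)),
        Nr (cell w σ.1) (cell w (f T).1) := by
      intro σ hσ
      rw [List.mem_map] at hσ
      obtain ⟨k, hk, rfl⟩ := hσ
      rw [List.mem_range] at hk
      exact hex _ (by omega) (by omega)
    rw [(crs_near w h3).1, (crs_near w h3).2, List.nil_append]

/-- The recording times. -/
theorem times (w : ℕ) (f : ℕ → St) (n : ℕ) :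
    ∃ T : ℕ → ℕ, T 0 = 0 ∧
      (∀ k, k < (crs w (cell w (f 0).1) (upto f n)).length → T k < T (k + 1)) ∧
      T (crs w (cell w (f 0).1) (upto f n)).length ≤ n ∧
      (∀ k m, k < (crs w (cell w (f 0).1) (upto f n)).length → T k ≤ m → m < T (k + 1) →
        Nr (cell w (f m).1) ((cell w (f 0).1 :: crs w (cell w (f 0).1) (upto f n)).getD k (0, 0))) ∧
      (∀ m, T (crs w (cell w (f 0).1) (upto f n)).length ≤ m → m ≤ n → Nr (cell w (f m).1)
        (cur w (cell w (f 0).1) (upto f n))) ∧
      cur w (cell w (f 0).1) (upto f n) = (cell w (f 0).1 ::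
        crs w (cell w (f 0).1) (upto f n)).getD
          (crs w (cell w (f 0).1) (upto f n)).length (0, 0) := by
  induction n with
  | zero =>
    have : upto f 0 = [f 0] := by simp [upto]
    rw [this, (crs_one w _ _ (Nr.refl _)).1, (crs_one w _ _ (Nr.refl _)).2]
    refine ⟨fun _ => 0, rfl, ?_, le_rfl, ?_, ?_, ?_⟩
    · intro k hk; simp at hk
    · intro k m hk; simp at hk
    · intro m _ hm
      have : m = 0 := by omega
      rw [this]
      exact Nr.refl _
    · simp
  | succ n ih =>
    obtain ⟨T, h0, h1, h2, h3, h4, h5⟩ := ih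
    set c := cell w (f 0).1 with hc
    set L := crs w c (upto f n) with hL
    set u := cur w c (upto f n) with hu
    rw [upto_succ, crs_append, cur_append, ← hL, ← hu]
    by_cases h : Nr (cell w (f (n + 1)).1) u
    · rw [(crs_one w _ _ h).1, (crs_one w _ _ h).2, List.append_nil]
      refine ⟨T, h0, h1, by omega, h3, ?_, h5⟩
      intro m h6 h7
      rcases Nat.lt_or_ge m (n + 1) with h8 | h8
      · exact h4 m h6 (by omega)
      · have : m = n + 1 := by omega
        rw [this]
        exact h
    · rw [(crs_one' w _ _ h).1, (crs_one' w _ _ h).2, List.length_append, List.length_singleton]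
      refine ⟨fun k => if k ≤ L.length then T k else n + 1, ?_, ?_, ?_, ?_, ?_, ?_⟩
      · simp [h0]
      · intro k hk
        show (if k ≤ L.length then T k else n + 1) < (if k + 1 ≤ L.length then T (k + 1) else n + 1)
        rw [if_pos (by omega)]
        rcases Nat.lt_or_ge k L.length with h6 | h6
        · rw [if_pos (by omega)]
          exact h1 k h6
        · rw [if_neg (by omega)]
          have : k = L.length := by omega
          rw [this]
          omega
      · show (if L.length + 1 ≤ L.length then T (L.length + 1) else n + 1) ≤ n + 1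
        rw [if_neg (by omega)]
      · intro k m hk h6 h7
        change (if k ≤ L.length then T k else n + 1) ≤ m at h6
        change m < (if k + 1 ≤ L.length then T (k + 1) else n + 1) at h7
        rw [if_pos (by omega)] at h6
        have e1 : (c :: (L ++ [cell w (f (n + 1)).1])).getD k (0, 0) = (c :: L).getD k (0, 0) := by
          rw [← List.cons_append, List.getD_append _ _ _ _ (by simp; omega)]
        rw [e1]
        rcases Nat.lt_or_ge k L.length with h8 | h8
        · rw [if_pos (by omega)] at h7
          exact h3 k m h8 h6 h7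
        · rw [if_neg (by omega)] at h7
          have : k = L.length := by omega
          rw [this] at h6 ⊢
          rw [← h5]
          exact h4 m h6 (by omega)
      · intro m h6 h7
        change (if L.length + 1 ≤ L.length then T (L.length + 1) else n + 1) ≤ m at h6
        rw [if_neg (by omega)] at h6
        have : m = n + 1 := by omega
        rw [this]
        exact Nr.refl _
      · rw [← List.cons_append, List.getD_append_right _ _ _ _ (by simp)]
        simp

end Q291.EP
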