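import Pool.Agent.Q291.EP.HpD
import Pool.Agent.Q291.EP.Coarse
import Pool.Agent.H984R4.NP.Bulk

/-!
Arms at an edge whose state changes the coarse path.
-/

set_option maxHeartbeats 1000000

namespace Q291.EP

open H974 Finset H12S H342P H984P H984N

/-- The edges examined during an interval of time. -/
def Ea (D : Dm) (G : Finset Edg) (a b : ℕ) : Set Edg := {g | ∃ k, a ≤ k ∧ k < b ∧ ae (D.walk G k) = g}

theorem vch (D : Dm) (G : Finset Edg) {a b : ℕ} (h : a ≤ b) :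
    Reach (D.cfg G ∩ Ea D G a b) (D.walk G a).1 (D.walk G b).1 := by
  obtain ⟨s, rfl⟩ := Nat.exists_eq_add_of_le h
  rw [bulk_walk a s]
  apply orb_reach (T := s) _ le_rfl
  intro m hm
  exact ⟨a + m, by omega, by omega, by rw [bulk_walk]⟩

theorem fch (D : Dm) (G : Finset Edg) {a b : ℕ} (h : a ≤ b) :
    DReach ((D.cfg G)ᶜ ∩ Ea D G a b) (face (D.walk G a)) (face (D.walk G b)) := by
  induction b with
  | zero =>
    have : a = 0 := by omega
    rw [this]
    exact DReach.refl _ _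
  | succ b ih =>
    rcases Nat.lt_or_ge b a with h1 | h1
    · have : a = b + 1 := by omega
      rw [this]
      exact DReach.refl _ _
    · refine (DReach.mono ?_ (ih h1)).trans ?_
      · rintro g ⟨h2, k, h3, h4, h5⟩
        exact ⟨h2, k, h3, by omega, h5⟩
      · rw [walk_succ]
        by_cases hc : ae (D.walk G b) ∈ D.cfg G
        · rw [nxt_open hc, p2_face_mv]
          exact DReach.refl _ _
        · rw [nxt_closed hc]
          refine DAdj.reach ⟨ae (D.walk G b), ⟨hc, b, h1, by omega, rfl⟩, ?_⟩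
          exact p2_dends _

/-- The edge of a colour. -/
def ce (κ : Bool) (e : Edg) : Edg := if κ then e else dl e

/-- `F` agrees with both configurations off `e`. -/
structure Com (e : Edg) (F G G' : Finset Edg) : Prop where
  one : ∀ g, g ≠ e → (g ∈ G ↔ g ∈ F)
  two : ∀ g, g ≠ e → (g ∈ G' ↔ g ∈ F)

variable {D : Dm} {e : Edg} {F G G' : Finset Edg}

/-- The box around `e` is inside. -/
def Ins (D : Dm) (e : Edg) (k : ℕ) : Prop :=
  D.l + 1 < e.1 - k ∧ e.1 + k + 1 < D.r ∧ 1 < e.2.1 - k ∧ e.2.1 + k + 1 < D.h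

theorem ins_of {σ : St} (he : ae σ = e) {k : ℕ} (h : (k:ℤ) + 4 ≤ D.bd σ.1) : Ins D e k := by
  have h1 := p2_ends σ
  rw [he] at h1
  have h2 := det_mv σ
  unfold Dm.bd at h
  unfold sd at h2
  simp only [le_min_iff] at h
  rw [max_le_iff, abs_le, abs_le] at h2
  have h3 : src e = (e.1, e.2.1) := rfl
  unfold Ins
  rcases h1 with ⟨h4, h5⟩ | ⟨h4, h5⟩
  · rw [h3] at h4
    rw [← h4] at h
    simp only at h
    omega
  · rw [h3] at h4
    rw [← h4] at h2
    simp only at h2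
    omega

theorem not_wir_of_ins {k : ℕ} (h : Ins D e k) {g : Edg} (hg : g ∈ ebx e k) : g ∉ D.wir := by
  unfold Ins at h
  unfold ebx at hg
  rintro (⟨h1, h2, h3, h4⟩ | ⟨h1, h2, h3, h4⟩ | ⟨h1, h2, h3, h4⟩)
  · obtain ⟨x, y, _ | _⟩ := g
    · simp at h1
    · rw [mem_RE_true] at hg
      simp only at h2
      omega
  · obtain ⟨x, y, _ | _⟩ := g
    · rw [mem_RE_false] at hg
      simp only at h2
      omega
    · simp at h1
  · obtain ⟨x, y, _ | _⟩ := g
    · simp at h1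
    · rw [mem_RE_true] at hg
      simp only at h2
      omega

theorem arm_open {i j t k : ℕ} {σ τ : St} (hD : D.Ok) (hs : Surg D e G G' i j σ τ)
    (hc : Com e F G G') (heG : e ∈ G) (hit : i < t) (htj : t ≤ j) (hk : 1 ≤ k)
    (hb : (k:ℤ) + 4 ≤ D.bd σ.1) (hρ : (k:ℤ) + 4 ≤ sd σ.1 (D.walk G t).1) :
    A4e k e (↑F : Set Edg) := by
  have hins := ins_of hs.tw.ae1 hb
  have heG' : e ∉ D.cfg G' := hs.pair.cfg_on.mp (Or.inl (Finset.mem_coe.mpr heG))
  have hsub : D.cfg G' ∩ ↑(RE (e.1 - k) (e.1 + k) (e.2.1 - k) (e.2.1 + k)) ⊆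
      ((↑F : Set Edg) ∩ ↑(RE (e.1 - k) (e.1 + k) (e.2.1 - k) (e.2.1 + k))) \ {e} := by
    rintro g ⟨h1, h2⟩
    have hge : g ≠ e := by rintro rfl; exact heG' h1
    refine ⟨⟨?_, h2⟩, hge⟩
    rcases h1 with h1 | h1
    · exact Finset.mem_coe.mpr ((hc.two g hge).mp (Finset.mem_coe.mp h1))
    · exact absurd h1 (not_wir_of_ins hins (by unfold ebx; exact Finset.mem_coe.mp h2))
  have hsub2 : ((↑F : Set Edg) ∩ ↑(RE (e.1 - k) (e.1 + k) (e.2.1 - k) (e.2.1 + k))) \ {e} ⊆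
      D.cfg G' := by
    rintro g ⟨⟨h1, h2⟩, h3⟩
    exact Or.inl (Finset.mem_coe.mpr ((hc.two g h3).mpr (Finset.mem_coe.mp h1)))
  -- the two ends
  have hends : (src e = σ.1 ∧ tgt e = τ.1) ∨ (src e = τ.1 ∧ tgt e = σ.1) := by
    have h1 := p2_ends σ
    rw [hs.tw.ae1, hs.tw.mv, p2_rt_fst] at h1
    exact h1
  have hin : ∀ v, v = src e ∨ v = tgt e →
      inR (e.1 - k) (e.1 + k) (e.2.1 - k) (e.2.1 + k) v := by
    intro v hv
    obtain ⟨x, y, _ | _⟩ := e
    · simp only [src_mk, tgt_false] at hv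
      unfold inR
      rcases hv with rfl | rfl <;> simp only <;> omega
    · simp only [src_mk, tgt_true] at hv
      unfold inR
      rcases hv with rfl | rfl <;> simp only <;> omega
  have hlt := hs.lt
  have hle := hs.le
  -- first arm
  have r1 : Reach (D.cfg G') σ.1 (0, 0) := by
    have h1 := (walk_clu hD hs.pair.sub' (k := i) (by have := hs.len; omega)).1
    rw [hs.pre i le_rfl, hs.hi] at h1
    exact Reach.symm h1
  have o1 : (0:ℤ) ≤ e.1 - k ∨ e.1 + k ≤ (0:ℤ) ∨ (0:ℤ) ≤ e.2.1 - k ∨ e.2.1 + k ≤ (0:ℤ) := by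
    unfold Ins at hins
    omega
  -- second arm
  have r2 : Reach (D.cfg G') τ.1 (D.walk G t).1 := by
    have h1 := vch D G (a := i + 1) (b := t) (by omega)
    have h2 : (D.walk G (i + 1)).1 = τ.1 := by
      rw [walk_succ, hs.hi, nxt_open (by rw [hs.tw.ae1]; exact Or.inl (Finset.mem_coe.mpr heG)),
        hs.tw.mv, p2_rt_fst]
    rw [h2] at h1
    refine h1.mono ?_
    rintro g ⟨h3, m, h4, h5, h6⟩
    have hge : g ≠ e := by
      intro h7
      rw [h7] at h6
      rcases hs.tw.cases h6 with h8 | h8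
      · rw [← hs.hi] at h8
        exact walk_inj hD hs.pair.sub (i := i) (j := m) (by omega) (by omega) h8.symm
      · rw [← hs.hj] at h8
        exact walk_inj hD hs.pair.sub (i := m) (j := j) (by omega) (by omega) h8
    exact (hs.pair.cfg_off hge).mp h3
  have o2 : (D.walk G t).1.1 ≤ e.1 - k ∨ e.1 + k ≤ (D.walk G t).1.1 ∨
      (D.walk G t).1.2 ≤ e.2.1 - k ∨ e.2.1 + k ≤ (D.walk G t).1.2 := by
    have h1 : sd σ.1 (src e) ≤ 1 := by
      rcases hends with ⟨h1, _⟩ | ⟨h1, h2⟩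
      · rw [h1, det_sd_self]; norm_num
      · rw [← h2]
        obtain ⟨x, y, _ | _⟩ := e
        · unfold sd; simp
        · unfold sd; simp
    unfold sd at h1 hρ
    rw [max_le_iff, abs_le, abs_le] at h1
    rw [le_max_iff, le_abs, le_abs] at hρ
    have h3 : src e = (e.1, e.2.1) := rfl
    rw [h3] at h1
    simp only at h1
    omega
  have hs1 : ∀ v, v = src e ∨ v = tgt e → v = σ.1 ∨ v = τ.1 := by
    rintro v (rfl | rfl) <;> rcases hends with ⟨h1, h2⟩ | ⟨h1, h2⟩ <;> simp [h1, h2]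
  have arm : ∀ v, v = src e ∨ v = tgt e →
      ∃ u ∈ bdR (e.1 - k) (e.1 + k) (e.2.1 - k) (e.2.1 + k),
        Reach (((↑F : Set Edg) ∩ ↑(RE (e.1 - k) (e.1 + k) (e.2.1 - k) (e.2.1 + k))) \ {e}) v u := by
    intro v hv
    rcases hs1 v hv with rfl | rfl
    · obtain ⟨u, u1, u2, u3⟩ := first_exit (hin _ hv) r1 (by
        unfold Ins at hins; simp only; omega)
      exact ⟨u, ⟨u1, u2⟩, u3.mono hsub⟩
    · obtain ⟨u, u1, u2, u3⟩ := first_exit (hin _ hv) r2 o2
      exact ⟨u, ⟨u1, u2⟩, u3.mono hsub⟩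
  refine ⟨arm _ (Or.inl rfl), arm _ (Or.inr rfl), ?_⟩
  intro h
  have h1 : Reach (D.cfg G') (src e) (tgt e) := h.mono hsub2
  have h2 := surg_sep hs hD (Or.inl (Finset.mem_coe.mpr heG))
  rcases hends with ⟨h3, h4⟩ | ⟨h3, h4⟩
  · rw [h3, h4] at h1; exact h2 h1
  · rw [h3, h4] at h1; exact h2 h1.symm

theorem RE_ends {a b c d : ℤ} {g : Edg} (hg : g ∈ RE a b c d) :
    inR a b c d (src g) ∧ inR a b c d (tgt g) := by
  unfold inR
  obtain ⟨x, y, _ | _⟩ := g
  · rw [mem_RE_false] at hg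
    simp only [src_mk, tgt_false]
    omega
  · rw [mem_RE_true] at hg
    simp only [src_mk, tgt_true]
    omega

theorem dl_co (e : Edg) : (dl e).1 ≤ e.1 ∧ e.1 ≤ (dl e).1 + 1 ∧ (dl e).2.1 ≤ e.2.1 ∧
    e.2.1 ≤ (dl e).2.1 + 1 := by
  obtain ⟨x, y, _ | _⟩ := e
  · rw [dl_f]; simp only; omega
  · rw [dl_t]; simp only; omega

theorem ne_of_mid {i j m : ℕ} {σ τ : St} (hD : D.Ok) (hs : Surg D e G G' i j σ τ) (h1 : i < m)
    (h2 : m < j) : ae (D.walk G m) ≠ e := by
  intro h6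
  have hle := hs.le
  rcases hs.tw.cases h6 with h8 | h8
  · rw [← hs.hi] at h8
    exact walk_inj hD hs.pair.sub (i := i) (j := m) (by omega) (by omega) h8.symm
  · rw [← hs.hj] at h8
    exact walk_inj hD hs.pair.sub (i := m) (j := j) (by omega) (by omega) h8

theorem arm_closed {i j t k : ℕ} {σ τ : St} (hD : D.Ok) (hs : Surg D e G G' i j σ τ)
    (hc : Com e F G G') (heG : e ∉ G) (hit : i < t) (htj : t ≤ j) (hk : 1 ≤ k)
    (hb : (k:ℤ) + 4 ≤ D.bd σ.1) (hρ : (k:ℤ) + 4 ≤ sd σ.1 (D.walk G t).1) :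
    A4e k (dl e) (↑(dmp (D.edges \ F)) : Set Edg) := by
  have hins := ins_of hs.tw.ae1 hb
  have hdc := dl_co e
  have hecG : e ∉ D.cfg G := by
    rintro (h | h)
    · exact heG (Finset.mem_coe.mp h)
    · exact hs.pair.nw h
  have heG' : e ∈ D.cfg G' := by
    by_contra h
    exact hecG (hs.pair.cfg_on.mpr h)
  obtain ⟨B, hB⟩ : ∃ B : Finset Edg, B = RE ((dl e).1 - k) ((dl e).1 + k) ((dl e).2.1 - k)
      ((dl e).2.1 + k) := ⟨_, rfl⟩
  -- faces of the box are inside, edges are not wired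
  have hnout : ∀ f : Vtx, inR ((dl e).1 - k) ((dl e).1 + k) ((dl e).2.1 - k) ((dl e).2.1 + k) f →
      f ∉ D.outer := by
    intro f hf
    unfold inR at hf
    unfold Ins at hins
    rintro (⟨h1, h2⟩ | ⟨h1, h2⟩ | ⟨h1, h2⟩) <;> omega
  have hnwir : ∀ g : Edg, dl g ∈ B → g ∉ D.wir := by
    intro g hg
    have h0 := RE_ends (hB ▸ hg)
    unfold inR at h0
    unfold Ins at hins
    rintro (⟨h1, h2, h3, h4⟩ | ⟨h1, h2, h3, h4⟩ | ⟨h1, h2, h3, h4⟩)
    · obtain ⟨x, y, _ | _⟩ := g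
      · simp at h1
      · rw [dl_t] at h0
        simp only [src_mk, tgt_false] at h0
        simp only at h2
        omega
    · obtain ⟨x, y, _ | _⟩ := g
      · rw [dl_f] at h0
        simp only [src_mk, tgt_true] at h0
        simp only at h2
        omega
      · simp at h1
    · obtain ⟨x, y, _ | _⟩ := g
      · simp at h1
      · rw [dl_t] at h0
        simp only [src_mk, tgt_false] at h0
        simp only at h2
        omega
  have hmem : ∀ g : Edg, g ∉ D.cfg G' → g ∈ D.edges → dl g ∈ B →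
      dl g ∈ ((↑(dmp (D.edges \ F)) : Set Edg) ∩ ↑B) \ {dl e} := by
    intro g h1 h2 h3
    have hge : g ≠ e := by rintro rfl; exact h1 heG'
    refine ⟨⟨?_, h3⟩, fun h => hge (dl.injective h)⟩
    rw [Finset.mem_coe, mem_dmp, Equiv.symm_apply_apply, Finset.mem_sdiff]
    exact ⟨h2, fun h => h1 (Or.inl (Finset.mem_coe.mpr ((hc.two g hge).mpr h)))⟩
  have hends : (dsrc e = face σ ∧ dtgt e = face (rt σ)) ∨
      (dsrc e = face (rt σ) ∧ dtgt e = face σ) := by
    have h1 := p2_dends σ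
    rw [hs.tw.ae1] at h1
    exact h1
  have hin : ∀ v, v = src (dl e) ∨ v = tgt (dl e) →
      inR ((dl e).1 - k) ((dl e).1 + k) ((dl e).2.1 - k) ((dl e).2.1 + k) v := by
    intro v hv
    generalize dl e = e' at hv ⊢
    obtain ⟨x, y, _ | _⟩ := e'
    · simp only [src_mk, tgt_false] at hv
      unfold inR
      rcases hv with rfl | rfl <;> simp only <;> omega
    · simp only [src_mk, tgt_true] at hv
      unfold inR
      rcases hv with rfl | rfl <;> simp only <;> omega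
  have hlt := hs.lt
  have hle := hs.le
  -- first arm
  have r1 : ∃ u ∈ bdR ((dl e).1 - k) ((dl e).1 + k) ((dl e).2.1 - k) ((dl e).2.1 + k),
      Reach (((↑(dmp (D.edges \ F)) : Set Edg) ∩ ↑B) \ {dl e}) (face σ) u := by
    have h1 := (walk_clu hD hs.pair.sub' (k := i) (by have := hs.len; omega)).2
    rw [hs.pre i le_rfl, hs.hi] at h1
    obtain ⟨f, hf, hr⟩ := h1
    have h2 : Reach (dl '' (↑D.edges \ D.cfg G')) (face σ) f := reach_dl.mpr hr.symm
    have h3 : face σ = src (dl e) ∨ face σ = tgt (dl e) := by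
      rw [src_dl, tgt_dl]
      rcases hends with ⟨h4, h5⟩ | ⟨h4, h5⟩
      · exact Or.inl h4.symm
      · exact Or.inr h5.symm
    have h4 : f.1 ≤ (dl e).1 - k ∨ (dl e).1 + k ≤ f.1 ∨ f.2 ≤ (dl e).2.1 - k ∨
        (dl e).2.1 + k ≤ f.2 := by
      by_contra h5
      push Not at h5
      exact hnout f (by unfold inR; omega) hf
    obtain ⟨u, u1, u2, u3⟩ := first_exit (hin _ h3) h2 h4
    refine ⟨u, ⟨u1, u2⟩, u3.mono ?_⟩
    rintro g' ⟨⟨g, ⟨g1, g2⟩, rfl⟩, g3⟩
    exact hmem g g2 (Finset.mem_coe.mp g1) (by rw [hB]; exact Finset.mem_coe.mp g3)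
  -- second arm
  have r2 : ∃ u ∈ bdR ((dl e).1 - k) ((dl e).1 + k) ((dl e).2.1 - k) ((dl e).2.1 + k),
      Reach (((↑(dmp (D.edges \ F)) : Set Edg) ∩ ↑B) \ {dl e}) (face (rt σ)) u := by
    have h1 := fch D G (a := i + 1) (b := t) (by omega)
    have h2 : face (D.walk G (i + 1)) = face (rt σ) := by
      rw [walk_succ, hs.hi, nxt_closed (by rw [hs.tw.ae1]; exact hecG)]
    rw [h2] at h1
    have h3 : face (rt σ) = src (dl e) ∨ face (rt σ) = tgt (dl e) := by
      rw [src_dl, tgt_dl]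
      rcases hends with ⟨h4, h5⟩ | ⟨h4, h5⟩
      · exact Or.inr h5.symm
      · exact Or.inl h4.symm
    have h4 : (face (D.walk G t)).1 ≤ (dl e).1 - k ∨ (dl e).1 + k ≤ (face (D.walk G t)).1 ∨
        (face (D.walk G t)).2 ≤ (dl e).2.1 - k ∨ (dl e).2.1 + k ≤ (face (D.walk G t)).2 := by
      have a1 := det_face σ (D.walk G t)
      have a2 : sd (face σ) (src (dl e)) ≤ 1 := by
        rw [src_dl]
        rcases hends with ⟨b1, _⟩ | ⟨b1, b2⟩
        · rw [b1, det_sd_self]; norm_num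
        · rw [← b2]
          obtain ⟨x, y, _ | _⟩ := e
          · unfold sd; simp
          · unfold sd; simp
      have a3 := det_sd_tri (face σ) (src (dl e)) (face (D.walk G t))
      have a4 : (k:ℤ) ≤ sd (src (dl e)) (face (D.walk G t)) := by linarith
      unfold sd at a4
      rw [le_max_iff, le_abs, le_abs] at a4
      have a5 : src (dl e) = ((dl e).1, (dl e).2.1) := rfl
      rw [a5] at a4
      simp only at a4
      omega
    obtain ⟨u, u1, u2, u3⟩ := first_exit (hin _ h3) (reach_dl.mpr h1) h4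
    refine ⟨u, ⟨u1, u2⟩, u3.mono ?_⟩
    rintro g' ⟨⟨g, ⟨g1, m, m1, m2, m3⟩, rfl⟩, g3⟩
    have hge : g ≠ e := by
      rw [← m3]
      exact ne_of_mid hD hs (by omega) (by omega)
    have g4 : g ∉ D.cfg G' := fun h => g1 ((hs.pair.cfg_off hge).mpr h)
    refine hmem g g4 ?_ (by rw [hB]; exact Finset.mem_coe.mp g3)
    rcases walk_closed hD hs.pair.sub (k := m) (by omega) (by rw [m3]; exact g1) with h5 | h5
    · rw [← m3]; exact h5
    · exfalso
      have h6 := RE_ends (Finset.mem_coe.mp g3)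
      rw [src_dl, tgt_dl, ← m3] at h6
      rcases p2_dends (D.walk G m) with ⟨h7, h8⟩ | ⟨h7, h8⟩
      · rw [h7] at h6; exact hnout _ h6.1 h5
      · rw [h8] at h6; exact hnout _ h6.2 h5
  have hs1 : ∀ v, v = src (dl e) ∨ v = tgt (dl e) → v = face σ ∨ v = face (rt σ) := by
    rw [src_dl, tgt_dl]
    rintro v (rfl | rfl) <;> rcases hends with ⟨h1, h2⟩ | ⟨h1, h2⟩ <;> simp [h1, h2]
  have arm : ∀ v, v = src (dl e) ∨ v = tgt (dl e) →
      ∃ u ∈ bdR ((dl e).1 - k) ((dl e).1 + k) ((dl e).2.1 - k) ((dl e).2.1 + k),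
        Reach (((↑(dmp (D.edges \ F)) : Set Edg) ∩ ↑B) \ {dl e}) v u := by
    intro v hv
    rcases hs1 v hv with rfl | rfl
    · exact r1
    · exact r2
  rw [hB] at arm
  refine ⟨arm _ (Or.inl rfl), arm _ (Or.inr rfl), ?_⟩
  intro h
  have h1 : Reach (dl '' (D.cfg G')ᶜ) (src (dl e)) (tgt (dl e)) := by
    refine h.mono ?_
    rintro g' ⟨⟨g1, g2⟩, g3⟩
    rw [Finset.mem_coe, mem_dmp, Finset.mem_sdiff] at g1
    refine ⟨dl.symm g', ?_, Equiv.apply_symm_apply _ _⟩
    have hge : dl.symm g' ≠ e := by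
      intro h5
      apply g3
      rw [Set.mem_singleton_iff, ← h5, Equiv.apply_symm_apply]
    rintro (h4 | h4)
    · exact g1.2 ((hc.two _ hge).mp (Finset.mem_coe.mp h4))
    · refine hnwir _ ?_ h4
      rw [Equiv.apply_symm_apply, hB]
      exact Finset.mem_coe.mp g2
  rw [reach_dl, src_dl, tgt_dl] at h1
  have h2 := surg_dsep hs hD hecG
  rcases hends with ⟨h3, h4⟩ | ⟨h3, h4⟩
  · rw [h3, h4] at h1; exact h2 h1
  · rw [h3, h4] at h1; exact h2 h1.symm

end Q291.EP
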