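import Pool.Agent.Q291.EP.Arm
import Pool.Agent.H984R4.NP.Arms

/-!
The crossing of a half annulus at an edge whose state changes the coarse path.
-/

set_option maxHeartbeats 1000000

namespace Q291.EP

open H974 Finset H12S H342P H984P H984N

/-- No wired edge in the box. -/
def WN (D : Dm) (z : Vtx) (R : ℕ) : Prop := ∀ g ∈ D.wir, g ∉ bx z R

/-- No outer face in the box. -/
def ON (D : Dm) (z : Vtx) (R : ℕ) : Prop := ∀ f ∈ D.outer, (R:ℤ) < sd f z

open Classical in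
/-- The edges of a half plane. -/
noncomputable def Th (D : Dm) (a s : Bool) (X : ℤ) : Finset Edg :=
  D.edges.filter (fun g => hpl a s X (src g) ∧ hpl a s X (tgt g))

theorem mem_Th {D : Dm} {a s : Bool} {X : ℤ} {g : Edg} :
    g ∈ Th D a s X ↔ g ∈ D.edges ∧ hpl a s X (src g) ∧ hpl a s X (tgt g) := by
  classical
  unfold Th
  rw [Finset.mem_filter]

variable {D : Dm} {e : Edg} {F G : Finset Edg}

theorem sd_face (σ : St) : sd (face σ) σ.1 ≤ 1 := by
  have := arms_face σ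
  unfold sd
  rw [max_le_iff, abs_le, abs_le]
  omega

theorem cross_of (hD : D.Ok) (hG : G ⊆ D.edges) (hc : ∀ g, g ≠ e → (g ∈ G ↔ g ∈ F)) {a b : ℕ}
    (hab : a ≤ b) (hb : b ≤ D.len G) {aa ss : Bool} {X : ℤ}
    (hL : ∀ k, a ≤ k → k < b → ae (D.walk G k) ∈ D.edges →
      hpl aa ss X (src (ae (D.walk G k))) ∧ hpl aa ss X (tgt (ae (D.walk G k))))
    {z : Vtx} {r R : ℕ} (hrR : r ≤ R) (he1 : e ∈ bx z r) (he2 : dl e ∈ bx z r)
    (hnf : (sd (D.walk G a).1 z ≤ (r:ℤ) - 1 ∧ (R:ℤ) + 1 ≤ sd (D.walk G b).1 z) ∨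
      (sd (D.walk G b).1 z ≤ (r:ℤ) - 1 ∧ (R:ℤ) + 1 ≤ sd (D.walk G a).1 z))
    (hty : WN D z R ∨ ON D z R) :
    ∃ κ : Bool, Cr z r R (↑(cf κ D.edges F ∩ cS κ (Th D aa ss X)) : Set Edg) := by
  rcases hty with hty | hty
  · refine ⟨true, ?_⟩
    have h1 := vch D G hab
    have h2 : Cr z r R (D.cfg G ∩ Ea D G a b) := by
      rw [cr_iff]
      rcases hnf with ⟨n1, n2⟩ | ⟨n1, n2⟩
      · exact ⟨_, _, by omega, by omega, h1⟩
      · exact ⟨_, _, by omega, by omega, h1.symm⟩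
    refine (h2.loc hrR).mono ?_
    rintro g ⟨⟨g1, m, m1, m2, m3⟩, g2, g3⟩
    have hge : g ≠ e := by rintro rfl; exact g3 (Finset.mem_coe.mpr he1)
    have g4 : g ∈ G := by
      rcases g1 with g1 | g1
      · exact Finset.mem_coe.mp g1
      · exact absurd (Finset.mem_coe.mp g2) (hty g g1)
    have g5 := hL m m1 m2 (by rw [m3]; exact hG g4)
    rw [m3] at g5
    simp only [cf, cS, if_true]
    rw [Finset.coe_inter]
    exact ⟨Finset.mem_coe.mpr ((hc g hge).mp g4), Finset.mem_coe.mpr (mem_Th.mpr ⟨hG g4, g5⟩)⟩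
  · refine ⟨false, ?_⟩
    have h1 := fch D G hab
    rw [← reach_dl] at h1
    have f1 := sd_face (D.walk G a)
    have f2 := sd_face (D.walk G b)
    have t1 := det_sd_tri (face (D.walk G a)) (D.walk G a).1 z
    have t2 := det_sd_tri (face (D.walk G b)) (D.walk G b).1 z
    have t3 := det_sd_tri (D.walk G a).1 (face (D.walk G a)) z
    have t4 := det_sd_tri (D.walk G b).1 (face (D.walk G b)) z
    rw [det_sd_comm _ (face _)] at t3 t4
    have h2 : Cr z r R (dl '' ((D.cfg G)ᶜ ∩ Ea D G a b)) := by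
      rw [cr_iff]
      rcases hnf with ⟨n1, n2⟩ | ⟨n1, n2⟩
      · exact ⟨_, _, by omega, by omega, h1⟩
      · exact ⟨_, _, by omega, by omega, h1.symm⟩
    refine (h2.loc hrR).mono ?_
    rintro g' ⟨⟨g, ⟨g1, m, m1, m2, m3⟩, rfl⟩, g2, g3⟩
    have hge : g ≠ e := by rintro rfl; exact g3 (Finset.mem_coe.mpr he2)
    have g4 : g ∈ D.edges := by
      rcases walk_closed hD hG (k := m) (by omega) (by rw [m3]; exact g1) with h5 | h5
      · rw [← m3]; exact h5
      · exfalso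
        have h6 := RE_ends (Finset.mem_coe.mp g2)
        rw [src_dl, tgt_dl, ← m3] at h6
        have h7 := hty _ h5
        have h8 : inR (z.1 - R) (z.1 + R) (z.2 - R) (z.2 + R) (face (D.walk G m)) := by
          rcases p2_dends (D.walk G m) with ⟨h7, h8⟩ | ⟨h7, h8⟩
          · rw [h7] at h6; exact h6.1
          · rw [h8] at h6; exact h6.2
        unfold inR at h8
        unfold sd at h7
        rw [lt_max_iff, lt_abs, lt_abs] at h7
        omega
    have g5 := hL m m1 m2 (by rw [m3]; exact g4)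
    rw [m3] at g5
    simp only [cf, cS, Bool.false_eq_true, if_false]
    rw [Finset.coe_inter]
    refine ⟨?_, ?_⟩
    · rw [Finset.mem_coe, mem_dmp, Equiv.symm_apply_apply, Finset.mem_sdiff]
      exact ⟨g4, fun h => g1 (Or.inl (Finset.mem_coe.mpr ((hc g hge).mpr h)))⟩
    · rw [Finset.mem_coe, mem_dmp, Equiv.symm_apply_apply]
      exact mem_Th.mpr ⟨g4, g5⟩

/-- Away from the two ends, one of the two arcs is far. -/
theorem two_far (hD : D.Ok) {w R : ℕ} (hR : R + 6 ≤ w) (hl : 8 * (w:ℤ) ≤ -D.l)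
    (hr : 8 * (w:ℤ) ≤ D.r) (hh : 8 * (w:ℤ) ≤ D.h) {z : Vtx} (hz : inR D.l D.r 0 D.h z)
    (h1 : (w:ℤ) < sd z (D.t, D.h)) (h2 : (w:ℤ) < sd z (0, 0)) : WN D z R ∨ ON D z R := by
  have hle := hD.l_le
  have hre := hD.le_r
  unfold inR at hz
  unfold sd at h1 h2
  rw [lt_max_iff, lt_abs, lt_abs] at h1 h2
  simp only at h1 h2
  by_cases hc : WN D z R
  · exact Or.inl hc
  · right
    unfold WN at hc
    push Not at hc
    obtain ⟨g, hg, hgz⟩ := hc
    have hge := RE_ends hgz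
    unfold inR at hge
    intro f hf
    unfold sd
    rw [lt_max_iff, lt_abs, lt_abs]
    rcases hg with ⟨g1, g2, g3, g4⟩ | ⟨g1, g2, g3, g4⟩ | ⟨g1, g2, g3, g4⟩
    · obtain ⟨x, y, _ | _⟩ := g
      · simp at g1
      · simp only [src_mk, tgt_true] at hge g2 g3 g4
        rcases hf with ⟨f1, f2, f3⟩ | ⟨f1, f2, f3⟩ | ⟨f1, f2, f3⟩ <;> omega
    · obtain ⟨x, y, _ | _⟩ := g
      · simp only [src_mk, tgt_false] at hge g2 g3 g4
        rcases hf with ⟨f1, f2, f3⟩ | ⟨f1, f2, f3⟩ | ⟨f1, f2, f3⟩ <;> omega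
      · simp at g1
    · obtain ⟨x, y, _ | _⟩ := g
      · simp at g1
      · simp only [src_mk, tgt_true] at hge g2 g3 g4
        rcases hf with ⟨f1, f2, f3⟩ | ⟨f1, f2, f3⟩ | ⟨f1, f2, f3⟩ <;> omega

end Q291.EP
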