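import Pool.Agent.Q291.EP.Arm2

/-!
The arms at an edge whose state changes the coarse path.
-/

set_option maxHeartbeats 1000000

namespace Q291.EP

open H974 Finset H12S H342P H984P H984N

/-- The coordinates of the grid and of the sides. -/
def Ln (D : Dm) (w : ℕ) (X : ℤ) : Prop :=
  (w:ℤ) ∣ X ∨ (w:ℤ) ∣ X + 1 ∨ X = D.l ∨ X = D.r ∨ X = D.h

/-- The projection of `e` on a line. -/
def zl (a : Bool) (X : ℤ) (e : Edg) : Vtx := if a then (X, e.2.1) else (e.1, X)

/-- The outer radius. -/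
def Rr (D : Dm) (w : ℕ) (e : Edg) : ℕ :=
  min w (min (sd (src e) (0, 0)).toNat (sd (src e) (D.t, D.h)).toNat) / 64

theorem co_zl (a : Bool) (X : ℤ) (e : Edg) : co a (zl a X e) = X := by
  cases a <;> simp [co, zl]

theorem co_sd (a : Bool) (u v : Vtx) : |co a u - co a v| ≤ sd u v := by
  unfold co sd
  cases a
  · simp
  · simp

theorem sd_zl_le {a : Bool} {X : ℤ} {e : Edg} {v : Vtx} {m : ℤ} (h1 : |co a v - X| ≤ m)
    (h2 : sd v (src e) ≤ m) : sd v (zl a X e) ≤ m := by
  unfold sd at h2 ⊢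
  have h3 : src e = (e.1, e.2.1) := rfl
  rw [h3] at h2
  rw [max_le_iff] at h2 ⊢
  cases a
  · simp only [co, zl, Bool.false_eq_true, if_false] at h1 ⊢
    exact ⟨h2.1, h1⟩
  · simp only [co, zl, if_true] at h1 ⊢
    exact ⟨h1, h2.2⟩

theorem mem_bx_of {z : Vtx} {r : ℕ} {g : Edg} (h : sd (g.1, g.2.1) z + 1 ≤ r) : g ∈ bx z r := by
  unfold bx
  unfold sd at h
  have h1 := le_max_left |g.1 - z.1| |g.2.1 - z.2|
  have h2 := le_max_right |g.1 - z.1| |g.2.1 - z.2|
  simp only at h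
  have h3 := abs_le.mp (h1.trans (show _ ≤ (r:ℤ) - 1 by omega))
  have h4 := abs_le.mp (h2.trans (show _ ≤ (r:ℤ) - 1 by omega))
  obtain ⟨x, y, _ | _⟩ := g
  · rw [mem_RE_false]
    simp only at h3 h4
    omega
  · rw [mem_RE_true]
    simp only at h3 h4
    omega

/-- One coordinate. -/
theorem exit_one {x : ℕ → ℤ} (hx : ∀ k, |x k - x (k + 1)| ≤ 1) {w : ℕ} (hw : 0 < w) {T t : ℕ}
    (hTt : T < t) (hin : ∀ k, T ≤ k → k < t → |x k / w - x T / w| ≤ 1)
    (hout : ¬ |x t / w - x T / w| ≤ 1) :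
    ∃ (s : Bool) (X : ℤ), ((w:ℤ) ∣ X ∨ (w:ℤ) ∣ X + 1) ∧ x t = X ∧
      (∀ k, T ≤ k → k < t → if s then x k ≤ X - 1 else X + 1 ≤ x k) ∧ (w:ℤ) + 1 ≤ |x T - X| := by
  have hw0 : (0:ℤ) < w := by exact_mod_cast hw
  obtain ⟨c, hc⟩ : ∃ c : ℤ, c = x T / w := ⟨_, rfl⟩
  rw [← hc] at hin hout
  have up : ∀ (y m : ℤ), y / w ≤ m → y < (w:ℤ) * (m + 1) := by
    intro y m h
    have h1 : y / w < m + 1 := by omega
    rw [Int.ediv_lt_iff_lt_mul hw0] at h1
    linarith
  have lo : ∀ (y m : ℤ), m ≤ y / w → (w:ℤ) * m ≤ y := by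
    intro y m h
    rw [Int.le_ediv_iff_mul_le hw0] at h
    linarith
  have hst := hx (t - 1)
  rw [show t - 1 + 1 = t by omega] at hst
  rw [abs_le] at hst
  have hpr := hin (t - 1) (by omega) (by omega)
  rw [abs_le] at hpr hout
  have hTu := up (x T) c (by rw [hc])
  have hTl := lo (x T) c (by rw [hc])
  rcases lt_or_ge (c + 1) (x t / w) with h1 | h1
  · refine ⟨true, (w:ℤ) * (c + 2), Or.inl (dvd_mul_right _ _), ?_, ?_, ?_⟩
    · have a1 := lo (x t) (c + 2) (by omega)
      have a2 := up (x (t - 1)) (c + 1) (by omega)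
      have a3 : (w:ℤ) * (c + 1 + 1) = w * (c + 2) := by ring
      omega
    · intro k h2 h3
      have h4 := hin k h2 h3
      rw [abs_le] at h4
      have a2 := up (x k) (c + 1) (by omega)
      have a3 : (w:ℤ) * (c + 1 + 1) = w * (c + 2) := by ring
      simp only [if_true]
      omega
    · have a3 : (w:ℤ) * (c + 2) = w * (c + 1) + w := by ring
      rw [le_abs]
      right
      omega
  · have h1' : x t / w < c - 1 := by
      by_contra h2
      push Not at h2
      exact hout ⟨by omega, by omega⟩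
    refine ⟨false, (w:ℤ) * (c - 1) - 1, Or.inr ?_, ?_, ?_, ?_⟩
    · rw [sub_add_cancel]; exact dvd_mul_right _ _
    · have a1 := up (x t) (c - 2) (by omega)
      have a2 := lo (x (t - 1)) (c - 1) (by omega)
      have a3 : (w:ℤ) * (c - 2 + 1) = w * (c - 1) := by ring
      omega
    · intro k h2 h3
      have h4 := hin k h2 h3
      rw [abs_le] at h4
      have a2 := lo (x k) (c - 1) (by omega)
      simp only [Bool.false_eq_true, if_false]
      omega
    · have a3 : (w:ℤ) * (c - 1) = w * c - w := by ring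
      rw [le_abs]
      left
      omega

theorem co_step (a : Bool) (D : Dm) (G : Finset Edg) (k : ℕ) :
    |co a (D.walk G k).1 - co a (D.walk G (k + 1)).1| ≤ 1 :=
  (co_sd a _ _).trans (walk_step D G k)

/-- The line through which the block is left. -/
theorem exit_line {D : Dm} {G : Finset Edg} {w : ℕ} (hw : 0 < w) {T t : ℕ} (hTt : T < t)
    (hin : ∀ k, T ≤ k → k < t → Nr (cell w (D.walk G k).1) (cell w (D.walk G T).1))
    (hout : ¬ Nr (cell w (D.walk G t).1) (cell w (D.walk G T).1)) :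
    ∃ (a s : Bool) (X : ℤ), ((w:ℤ) ∣ X ∨ (w:ℤ) ∣ X + 1) ∧ co a (D.walk G t).1 = X ∧
      (∀ k, T ≤ k → k < t → if s then co a (D.walk G k).1 ≤ X - 1 else
        X + 1 ≤ co a (D.walk G k).1) ∧ (w:ℤ) + 1 ≤ |co a (D.walk G T).1 - X| := by
  unfold Nr at hout
  rw [not_and_or] at hout
  rcases hout with h | h
  · obtain ⟨s, X, h1, h2, h3, h4⟩ := exit_one (x := fun k => co true (D.walk G k).1)
      (co_step true D G) hw hTt (fun k h1 h2 => (hin k h1 h2).1) h
    exact ⟨true, s, X, h1, h2, h3, h4⟩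
  · obtain ⟨s, X, h1, h2, h3, h4⟩ := exit_one (x := fun k => co false (D.walk G k).1)
      (co_step false D G) hw hTt (fun k h1 h2 => (hin k h1 h2).2) h
    exact ⟨false, s, X, h1, h2, h3, h4⟩

/-- The ends of an examined edge. -/
theorem ae_near (σ : St) (a : Bool) : |co a (src (ae σ)) - co a σ.1| ≤ 1 ∧
    |co a (tgt (ae σ)) - co a σ.1| ≤ 1 := by
  have h1 := p2_ends σ
  have h2 := (co_sd a (mv σ).1 σ.1).trans (det_mv σ)
  rcases h1 with ⟨h3, h4⟩ | ⟨h3, h4⟩
  · rw [h3, h4]; exact ⟨by simp, h2⟩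
  · rw [h3, h4]; exact ⟨h2, by simp⟩

/-- The nearest side. -/
theorem near_side {D : Dm} {v : Vtx} {b : ℤ} (hb : D.bd v = b) (hv : inR D.l D.r 0 D.h v) :
    ∃ (a s : Bool) (X : ℤ), (X = D.l ∨ X = D.r ∨ X = D.h ∨ X = 0) ∧
      (a = true → D.l ≤ X ∧ X ≤ D.r) ∧ (a = false → 0 ≤ X ∧ X ≤ D.h) ∧ |co a v - X| = b ∧
      ∀ u, inR D.l D.r 0 D.h u → hpl a s X u := by
  unfold Dm.bd at hb
  unfold inR at hv
  have hlr : D.l ≤ D.r := by omega
  have hh : 0 ≤ D.h := by omega
  rcases min_choice (min (v.1 - D.l) (D.r - v.1)) (min v.2 (D.h - v.2)) with h | h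
  · rw [h] at hb
    rcases min_choice (v.1 - D.l) (D.r - v.1) with h' | h'
    · rw [h'] at hb
      refine ⟨true, false, D.l, Or.inl rfl, fun _ => ⟨le_rfl, hlr⟩, by simp, ?_, ?_⟩
      · simp only [co, if_true]
        rw [abs_of_nonneg (by omega)]
        exact hb
      · intro u hu
        unfold inR at hu
        exact hu.1.1
    · rw [h'] at hb
      refine ⟨true, true, D.r, Or.inr (Or.inl rfl), fun _ => ⟨hlr, le_rfl⟩, by simp, ?_, ?_⟩
      · simp only [co, if_true]
        rw [abs_sub_comm, abs_of_nonneg (by omega)]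
        exact hb
      · intro u hu
        unfold inR at hu
        exact hu.1.2
  · rw [h] at hb
    rcases min_choice v.2 (D.h - v.2) with h' | h'
    · rw [h'] at hb
      refine ⟨false, false, 0, Or.inr (Or.inr (Or.inr rfl)), by simp, fun _ => ⟨le_rfl, hh⟩, ?_, ?_⟩
      · simp only [co, Bool.false_eq_true, if_false]
        rw [sub_zero, abs_of_nonneg (by omega)]
        exact hb
      · intro u hu
        unfold inR at hu
        exact hu.2.1
    · rw [h'] at hb
      refine ⟨false, true, D.h, Or.inr (Or.inr (Or.inl rfl)), by simp, fun _ => ⟨hh, le_rfl⟩, ?_, ?_⟩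
      · simp only [co, Bool.false_eq_true, if_false]
        rw [abs_sub_comm, abs_of_nonneg (by omega)]
        exact hb
      · intro u hu
        unfold inR at hu
        exact hu.2.2

end Q291.EP
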