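import Pool.Agent.Q291.EP.Arm3

/-!
The arms at an edge whose state changes the coarse path: the statement.
-/

set_option maxHeartbeats 2000000

namespace Q291.EP

open H974 Finset H12S H342P H984P H984N

/-- The arms. -/
structure Arms (D : Dm) (w : ℕ) (e : Edg) (F : Finset Edg) (aa ss κ κ' : Bool) (X : ℤ) (J : ℕ) :
    Prop where
  line : Ln D w X
  near : |co aa (src e) - X| ≤ 2 ^ (J + 1)
  rv : aa = true → D.l ≤ X ∧ X ≤ D.r
  rh : aa = false → 0 ≤ X ∧ X ≤ D.h
  scale : (2:ℤ) ^ J ≤ D.h + 1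
  four : 4 ≤ J → A4e (2 ^ (J - 2)) (ce κ e) (↑(cf κ D.edges F) : Set Edg) ∧ Ins D e (2 ^ (J - 2))
  cross : 8 * 2 ^ J < Rr D w e → Cr (zl aa X e) (8 * 2 ^ J) (Rr D w e)
    (↑(cf κ' D.edges F ∩ cS κ' (Th D aa ss X)) : Set Edg)

theorem bd_nonneg {D : Dm} {v : Vtx} (hv : inR D.l D.r 0 D.h v) : 0 ≤ D.bd v := by
  unfold Dm.bd
  unfold inR at hv
  simp only [le_min_iff]
  omega

theorem sd_nonneg (u v : Vtx) : 0 ≤ sd u v := le_max_of_le_left (abs_nonneg _)

theorem arms_surg {D : Dm} {e : Edg} {F G G' : Finset Edg} {i j : ℕ} {σ τ : St} (hD : D.Ok)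
    (hs : Surg D e G G' i j σ τ) (hc : Com e F G G') {w : ℕ} (hw : 0 < w)
    (hl : 8 * (w:ℤ) ≤ -D.l) (hr : 8 * (w:ℤ) ≤ D.r) (hh : 8 * (w:ℤ) ≤ D.h)
    (hcp : cp D w G ≠ cp D w G') : ∃ aa ss κ κ' X J, Arms D w e F aa ss κ κ' X J := by
  classical
  obtain ⟨T, t, hT, hit, htj, hN, hout⟩ := surg_coarse hs hcp
  obtain ⟨a1, s1, X1, x1, x2, x3, x4⟩ := exit_line hw (by omega : T < t) hN hout
  have hlt := hs.lt
  have hle := hs.le
  have hσin : inR D.l D.r 0 D.h σ.1 := by
    rw [← hs.hi]; exact walk_in hD hs.pair.sub i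
  have htin : inR D.l D.r 0 D.h (D.walk G t).1 := walk_in hD hs.pair.sub t
  obtain ⟨b, hb⟩ : ∃ b : ℤ, D.bd σ.1 = b := ⟨_, rfl⟩
  have hb0 : 0 ≤ b := by rw [← hb]; exact bd_nonneg hσin
  obtain ⟨ρ, hρ⟩ : ∃ ρ : ℤ, sd σ.1 (D.walk G t).1 = ρ := ⟨_, rfl⟩
  have hρ0 : 0 ≤ ρ := by rw [← hρ]; exact sd_nonneg _ _
  -- scale
  obtain ⟨μ, hμ⟩ : ∃ μ : ℕ, (μ:ℤ) = min ρ b := ⟨(min ρ b).toNat, Int.toNat_of_nonneg (le_min hρ0 hb0)⟩
  obtain ⟨J, hJ⟩ : ∃ J : ℕ, J = Nat.log 2 (μ + 1) := ⟨_, rfl⟩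
  have hJ1 : 2 ^ J ≤ μ + 1 := by rw [hJ]; exact Nat.pow_log_le_self 2 (by omega)
  have hJ2 : μ + 1 < 2 ^ (J + 1) := by rw [hJ]; exact Nat.lt_pow_succ_log_self (by norm_num) _
  have hJ3 : 2 ^ (J + 1) = 2 * 2 ^ J := by rw [pow_succ]; ring
  obtain ⟨P, hP⟩ : ∃ P : ℕ, P = 2 ^ J := ⟨_, rfl⟩
  have hP1 : 1 ≤ P := by rw [hP]; exact Nat.one_le_two_pow
  rw [hJ3] at hJ2
  rw [← hP] at hJ1 hJ2
  have hμρ : (μ:ℤ) ≤ ρ := by rw [hμ]; exact min_le_left _ _
  have hμb : (μ:ℤ) ≤ b := by rw [hμ]; exact min_le_right _ _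
  -- the edge and the state
  have hse : sd σ.1 (src e) ≤ 1 := by
    have h1 := p2_ends σ
    rw [hs.tw.ae1] at h1
    have h2 := det_mv σ
    rcases h1 with ⟨h3, h4⟩ | ⟨h3, h4⟩
    · rw [h3, det_sd_self]; norm_num
    · rw [h3, det_sd_comm]; exact h2
  have hein : inR D.l D.r 0 D.h (src e) ∧ inR D.l D.r 0 D.h (tgt e) := RE_ends hs.pair.mem
  have hVi : (D.walk G i) = σ := hs.hi
  -- the line
  have hline : ∃ (aa ss : Bool) (X : ℤ), Ln D w X ∧ (aa = true → D.l ≤ X ∧ X ≤ D.r) ∧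
      (aa = false → 0 ≤ X ∧ X ≤ D.h) ∧ |co aa σ.1 - X| ≤ μ ∧
      (8 * 2 ^ J < Rr D w e → ∃ a b', a ≤ b' ∧ b' ≤ D.len G ∧
        (∀ k, a ≤ k → k < b' → ae (D.walk G k) ∈ D.edges →
          hpl aa ss X (src (ae (D.walk G k))) ∧ hpl aa ss X (tgt (ae (D.walk G k)))) ∧
        ((sd (D.walk G a).1 (zl aa X e) ≤ 2 * P ∧
            ((Rr D w e : ℕ) : ℤ) + 1 ≤ sd (D.walk G b').1 (zl aa X e)) ∨
          (sd (D.walk G b').1 (zl aa X e) ≤ 2 * P ∧
            ((Rr D w e : ℕ) : ℤ) + 1 ≤ sd (D.walk G a).1 (zl aa X e)))) := by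
    have hRw : 64 * Rr D w e ≤ w := by
      unfold Rr
      have := min_le_left w (min (sd (src e) (0, 0)).toNat (sd (src e) (D.t, D.h)).toNat)
      omega
    rcases le_or_gt ρ b with hcase | hcase
    · -- the exit line
      have hμ' : (μ:ℤ) = ρ := by rw [hμ]; exact min_eq_left hcase
      have hco : |co a1 σ.1 - X1| ≤ μ := by
        rw [hμ', ← hρ, ← x2]
        exact co_sd _ _ _
      refine ⟨a1, s1, X1, ?_, ?_, ?_, hco, ?_⟩
      · rcases x1 with x1 | x1
        · exact Or.inl x1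
        · exact Or.inr (Or.inl x1)
      · intro h
        rw [← x2, h]
        exact htin.1
      · intro h
        rw [← x2, h]
        exact htin.2
      · intro hR
        refine ⟨T, i, hT, by omega, ?_, Or.inr ⟨?_, ?_⟩⟩
        · intro k k1 k2 _
          have k3 := x3 k k1 (by omega)
          have k4 := ae_near (D.walk G k) a1
          rw [abs_le, abs_le] at k4
          cases s1
          · simp only [Bool.false_eq_true, if_false] at k3
            cases a1
            · simp only [co, Bool.false_eq_true, if_false] at k3 k4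
              unfold hpl
              simp only
              omega
            · simp only [co, if_true] at k3 k4
              unfold hpl
              simp only
              omega
          · simp only [if_true] at k3
            cases a1
            · simp only [co, Bool.false_eq_true, if_false] at k3 k4
              unfold hpl
              simp only
              omega
            · simp only [co, if_true] at k3 k4
              unfold hpl
              simp only
              omega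
        · rw [hVi]
          apply sd_zl_le
          · exact hco.trans (by omega)
          · exact hse.trans (by omega)
        · have h1 := co_sd a1 (D.walk G T).1 (zl a1 X1 e)
          rw [co_zl] at h1
          omega
    · -- a side
      have hμ' : (μ:ℤ) = b := by rw [hμ]; exact min_eq_right hcase.le
      obtain ⟨aa, ss, X, y1, y2, y3, y4, y5⟩ := near_side hb hσin
      have hco : |co aa σ.1 - X| ≤ μ := by rw [hμ']; exact y4.le
      have hσz : sd σ.1 (zl aa X e) ≤ μ + 1 := sd_zl_le (hco.trans (by omega)) (hse.trans (by omega))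
      refine ⟨aa, ss, X, ?_, y2, y3, hco, ?_⟩
      · rcases y1 with h | h | h | h
        · exact Or.inr (Or.inr (Or.inl h))
        · exact Or.inr (Or.inr (Or.inr (Or.inl h)))
        · exact Or.inr (Or.inr (Or.inr (Or.inr h)))
        · left; rw [h]; exact dvd_zero _
      · intro hR
        rw [← hP] at hR
        have hLall : ∀ k, ae (D.walk G k) ∈ D.edges →
            hpl aa ss X (src (ae (D.walk G k))) ∧ hpl aa ss X (tgt (ae (D.walk G k))) := by
          intro k hk
          have := RE_ends hk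
          exact ⟨y5 _ this.1, y5 _ this.2⟩
        have hfar : (w:ℤ) + 1 ≤ sd (D.walk G T).1 σ.1 + ρ := by
          have h1 := co_sd a1 (D.walk G T).1 (D.walk G t).1
          rw [x2] at h1
          have h2 := det_sd_tri (D.walk G T).1 σ.1 (D.walk G t).1
          rw [hρ] at h2
          omega
        rcases le_or_gt ((w:ℤ) + 1) (2 * sd (D.walk G T).1 σ.1) with h1 | h1
        · refine ⟨T, i, hT, by omega, fun k _ _ h => hLall k h, Or.inr ⟨?_, ?_⟩⟩
          · rw [hVi]; omega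
          · have h2 := det_sd_tri (D.walk G T).1 (zl aa X e) σ.1
            rw [det_sd_comm (zl aa X e)] at h2
            omega
        · refine ⟨i + 1, t, by omega, by omega, fun k _ _ h => hLall k h, Or.inl ⟨?_, ?_⟩⟩
          · have h2 := walk_step D G i
            rw [hVi, det_sd_comm] at h2
            have h3 := det_sd_tri (D.walk G (i + 1)).1 σ.1 (zl aa X e)
            omega
          · have h2 := det_sd_tri (D.walk G t).1 (zl aa X e) σ.1
            rw [det_sd_comm (zl aa X e), det_sd_comm (D.walk G t).1 σ.1, hρ] at h2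
            omega
  obtain ⟨aa, ss, X, l1, l2, l3, l4, l5⟩ := hline
  have hnear : |co aa (src e) - X| ≤ 2 * P := by
    have h1 := (co_sd aa σ.1 (src e)).trans hse
    have h2 := abs_sub_le (co aa (src e)) (co aa σ.1) X
    have h3 : |co aa (src e) - co aa σ.1| = |co aa σ.1 - co aa (src e)| := abs_sub_comm _ _
    omega
  have hcr : 8 * 2 ^ J < Rr D w e → ∃ κ', Cr (zl aa X e) (8 * 2 ^ J) (Rr D w e)
      (↑(cf κ' D.edges F ∩ cS κ' (Th D aa ss X)) : Set Edg) := by
    intro hR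
    obtain ⟨a, b', m1, m2, m3, m4⟩ := l5 hR
    rw [← hP] at hR ⊢
    obtain ⟨R, hRR⟩ : ∃ R : ℕ, R = Rr D w e := ⟨_, rfl⟩
    have hRd : 64 * R ≤ min w (min (sd (src e) (0, 0)).toNat (sd (src e) (D.t, D.h)).toNat) := by
      rw [hRR]; unfold Rr; omega
    rw [le_min_iff, le_min_iff] at hRd
    rw [← hRR] at hR m4 ⊢
    have hez : sd (src e) (zl aa X e) ≤ 2 * P := sd_zl_le hnear (by rw [det_sd_self]; omega)
    have hzin : inR D.l D.r 0 D.h (zl aa X e) := by
      have h3 : src e = (e.1, e.2.1) := rfl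
      rw [h3] at hein
      unfold inR at hein ⊢
      unfold zl
      cases aa
      · simp only [Bool.false_eq_true, if_false]
        have := l3 rfl
        omega
      · simp only [if_true]
        have := l2 rfl
        omega
    have hty : WN D (zl aa X e) R ∨ ON D (zl aa X e) R := by
      apply two_far hD (w := R + 6) le_rfl (by omega) (by omega) (by omega) hzin
      · have h1 := det_sd_tri (src e) (zl aa X e) (D.t, D.h)
        omega
      · have h1 := det_sd_tri (src e) (zl aa X e) (0, 0)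
        omega
    have hdc := dl_co e
    apply cross_of hD hs.pair.sub hc.one m1 m2 m3 hR.le ?_ ?_ ?_ hty
    · apply mem_bx_of
      have h3 : src e = (e.1, e.2.1) := rfl
      rw [h3] at hez
      omega
    · apply mem_bx_of
      have h3 : src e = (e.1, e.2.1) := rfl
      rw [h3] at hez
      have h4 : sd ((dl e).1, (dl e).2.1) (e.1, e.2.1) ≤ 1 := by
        unfold sd
        rw [max_le_iff, abs_le, abs_le]
        simp only
        omega
      have h5 := det_sd_tri ((dl e).1, (dl e).2.1) (e.1, e.2.1) (zl aa X e)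
      omega
    · rcases m4 with ⟨m5, m6⟩ | ⟨m5, m6⟩
      · left; exact ⟨by omega, m6⟩
      · right; exact ⟨by omega, m6⟩
  have hκ' : ∃ κ', (8 * 2 ^ J < Rr D w e → Cr (zl aa X e) (8 * 2 ^ J) (Rr D w e)
      (↑(cf κ' D.edges F ∩ cS κ' (Th D aa ss X)) : Set Edg)) := by
    by_cases h : 8 * 2 ^ J < Rr D w e
    · obtain ⟨κ', h'⟩ := hcr h
      exact ⟨κ', fun _ => h'⟩
    · exact ⟨true, fun h' => absurd h' h⟩
  obtain ⟨κ', hκ'⟩ := hκ'
  have hfour : ∃ κ : Bool, 4 ≤ J → A4e (2 ^ (J - 2)) (ce κ e) (↑(cf κ D.edges F) : Set Edg) ∧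
      Ins D e (2 ^ (J - 2)) := by
    have hk : 4 ≤ J → 4 * 2 ^ (J - 2) = P ∧ 4 ≤ 2 ^ (J - 2) := by
      intro h
      constructor
      · rw [hP]
        have : J = (J - 2) + 2 := by omega
        conv_rhs => rw [this, pow_add]
        ring
      · calc 4 = 2 ^ 2 := by norm_num
          _ ≤ 2 ^ (J - 2) := Nat.pow_le_pow_right (by norm_num) (by omega)
    by_cases heG : e ∈ G
    · refine ⟨true, fun h => ?_⟩
      obtain ⟨k1, k2⟩ := hk h
      obtain ⟨k, hkk⟩ : ∃ k : ℕ, k = 2 ^ (J - 2) := ⟨_, rfl⟩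
      rw [← hkk] at k1 k2 ⊢
      refine ⟨?_, ins_of hs.tw.ae1 (by omega)⟩
      simp only [ce, cf, if_true]
      exact arm_open hD hs hc heG hit htj (by omega) (by omega) (by omega)
    · refine ⟨false, fun h => ?_⟩
      obtain ⟨k1, k2⟩ := hk h
      obtain ⟨k, hkk⟩ : ∃ k : ℕ, k = 2 ^ (J - 2) := ⟨_, rfl⟩
      rw [← hkk] at k1 k2 ⊢
      refine ⟨?_, ins_of hs.tw.ae1 (by omega)⟩
      simp only [ce, cf, Bool.false_eq_true, if_false]
      exact arm_closed hD hs hc heG hit htj (by omega) (by omega) (by omega)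
  obtain ⟨κ, hκ⟩ := hfour
  refine ⟨aa, ss, κ, κ', X, J, l1, ?_, l2, l3, ?_, hκ, hκ'⟩
  · have : (2:ℤ) ^ (J + 1) = 2 * (P:ℤ) := by rw [hP]; push_cast; rw [pow_succ]; ring
    rw [this]
    exact hnear
  · have h1 : (2:ℤ) ^ J = (P:ℤ) := by rw [hP]; push_cast; rfl
    rw [h1]
    have h2 : D.bd σ.1 ≤ σ.1.2 := (min_le_right _ _).trans (min_le_left _ _)
    have h3 := hσin.2.2
    omega

/-- The arms, for a configuration. -/
theorem arms_of {D : Dm} {e : Edg} {F : Finset Edg} (hD : D.Ok) (hF : F ⊆ D.edges)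
    (he : e ∈ rnd D) {w : ℕ} (hw : 0 < w)
    (hl : 8 * (w:ℤ) ≤ -D.l) (hr : 8 * (w:ℤ) ≤ D.r) (hh : 8 * (w:ℤ) ≤ D.h)
    (hcp : cp D w (insert e F) ≠ cp D w (F.erase e)) :
    ∃ aa ss κ κ' X J, Arms D w e F aa ss κ κ' X J := by
  rw [mem_rnd] at he
  have hp := Pair.of hF he.1 he.2
  have c1 : ∀ g, g ≠ e → (g ∈ insert e F ↔ g ∈ F) := by
    intro g hg; rw [Finset.mem_insert]; tauto
  have c2 : ∀ g, g ≠ e → (g ∈ F.erase e ↔ g ∈ F) := by
    intro g hg; rw [Finset.mem_erase]; tauto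
  rcases flip_cases hD hp with ⟨h1, h2⟩ | ⟨i, j, σ, τ, hs⟩ | ⟨i, j, σ, τ, hs⟩
  · exfalso
    apply hcp
    unfold cp
    rw [h1]
    congr 1
    unfold upto
    apply List.map_congr_left
    intro k hk
    rw [List.mem_range] at hk
    exact h2 k (by omega)
  · exact arms_surg hD hs ⟨c2, c1⟩ hw hl hr hh (Ne.symm hcp)
  · exact arms_surg hD hs ⟨c1, c2⟩ hw hl hr hh hcp

end Q291.EP
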