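import Pool.Agent.Q291.EP.Coarse
import Pool.Agent.H984R4.NP.PL
import Pool.Agent.H984R4.NP.ModelLem

/-!
Paths with the same coarse path are close as curves up to reparametrisation.
-/

namespace Q291.EP

open H974 Finset H342P H984P H984N

/-- The curves `f` and `g` are within `ρ` after an increasing reparametrisation. -/
def Fr (f g : C(unitInterval, ℂ)) (ρ : ℝ) : Prop :=
  ∃ φ : unitInterval ≃o unitInterval, ∀ t, dist (f t) (g (φ t)) ≤ ρ

/-- Breakpoints. -/
structure Brk (M : ℕ) (a : ℕ → ℝ) : Prop where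
  zero : a 0 = 0
  one : a M = 1
  lt : ∀ k, k < M → a k < a (k + 1)

theorem Brk.mono {M : ℕ} {a : ℕ → ℝ} (h : Brk M a) {k l : ℕ} (hkl : k ≤ l) (hl : l ≤ M) :
    a k ≤ a l := by
  induction l with
  | zero =>
    have : k = 0 := by omega
    rw [this]
  | succ l ih =>
    rcases Nat.lt_or_ge k (l + 1) with h1 | h1
    · exact (ih (by omega) (by omega)).trans (h.lt l (by omega)).le
    · have : k = l + 1 := by omega
      rw [this]

theorem Brk.seg {M : ℕ} {a : ℕ → ℝ} (h : Brk M a) {t : ℝ} (h0 : 0 ≤ t) (h1 : t < 1) :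
    ∃ m, m < M ∧ a m ≤ t ∧ t < a (m + 1) := by
  classical
  have hex : ∃ m, m ≤ M ∧ t < a m := ⟨M, le_rfl, by rw [h.one]; exact h1⟩
  have hs := Nat.find_spec hex
  have hpos : Nat.find hex ≠ 0 := by
    intro h2
    rw [h2] at hs
    have := hs.2
    rw [h.zero] at this
    linarith
  refine ⟨Nat.find hex - 1, by omega, ?_, ?_⟩
  · by_contra h2
    push Not at h2
    exact Nat.find_min hex (m := Nat.find hex - 1) (by omega) ⟨by omega, h2⟩
  · rw [Nat.sub_add_cancel (Nat.one_le_iff_ne_zero.mpr hpos)]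
    exact hs.2

/-- The interpolation. -/
noncomputable def ipf (M : ℕ) (a b : ℕ → ℝ) (t : ℝ) : ℝ :=
  ∑ k ∈ Finset.range M, (b (k + 1) - b k) * clamp ((t - a k) / (a (k + 1) - a k))

theorem clamp_mono {x y : ℝ} (h : x ≤ y) : clamp x ≤ clamp y := by
  unfold clamp
  exact max_le_max le_rfl (min_le_min le_rfl h)

theorem ipf_mono {M : ℕ} {a b : ℕ → ℝ} (ha : Brk M a) (hb : Brk M b) {t s : ℝ} (h : t ≤ s) :
    ipf M a b t ≤ ipf M a b s := by
  unfold ipf
  apply Finset.sum_le_sum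
  intro k hk
  rw [Finset.mem_range] at hk
  apply mul_le_mul_of_nonneg_left _ (by have := hb.lt k hk; linarith)
  apply clamp_mono
  apply div_le_div_of_nonneg_right (by linarith)
  have := ha.lt k hk
  linarith

theorem ipf_eq {M : ℕ} {a b : ℕ → ℝ} (ha : Brk M a) (hb : Brk M b) {t : ℝ} {m : ℕ} (hm : m < M)
    (h1 : a m ≤ t) (h2 : t ≤ a (m + 1)) :
    ipf M a b t = b m + (b (m + 1) - b m) * ((t - a m) / (a (m + 1) - a m)) := by
  have key : ∀ n, n ≤ M →
      ∑ k ∈ Finset.range n, (b (k + 1) - b k) * clamp ((t - a k) / (a (k + 1) - a k)) =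
      if n ≤ m then b n else b m + (b (m + 1) - b m) * ((t - a m) / (a (m + 1) - a m)) := by
    intro n
    induction n with
    | zero => intro _; simp [hb.zero]
    | succ n ih =>
      intro hn
      rw [Finset.sum_range_succ, ih (by omega)]
      have hd : 0 < a (n + 1) - a n := by have := ha.lt n (by omega); linarith
      rcases lt_trichotomy n m with h3 | h3 | h3
      · rw [if_pos (by omega), if_pos (by omega), pl_clamp_one, mul_one]
        · ring
        · rw [le_div_iff₀ hd, one_mul]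
          have := ha.mono (k := n + 1) (l := m) (by omega) (by omega)
          linarith
      · rw [if_pos (by omega), if_neg (by omega), h3, pl_clamp_id]
        · rw [h3] at hd
          exact div_nonneg (by linarith) hd.le
        · rw [h3] at hd
          rw [div_le_one hd]
          linarith
      · rw [if_neg (by omega), if_neg (by omega), pl_clamp_zero, mul_zero, add_zero]
        apply div_nonpos_of_nonpos_of_nonneg _ hd.le
        have := ha.mono (k := m + 1) (l := n) (by omega) (by omega)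
        linarith
  unfold ipf
  rw [key M le_rfl, if_neg (by omega)]

theorem ipf_mem {M : ℕ} {a b : ℕ → ℝ} (ha : Brk M a) (hb : Brk M b) {t : ℝ} {m : ℕ} (hm : m < M)
    (h1 : a m ≤ t) (h2 : t ≤ a (m + 1)) : b m ≤ ipf M a b t ∧ ipf M a b t ≤ b (m + 1) := by
  rw [ipf_eq ha hb hm h1 h2]
  have hd : 0 < a (m + 1) - a m := by have := ha.lt m hm; linarith
  have hd' : 0 < b (m + 1) - b m := by have := hb.lt m hm; linarith
  have h3 : 0 ≤ (t - a m) / (a (m + 1) - a m) := div_nonneg (by linarith) hd.le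
  have h4 : (t - a m) / (a (m + 1) - a m) ≤ 1 := by rw [div_le_one hd]; linarith
  constructor <;> nlinarith

theorem ipf_strict {M : ℕ} {a b : ℕ → ℝ} (ha : Brk M a) (hb : Brk M b) {t s : ℝ} (h0 : 0 ≤ t)
    (h1 : s ≤ 1) (h : t < s) : ipf M a b t < ipf M a b s := by
  obtain ⟨m, hm, h2, h3⟩ := ha.seg h0 (lt_of_lt_of_le h h1)
  have h4 : t < min s (a (m + 1)) := lt_min h h3
  refine lt_of_lt_of_le ?_ (ipf_mono ha hb (min_le_left s (a (m + 1))))
  rw [ipf_eq ha hb hm h2 h3.le, ipf_eq ha hb hm (by linarith) (min_le_right _ _)]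
  have hd : 0 < a (m + 1) - a m := by have := ha.lt m hm; linarith
  have hd' : 0 < b (m + 1) - b m := by have := hb.lt m hm; linarith
  have h5 : (t - a m) / (a (m + 1) - a m) < (min s (a (m + 1)) - a m) / (a (m + 1) - a m) :=
    div_lt_div_of_pos_right (by linarith) hd
  nlinarith

theorem ipf_zero {M : ℕ} {a b : ℕ → ℝ} (ha : Brk M a) (hb : Brk M b) (hM : 0 < M) :
    ipf M a b 0 = 0 := by
  rw [ipf_eq ha hb hM (by rw [ha.zero]) (by have := ha.lt 0 hM; rw [ha.zero] at this; exact this.le),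
    hb.zero, ha.zero]
  simp

theorem ipf_one {M : ℕ} {a b : ℕ → ℝ} (ha : Brk M a) (hb : Brk M b) (hM : 0 < M) :
    ipf M a b 1 = 1 := by
  obtain ⟨m, rfl⟩ : ∃ m, M = m + 1 := ⟨M - 1, by omega⟩
  have h1 := ha.lt m (by omega)
  rw [ha.one] at h1
  rw [ipf_eq ha hb (m := m) (by omega) h1.le (by rw [ha.one]), ha.one, hb.one,
    div_self (by linarith)]
  ring

theorem ipf_cont (M : ℕ) (a b : ℕ → ℝ) : Continuous (ipf M a b) := by
  unfold ipf clamp
  fun_prop

/-- The reparametrisation. -/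
theorem reparam {M : ℕ} {a b : ℕ → ℝ} (ha : Brk M a) (hb : Brk M b) (hM : 0 < M) :
    ∃ φ : unitInterval ≃o unitInterval, ∀ t : unitInterval, (φ t : ℝ) = ipf M a b t := by
  have hmem : ∀ t : unitInterval, ipf M a b t ∈ Set.Icc (0:ℝ) 1 := by
    intro t
    constructor
    · rw [← ipf_zero ha hb hM]
      exact ipf_mono ha hb t.2.1
    · rw [← ipf_one ha hb hM]
      exact ipf_mono ha hb t.2.2
  have hst : StrictMono (fun t : unitInterval => (⟨ipf M a b t, hmem t⟩ : unitInterval)) := by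
    intro t s h
    show ipf M a b t < ipf M a b s
    exact ipf_strict ha hb t.2.1 s.2.2 h
  have hsurj : Function.Surjective (fun t : unitInterval =>
      (⟨ipf M a b t, hmem t⟩ : unitInterval)) := by
    intro y
    have h1 := intermediate_value_Icc (show (0:ℝ) ≤ 1 by norm_num) (ipf_cont M a b).continuousOn
    rw [ipf_zero ha hb hM, ipf_one ha hb hM] at h1
    obtain ⟨t, ht, hty⟩ := h1 y.2
    exact ⟨⟨t, ht⟩, Subtype.ext hty⟩
  exact ⟨hst.orderIsoOfSurjective _ hsurj, fun t => rfl⟩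

theorem fr_of {M : ℕ} {a b : ℕ → ℝ} (ha : Brk M a) (hb : Brk M b) (hM : 0 < M)
    {f g : C(unitInterval, ℂ)} {ρ : ℝ}
    (h : ∀ m, m < M → ∀ t s : unitInterval, a m ≤ t → (t:ℝ) ≤ a (m + 1) → b m ≤ s →
      (s:ℝ) ≤ b (m + 1) → dist (f t) (g s) ≤ ρ) : Fr f g ρ := by
  obtain ⟨φ, hφ⟩ := reparam ha hb hM
  refine ⟨φ, fun t => ?_⟩
  rcases lt_or_eq_of_le t.2.2 with h1 | h1
  · obtain ⟨m, hm, h2, h3⟩ := ha.seg t.2.1 h1
    have h4 := ipf_mem ha hb hm h2 h3.le
    rw [← hφ t] at h4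
    exact h m hm t (φ t) h2 h3.le h4.1 h4.2
  · obtain ⟨m, rfl⟩ : ∃ m, M = m + 1 := ⟨M - 1, by omega⟩
    have h5 := ha.lt m (by omega)
    rw [ha.one] at h5
    have h2 : a m ≤ (t:ℝ) := by
      have : (t:ℝ) = 1 := h1
      rw [this]
      exact h5.le
    have h3 : (t:ℝ) ≤ a (m + 1) := by rw [ha.one]; exact t.2.2
    have h4 := ipf_mem ha hb (by omega) h2 h3
    rw [← hφ t] at h4
    exact h m (by omega) t (φ t) h2 h3 h4.1 h4.2

/-- The breakpoints of the recording times. -/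
noncomputable def bk (K N : ℕ) (T : ℕ → ℕ) (k : ℕ) : ℝ :=
  if k = 0 then 0 else if k ≤ K then ((T k : ℝ) - 1/2) / N else 1

theorem bk_brk {K N : ℕ} {T : ℕ → ℕ} (hN : 0 < N) (h0 : T 0 = 0) (h1 : ∀ k, k < K → T k < T (k + 1))
    (h2 : T K ≤ N) : Brk (K + 1) (bk K N T) := by
  have hN' : (0:ℝ) < N := by exact_mod_cast hN
  have hT : ∀ k, k ≤ K → k ≤ T k := by
    intro k
    induction k with
    | zero => intro _; omega
    | succ k ih =>
      intro hk
      have := ih (by omega)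
      have := h1 k (by omega)
      omega
  refine ⟨by simp [bk], by simp [bk], ?_⟩
  intro k hk
  unfold bk
  rcases Nat.eq_zero_or_pos k with h3 | h3
  · rw [if_pos h3, h3]
    rw [if_neg (by omega)]
    by_cases h4 : 0 + 1 ≤ K
    · rw [if_pos h4]
      apply div_pos _ hN'
      have h5 := hT (0 + 1) h4
      have h6 : (1:ℝ) ≤ (T (0 + 1) : ℝ) := by exact_mod_cast (show 1 ≤ T (0 + 1) by omega)
      linarith
    · rw [if_neg h4]
      norm_num
  · rw [if_neg (by omega), if_pos (by omega), if_neg (by omega)]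
    by_cases h4 : k + 1 ≤ K
    · rw [if_pos h4]
      apply div_lt_div_of_pos_right _ hN'
      have h5 := h1 k (by omega)
      have h6 : (T k : ℝ) < T (k + 1) := by exact_mod_cast h5
      linarith
    · rw [if_neg h4]
      have h5 : k = K := by omega
      rw [h5, div_lt_one hN']
      have h6 : (T K : ℝ) ≤ N := by exact_mod_cast h2
      linarith

/-- Between two breakpoints the polygonal curve is near a position of the block. -/
theorem bk_near {K N : ℕ} {T : ℕ → ℕ} (hN : 0 < N) (h0 : T 0 = 0)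
    (h1 : ∀ k, k < K → T k < T (k + 1)) {p : ℕ → ℂ} {d : ℝ}
    (hp : ∀ k, dist (p k) (p (k + 1)) ≤ d) {m : ℕ} (hm : m < K + 1) {t : unitInterval}
    (h3 : bk K N T m ≤ t) (h4 : (t:ℝ) ≤ bk K N T (m + 1)) :
    ∃ k, T m ≤ k ∧ (k < T (m + 1) ∨ m = K) ∧ k ≤ N ∧ dist (pl N p t) (p k) ≤ d := by
  have hN' : (0:ℝ) < N := by exact_mod_cast hN
  have hd : 0 ≤ d := dist_nonneg.trans (hp 0)
  obtain ⟨k0, hk0, h5, h6⟩ := pl_exists_seg hN t
  have h7 := pl_seg (p := p) hk0 h5 h6
  have hlow : (T m : ℝ) - 1/2 ≤ t * N := by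
    unfold bk at h3
    by_cases hm0 : m = 0
    · rw [if_pos hm0] at h3
      rw [hm0, h0]
      have := mul_nonneg t.2.1 hN'.le
      push_cast
      linarith
    · rw [if_neg hm0, if_pos (by omega), div_le_iff₀ hN'] at h3
      exact h3
  have hup : m ≠ K → (t:ℝ) * N ≤ (T (m + 1) : ℝ) - 1/2 := by
    intro hmK
    unfold bk at h4
    rw [if_neg (by omega), if_pos (by omega), le_div_iff₀ hN'] at h4
    exact h4
  have hseg0 : dist (pl N p t) (p k0) ≤ d := by
    rw [h7, dist_eq_norm, add_sub_cancel_left, norm_mul, Complex.norm_real, Real.norm_eq_abs,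
      abs_of_nonneg (by linarith)]
    have h8 := hp k0
    rw [dist_comm, dist_eq_norm] at h8
    calc _ ≤ 1 * ‖p (k0 + 1) - p k0‖ :=
          mul_le_mul_of_nonneg_right (by linarith) (norm_nonneg _)
      _ ≤ d := by rw [one_mul]; exact h8
  have hseg1 : dist (pl N p t) (p (k0 + 1)) ≤ d := by
    rw [h7, dist_eq_norm]
    have e1 : p k0 + (((t : ℝ) * N - k0 : ℝ) : ℂ) * (p (k0 + 1) - p k0) - p (k0 + 1) =
        -((((1:ℝ) - ((t : ℝ) * N - k0) : ℝ) : ℂ) * (p (k0 + 1) - p k0)) := by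
      push_cast
      ring
    rw [e1, norm_neg, norm_mul, Complex.norm_real, Real.norm_eq_abs, abs_of_nonneg (by linarith)]
    have h8 := hp k0
    rw [dist_comm, dist_eq_norm] at h8
    calc _ ≤ 1 * ‖p (k0 + 1) - p k0‖ :=
          mul_le_mul_of_nonneg_right (by linarith) (norm_nonneg _)
      _ ≤ d := by rw [one_mul]; exact h8
  rcases Nat.lt_or_ge k0 (T m) with h8 | h8
  · have h9 : (T m : ℝ) ≤ k0 + 3/2 := by linarith
    have h10 : T m = k0 + 1 := by
      have : (T m : ℝ) < ((k0 + 2 : ℕ) : ℝ) := by push_cast; linarith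
      have : T m < k0 + 2 := by exact_mod_cast this
      omega
    refine ⟨k0 + 1, by omega, ?_, by omega, hseg1⟩
    by_cases hmK : m = K
    · exact Or.inr hmK
    · left
      have := h1 m (by omega)
      omega
  · refine ⟨k0, h8, ?_, by omega, hseg0⟩
    by_cases hmK : m = K
    · exact Or.inr hmK
    · left
      have h11 := hup hmK
      have : ((k0:ℕ):ℝ) < T (m + 1) := by linarith
      exact_mod_cast this

theorem Nr_sd {w : ℕ} (hw : 0 < w) {u v : Vtx} {c : ℤ × ℤ} (h1 : Nr (cell w u) c)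
    (h2 : Nr (cell w v) c) : sd u v ≤ 3 * w := by
  have hw' : (0:ℤ) < w := by exact_mod_cast hw
  unfold Nr cell at h1 h2
  simp only [abs_le] at h1 h2
  unfold sd
  have a1 := Int.mul_ediv_add_emod u.1 w
  have a2 := Int.mul_ediv_add_emod u.2 w
  have a3 := Int.mul_ediv_add_emod v.1 w
  have a4 := Int.mul_ediv_add_emod v.2 w
  have b1 := Int.emod_nonneg u.1 hw'.ne'
  have b2 := Int.emod_nonneg u.2 hw'.ne'
  have b3 := Int.emod_nonneg v.1 hw'.ne'
  have b4 := Int.emod_nonneg v.2 hw'.ne'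
  have c1 := Int.emod_lt_of_pos u.1 hw'
  have c2 := Int.emod_lt_of_pos u.2 hw'
  have c3 := Int.emod_lt_of_pos v.1 hw'
  have c4 := Int.emod_lt_of_pos v.2 hw'
  have key : ∀ x y c : ℤ, -1 ≤ x / w - c → x / w - c ≤ 1 → -1 ≤ y / w - c → y / w - c ≤ 1 →
      (w:ℤ) * (x / w) + x % w = x → (w:ℤ) * (y / w) + y % w = y → 0 ≤ x % w → 0 ≤ y % w →
      x % w < w → y % w < w → |x - y| ≤ 3 * w := by
    intro x y c d1 d2 d3 d4 d5 d6 d7 d8 d9 d10
    rw [abs_le]
    constructor <;> nlinarith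
  rw [max_le_iff]
  exact ⟨key _ _ c.1 h1.1.1 h1.1.2 h2.1.1 h2.1.2 a1 a3 b1 b3 c1 c3,
    key _ _ c.2 h1.2.1 h1.2.2 h2.2.1 h2.2.2 a2 a4 b2 b4 c2 c4⟩

/-- Paths with the same coarse path are close as curves. -/
theorem cp_close (R : Rect) {δ : ℝ} (hδ : 0 ≤ δ) (hD : (R.dm δ).Ok) {w : ℕ} (hw : 0 < w)
    {G G' : Finset Edg} (hG : G ⊆ (R.dm δ).edges) (hG' : G' ⊆ (R.dm δ).edges)
    (h : cp (R.dm δ) w G = cp (R.dm δ) w G') :
    Fr (R.curve δ G) (R.curve δ G') (δ * (6 * w + 2)) := by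
  set D := R.dm δ with hDd
  have hpos : ∀ F, F ⊆ D.edges → 0 < D.len F := by
    intro F hF
    rcases Nat.eq_zero_or_pos (D.len F) with h0 | h0
    · exfalso
      have h1 := walk_len hD hF
      rw [h0, walk_zero] at h1
      have h2 : (Q4.ne : Q4) = Q4.se := congrArg Prod.snd h1
      exact absurd h2 (by decide)
    · exact h0
  obtain ⟨T, t0, t1, t2, t3, t4, t5⟩ := times w (D.walk G) (D.len G)
  obtain ⟨U, u0, u1, u2, u3, u4, u5⟩ := times w (D.walk G') (D.len G')
  have e1 : crs w (cell w (D.walk G 0).1) (upto (D.walk G) (D.len G)) = cp D w G := rfl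
  have e2 : crs w (cell w (D.walk G' 0).1) (upto (D.walk G') (D.len G')) = cp D w G := by
    rw [h]; rfl
  have e3 : cell w (D.walk G 0).1 = cell w D.start.1 := rfl
  have e4 : cell w (D.walk G' 0).1 = cell w D.start.1 := rfl
  rw [e1] at t1 t2 t3 t4 t5
  rw [e2] at u1 u2 u3 u4 u5
  rw [e3] at t3 t4 t5
  rw [e4] at u3 u4 u5
  obtain ⟨K, hK⟩ : ∃ K, K = (cp D w G).length := ⟨_, rfl⟩
  rw [← hK] at t1 t2 t3 t4 t5 u1 u2 u3 u4 u5
  have hN := hpos G hG
  have hN' := hpos G' hG'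
  refine fr_of (bk_brk hN t0 t1 t2) (bk_brk hN' u0 u1 u2) (Nat.succ_pos K) ?_
  intro m hm t s h1 h2 h3 h4
  obtain ⟨k, k1, k2, k3, k4⟩ := bk_near (p := fun k => pos δ (D.walk G k)) (d := δ / 2) hN t0 t1
    (fun k => by rw [walk_succ]; exact pos_nxt hδ _ _) hm h1 h2
  obtain ⟨l, l1, l2, l3, l4⟩ := bk_near (p := fun k => pos δ (D.walk G' k)) (d := δ / 2) hN' u0 u1
    (fun k => by rw [walk_succ]; exact pos_nxt hδ _ _) hm h3 h4
  have n1 : Nr (cell w (D.walk G k).1) ((cell w D.start.1 :: cp D w G).getD m (0, 0)) := by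
    rcases Nat.lt_or_ge m K with h5 | h5
    · exact t3 m k h5 k1 (by omega)
    · have h6 : m = K := by omega
      rw [h6, ← t5]
      exact t4 k (by rw [← h6]; exact k1) k3
  have n2 : Nr (cell w (D.walk G' l).1) ((cell w D.start.1 :: cp D w G).getD m (0, 0)) := by
    rcases Nat.lt_or_ge m K with h5 | h5
    · exact u3 m l h5 l1 (by omega)
    · have h6 : m = K := by omega
      rw [h6, ← u5]
      exact u4 l (by rw [← h6]; exact l1) l3
  have h5 := Nr_sd hw n1 n2
  have h6 := dist_pos_le hδ (D.walk G k) (D.walk G' l)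
  have h7 : ((sd (D.walk G k).1 (D.walk G' l).1 : ℤ) : ℝ) ≤ 3 * w := by exact_mod_cast h5
  have h8 : dist (pos δ (D.walk G k)) (pos δ (D.walk G' l)) ≤ δ * (6 * w + 1) := by
    refine h6.trans ?_
    apply mul_le_mul_of_nonneg_left _ hδ
    linarith
  have h9 : dist (R.curve δ G t) (R.curve δ G' s) ≤ dist (R.curve δ G t) (pos δ (D.walk G k)) +
      (dist (pos δ (D.walk G k)) (pos δ (D.walk G' l)) +
        dist (pos δ (D.walk G' l)) (R.curve δ G' s)) := by
    refine (dist_triangle _ (pos δ (D.walk G k)) _).trans ?_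
    exact add_le_add le_rfl (dist_triangle _ _ _)
  have h10 : dist (R.curve δ G t) (pos δ (D.walk G k)) ≤ δ / 2 := k4
  have h11 : dist (pos δ (D.walk G' l)) (R.curve δ G' s) ≤ δ / 2 := by rw [dist_comm]; exact l4
  linarith

end Q291.EP
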