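import Pool.Agent.Q291.EP.Wk
import Pool.Agent.H984R3.Per.Pot

/-!
How the exploration path changes when one edge is flipped: a loop is inserted or removed.
-/

namespace Q291.EP

open H974 Finset H342P H984P H984N

theorem ae_s1 (e : Edg) : ae (s1 e) = e := by
  obtain ⟨x, y, _ | _⟩ := e <;> simp [s1]

theorem ae_s2 (e : Edg) : ae (s2 e) = e := by
  obtain ⟨x, y, _ | _⟩ := e <;> simp [s2]

theorem mv_s1 (e : Edg) : mv (s1 e) = rt (s2 e) := by
  obtain ⟨x, y, _ | _⟩ := e <;> simp [s1, s2]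

theorem mv_s2 (e : Edg) : mv (s2 e) = rt (s1 e) := by
  obtain ⟨x, y, _ | _⟩ := e <;> simp [s1, s2]

theorem s1_ne_s2 (e : Edg) : s1 e ≠ s2 e := by
  obtain ⟨x, y, _ | _⟩ := e <;> simp [s1, s2]

/-- The two states which examine `e`. -/
def Tw (e : Edg) (σ τ : St) : Prop := (σ = s1 e ∧ τ = s2 e) ∨ (σ = s2 e ∧ τ = s1 e)

theorem Tw.symm {e : Edg} {σ τ : St} (h : Tw e σ τ) : Tw e τ σ := by
  rcases h with ⟨h1, h2⟩ | ⟨h1, h2⟩
  · exact Or.inr ⟨h2, h1⟩
  · exact Or.inl ⟨h2, h1⟩

theorem Tw.ae1 {e : Edg} {σ τ : St} (h : Tw e σ τ) : ae σ = e := by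
  rcases h with ⟨h1, _⟩ | ⟨h1, _⟩
  · rw [h1, ae_s1]
  · rw [h1, ae_s2]

theorem Tw.ne {e : Edg} {σ τ : St} (h : Tw e σ τ) : σ ≠ τ := by
  rcases h with ⟨h1, h2⟩ | ⟨h1, h2⟩
  · rw [h1, h2]; exact s1_ne_s2 e
  · rw [h1, h2]; exact (s1_ne_s2 e).symm

theorem Tw.mv {e : Edg} {σ τ : St} (h : Tw e σ τ) : H984P.mv σ = rt τ := by
  rcases h with ⟨h1, h2⟩ | ⟨h1, h2⟩
  · rw [h1, h2]; exact mv_s1 e
  · rw [h1, h2]; exact mv_s2 e

/-- Every state which examines `e` is one of the two. -/
theorem Tw.cases {e : Edg} {σ τ : St} (h : Tw e σ τ) {ρ : St} (hρ : ae ρ = e) : ρ = σ ∨ ρ = τ := by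
  have h1 := ae_cases ρ
  rw [hρ] at h1
  rcases h with ⟨h2, h3⟩ | ⟨h2, h3⟩
  · rw [h2, h3]; exact h1
  · rw [h2, h3]; exact h1.symm

theorem tw_ex {e : Edg} {σ : St} (h : ae σ = e) : ∃ τ, Tw e σ τ := by
  rcases ae_cases σ with h1 | h1
  · rw [h] at h1
    exact ⟨s2 e, Or.inl ⟨h1, rfl⟩⟩
  · rw [h] at h1
    exact ⟨s1 e, Or.inr ⟨h1, rfl⟩⟩

/-- Two configurations which differ exactly at the random edge `e`. -/
structure Pair (D : Dm) (e : Edg) (G G' : Finset Edg) : Prop where
  sub : G ⊆ D.edges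
  sub' : G' ⊆ D.edges
  mem : e ∈ D.edges
  nw : e ∉ D.wir
  off : ∀ f, f ≠ e → (f ∈ G ↔ f ∈ G')
  on : e ∈ G ↔ e ∉ G'

theorem Pair.symm {D : Dm} {e : Edg} {G G' : Finset Edg} (h : Pair D e G G') : Pair D e G' G where
  sub := h.sub'
  sub' := h.sub
  mem := h.mem
  nw := h.nw
  off f hf := (h.off f hf).symm
  on := by have := h.on; tauto

theorem Pair.of {D : Dm} {e : Edg} {F : Finset Edg} (hF : F ⊆ D.edges) (he : e ∈ D.edges)
    (hw : e ∉ D.wir) : Pair D e (F.erase e) (insert e F) where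
  sub := (Finset.erase_subset _ _).trans hF
  sub' := Finset.insert_subset he hF
  mem := he
  nw := hw
  off f hf := by
    rw [Finset.mem_erase, Finset.mem_insert]
    tauto
  on := by simp

variable {D : Dm} {e : Edg} {G G' : Finset Edg}

theorem Pair.cfg_off (h : Pair D e G G') {f : Edg} (hf : f ≠ e) : f ∈ D.cfg G ↔ f ∈ D.cfg G' := by
  unfold Dm.cfg
  simp only [Set.mem_union, Finset.mem_coe]
  rw [h.off f hf]

theorem Pair.cfg_on (h : Pair D e G G') : e ∈ D.cfg G ↔ e ∉ D.cfg G' := by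
  have h1 := h.on
  have h2 := h.nw
  unfold Dm.cfg
  simp only [Set.mem_union, Finset.mem_coe, h2, or_false]
  exact h1

theorem Pair.nxt_off (h : Pair D e G G') {σ : St} (hσ : ae σ ≠ e) :
    nxt (D.cfg G') σ = nxt (D.cfg G) σ := by
  by_cases hc : ae σ ∈ D.cfg G
  · rw [nxt_open hc, nxt_open ((h.cfg_off hσ).mp hc)]
  · rw [nxt_closed hc, nxt_closed (fun h' => hc ((h.cfg_off hσ).mpr h'))]

theorem Pair.nxt_on (h : Pair D e G G') {σ τ : St} (hσ : Tw e σ τ) :
    nxt (D.cfg G') σ = nxt (D.cfg G) τ := by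
  have h1 := h.cfg_on
  by_cases hc : e ∈ D.cfg G
  · rw [nxt_closed (by rw [hσ.ae1]; exact h1.mp hc), nxt_open (by rw [hσ.symm.ae1]; exact hc),
      hσ.symm.mv]
  · rw [nxt_open (by rw [hσ.ae1]; by_contra h2; exact hc (h1.mpr h2)),
      nxt_closed (by rw [hσ.symm.ae1]; exact hc), hσ.mv]

theorem ae_stop_notMem : ae Dm.stop ∉ D.edges := by
  unfold Dm.stop Dm.edges
  rw [ae_se, mem_RE_false]
  omega

theorem walk_ne_stop {F : Finset Edg} {k : ℕ} (hk : k < D.len F) : D.walk F k ≠ Dm.stop := by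
  intro h
  exact absurd (Nat.sInf_le (s := {k | D.walk F k = Dm.stop}) h) (not_le.mpr hk)

theorem lt_len {F : Finset Edg} (hD : D.Ok) (hF : F ⊆ D.edges) {k : ℕ} (hk : k ≤ D.len F)
    (h : ae (D.walk F k) ∈ D.edges) : k < D.len F := by
  rcases lt_or_eq_of_le hk with h1 | h1
  · exact h1
  · rw [h1, walk_len hD hF] at h
    exact absurd h ae_stop_notMem

/-- `n` is the length if the path is at the end for the first time. -/
theorem len_eq {F : Finset Edg} {n : ℕ} (h : D.walk F n = Dm.stop)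
    (h' : ∀ k < n, D.walk F k ≠ Dm.stop) : D.len F = n := by
  apply le_antisymm (Nat.sInf_le h)
  by_contra hlt
  push Not at hlt
  have h1 : D.walk F (D.len F) = Dm.stop :=
    Nat.sInf_mem (s := {k | D.walk F k = Dm.stop}) ⟨n, h⟩
  exact h' _ hlt h1

/-- The long path `G` visits both states of `e`, at the times `i < j`; the short path `G'` omits
the loop. -/
structure Surg (D : Dm) (e : Edg) (G G' : Finset Edg) (i j : ℕ) (σ τ : St) : Prop where
  pair : Pair D e G G'
  tw : Tw e σ τ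
  hi : D.walk G i = σ
  hj : D.walk G j = τ
  lt : i < j
  le : j < D.len G
  pre : ∀ k ≤ i, D.walk G' k = D.walk G k
  post : ∀ k, j + 1 + k ≤ D.len G → D.walk G' (i + 1 + k) = D.walk G (j + 1 + k)
  len : D.len G' + j = D.len G + i

theorem surg_of (hD : D.Ok) (h : Pair D e G G') {i j : ℕ} {σ τ : St} (hσ : Tw e σ τ)
    (hi : D.walk G i = σ) (hj : D.walk G j = τ) (hij : i < j) (hjl : j ≤ D.len G) :
    Surg D e G G' i j σ τ := by
  have hj1 : j < D.len G := lt_len hD h.sub hjl (by rw [hj, hσ.symm.ae1]; exact h.mem)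
  have hne : ∀ k, k ≤ D.len G → k ≠ i → k ≠ j → ae (D.walk G k) ≠ e := by
    intro k hk h1 h2 h3
    rcases hσ.cases h3 with h4 | h4
    · rw [← hi] at h4
      rcases lt_or_gt_of_ne h1 with h5 | h5
      · exact walk_inj hD h.sub h5 (by omega) h4
      · exact walk_inj hD h.sub h5 hk h4.symm
    · rw [← hj] at h4
      rcases lt_or_gt_of_ne h2 with h5 | h5
      · exact walk_inj hD h.sub h5 (by omega) h4
      · exact walk_inj hD h.sub h5 hk h4.symm
  have hpre : ∀ k ≤ i, D.walk G' k = D.walk G k := by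
    intro k
    induction k with
    | zero => intro _; rw [walk_zero, walk_zero]
    | succ k ih =>
      intro hk
      rw [walk_succ, walk_succ, ih (by omega)]
      exact h.nxt_off (hne k (by omega) (by omega) (by omega))
  have hpost : ∀ k, j + 1 + k ≤ D.len G → D.walk G' (i + 1 + k) = D.walk G (j + 1 + k) := by
    intro k
    induction k with
    | zero =>
      intro _
      rw [Nat.add_zero, Nat.add_zero, walk_succ, walk_succ, hpre i le_rfl, hi, hj]
      exact h.nxt_on hσ
    | succ k ih =>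
      intro hk
      rw [← Nat.add_assoc, ← Nat.add_assoc, walk_succ, walk_succ, ih (by omega)]
      exact h.nxt_off (hne _ (by omega) (by omega) (by omega))
  have hlen : D.len G' = D.len G + i - j := by
    apply len_eq
    · have h1 := hpost (D.len G - (j + 1)) (by omega)
      rw [show j + 1 + (D.len G - (j + 1)) = D.len G by omega, walk_len hD h.sub] at h1
      rw [← h1]
      congr 1
      omega
    · intro k hk
      rcases le_or_gt k i with h1 | h1
      · rw [hpre k h1]
        exact walk_ne_stop (by omega)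
      · have h2 := hpost (k - (i + 1)) (by omega)
        rw [show i + 1 + (k - (i + 1)) = k by omega] at h2
        rw [h2]
        exact walk_ne_stop (by omega)
  exact ⟨h, hσ, hi, hj, hij, hj1, hpre, hpost, by omega⟩

/-- If the path of `G` meets a state of `e`, then one of the two paths visits both states. -/
theorem dich (hD : D.Ok) (h : Pair D e G G') {i : ℕ} (hi : i ≤ D.len G)
    (hie : ae (D.walk G i) = e) (hmin : ∀ k < i, ae (D.walk G k) ≠ e) :
    (∃ j σ τ, Surg D e G G' i j σ τ) ∨ ∃ j σ τ, Surg D e G' G i j σ τ := by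
  obtain ⟨τ, hτ⟩ := tw_ex hie
  set σ := D.walk G i with hσ
  have hpre : ∀ k ≤ i, D.walk G' k = D.walk G k := by
    intro k
    induction k with
    | zero => intro _; rw [walk_zero, walk_zero]
    | succ k ih =>
      intro hk
      rw [walk_succ, walk_succ, ih (by omega)]
      exact h.nxt_off (hmin k (by omega))
  have hi0 : i < D.len G := lt_len hD h.sub hi (by rw [hie]; exact h.mem)
  have hi1 : i < D.len G' := by
    by_contra hlt
    push Not at hlt
    have h1 := walk_len hD h.sub'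
    rw [hpre _ hlt] at h1
    exact walk_ne_stop (by omega) h1
  by_contra hno
  push Not at hno
  obtain ⟨hA, hB⟩ := hno
  have n0 : ∀ k, i < k → k ≤ D.len G → D.walk G k ≠ τ := by
    intro k h1 h2 h3
    exact hA k σ τ (surg_of hD h hτ rfl h3 h1 h2)
  have n1 : ∀ k, i < k → k ≤ D.len G' → D.walk G' k ≠ τ := by
    intro k h1 h2 h3
    exact hB k σ τ (surg_of hD h.symm hτ (hpre i le_rfl) h3 h1 h2)
  have m1 : ∀ k, i < k → k ≤ D.len G' → ae (D.walk G' k) ≠ e := by
    intro k h1 h2 h3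
    rcases hτ.cases h3 with h4 | h4
    · rw [hσ, ← hpre i le_rfl] at h4
      exact walk_inj hD h.sub' h1 h2 h4.symm
    · exact n1 k h1 h2 h4
  have hinj := (nxt_bij (D.cfg G)).1
  have hinj' := (nxt_bij (D.cfg G')).1
  have hit : ∀ k, i + 1 + k ≤ D.len G' →
      D.walk G' (i + 1 + k) = (nxt (D.cfg G))^[k] (D.walk G' (i + 1)) := by
    intro k
    induction k with
    | zero => intro _; rfl
    | succ k ih =>
      intro hk
      rw [Function.iterate_succ_apply', ← ih (by omega), ← Nat.add_assoc, walk_succ]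
      exact h.nxt_off (m1 _ (by omega) (by omega))
  have hit0 : ∀ k, D.walk G (i + 1 + k) = (nxt (D.cfg G))^[k] (D.walk G (i + 1)) := by
    intro k
    induction k with
    | zero => rfl
    | succ k ih => rw [Function.iterate_succ_apply', ← ih, ← Nat.add_assoc, walk_succ]
  have hu1 : D.walk G' (i + 1) = nxt (D.cfg G) τ := by
    rw [walk_succ, hpre i le_rfl]
    exact h.nxt_on hτ
  have hu0 : D.walk G (i + 1) = nxt (D.cfg G') τ := by
    rw [walk_succ]
    exact h.symm.nxt_on hτ
  have e1 := hit (D.len G' - (i + 1)) (by omega)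
  rw [show i + 1 + (D.len G' - (i + 1)) = D.len G' by omega, walk_len hD h.sub'] at e1
  have e0 := hit0 (D.len G - (i + 1))
  rw [show i + 1 + (D.len G - (i + 1)) = D.len G by omega, walk_len hD h.sub] at e0
  rcases le_or_gt (D.len G') (D.len G) with hc | hc
  · obtain ⟨d, hd⟩ := Nat.exists_eq_add_of_le hc
    rw [show D.len G - (i + 1) = (D.len G' - (i + 1)) + d by omega, Function.iterate_add_apply] at e0
    have e2 := (hinj.iterate (D.len G' - (i + 1))) (e1.symm.trans e0)
    rcases Nat.eq_zero_or_pos d with h0 | h0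
    · rw [h0, Function.iterate_zero, id, hu1, walk_succ] at e2
      exact hτ.ne (hinj e2).symm
    · obtain ⟨d', hd'⟩ : ∃ d', d = d' + 1 := ⟨d - 1, by omega⟩
      rw [hd', Function.iterate_succ_apply', ← hit0, hu1] at e2
      exact n0 (i + 1 + d') (by omega) (by omega) (hinj e2).symm
  · obtain ⟨d, hd⟩ := Nat.exists_eq_add_of_le hc.le
    have hd0 : 0 < d := by omega
    rw [show D.len G' - (i + 1) = (D.len G - (i + 1)) + d by omega, Function.iterate_add_apply] at e1
    have e2 := (hinj.iterate (D.len G - (i + 1))) (e0.symm.trans e1)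
    rw [← hit d (by omega), hu0, show i + 1 + d = (i + d) + 1 by omega, walk_succ] at e2
    exact n1 (i + d) (by omega) (by omega) (hinj' e2).symm

/-- Either the flip does not change the path, or one of the two paths is long. -/
theorem flip_cases (hD : D.Ok) (h : Pair D e G G') :
    (D.len G' = D.len G ∧ ∀ k ≤ D.len G, D.walk G' k = D.walk G k) ∨
    (∃ i j σ τ, Surg D e G G' i j σ τ) ∨ ∃ i j σ τ, Surg D e G' G i j σ τ := by
  classical
  by_cases hex : ∃ i, i ≤ D.len G ∧ ae (D.walk G i) = e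
  · right
    have h1 := Nat.find_spec hex
    rcases dich hD h h1.1 h1.2 (fun k hk hke => Nat.find_min hex hk ⟨by omega, hke⟩) with
      ⟨j, σ, τ, h2⟩ | ⟨j, σ, τ, h2⟩
    · exact Or.inl ⟨_, j, σ, τ, h2⟩
    · exact Or.inr ⟨_, j, σ, τ, h2⟩
  · left
    push Not at hex
    have hpre : ∀ k ≤ D.len G, D.walk G' k = D.walk G k := by
      intro k
      induction k with
      | zero => intro _; rw [walk_zero, walk_zero]
      | succ k ih =>
        intro hk
        rw [walk_succ, walk_succ, ih (by omega)]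
        exact h.nxt_off (hex k (by omega))
    refine ⟨?_, hpre⟩
    apply len_eq
    · rw [hpre _ le_rfl, walk_len hD h.sub]
    · intro k hk
      rw [hpre k hk.le]
      exact walk_ne_stop hk

/-! ### Separation -/

theorem hv_reach {F : Set Edg} {hv : Vtx → ZMod 2} (h : ∀ e ∈ F, hv (src e) = hv (tgt e))
    {u v : Vtx} (hr : Reach F u v) : hv u = hv v := by
  induction hr with
  | refl => rfl
  | tail _ hs ih =>
    obtain ⟨e, he, hc⟩ := hs
    rcases hc with ⟨h1, h2⟩ | ⟨h1, h2⟩
    · rw [ih, ← h1, ← h2, h e he]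
    · rw [ih, ← h1, ← h2, h e he]

theorem hf_dreach {F : Set Edg} {hf : Vtx → ZMod 2} (h : ∀ e ∈ F, hf (dsrc e) = hf (dtgt e))
    {u v : Vtx} (hr : DReach F u v) : hf u = hf v := by
  induction hr with
  | refl => rfl
  | tail _ hs ih =>
    obtain ⟨e, he, hc⟩ := hs
    rcases hc with ⟨h1, h2⟩ | ⟨h1, h2⟩
    · rw [ih, ← h1, ← h2, h e he]
    · rw [ih, ← h1, ← h2, h e he]

/-- The loop. -/
def loop (D : Dm) (G : Finset Edg) (i j : ℕ) : Set St := {ρ | ∃ k, i < k ∧ k ≤ j ∧ D.walk G k = ρ}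

theorem loop_inv {i j : ℕ} {σ τ : St} (h : Surg D e G G' i j σ τ) (hD : D.Ok) (ρ : St) :
    ρ ∈ loop D G i j ↔ nxt (D.cfg G') ρ ∈ loop D G i j := by
  have hne : ∀ k, k ≤ D.len G → k ≠ i → k ≠ j → ae (D.walk G k) ≠ e := by
    intro k hk h1 h2 h3
    rcases h.tw.cases h3 with h4 | h4
    · rw [← h.hi] at h4
      rcases lt_or_gt_of_ne h1 with h5 | h5
      · exact walk_inj hD h.pair.sub h5 (by have := h.lt; have := h.le; omega) h4
      · exact walk_inj hD h.pair.sub h5 hk h4.symm
    · rw [← h.hj] at h4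
      rcases lt_or_gt_of_ne h2 with h5 | h5
      · exact walk_inj hD h.pair.sub h5 (by have := h.le; omega) h4
      · exact walk_inj hD h.pair.sub h5 hk h4.symm
  have hlt := h.lt
  have hle := h.le
  have hstep : ∀ k, i < k → k < j → nxt (D.cfg G') (D.walk G k) = D.walk G (k + 1) := by
    intro k h1 h2
    rw [walk_succ]
    exact h.pair.nxt_off (hne k (by omega) (by omega) (by omega))
  have hlast : nxt (D.cfg G') (D.walk G j) = D.walk G (i + 1) := by
    rw [walk_succ, h.hi, h.hj]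
    exact h.pair.nxt_on h.tw.symm
  constructor
  · rintro ⟨k, h1, h2, rfl⟩
    rcases lt_or_eq_of_le h2 with h3 | h3
    · rw [hstep k h1 h3]
      exact ⟨k + 1, by omega, by omega, rfl⟩
    · rw [h3, hlast]
      exact ⟨i + 1, by omega, by omega, rfl⟩
  · rintro ⟨k, h1, h2, h3⟩
    have hinj := (nxt_bij (D.cfg G')).1
    rcases Nat.lt_or_ge (i + 1) k with h4 | h4
    · refine ⟨k - 1, by omega, by omega, ?_⟩
      apply hinj
      rw [hstep (k - 1) (by omega) (by omega), show k - 1 + 1 = k by omega, h3]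
    · have h5 : k = i + 1 := by omega
      refine ⟨j, hlt, le_rfl, ?_⟩
      apply hinj
      rw [hlast, ← h5, h3]

/-- If the long path is the closed one, then the two faces of `e` are not connected by closed
edges in the open one. -/
theorem surg_dsep {i j : ℕ} {σ τ : St} (h : Surg D e G G' i j σ τ) (hD : D.Ok) (heG : e ∉ D.cfg G) :
    ¬ DReach (D.cfg G')ᶜ (face σ) (face (rt σ)) := by
  obtain ⟨hv, hf, h1, h2, h3⟩ := pot_of_inv (D.cfg G') (loop D G i j) (loop_inv h hD)
  intro hr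
  have h4 := hf_dreach (F := (D.cfg G')ᶜ) (fun e he => h3 e he) hr
  have a1 := h1 σ
  have a2 := h1 (rt σ)
  have a3 : σ ∉ loop D G i j := by
    rintro ⟨k, k1, k2, k3⟩
    rw [← h.hi] at k3
    exact walk_inj hD h.pair.sub k1 (by have := h.le; omega) k3.symm
  have a4 : rt σ ∈ loop D G i j := by
    refine ⟨i + 1, by omega, by have := h.lt; omega, ?_⟩
    rw [walk_succ, h.hi, nxt_closed (by rw [h.tw.ae1]; exact heG)]
  rw [b2_not_of a3] at a1
  rw [b2_of a4, p2_rt_fst] at a2
  rw [h4] at a1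
  rw [a1] at a2
  exact absurd a2 (by decide)

/-- If the long path is the open one, then the two ends of `e` are not connected in the closed
one. -/
theorem surg_sep {i j : ℕ} {σ τ : St} (h : Surg D e G G' i j σ τ) (hD : D.Ok) (heG : e ∈ D.cfg G) :
    ¬ Reach (D.cfg G') σ.1 τ.1 := by
  obtain ⟨hv, hf, h1, h2, h3⟩ := pot_of_inv (D.cfg G') (loop D G i j) (loop_inv h hD)
  intro hr
  have h4 := hv_reach h2 hr
  have a1 := h1 σ
  have a2 := h1 (mv σ)
  have a3 : σ ∉ loop D G i j := by
    rintro ⟨k, k1, k2, k3⟩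
    rw [← h.hi] at k3
    exact walk_inj hD h.pair.sub k1 (by have := h.le; omega) k3.symm
  have a4 : mv σ ∈ loop D G i j := by
    refine ⟨i + 1, by omega, by have := h.lt; omega, ?_⟩
    rw [walk_succ, h.hi, nxt_open (by rw [h.tw.ae1]; exact heG)]
  rw [b2_not_of a3] at a1
  have a5 : (mv σ).1 = τ.1 := by rw [h.tw.mv, p2_rt_fst]
  rw [b2_of a4, p2_face_mv, a5] at a2
  rw [h4] at a1
  rw [a1] at a2
  exact absurd a2 (by decide)

end Q291.EP
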