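import Pool.Agent.TH976.Exps
import Pool.Agent.TH291.NW.Slab

/-!
Crossings of half annuli near the critical point.
-/

namespace Q291.EP

open H974 Finset H12S TH976
open Pool.Agent.H160R2.CV

/-- The box. -/
noncomputable def bx (z : Vtx) (r : ℕ) : Finset Edg := RE (z.1 - r) (z.1 + r) (z.2 - r) (z.2 + r)

/-- The crossing of an annulus. -/
def Cr (z : Vtx) (r R : ℕ) (F : Set Edg) : Prop := Crs z.1 z.2 r R F

theorem Cr.mono {z : Vtx} {r R : ℕ} {F G : Set Edg} (h : F ⊆ G) (hF : Cr z r R F) :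
    Cr z r R G := by
  obtain ⟨x, y, h1, h2, h3⟩ := hF
  exact ⟨x, y, h1, h2, h3.mono h⟩

theorem Cr.loc {z : Vtx} {r R : ℕ} (hr : r ≤ R) {F : Set Edg} (h : Cr z r R F) :
    Cr z r R (F ∩ (↑(bx z R) \ ↑(bx z r))) := by
  obtain ⟨x, y, h1, h2, h3⟩ := h
  have hx : inR (z.1 - R) (z.1 + R) (z.2 - R) (z.2 + R) x := by
    unfold inR at h1 ⊢; omega
  obtain ⟨w, w1, w2, w3⟩ := first_exit hx h3 h2
  obtain ⟨u, u1, u2⟩ := Quad.last_exit h1 w3
  refine ⟨u, w, u1, by omega, u2.mono ?_⟩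
  rintro e ⟨⟨h4, h5⟩, h6⟩
  exact ⟨h4, h5, h6⟩

theorem Cr.sub {z : Vtx} {r R r' R' : ℕ} (h1 : r ≤ r') (h2 : R' ≤ R) {F : Set Edg}
    (h : Cr z r R F) : Cr z r' R' F := by
  obtain ⟨x, y, h3, h4, h5⟩ := h
  exact ⟨x, y, by unfold inR at h3 ⊢; omega, by omega, h5⟩

theorem ok2 {q : ℝ} (h0 : 0 ≤ q) (h1 : q ≤ 1) : Ok (fun _ : Edg => q) := fun _ => ⟨h0, h1⟩

/-- At `p = 1/2`. -/
theorem hp_half : ∃ C : ℝ, 0 < C ∧ ∀ (T : Finset Edg) (z : Vtx), (∀ e ∈ T, z.2 ≤ e.2.1) →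
    ∀ r R : ℕ, 1 ≤ r → r ≤ R →
      Pr (fun _ => (1/2:ℝ)) T (fun F => Cr z r R ↑F) ≤ C * ((r:ℝ) / R) ^ (1/3 : ℝ) := by
  obtain ⟨K, hK⟩ := half_cmp
  have hK1 : 1 ≤ K := (hK 1 1 le_rfl (by norm_num)).hk
  obtain ⟨k, hk⟩ : ∃ k : ℝ, k = k4 := ⟨_, rfl⟩
  have hkpos : 0 < k ∧ ∀ {p : Vtx}, InV p → ∀ {r n : ℕ}, 1 ≤ r → 3 * r ≤ n →
      k * (aq p (3 * r) * bq p r n) ≤ aq p n := by
    rw [hk]
    exact ⟨k4_pos, fun hp _ _ hr hn => bq_le' hp hr hn⟩
  obtain ⟨hk0, hkb⟩ := hkpos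
  refine ⟨3 * (K * K / k + 1), by positivity, ?_⟩
  intro T z hT r R hr hrR
  have hr0 : (0:ℝ) < r := by exact_mod_cast hr
  have hR0 : (0:ℝ) < R := by exact_mod_cast lt_of_lt_of_le hr hrR
  have hpow0 : 0 ≤ ((r:ℝ) / R) ^ (1/3 : ℝ) := by positivity
  rcases Nat.lt_or_ge R (3 * r) with hc | hc
  · -- comparable radii
    have h1 : Pr (fun _ => (1/2:ℝ)) T (fun F => Cr z r R ↑F) ≤ 1 :=
      Pr_le_one (ok2 (by norm_num) (by norm_num)) _ _
    have h2 : (1/3:ℝ) ≤ ((r:ℝ) / R) ^ (1/3 : ℝ) := by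
      have h3 : (1/3:ℝ) ≤ (r:ℝ) / R := by
        rw [le_div_iff₀ hR0]
        have : (R:ℝ) < 3 * r := by exact_mod_cast hc
        linarith
      have h4 : (r:ℝ) / R ≤ 1 := by
        rw [div_le_one hR0]; exact_mod_cast hrR
      calc (1/3:ℝ) ≤ (r:ℝ) / R := h3
        _ = ((r:ℝ) / R) ^ (1:ℝ) := (Real.rpow_one _).symm
        _ ≤ _ := Real.rpow_le_rpow_of_exponent_ge (by linarith) h4 (by norm_num)
    have h5 : 0 ≤ K * K / k := by positivity
    nlinarith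
  · -- localisation and translation
    obtain ⟨T', hT'⟩ : ∃ T' : Finset Edg, T' = T ∩ (bx z R \ bx z r) := ⟨_, rfl⟩
    have h1 : Pr (fun _ => (1/2:ℝ)) T (fun F => Cr z r R ↑F) =
        Pr (fun _ => (1/2:ℝ)) T' (fun F => Cr z r R ↑F) := by
      apply Pr_local (by rw [hT']; exact Finset.inter_subset_left)
      intro F hF
      constructor
      · intro h
        refine (h.loc (by omega)).mono ?_
        rintro e ⟨h2, h3, h4⟩
        rw [hT', Finset.coe_inter, Finset.coe_inter, Finset.coe_sdiff]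
        exact ⟨h2, hF h2, h3, h4⟩
      · exact fun h => h.mono (by rw [Finset.coe_inter]; exact Set.inter_subset_left)
    have hdist : ∀ u v : Vtx, TH976.sd ((trl (R - z.1) (-z.2)).ψ u)
        ((trl (R - z.1) (-z.2)).ψ v) = TH976.sd u v := by
      intro u v
      unfold TH976.sd
      show max ((u.1 + (R - z.1)) - (v.1 + (R - z.1))).natAbs
        ((u.2 + -z.2) - (v.2 + -z.2)).natAbs = _
      congr 2 <;> ring
    have hz : (trl (R - z.1) (-z.2)).ψ z = ((R:ℤ), 0) := by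
      show (z.1 + (R - z.1), z.2 + -z.2) = ((R:ℤ), (0:ℤ))
      rw [Prod.mk.injEq]
      constructor <;> ring
    have hin : InQ ((trl (R - z.1) (-z.2)).mp T') := by
      intro e he
      rw [LSym.mem_mp] at he
      have h3 : (trl (R - z.1) (-z.2)).φ.symm e = (e.1 - (R - z.1), e.2.1 - -z.2, e.2.2) := rfl
      rw [h3, hT', Finset.mem_inter, Finset.mem_sdiff] at he
      obtain ⟨a1, a2, -⟩ := he
      have a3 := hT _ a1
      simp only at a3
      unfold bx at a2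
      obtain ⟨x, y, _ | _⟩ := e
      · simp only [mem_RE_false] at a2 a3 ⊢
        omega
      · simp only [mem_RE_true] at a2 a3 ⊢
        omega
    have h2 : Pr (fun _ => (1/2:ℝ)) T' (fun F => Cr z r R ↑F) ≤
        Pr (fun _ => (1/2:ℝ)) ((trl (R - z.1) (-z.2)).mp T') (Cx ((R:ℤ), 0) r R) := by
      rw [LSym.pr]
      apply Pr_mono (ok2 (by norm_num) (by norm_num))
      rintro F hF ⟨x, y, h3, h4, h5⟩
      have h6 := (trl (R - z.1) (-z.2)).reach h5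
      rw [← LSym.coe_mp] at h6
      have hsx : TH976.sd x z ≤ r := by unfold inR at h3; unfold TH976.sd; omega
      have hsy : R ≤ TH976.sd y z := by unfold TH976.sd; omega
      have hneq : x ≠ y := by
        intro h; rw [h] at hsx; omega
      refine ⟨_, _, ?_, ?_, ?_, h6⟩
      · -- the starting point is in the quadrant
        have hne : (trl (R - z.1) (-z.2)).ψ x ≠ (trl (R - z.1) (-z.2)).ψ y :=
          fun h => hneq ((trl (R - z.1) (-z.2)).ψ.injective h)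
        have hsub : (trl (R - z.1) (-z.2)).mp F ⊆ (trl (R - z.1) (-z.2)).mp T' :=
          LSym.mp_mono _ hF
        rcases Relation.ReflTransGen.cases_head h6 with h7 | ⟨b, ⟨e, he, hcase⟩, -⟩
        · exact absurd h7 hne
        · have h8 := hin e (hsub (Finset.mem_coe.mp he))
          unfold InV
          obtain ⟨a, b', _ | _⟩ := e
          · simp only at h8
            rcases hcase with ⟨c1, c2⟩ | ⟨c1, c2⟩
            · rw [← c1]; exact h8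
            · rw [← c2]
              simp only [tgt_false]
              omega
          · simp only at h8
            rcases hcase with ⟨c1, c2⟩ | ⟨c1, c2⟩
            · rw [← c1]; exact h8
            · rw [← c2]
              simp only [tgt_true]
              omega
      · rw [← hz, hdist]; exact hsx
      · rw [← hz, hdist]; exact hsy
    rw [h1]
    refine h2.trans ((pr_Cx_le hin ((R:ℤ), 0) hrR).trans ?_)
    have hInV : InV ((R:ℤ), 0) := by unfold InV; simp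
    have h3 := hkb hInV hr hc
    have h4 := hK R (3 * r) (by omega) (by exact_mod_cast hc)
    have h5 := hK R R (by omega) le_rfl
    have h6 : bq ((R:ℤ), 0) r R ≤ K * K / k * (((3 * r : ℕ) : ℝ) ^ (1/3:ℝ) * (R:ℝ) ^ (-(1/3 : ℝ))) := by
      have a1 : k * (((3 * r : ℕ) : ℝ) ^ (-(1/3:ℝ)) * bq ((R:ℤ), 0) r R) ≤
          K * K * (R:ℝ) ^ (-(1/3 : ℝ)) := by
        have b1 : ((3 * r : ℕ) : ℝ) ^ (-(1/3:ℝ)) ≤ K * aq ((R:ℤ), 0) (3 * r) := h4.r
        have b2 : aq ((R:ℤ), 0) R ≤ K * (R:ℝ) ^ (-(1/3 : ℝ)) := h5.l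
        have b3 := bq_nonneg ((R:ℤ), 0) r R
        calc k * (((3 * r : ℕ) : ℝ) ^ (-(1/3:ℝ)) * bq ((R:ℤ), 0) r R) ≤
              k * ((K * aq ((R:ℤ), 0) (3 * r)) * bq ((R:ℤ), 0) r R) :=
              mul_le_mul_of_nonneg_left (mul_le_mul_of_nonneg_right b1 b3) hk0.le
          _ = K * (k * (aq ((R:ℤ), 0) (3 * r) * bq ((R:ℤ), 0) r R)) := by ring
          _ ≤ K * aq ((R:ℤ), 0) R := mul_le_mul_of_nonneg_left h3 (by linarith)
          _ ≤ K * (K * (R:ℝ) ^ (-(1/3 : ℝ))) := mul_le_mul_of_nonneg_left b2 (by linarith)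
          _ = _ := by ring
      have h3r : (0:ℝ) < ((3 * r : ℕ) : ℝ) := by push_cast; linarith
      have a2 : ((3 * r : ℕ) : ℝ) ^ (1/3:ℝ) * ((3 * r : ℕ) : ℝ) ^ (-(1/3:ℝ)) = 1 := by
        rw [← Real.rpow_add h3r]; norm_num
      have a3 := mul_le_mul_of_nonneg_left a1 (by positivity :
        (0:ℝ) ≤ ((3 * r : ℕ) : ℝ) ^ (1/3:ℝ) / k)
      calc bq ((R:ℤ), 0) r R = (((3 * r : ℕ) : ℝ) ^ (1/3:ℝ) * ((3 * r : ℕ) : ℝ) ^ (-(1/3:ℝ))) *
            bq ((R:ℤ), 0) r R := by rw [a2, one_mul]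
        _ = ((3 * r : ℕ) : ℝ) ^ (1/3:ℝ) / k * (k * (((3 * r : ℕ) : ℝ) ^ (-(1/3:ℝ)) *
            bq ((R:ℤ), 0) r R)) := by field_simp
        _ ≤ _ := a3
        _ = _ := by ring
    refine h6.trans ?_
    have h7 : ((3 * r : ℕ) : ℝ) ^ (1/3:ℝ) * (R:ℝ) ^ (-(1/3 : ℝ)) ≤ 3 * ((r:ℝ) / R) ^ (1/3 : ℝ) := by
      have e1 : ((r:ℝ) / R) ^ (1/3 : ℝ) = (r:ℝ) ^ (1/3 : ℝ) * ((R:ℝ) ^ (1/3 : ℝ))⁻¹ := by
        rw [Real.div_rpow hr0.le hR0.le]
        exact div_eq_mul_inv _ _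
      have e2 : ((3 * r : ℕ) : ℝ) = 3 * (r:ℝ) := by push_cast; ring
      rw [e1, e2, Real.mul_rpow (by norm_num) hr0.le, Real.rpow_neg hR0.le]
      have a1 : (3:ℝ) ^ (1/3:ℝ) ≤ 3 := by
        calc (3:ℝ) ^ (1/3:ℝ) ≤ (3:ℝ) ^ (1:ℝ) :=
              Real.rpow_le_rpow_of_exponent_le (by norm_num) (by norm_num)
          _ = 3 := Real.rpow_one _
      have a2 : (0:ℝ) ≤ (r:ℝ) ^ (1/3:ℝ) * ((R:ℝ) ^ (1/3:ℝ))⁻¹ := by positivity
      rw [mul_assoc]
      exact mul_le_mul_of_nonneg_right a1 a2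
    have h8 : 0 ≤ K * K / k := by positivity
    have h9 := mul_le_mul_of_nonneg_left h7 h8
    nlinarith

end Q291.EP
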