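import Pool.Agent.Q291.EP.HpM
import Pool.Agent.Q291.EP.Flip
import Pool.Agent.H984R4.NP.Det

/-!
Crossings of half annuli in the four directions, and their duals.
-/

set_option maxHeartbeats 1000000

namespace Q291.EP

open H974 Finset H12S H984N

/-- One of four half planes. -/
def hpl (a s : Bool) (X : ℤ) (v : Vtx) : Prop :=
  match a, s with
  | true, true => v.1 ≤ X
  | true, false => X ≤ v.1
  | false, true => v.2 ≤ X
  | false, false => X ≤ v.2

/-- A coordinate. -/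
def co (a : Bool) (v : Vtx) : ℤ := if a then v.1 else v.2

theorem cr_iff {z : Vtx} {r R : ℕ} {F : Set Edg} : Cr z r R F ↔
    ∃ x y, sd x z ≤ r ∧ (R:ℤ) ≤ sd y z ∧ Reach F x y := by
  unfold Cr Crs sd inR
  constructor
  · rintro ⟨x, y, h1, h2, h3⟩
    refine ⟨x, y, ?_, ?_, h3⟩
    · rw [max_le_iff, abs_le, abs_le]
      omega
    · rw [le_max_iff, le_abs, le_abs]
      omega
  · rintro ⟨x, y, h1, h2, h3⟩
    refine ⟨x, y, ?_, ?_, h3⟩
    · rw [max_le_iff, abs_le, abs_le] at h1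
      omega
    · rw [le_max_iff, le_abs, le_abs] at h2
      omega

/-- The bound for a direction. -/
def Sta (C ε : ℝ) (a s : Bool) : Prop := ∀ (T : Finset Edg) (z : Vtx) (X : ℤ),
  (∀ e ∈ T, hpl a s X (src e) ∧ hpl a s X (tgt e)) → |co a z - X| ≤ 1 →
  ∀ (n : ℕ) (q : ℝ), 0 ≤ q → q ≤ 1 → |q - 1/2| ≤ ε * (n:ℝ) ^ (-(3/4) : ℝ) →
    ∀ r R : ℕ, 1 ≤ r → r ≤ R → R ≤ n →
      Pr (fun _ => q) T (fun F => Cr z r R ↑F) ≤ C * ((r:ℝ) / R) ^ (7/24 : ℝ)

theorem Sta.map {C ε : ℝ} {a s a' s' : Bool} (h : Sta C ε a s) (g : LSym) (f : ℤ → ℤ)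
    (hg : ∀ u v, sd (g.ψ u) (g.ψ v) = sd u v)
    (hX : ∀ X v, hpl a' s' X v → hpl a s (f X) (g.ψ v))
    (hc : ∀ X v, |co a' v - X| ≤ 1 → |co a (g.ψ v) - f X| ≤ 1) : Sta C ε a' s' := by
  intro T z X hT hz n q h0 h1 hq r R hr hrR hRn
  have e1 : Pr (fun _ => q) T (fun F => Cr z r R ↑F) ≤
      Pr (fun _ => q) (g.mp T) (fun F => Cr (g.ψ z) r R ↑F) := by
    rw [LSym.pr]
    apply Pr_mono (ok2 h0 h1)
    intro F _ hF
    rw [cr_iff] at hF ⊢
    obtain ⟨x, y, h2, h3, h4⟩ := hF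
    refine ⟨g.ψ x, g.ψ y, by rw [hg]; exact h2, by rw [hg]; exact h3, ?_⟩
    rw [LSym.coe_mp]
    exact g.reach h4
  refine e1.trans (h (g.mp T) (g.ψ z) (f X) ?_ (hc X z hz) n q h0 h1 hq r R hr hrR hRn)
  intro e he
  rw [LSym.mem_mp] at he
  obtain ⟨h2, h3⟩ := hT _ he
  have h4 := g.compat (g.φ.symm e)
  rw [Equiv.apply_symm_apply] at h4
  rcases h4 with ⟨h5, h6⟩ | ⟨h5, h6⟩
  · rw [h5, h6]; exact ⟨hX _ _ h2, hX _ _ h3⟩
  · rw [h5, h6]; exact ⟨hX _ _ h3, hX _ _ h2⟩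

theorem hp_ff : ∃ C ε : ℝ, 1 ≤ C ∧ 0 < ε ∧ Sta C ε false false := by
  obtain ⟨C, ε, hC, hε, h⟩ := hp_up
  refine ⟨4 * C, ε, by linarith, hε, ?_⟩
  intro T z X hT hz n q h0 h1 hq r R hr hrR hRn
  have hr0 : (0:ℝ) < r := by exact_mod_cast hr
  have hR0 : (0:ℝ) < R := by exact_mod_cast lt_of_lt_of_le hr hrR
  have p1 := Pr_le_one (ok2 h0 h1) T (fun F => Cr z r R (↑F : Set Edg))
  have e4 : ∀ x : ℝ, 0 ≤ x → (4 * x) ^ (7/24 : ℝ) ≤ 4 * x ^ (7/24 : ℝ) := by
    intro x hx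
    rw [Real.mul_rpow (by norm_num) hx]
    apply mul_le_mul_of_nonneg_right _ (by positivity)
    calc (4:ℝ) ^ (7/24 : ℝ) ≤ (4:ℝ) ^ (1:ℝ) :=
          Real.rpow_le_rpow_of_exponent_le (by norm_num) (by norm_num)
      _ = 4 := Real.rpow_one _
  have e5 := e4 ((r:ℝ) / R) (by positivity)
  have hpow : 0 ≤ ((r:ℝ) / R) ^ (7/24 : ℝ) := by positivity
  rcases Nat.lt_or_ge (R - 1) (r + 1) with hc | hc
  · have e6 : (1:ℝ) ≤ 4 * ((r:ℝ) / R) := by
      rw [← mul_div_assoc, le_div_iff₀ hR0, one_mul]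
      have : R ≤ 4 * r := by omega
      exact_mod_cast this
    have e7 : (1:ℝ) ≤ (4 * ((r:ℝ) / R)) ^ (7/24 : ℝ) := Real.one_le_rpow e6 (by norm_num)
    nlinarith
  · have e1 : Pr (fun _ => q) T (fun F => Cr z r R ↑F) ≤
        Pr (fun _ => q) T (fun F => Cr (z.1, X) (r + 1) (R - 1) ↑F) := by
      apply Pr_mono (ok2 h0 h1)
      intro F _ hF
      rw [cr_iff] at hF ⊢
      obtain ⟨x, y, h2, h3, h4⟩ := hF
      have h5 : sd z (z.1, X) ≤ 1 := by
        unfold sd co at *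
        simp only [sub_self, abs_zero] at hz ⊢
        exact max_le (by norm_num) hz
      have h6 := det_sd_tri x z (z.1, X)
      have h7 := det_sd_tri y (z.1, X) z
      rw [det_sd_comm (z.1, X) z] at h7
      refine ⟨x, y, by push_cast; linarith, ?_, h4⟩
      have : ((R - 1 : ℕ) : ℤ) = (R:ℤ) - 1 := by omega
      rw [this]
      linarith
    refine e1.trans ((h T (z.1, X) ?_ n q h0 h1 hq (r + 1) (R - 1) (by omega) hc
      (by omega)).trans ?_)
    · intro e he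
      exact (hT e he).1
    · have e6 : (((r + 1 : ℕ) : ℝ) / ((R - 1 : ℕ) : ℝ)) ≤ 4 * ((r:ℝ) / R) := by
        have hR1 : (0:ℝ) < ((R - 1 : ℕ) : ℝ) := by
          have : 0 < R - 1 := by omega
          exact_mod_cast this
        rw [div_le_iff₀ hR1, ← mul_div_assoc, div_mul_eq_mul_div, le_div_iff₀ hR0]
        have : (r + 1) * R ≤ 4 * r * (R - 1) := by
          have a1 : r + 1 ≤ 2 * r := by omega
          have a2 : R ≤ 2 * (R - 1) := by omega
          calc (r + 1) * R ≤ (2 * r) * (2 * (R - 1)) := Nat.mul_le_mul a1 a2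
            _ = 4 * r * (R - 1) := by ring
        exact_mod_cast this
      have e7 : (((r + 1 : ℕ) : ℝ) / ((R - 1 : ℕ) : ℝ)) ^ (7/24 : ℝ) ≤
          4 * ((r:ℝ) / R) ^ (7/24 : ℝ) :=
        (Real.rpow_le_rpow (by positivity) e6 (by norm_num)).trans e5
      nlinarith

theorem hp_all : ∃ C ε : ℝ, 1 ≤ C ∧ 0 < ε ∧ ∀ a s : Bool, Sta C ε a s := by
  obtain ⟨C, ε, hC, hε, h⟩ := hp_ff
  have i1 : ∀ k u v, sd ((rfy k).ψ u) ((rfy k).ψ v) = sd u v := by
    intro k u v
    unfold sd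
    show max |u.1 - v.1| |(k - u.2) - (k - v.2)| = _
    congr 1
    rw [show (k - u.2) - (k - v.2) = -(u.2 - v.2) by ring, abs_neg]
  have i2 : ∀ u v, sd (tps.ψ u) (tps.ψ v) = sd u v := by
    intro u v
    unfold sd
    show max |u.2 - v.2| |u.1 - v.1| = _
    exact max_comm _ _
  have h1 : Sta C ε false true := by
    refine h.map (rfy 0) (fun X => -X) (i1 0) ?_ ?_
    · intro X v hv
      unfold hpl at *
      show -X ≤ 0 - v.2
      simp only at hv
      omega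
    · intro X v hv
      unfold co at *
      simp only [if_false, Bool.false_eq_true] at *
      show |(0 - v.2) - -X| ≤ 1
      rw [show (0 - v.2) - -X = -(v.2 - X) by ring, abs_neg]
      exact hv
  have h2 : Sta C ε true false := by
    refine h.map tps (fun X => X) i2 ?_ ?_
    · intro X v hv
      exact hv
    · intro X v hv
      exact hv
  have h3 : Sta C ε true true := by
    refine h1.map tps (fun X => X) i2 ?_ ?_
    · intro X v hv
      exact hv
    · intro X v hv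
      exact hv
  refine ⟨C, ε, hC, hε, ?_⟩
  rintro (_ | _) (_ | _)
  · exact h
  · exact h1
  · exact h2
  · exact h3

/-! ### Two colours -/

/-- The configuration of a colour. -/
def cf (κ : Bool) (S F : Finset Edg) : Finset Edg := if κ then F else dmp (S \ F)

/-- The edges of a colour. -/
def cS (κ : Bool) (S : Finset Edg) : Finset Edg := if κ then S else dmp S

/-- The parameter of a colour. -/
def cq (κ : Bool) (q : ℝ) : ℝ := if κ then q else 1 - q

theorem pr_cf (κ : Bool) (q : ℝ) (S : Finset Edg) (A : Finset Edg → Prop) :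
    Pr (fun _ => q) S (fun F => A (cf κ S F)) = Pr (fun _ => cq κ q) (cS κ S) A := by
  cases κ
  · simp only [cf, cS, cq, Bool.false_eq_true, if_false]
    rw [pr_dmp, Pr_compl (fun _ : Edg => q) S (fun F => A (dmp F))]
  · simp only [cf, cS, cq, if_true]

theorem dmp_inter (A B : Finset Edg) : dmp (A ∩ B) = dmp A ∩ dmp B := by
  ext e
  simp only [mem_dmp, Finset.mem_inter]

theorem cf_loc (κ : Bool) {S X : Finset Edg} (F : Finset Edg) :
    cf κ S F ∩ cS κ X = cf κ S (F ∩ X) ∩ cS κ X := by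
  cases κ
  · simp only [cf, cS, Bool.false_eq_true, if_false]
    rw [← dmp_inter, ← dmp_inter]
    congr 1
    ext e
    simp only [Finset.mem_inter, Finset.mem_sdiff]
    tauto
  · simp only [cf, cS, if_true]
    rw [Finset.inter_assoc, Finset.inter_self]

/-- Events of two colours on disjoint sets of edges. -/
theorem two_types (κ κ' : Bool) {q : ℝ} {S X Y : Finset Edg} (hX : X ⊆ S) (hY : Y ⊆ S)
    (hd : Disjoint X Y) {A B : Finset Edg → Prop} (hA : ∀ F, A F ↔ A (F ∩ cS κ X))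
    (hB : ∀ F, B F ↔ B (F ∩ cS κ' Y)) :
    Pr (fun _ => q) S (fun F => A (cf κ S F) ∧ B (cf κ' S F)) =
      Pr (fun _ => cq κ q) (cS κ S) A * Pr (fun _ => cq κ' q) (cS κ' S) B := by
  rw [← pr_cf, ← pr_cf]
  apply Pr_indep (A := fun F => A (cf κ S F)) (B := fun F => B (cf κ' S F)) hX hY hd
  · intro F _
    rw [hA (cf κ S F), cf_loc, ← hA]
  · intro F _
    rw [hB (cf κ' S F), cf_loc, ← hB]

end Q291.EP
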