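import Pool.Agent.Q291.EP.HpN

/-!
Crossings of half annuli near the critical point: the exponent.
-/

set_option maxHeartbeats 1000000

namespace Q291.EP

open H974 Finset H12S
open Pool.Agent.H160R2.CV

theorem reach_inv {F : Set Edg} {P : Vtx → Prop} (hF : ∀ e ∈ F, P (src e) ∧ P (tgt e)) {u v : Vtx}
    (h : Reach F u v) (hu : P u) : P v := by
  induction h with
  | refl => exact hu
  | tail _ hs _ =>
    obtain ⟨e, he, hc⟩ := hs
    rcases hc with ⟨h1, h2⟩ | ⟨h1, h2⟩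
    · rw [← h2]; exact (hF e he).2
    · rw [← h1]; exact (hF e he).1

theorem reach_start {F : Set Edg} {P : Vtx → Prop} (hF : ∀ e ∈ F, P (src e) ∧ P (tgt e))
    {u v : Vtx} (h : Reach F u v) (hne : u ≠ v) : P u := by
  rcases Relation.ReflTransGen.cases_head h with h7 | ⟨b, ⟨e, he, hcase⟩, -⟩
  · exact absurd h7 hne
  · rcases hcase with ⟨c1, c2⟩ | ⟨c1, c2⟩
    · rw [← c1]; exact (hF e he).1
    · rw [← c2]; exact (hF e he).2

theorem hb_in {L : ℕ} {F : Finset Edg} (hF : F ⊆ hb L) (e : Edg) (he : e ∈ (↑F : Set Edg)) :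
    inR (-L) L 0 L (src e) ∧ inR (-L) L 0 L (tgt e) := by
  have h := hF (Finset.mem_coe.mp he)
  unfold hb at h
  unfold inR
  obtain ⟨x, y, _ | _⟩ := e
  · rw [mem_RE_false] at h
    simp only [src_mk, tgt_false]
    omega
  · rw [mem_RE_true] at h
    simp only [src_mk, tgt_true]
    omega

/-- Up to a translation. -/
theorem cr_cn {L m : ℕ} (hm : 1 ≤ m) (hL : m < L) {F : Finset Edg} (hF : F ⊆ hb L)
    (h : Cr (0, 0) m L ↑F) : Cn (Iq m) (Iq L) (↑F : Set Edg) := by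
  obtain ⟨x, y, h1, h2, h3⟩ := h
  simp only [zero_sub, zero_add] at h1 h2
  have hne : x ≠ y := by
    intro h4
    rw [h4] at h1
    unfold inR at h1
    omega
  have hx := reach_start (hb_in hF) h3 hne
  have hy := reach_inv (hb_in hF) h3 hx
  obtain ⟨w, w1, w2, w3⟩ := first_exit h1 h3 (by omega)
  have w4 : Reach (↑F : Set Edg) x w := w3.mono Set.inter_subset_left
  have w5 := reach_inv (hb_in hF) w4 hx
  refine ⟨w, ?_, y, ?_, w4.symm.trans h3⟩
  · unfold Iq inR at *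
    simp only [Set.mem_ofPred_eq]
    omega
  · unfold Iq inR at *
    simp only [Set.mem_ofPred_eq]
    omega

theorem cn_cr {L m : ℕ} {F : Set Edg}
    (h : Cn (Iq m) (Iq L) F) : Cr (0, 0) m L F := by
  obtain ⟨x, ⟨h1, -⟩, y, ⟨-, h2⟩, h3⟩ := h
  refine ⟨x, y, ?_, ?_, h3⟩
  · simp only [zero_sub, zero_add]
    unfold inR at *
    omega
  · simp only [zero_sub, zero_add]
    omega

theorem cn_incr (m L : ℕ) (S : Finset Edg) : IncrE S (fun F => Cn (Iq m) (Iq L) (↑F : Set Edg)) := by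
  rintro F G hFG - ⟨x, hx, y, hy, h⟩
  exact ⟨x, hx, y, hy, h.mono (by exact_mod_cast hFG)⟩

/-- One annulus, arbitrary ratio. -/
theorem hp_one : ∃ C1 C2 : ℝ, 0 < C1 ∧ 0 < C2 ∧ ∀ (T : Finset Edg) (z : Vtx),
    (∀ e ∈ T, z.2 ≤ e.2.1) → ∀ m L : ℕ, 1 ≤ m → m ≤ L → ∀ q : ℝ, 0 ≤ q → q ≤ 1 →
      Pr (fun _ => q) T (fun F => Cr z m L ↑F) ≤
        C1 * ((m:ℝ) / L) ^ (1/3 : ℝ) + C2 * |q - 1/2| * (L:ℝ) ^ (3/4 : ℝ) := by
  obtain ⟨C1, hC1, h1⟩ := hp_half
  obtain ⟨C2, hC2, h2⟩ := half_stab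
  refine ⟨C1 + 1, C2, by linarith, hC2, ?_⟩
  intro T z hT m L hm hmL q h0 hq1
  have hm0 : (0:ℝ) < m := by exact_mod_cast hm
  have hL0 : (0:ℝ) < L := by exact_mod_cast lt_of_lt_of_le hm hmL
  have hpow0 : 0 ≤ ((m:ℝ) / L) ^ (1/3 : ℝ) := by positivity
  have hL34 : 0 ≤ C2 * |q - 1/2| * (L:ℝ) ^ (3/4 : ℝ) := by positivity
  rcases Nat.eq_or_lt_of_le hmL with hc | hc
  · have e1 : (m:ℝ) / L = 1 := by rw [hc]; exact div_self hL0.ne'
    have e2 := Pr_le_one (ok2 h0 hq1) T (fun F => Cr z m L (↑F : Set Edg))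
    rw [e1, Real.one_rpow]
    linarith
  obtain ⟨T', hT'⟩ : ∃ T' : Finset Edg, T' = T ∩ bx z L := ⟨_, rfl⟩
  have s1 : Pr (fun _ => q) T (fun F => Cr z m L ↑F) =
      Pr (fun _ => q) T' (fun F => Cr z m L ↑F) := by
    apply Pr_local (by rw [hT']; exact Finset.inter_subset_left)
    intro F hF
    constructor
    · intro h
      refine (h.loc (by omega)).mono ?_
      rintro e ⟨h2, h3, h4⟩
      rw [hT', Finset.coe_inter, Finset.coe_inter]
      exact ⟨h2, hF h2, h3⟩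
    · exact fun h => h.mono (by rw [Finset.coe_inter]; exact Set.inter_subset_left)
  have hin : (trl (-z.1) (-z.2)).mp T' ⊆ hb L := by
    intro e he
    rw [LSym.mem_mp] at he
    have h3 : (trl (-z.1) (-z.2)).φ.symm e = (e.1 - -z.1, e.2.1 - -z.2, e.2.2) := rfl
    rw [h3, hT', Finset.mem_inter] at he
    obtain ⟨a1, a2⟩ := he
    have a3 := hT _ a1
    simp only at a3
    unfold bx at a2
    unfold hb
    obtain ⟨x, y, _ | _⟩ := e
    · simp only [mem_RE_false] at a2 a3 ⊢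
      omega
    · simp only [mem_RE_true] at a2 a3 ⊢
      omega
  have s2 : Pr (fun _ => q) T' (fun F => Cr z m L ↑F) ≤
      Pr (fun _ => q) ((trl (-z.1) (-z.2)).mp T') (fun F => Cn (Iq m) (Iq L) ↑F) := by
    rw [LSym.pr]
    apply Pr_mono (ok2 h0 hq1)
    rintro F hF ⟨x, y, h3, h4, h5⟩
    have h6 := (trl (-z.1) (-z.2)).reach h5
    rw [← LSym.coe_mp] at h6
    apply cr_cn hm hc ((LSym.mp_mono _ hF).trans hin)
    refine ⟨_, _, ?_, ?_, h6⟩
    · show inR _ _ _ _ (x.1 + -z.1, x.2 + -z.2)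
      unfold inR at *
      simp only
      omega
    · have e3 : ((trl (-z.1) (-z.2)).ψ y) = (y.1 + -z.1, y.2 + -z.2) := rfl
      rw [e3]
      simp only
      omega
  have s3 : Pr (fun _ => q) ((trl (-z.1) (-z.2)).mp T') (fun F => Cn (Iq m) (Iq L) ↑F) ≤
      Pr (fun _ => q) (hb L) (fun F => Cn (Iq m) (Iq L) ↑F) :=
    Pr_mono_set (ok2 h0 hq1) hin (cn_incr m L _)
  have s4 := h2 m L hm hmL q h0 hq1
  have s5 : Pr (fun _ => (1/2:ℝ)) (hb L) (fun F => Cn (Iq m) (Iq L) ↑F) ≤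
      C1 * ((m:ℝ) / L) ^ (1/3 : ℝ) := by
    refine (Pr_mono (ok2 (by norm_num) (by norm_num)) (B := fun F => Cr (0, 0) m L (↑F : Set Edg))
      (fun F _ h => cn_cr h)).trans ?_
    apply h1 (hb L) (0, 0) _ m L hm hmL
    intro e he
    unfold hb at he
    obtain ⟨x, y, _ | _⟩ := e
    · rw [mem_RE_false] at he
      simp only
      omega
    · rw [mem_RE_true] at he
      simp only
      omega
  rw [abs_le] at s4
  rw [s1]
  linarith [s4.2]

/-- Disjoint annuli. -/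
theorem cr_mul {q : ℝ} (h0 : 0 ≤ q) (h1 : q ≤ 1) (T : Finset Edg) (z : Vtx) {r s R : ℕ}
    (hrs : r ≤ s) (hsR : s ≤ R) :
    Pr (fun _ => q) T (fun F => Cr z r R ↑F) ≤
      Pr (fun _ => q) T (fun F => Cr z r s ↑F) * Pr (fun _ => q) T (fun F => Cr z s R ↑F) := by
  rw [← Pr_indep (U := T) (S := T ∩ bx z s) (T := T \ bx z s) Finset.inter_subset_left
    Finset.sdiff_subset (Finset.disjoint_left.mpr fun e he he' =>
      (Finset.mem_sdiff.mp he').2 (Finset.mem_inter.mp he).2)]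
  · apply Pr_mono (ok2 h0 h1)
    intro F _ h
    exact ⟨h.sub le_rfl hsR, h.sub hrs le_rfl⟩
  · intro F hF
    constructor
    · intro h
      refine (h.loc hrs).mono ?_
      rintro e ⟨h2, h3, h4⟩
      rw [Finset.coe_inter, Finset.coe_inter]
      exact ⟨h2, hF h2, h3⟩
    · exact fun h => h.mono (by rw [Finset.coe_inter]; exact Set.inter_subset_left)
  · intro F hF
    constructor
    · intro h
      refine (h.loc hsR).mono ?_
      rintro e ⟨h2, h3, h4⟩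
      rw [Finset.coe_inter, Finset.coe_sdiff]
      exact ⟨h2, hF h2, h4⟩
    · exact fun h => h.mono (by rw [Finset.coe_inter]; exact Set.inter_subset_left)

/-- Near-critical crossings of half annuli. -/
theorem hp_up : ∃ C ε : ℝ, 1 ≤ C ∧ 0 < ε ∧ ∀ (T : Finset Edg) (z : Vtx),
    (∀ e ∈ T, z.2 ≤ e.2.1) → ∀ (n : ℕ) (q : ℝ), 0 ≤ q → q ≤ 1 →
      |q - 1/2| ≤ ε * (n:ℝ) ^ (-(3/4) : ℝ) → ∀ r R : ℕ, 1 ≤ r → r ≤ R → R ≤ n →
      Pr (fun _ => q) T (fun F => Cr z r R ↑F) ≤ C * ((r:ℝ) / R) ^ (7/24 : ℝ) := by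
  obtain ⟨C1, C2, hC1, hC2, hone⟩ := hp_one
  obtain ⟨lam, hlam⟩ : ∃ lam : ℕ, 2 + (2 * C1) ^ (24:ℕ) ≤ lam := exists_nat_ge _
  have hl2r : (2:ℝ) ≤ lam := by
    have : 0 ≤ (2 * C1) ^ (24:ℕ) := by positivity
    linarith
  have hl2 : 2 ≤ lam := by exact_mod_cast hl2r
  have hl0 : (0:ℝ) < lam := by linarith
  obtain ⟨g, hg⟩ : ∃ g : ℝ, g = (lam:ℝ) ^ (-(7/24) : ℝ) := ⟨_, rfl⟩
  have hg0 : 0 < g := by rw [hg]; positivity
  have hg1 : g ≤ 1 := by
    rw [hg]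
    exact Real.rpow_le_one_of_one_le_of_nonpos (by linarith) (by norm_num)
  have hmain : C1 * (lam:ℝ) ^ (-(1/3) : ℝ) ≤ g / 2 := by
    have e1 : (2 * C1) ≤ (lam:ℝ) ^ (1/24 : ℝ) := by
      have e2 : ((2 * C1) ^ (24:ℕ)) ^ (1/24 : ℝ) = 2 * C1 := by
        rw [← Real.rpow_natCast, ← Real.rpow_mul (by linarith)]
        norm_num
      rw [← e2]
      apply Real.rpow_le_rpow (by positivity) (by linarith) (by norm_num)
    have e3 : (lam:ℝ) ^ (-(1/3) : ℝ) * (lam:ℝ) ^ (1/24 : ℝ) = g := by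
      rw [hg, ← Real.rpow_add hl0]
      norm_num
    have e4 : 0 < (lam:ℝ) ^ (-(1/3) : ℝ) := by positivity
    nlinarith
  refine ⟨1 / g, g / (2 * C2), ?_, by positivity, ?_⟩
  · rw [le_div_iff₀ hg0]; linarith
  intro T z hT n q h0 h1 hq r R hr hrR hRn
  have hr0 : (0:ℝ) < r := by exact_mod_cast hr
  have hR0 : (0:ℝ) < R := by exact_mod_cast lt_of_lt_of_le hr hrR
  -- one step
  have hstep : ∀ m : ℕ, 1 ≤ m → m * lam ≤ n →
      Pr (fun _ => q) T (fun F => Cr z m (m * lam) ↑F) ≤ g := by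
    intro m hm hmn
    have hm0 : (0:ℝ) < m := by exact_mod_cast hm
    have e1 := hone T z hT m (m * lam) hm (Nat.le_mul_of_pos_right m (by omega)) q h0 h1
    have e2 : ((m:ℝ) / ((m * lam : ℕ) : ℝ)) ^ (1/3 : ℝ) = (lam:ℝ) ^ (-(1/3) : ℝ) := by
      have : (m:ℝ) / ((m * lam : ℕ) : ℝ) = (lam:ℝ)⁻¹ := by
        push_cast
        field_simp
      rw [this, Real.inv_rpow hl0.le, Real.rpow_neg hl0.le]
    have hn0 : (0:ℝ) < n := by
      have : 1 ≤ n := le_trans (Nat.mul_le_mul hm (by omega : 1 ≤ lam)) hmn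
      exact_mod_cast this
    have e3 : C2 * |q - 1/2| * ((m * lam : ℕ) : ℝ) ^ (3/4 : ℝ) ≤ g / 2 := by
      have e4 : ((m * lam : ℕ) : ℝ) ^ (3/4 : ℝ) ≤ (n:ℝ) ^ (3/4 : ℝ) :=
        Real.rpow_le_rpow (by positivity) (by exact_mod_cast hmn) (by norm_num)
      have e5 : (n:ℝ) ^ (-(3/4) : ℝ) * (n:ℝ) ^ (3/4 : ℝ) = 1 := by
        rw [← Real.rpow_add hn0]; norm_num
      have e6 : (0:ℝ) < (n:ℝ) ^ (3/4 : ℝ) := by positivity
      calc C2 * |q - 1/2| * ((m * lam : ℕ) : ℝ) ^ (3/4 : ℝ)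
          ≤ C2 * (g / (2 * C2) * (n:ℝ) ^ (-(3/4) : ℝ)) * (n:ℝ) ^ (3/4 : ℝ) := by
            apply mul_le_mul (mul_le_mul_of_nonneg_left hq hC2.le) e4 (by positivity)
              (by positivity)
        _ = C2 * (g / (2 * C2)) * ((n:ℝ) ^ (-(3/4) : ℝ) * (n:ℝ) ^ (3/4 : ℝ)) := by ring
        _ = g / 2 := by rw [e5]; field_simp
    rw [e2] at e1
    linarith
  have hpow : ∀ k : ℕ, r * lam ^ k ≤ n →
      Pr (fun _ => q) T (fun F => Cr z r (r * lam ^ k) ↑F) ≤ g ^ k := by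
    intro k
    induction k with
    | zero => intro _; rw [pow_zero g]; exact Pr_le_one (ok2 h0 h1) _ _
    | succ k ih =>
      intro hk
      have k1 : r * lam ^ (k + 1) = (r * lam ^ k) * lam := by rw [pow_succ]; ring
      have k2 : 1 ≤ r * lam ^ k := Nat.mul_pos hr (Nat.pow_pos (by omega))
      have k3 : r * lam ^ k ≤ (r * lam ^ k) * lam := Nat.le_mul_of_pos_right _ (by omega)
      rw [k1] at hk ⊢
      refine (cr_mul h0 h1 T z (Nat.le_mul_of_pos_right r (Nat.pow_pos (by omega))) k3).trans ?_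
      rw [pow_succ]
      apply mul_le_mul (ih (k3.trans hk)) (hstep _ k2 hk) (Pr_nonneg (ok2 h0 h1) _ _)
        (by positivity)
  -- the largest power
  obtain ⟨k, hk1, hk2⟩ : ∃ k : ℕ, r * lam ^ k ≤ R ∧ R < r * lam ^ (k + 1) := by
    have hex : ∃ k, R < r * lam ^ k := by
      refine ⟨R, ?_⟩
      calc R < lam ^ R := Nat.lt_pow_self (by omega)
        _ ≤ r * lam ^ R := Nat.le_mul_of_pos_left _ hr
    classical
    have hs := Nat.find_spec hex
    have hpos : Nat.find hex ≠ 0 := by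
      intro h
      rw [h, pow_zero, mul_one] at hs
      omega
    refine ⟨Nat.find hex - 1, ?_, ?_⟩
    · have := Nat.find_min hex (m := Nat.find hex - 1) (by omega)
      omega
    · rwa [Nat.sub_add_cancel (Nat.one_le_iff_ne_zero.mpr hpos)]
  have f1 : Pr (fun _ => q) T (fun F => Cr z r R ↑F) ≤ g ^ k :=
    (Pr_mono (ok2 h0 h1) (fun F _ h => h.sub le_rfl hk1)).trans (hpow k (hk1.trans hRn))
  refine f1.trans ?_
  have f2 : g ^ (k + 1) ≤ ((r:ℝ) / R) ^ (7/24 : ℝ) := by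
    have f3 : ((lam:ℝ) ^ (k + 1))⁻¹ ≤ (r:ℝ) / R := by
      rw [inv_le_comm₀ (by positivity) (by positivity), inv_div, div_le_iff₀ hr0]
      have : (R:ℝ) ≤ ((r * lam ^ (k + 1) : ℕ) : ℝ) := by exact_mod_cast hk2.le
      push_cast at this
      linarith
    have f4 : g ^ (k + 1) = (((lam:ℝ) ^ (k + 1))⁻¹) ^ (7/24 : ℝ) := by
      rw [hg, Real.inv_rpow (by positivity), ← Real.rpow_natCast, ← Real.rpow_natCast,
        ← Real.rpow_mul hl0.le, ← Real.rpow_mul hl0.le, ← Real.rpow_neg hl0.le]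
      congr 1
      ring
    rw [f4]
    exact Real.rpow_le_rpow (by positivity) f3 (by norm_num)
  rw [pow_succ] at f2
  rw [one_div, ← div_eq_inv_mul, le_div_iff₀ hg0]
  exact f2

end Q291.EP
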