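import Pool.Agent.Q291.EP.Hp
import Pool.Agent.TH291.NW.Slab

/-!
Crossings of half annuli near the critical point, continued.
-/

set_option maxHeartbeats 1000000

namespace Q291.EP

open H974 Finset H12S TH291.NW

/-- The half square. -/
def Hq : Set (ℝ × ℝ) := Set.Icc (-1) 1 ×ˢ Set.Icc 0 1

/-- Seven segments. -/
def Bq (κ : ℝ) : Set (ℝ × ℝ) :=
  ((((((((fun t : ℝ => (t, (0:ℝ))) '' Set.Icc (-1) 1) ∪
    ((fun t : ℝ => (t, (1:ℝ))) '' Set.Icc (-1) 1)) ∪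
    ((fun t : ℝ => ((-1:ℝ), t)) '' Set.Icc (-1) 1)) ∪
    ((fun t : ℝ => ((1:ℝ), t)) '' Set.Icc (-1) 1)) ∪
    ((fun t : ℝ => (t, κ)) '' Set.Icc (-1) 1)) ∪
    ((fun t : ℝ => (κ, t)) '' Set.Icc (-1) 1)) ∪
    ((fun t : ℝ => (-κ, t)) '' Set.Icc (-1) 1))

theorem dist_hor (a s t : ℝ) : dist ((s, a) : ℝ × ℝ) (t, a) ≤ |s - t| := by
  rw [Prod.dist_eq, dist_self, Real.dist_eq]
  simp

theorem dist_ver (a s t : ℝ) : dist ((a, s) : ℝ × ℝ) (a, t) ≤ |s - t| := by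
  rw [Prod.dist_eq, dist_self, Real.dist_eq]
  simp

theorem cov_Bq (κ : ℝ) : Cov (Bq κ) 21 1 := by
  have h : ∀ a : ℝ, Cov ((fun t : ℝ => (t, a)) '' Set.Icc (-1) 1) 3 1 := by
    intro a
    have := cov_param (f := fun t : ℝ => (t, a)) (dist_hor a) (b := -1) (c := 1) (ℓ := 2)
      (by norm_num) (by norm_num)
    rwa [show (2:ℝ) + 1 = 3 by norm_num] at this
  have v : ∀ a : ℝ, Cov ((fun t : ℝ => (a, t)) '' Set.Icc (-1) 1) 3 1 := by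
    intro a
    have := cov_param (f := fun t : ℝ => (a, t)) (dist_ver a) (b := -1) (c := 1) (ℓ := 2)
      (by norm_num) (by norm_num)
    rwa [show (2:ℝ) + 1 = 3 by norm_num] at this
  have key := ((((((h 0).union (h 1)).union (v (-1))).union (v 1)).union (h κ)).union
    (v κ)).union (v (-κ))
  exact key.mono (le_refl _) (by norm_num)

theorem fr_Hq (κ : ℝ) : frontier Hq ⊆ Bq κ := by
  intro x hx
  have hc : IsClosed Hq := isClosed_Icc.prod isClosed_Icc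
  rw [hc.frontier_eq] at hx
  obtain ⟨⟨⟨a1, a2⟩, ⟨a3, a4⟩⟩, h2⟩ := hx
  have hint : Set.Ioo (-1:ℝ) 1 ×ˢ Set.Ioo (0:ℝ) 1 ⊆ interior Hq := by
    apply interior_maximal _ (isOpen_Ioo.prod isOpen_Ioo)
    exact Set.prod_mono Set.Ioo_subset_Icc_self Set.Ioo_subset_Icc_self
  have h3 : ¬ ((-1 < x.1 ∧ x.1 < 1) ∧ (0 < x.2 ∧ x.2 < 1)) := fun h => h2 (hint h)
  unfold Bq
  by_cases c1 : x.2 = 0
  · exact Or.inl (Or.inl (Or.inl (Or.inl (Or.inl (Or.inl ⟨x.1, ⟨a1, a2⟩, Prod.ext rfl c1.symm⟩)))))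
  by_cases c2 : x.2 = 1
  · exact Or.inl (Or.inl (Or.inl (Or.inl (Or.inl (Or.inr ⟨x.1, ⟨a1, a2⟩, Prod.ext rfl c2.symm⟩)))))
  by_cases c3 : x.1 = -1
  · exact Or.inl (Or.inl (Or.inl (Or.inl (Or.inr ⟨x.2, ⟨by linarith, a4⟩, Prod.ext c3.symm rfl⟩))))
  by_cases c4 : x.1 = 1
  · exact Or.inl (Or.inl (Or.inl (Or.inr ⟨x.2, ⟨by linarith, a4⟩, Prod.ext c4.symm rfl⟩)))
  exfalso
  apply h3
  exact ⟨⟨lt_of_le_of_ne a1 (Ne.symm c3), lt_of_le_of_ne a2 c4⟩,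
    ⟨lt_of_le_of_ne a3 (Ne.symm c1), lt_of_le_of_ne a4 c2⟩⟩

/-- The half box. -/
noncomputable def hb (L : ℕ) : Finset Edg := RE (-L) L 0 L

theorem SE_Hq {L : ℕ} (hL : 1 ≤ L) : SE Hq (1 / (L:ℝ)) (L + 1) = hb L := by
  have hL0 : (0:ℝ) < L := by exact_mod_cast hL
  have key : ∀ a : ℤ, (-1 ≤ 1 / (L:ℝ) * (a:ℝ) ↔ -(L:ℤ) ≤ a) ∧
      (1 / (L:ℝ) * (a:ℝ) ≤ 1 ↔ a ≤ (L:ℤ)) ∧ (0 ≤ 1 / (L:ℝ) * (a:ℝ) ↔ 0 ≤ a) := by
    intro a
    refine ⟨?_, ?_, ?_⟩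
    · rw [one_div, ← div_eq_inv_mul, le_div_iff₀ hL0, neg_one_mul]
      exact_mod_cast Iff.rfl
    · rw [one_div, ← div_eq_inv_mul, div_le_iff₀ hL0, one_mul]
      exact_mod_cast Iff.rfl
    · rw [one_div, ← div_eq_inv_mul, le_div_iff₀ hL0, zero_mul]
      exact_mod_cast Iff.rfl
  have hpt : ∀ v : ℤ × ℤ, pt (1 / (L:ℝ)) v ∈ Hq ↔
      (-(L:ℤ) ≤ v.1 ∧ v.1 ≤ L) ∧ (0 ≤ v.2 ∧ v.2 ≤ L) := by
    intro v
    unfold pt Hq
    rw [Set.mem_prod, Set.mem_Icc, Set.mem_Icc, (key v.1).1, (key v.1).2.1, (key v.2).2.2,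
      (key v.2).2.1]
  have hconv : Convex ℝ Hq := (convex_Icc _ _).prod (convex_Icc _ _)
  ext e
  rw [mem_SE]
  have hseg : segment ℝ (pt (1 / (L:ℝ)) (src e)) (pt (1 / (L:ℝ)) (tgt e)) ⊆ Hq ↔
      pt (1 / (L:ℝ)) (src e) ∈ Hq ∧ pt (1 / (L:ℝ)) (tgt e) ∈ Hq := by
    constructor
    · exact fun h => ⟨h (left_mem_segment _ _ _), h (right_mem_segment _ _ _)⟩
    · exact fun h => hconv.segment_subset h.1 h.2
  rw [hseg, hpt, hpt]
  unfold hb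
  obtain ⟨x, y, _ | _⟩ := e
  · rw [mem_RE_false, mem_RE_false]
    simp only [src_mk, tgt_false]
    push_cast
    omega
  · rw [mem_RE_true, mem_RE_true]
    simp only [src_mk, tgt_true]
    push_cast
    omega

/-- The inner boundary. -/
def Iq (m : ℕ) : Set Vtx := {v | inR (-m) m 0 m v ∧ (v.1 = -m ∨ v.1 = m ∨ v.2 = m)}

theorem half_stab : ∃ C : ℝ, 0 < C ∧ ∀ m L : ℕ, 1 ≤ m → m ≤ L → ∀ q : ℝ, 0 ≤ q → q ≤ 1 →
    |Pr (fun _ => q) (hb L) (fun F => Cn (Iq m) (Iq L) ↑F) -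
      Pr (fun _ => 1/2) (hb L) (fun F => Cn (Iq m) (Iq L) ↑F)| ≤
        C * |q - 1/2| * (L:ℝ) ^ (3/4 : ℝ) := by
  obtain ⟨C, hC, h⟩ := dom_stab stU 1 21 1 0 (by norm_num) (by norm_num) (by norm_num)
    (by norm_num)
  refine ⟨C, hC, ?_⟩
  intro m L hm hL q h0 h1
  have hL1 : 1 ≤ L := hm.trans hL
  have hL0 : (0:ℝ) < L := by exact_mod_cast hL1
  have hLr : (1:ℝ) ≤ L := by exact_mod_cast hL1
  have hmL : (m:ℝ) ≤ L := by exact_mod_cast hL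
  have hmain := h Hq (Bq ((m:ℝ) / L)) (fr_Hq _) ?_ (cov_Bq _) (1 / (L:ℝ)) (by positivity)
    (by rw [div_le_one hL0]; exact hLr) (L + 1) ?_ (Iq m) (Iq L) ?_ q h0 h1
  · rw [SE_Hq hL1] at hmain
    refine hmain.trans (le_of_eq ?_)
    have e : ((1:ℝ) / L) ^ (-(3/4 : ℝ)) = (L:ℝ) ^ (3/4 : ℝ) := by
      rw [one_div, Real.inv_rpow hL0.le, Real.rpow_neg hL0.le, inv_inv]
    rw [e]
  · rintro x ⟨⟨a1, a2⟩, ⟨a3, a4⟩⟩
    exact ⟨abs_le.mpr ⟨a1, a2⟩, abs_le.mpr ⟨by linarith, a4⟩⟩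
  · push_cast
    have : (1:ℝ) / L * (L + 1) = 1 + 1 / L := by field_simp
    rw [this]
  · intro v hv
    refine ⟨pt (1 / (L:ℝ)) v, ?_, by simp⟩
    have hmul : ∀ a : ℤ, (1:ℝ) / L * (a:ℝ) = (a:ℝ) / L := fun a => by ring
    have hb' : ∀ a : ℤ, -(L:ℤ) ≤ a → a ≤ L → (1:ℝ) / L * (a:ℝ) ∈ Set.Icc (-1:ℝ) 1 := by
      intro a g1 g2
      have g1' : -(L:ℝ) ≤ a := by exact_mod_cast g1
      have g2' : (a:ℝ) ≤ L := by exact_mod_cast g2
      rw [hmul]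
      constructor
      · rw [le_div_iff₀ hL0]; linarith
      · rw [div_le_one hL0]; exact g2'
    have hmL' : (m:ℤ) ≤ L := by exact_mod_cast hL
    unfold Bq pt
    rcases hv with hv | hv
    · obtain ⟨⟨⟨g1, g2⟩, g3, g4⟩, g5⟩ := hv
      have g12 := hb' v.1 (by omega) (by omega)
      have g34 := hb' v.2 (by omega) (by omega)
      rcases g5 with g5 | g5 | g5
      · right
        refine ⟨_, g34, Prod.ext ?_ rfl⟩
        show -((m:ℝ) / L) = 1 / (L:ℝ) * (v.1:ℝ)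
        rw [g5, hmul]
        push_cast
        ring
      · left; right
        refine ⟨_, g34, Prod.ext ?_ rfl⟩
        show ((m:ℝ) / L) = 1 / (L:ℝ) * (v.1:ℝ)
        rw [g5, hmul]
        push_cast
        ring
      · left; left; right
        refine ⟨_, g12, Prod.ext rfl ?_⟩
        show ((m:ℝ) / L) = 1 / (L:ℝ) * (v.2:ℝ)
        rw [g5, hmul]
        push_cast
        ring
    · obtain ⟨⟨⟨g1, g2⟩, g3, g4⟩, g5⟩ := hv
      have g12 := hb' v.1 (by omega) (by omega)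
      have g34 := hb' v.2 (by omega) (by omega)
      rcases g5 with g5 | g5 | g5
      · left; left; left; left; right
        refine ⟨_, g34, Prod.ext ?_ rfl⟩
        show (-1:ℝ) = 1 / (L:ℝ) * (v.1:ℝ)
        rw [g5]
        push_cast
        field_simp
      · left; left; left; right
        refine ⟨_, g34, Prod.ext ?_ rfl⟩
        show (1:ℝ) = 1 / (L:ℝ) * (v.1:ℝ)
        rw [g5]
        push_cast
        field_simp
      · left; left; left; left; left; right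
        refine ⟨_, g12, Prod.ext rfl ?_⟩
        show (1:ℝ) = 1 / (L:ℝ) * (v.2:ℝ)
        rw [g5]
        push_cast
        field_simp

end Q291.EP
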