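import Pool.Agent.Q291.EP.Arm4

/-!
The probability of the arms.
-/

set_option maxHeartbeats 2000000

namespace Q291.EP

open H974 Finset H12S H342P H984P H984N TH291.NW

theorem cq_mem {κ : Bool} {q : ℝ} (h0 : 0 ≤ q) (h1 : q ≤ 1) : 0 ≤ cq κ q ∧ cq κ q ≤ 1 := by
  cases κ
  · simp only [cq, Bool.false_eq_true, if_false]; constructor <;> linarith
  · simp only [cq, if_true]; exact ⟨h0, h1⟩

theorem cq_half (κ : Bool) (q : ℝ) : |cq κ q - 1/2| = |q - 1/2| := by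
  cases κ
  · simp only [cq, Bool.false_eq_true, if_false]
    rw [show (1:ℝ) - q - 1/2 = -(q - 1/2) by ring, abs_neg]
  · simp only [cq, if_true]

/-- The half-plane bound in the form used. -/
theorem hp_use : ∃ C ε : ℝ, 1 ≤ C ∧ 0 < ε ∧ ∀ (D : Dm) (aa ss κ : Bool) (X : ℤ) (z : Vtx),
    co aa z = X → ∀ (n : ℕ) (q : ℝ), 0 ≤ q → q ≤ 1 → |q - 1/2| ≤ ε * (n:ℝ) ^ (-(3/4) : ℝ) →
    ∀ r R : ℕ, 1 ≤ r → r ≤ R → R ≤ n →
      Pr (fun _ => cq κ q) (cS κ D.edges)
        (fun F => Cr z r R (↑(F ∩ cS κ (Th D aa ss X)) : Set Edg)) ≤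
          C * ((r:ℝ) / R) ^ (7/24 : ℝ) := by
  obtain ⟨C, ε, hC, hε, h⟩ := hp_all
  refine ⟨C, ε, hC, hε, ?_⟩
  intro D aa ss κ X z hz n q h0 h1 hq r R hr hrR hRn
  have hTh : Th D aa ss X ⊆ D.edges := fun g hg => (mem_Th.mp hg).1
  obtain ⟨c0, c1⟩ := cq_mem (κ := κ) h0 h1
  have hsub : cS κ (Th D aa ss X) ⊆ cS κ D.edges := by
    cases κ
    · intro g hg
      simp only [cS, Bool.false_eq_true, if_false] at hg ⊢
      rw [mem_dmp] at hg ⊢
      exact hTh hg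
    · simp only [cS, if_true]
      exact hTh
  have e1 : Pr (fun _ => cq κ q) (cS κ D.edges)
      (fun F => Cr z r R (↑(F ∩ cS κ (Th D aa ss X)) : Set Edg)) =
      Pr (fun _ => cq κ q) (cS κ (Th D aa ss X)) (fun F => Cr z r R (↑F : Set Edg)) := by
    rw [Pr_local (S' := cS κ (Th D aa ss X)) hsub]
    · apply Pr_congr
      intro F hF
      rw [Finset.inter_eq_left.mpr hF]
    · intro F _
      rw [Finset.inter_assoc, Finset.inter_self]
  rw [e1]
  have hX : ∃ X' : ℤ, |X - X'| ≤ 1 ∧ ∀ e ∈ cS κ (Th D aa ss X),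
      hpl aa ss X' (src e) ∧ hpl aa ss X' (tgt e) := by
    cases κ
    · refine ⟨if ss then X else X - 1, ?_, ?_⟩
      · cases ss <;> simp
      · intro e he
        simp only [cS, Bool.false_eq_true, if_false] at he
        rw [mem_dmp, mem_Th] at he
        obtain ⟨-, h2, h3⟩ := he
        obtain ⟨x, y, _ | _⟩ := e
        · rw [dls_f] at h2 h3
          cases aa <;> cases ss <;>
            simp only [hpl, src_mk, tgt_true, tgt_false, Bool.false_eq_true, if_false,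
              if_true] at h2 h3 ⊢ <;> omega
        · rw [dls_t] at h2 h3
          cases aa <;> cases ss <;>
            simp only [hpl, src_mk, tgt_true, tgt_false, Bool.false_eq_true, if_false,
              if_true] at h2 h3 ⊢ <;> omega
    · refine ⟨X, by simp, ?_⟩
      intro e he
      simp only [cS, if_true] at he
      exact (mem_Th.mp he).2
  obtain ⟨X', hX1, hX2⟩ := hX
  exact h aa ss _ z X' hX2 (by rw [hz]; exact hX1) n _ c0 c1 (by rw [cq_half]; exact hq) r R hr hrR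
    hRn

/-- The inverse image of a set of edges. -/
def ics (κ : Bool) (Y : Finset Edg) : Finset Edg := if κ then Y else Y.map dl.symm.toEmbedding

theorem mem_ics {κ : Bool} {Y : Finset Edg} {g : Edg} : g ∈ ics κ Y ↔ ce κ g ∈ Y := by
  cases κ
  · simp only [ics, ce, Bool.false_eq_true, if_false, Finset.mem_map, Equiv.coe_toEmbedding]
    constructor
    · rintro ⟨a, ha, rfl⟩
      rw [Equiv.apply_symm_apply]; exact ha
    · intro h
      exact ⟨_, h, Equiv.symm_apply_apply _ _⟩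
  · simp only [ics, ce, if_true]

theorem cS_ics (κ : Bool) (Y : Finset Edg) : cS κ (ics κ Y) = Y := by
  cases κ
  · ext g
    simp only [cS, Bool.false_eq_true, if_false]
    rw [mem_dmp, mem_ics]
    simp only [ce, Bool.false_eq_true, if_false, Equiv.apply_symm_apply]
  · simp only [cS, ics, if_true]

theorem cS_sdiff (κ : Bool) (A B : Finset Edg) : cS κ (A \ B) = cS κ A \ cS κ B := by
  cases κ
  · ext g
    simp only [cS, Bool.false_eq_true, if_false, mem_dmp, Finset.mem_sdiff]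
  · simp only [cS, if_true]

theorem ce_near (κ : Bool) (g : Edg) : (ce κ g).1 ≤ g.1 ∧ g.1 ≤ (ce κ g).1 + 1 ∧
    (ce κ g).2.1 ≤ g.2.1 ∧ g.2.1 ≤ (ce κ g).2.1 + 1 := by
  cases κ
  · simp only [ce, Bool.false_eq_true, if_false]; exact dl_co g
  · simp only [ce, if_true]; omega

/-- Both arms. -/
theorem pr_both {C ε : ℝ} (hhp : ∀ (D : Dm) (aa ss κ : Bool) (X : ℤ) (z : Vtx),
    co aa z = X → ∀ (n : ℕ) (q : ℝ), 0 ≤ q → q ≤ 1 → |q - 1/2| ≤ ε * (n:ℝ) ^ (-(3/4) : ℝ) →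
    ∀ r R : ℕ, 1 ≤ r → r ≤ R → R ≤ n →
      Pr (fun _ => cq κ q) (cS κ D.edges)
        (fun F => Cr z r R (↑(F ∩ cS κ (Th D aa ss X)) : Set Edg)) ≤
          C * ((r:ℝ) / R) ^ (7/24 : ℝ)) {D : Dm} {e : Edg} {aa ss κ κ' : Bool} {X : ℤ} {J k R n : ℕ}
    {q : ℝ} (h0 : 0 ≤ q) (h1 : q ≤ 1) (hq : |q - 1/2| ≤ ε * (n:ℝ) ^ (-(3/4) : ℝ))
    (hk : 1 ≤ k) (hkJ : k + 4 ≤ 2 ^ (J + 1)) (hins : Ins D e k)
    (hnear : |co aa (src e) - X| ≤ 2 ^ (J + 1)) (hR : 8 * 2 ^ J < R) (hRn : R ≤ n) :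
    Pr (fun _ => q) D.edges (fun F => A4e k (ce κ e) (↑(cf κ D.edges F) : Set Edg) ∧
      Cr (zl aa X e) (8 * 2 ^ J) R (↑(cf κ' D.edges F ∩ cS κ' (Th D aa ss X)) : Set Edg)) ≤
      a4 (cq κ q) k * (C * (((8 * 2 ^ J : ℕ) : ℝ) / R) ^ (7/24 : ℝ)) := by
  obtain ⟨r, hr⟩ : ∃ r : ℕ, r = 8 * 2 ^ J := ⟨_, rfl⟩
  have hJ3 : 2 ^ (J + 1) = 2 * 2 ^ J := by rw [pow_succ]; ring
  have hP1 : 1 ≤ 2 ^ J := Nat.one_le_two_pow
  have hr1 : 1 ≤ r := by omega
  have hr4 : 4 * 2 ^ (J + 1) = r := by omega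
  rw [← hr] at hR ⊢
  obtain ⟨X0, hX0⟩ : ∃ X0 : Finset Edg, X0 = ics κ (ebx (ce κ e) k) := ⟨_, rfl⟩
  obtain ⟨Y0, hY0⟩ : ∃ Y0 : Finset Edg, Y0 = Th D aa ss X \ ics κ' (bx (zl aa X e) r) := ⟨_, rfl⟩
  have hcn := ce_near κ e
  have hXs : X0 ⊆ D.edges := by
    intro g hg
    rw [hX0, mem_ics] at hg
    unfold ebx at hg
    unfold Ins at hins
    unfold Dm.edges
    cases κ
    · simp only [ce, Bool.false_eq_true, if_false] at hg hcn
      obtain ⟨x, y, _ | _⟩ := g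
      · rw [dl_f, mem_RE_true] at hg
        rw [mem_RE_false]
        omega
      · rw [dl_t, mem_RE_false] at hg
        rw [mem_RE_true]
        omega
    · simp only [ce, if_true] at hg
      obtain ⟨x, y, _ | _⟩ := g
      · rw [mem_RE_false] at hg ⊢
        omega
      · rw [mem_RE_true] at hg ⊢
        omega
  have hYs : Y0 ⊆ D.edges := by
    intro g hg
    rw [hY0, Finset.mem_sdiff] at hg
    exact (mem_Th.mp hg.1).1
  have hez : sd (src e) (zl aa X e) ≤ 2 ^ (J + 1) :=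
    sd_zl_le hnear (by rw [det_sd_self]; positivity)
  have hd : Disjoint X0 Y0 := by
    rw [Finset.disjoint_left]
    intro g hg hg'
    rw [hY0, Finset.mem_sdiff] at hg'
    apply hg'.2
    rw [mem_ics]
    apply mem_bx_of
    rw [hX0, mem_ics] at hg
    have c1 := ce_near κ g
    have c2 := ce_near κ' g
    have hge : sd ((ce κ' g).1, (ce κ' g).2.1) (e.1, e.2.1) ≤ k + 2 := by
      have h3 := RE_ends (show ce κ g ∈ RE ((ce κ e).1 - k) ((ce κ e).1 + k) ((ce κ e).2.1 - k)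
        ((ce κ e).2.1 + k) from hg)
      have h4 : src (ce κ g) = ((ce κ g).1, (ce κ g).2.1) := rfl
      unfold inR at h3
      rw [h4] at h3
      simp only at h3
      unfold sd
      rw [max_le_iff, abs_le, abs_le]
      simp only
      omega
    have h5 := det_sd_tri ((ce κ' g).1, (ce κ' g).2.1) (e.1, e.2.1) (zl aa X e)
    have h6 : sd (e.1, e.2.1) (zl aa X e) ≤ 2 ^ (J + 1) := hez
    have h7 : (r:ℤ) = 4 * 2 ^ (J + 1) := by rw [← hr4]; push_cast; ring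
    have h8 : (k:ℤ) + 4 ≤ 2 ^ (J + 1) := by exact_mod_cast hkJ
    rw [h7]
    linarith
  have hA : ∀ F : Finset Edg, A4e k (ce κ e) (↑F : Set Edg) ↔
      A4e k (ce κ e) (↑(F ∩ cS κ X0) : Set Edg) := by
    intro F
    rw [hX0, cS_ics]
    apply A4e_local
    rw [Finset.coe_inter, Set.inter_assoc, Set.inter_self]
  have hB : ∀ F : Finset Edg, Cr (zl aa X e) r R (↑(F ∩ cS κ' (Th D aa ss X)) : Set Edg) ↔
      Cr (zl aa X e) r R (↑((F ∩ cS κ' Y0) ∩ cS κ' (Th D aa ss X)) : Set Edg) := by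
    intro F
    constructor
    · intro h
      refine (h.loc hR.le).mono ?_
      rintro g ⟨h2, h3, h4⟩
      rw [Finset.mem_coe, Finset.mem_inter] at h2
      rw [Finset.mem_coe, Finset.mem_inter, Finset.mem_inter, hY0, cS_sdiff, cS_ics,
        Finset.mem_sdiff]
      exact ⟨⟨h2.1, h2.2, fun h => h4 (Finset.mem_coe.mpr h)⟩, h2.2⟩
    · intro h
      refine h.mono ?_
      rw [Finset.coe_inter, Finset.coe_inter, Finset.coe_inter]
      rintro g ⟨⟨h2, _⟩, h4⟩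
      exact ⟨h2, h4⟩
  rw [two_types κ κ' (X := X0) (Y := Y0) hXs hYs hd
    (A := fun F => A4e k (ce κ e) (↑F : Set Edg))
    (B := fun F => Cr (zl aa X e) r R (↑(F ∩ cS κ' (Th D aa ss X)) : Set Edg)) hA hB]
  obtain ⟨c0, c1⟩ := cq_mem (κ := κ) h0 h1
  obtain ⟨c0', c1'⟩ := cq_mem (κ := κ') h0 h1
  apply mul_le_mul
  · apply pr_A4e c0 c1
    have h2 : ebx (ce κ e) k = cS κ X0 := by rw [hX0, cS_ics]
    rw [h2]
    cases κ
    · intro g hg
      simp only [cS, Bool.false_eq_true, if_false, mem_dmp] at hg ⊢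
      exact hXs hg
    · simp only [cS, if_true]
      exact hXs
  · exact hhp D aa ss κ' X (zl aa X e) (co_zl _ _ _) n q h0 h1 hq r R hr1 hR.le hRn
  · exact Pr_nonneg (ok2 c0' c1') _ _
  · exact LP_a4_nonneg c0 c1 k

end Q291.EP
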