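import Pool.Agent.Q291.EP.Pb

/-!
The probability of the arms, with exponents.
-/

set_option maxHeartbeats 2000000

namespace Q291.EP

open H974 Finset H12S H342P H984P H984N TH291.NW

theorem rpow_le_self16 {x : ℝ} (hx : 0 ≤ x) : (16 * x) ^ (7/24 : ℝ) ≤ 16 * x ^ (7/24 : ℝ) := by
  rw [Real.mul_rpow (by norm_num) hx]
  apply mul_le_mul_of_nonneg_right _ (by positivity)
  calc (16:ℝ) ^ (7/24 : ℝ) ≤ (16:ℝ) ^ (1:ℝ) :=
        Real.rpow_le_rpow_of_exponent_le (by norm_num) (by norm_num)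
    _ = 16 := Real.rpow_one _

/-- The four-arm factor. -/
theorem alpha_le {C0 : ℝ} (hC0 : 1 ≤ C0) {J : ℕ} {α : ℝ}
    (h : (4 ≤ J ∧ α ≤ C0 * (((2 ^ (J - 2) : ℕ) : ℝ) + 1) ^ (-(5/4) : ℝ)) ∨ (J < 4 ∧ α ≤ 1)) :
    α ≤ 64 * C0 * ((2:ℝ) ^ J) ^ (-(5/4) : ℝ) := by
  have hx : (0:ℝ) < 2 ^ J := by positivity
  have hxp : 0 ≤ ((2:ℝ) ^ J) ^ (-(5/4) : ℝ) := by positivity
  rcases h with ⟨h1, h2⟩ | ⟨h1, h2⟩
  · refine h2.trans ?_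
    have h3 : ((2:ℝ) ^ J) / 4 ≤ ((2 ^ (J - 2) : ℕ) : ℝ) + 1 := by
      have : J = (J - 2) + 2 := by omega
      conv_lhs => rw [this, pow_add]
      push_cast
      linarith
    have h4 : (((2 ^ (J - 2) : ℕ) : ℝ) + 1) ^ (-(5/4) : ℝ) ≤ (((2:ℝ) ^ J) / 4) ^ (-(5/4) : ℝ) :=
      Real.rpow_le_rpow_of_nonpos (by positivity) h3 (by norm_num)
    have h5 : (((2:ℝ) ^ J) / 4) ^ (-(5/4) : ℝ) ≤ 16 * ((2:ℝ) ^ J) ^ (-(5/4) : ℝ) := by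
      rw [Real.div_rpow hx.le (by norm_num), Real.rpow_neg (by norm_num : (0:ℝ) ≤ 4), div_inv_eq_mul,
        mul_comm]
      apply mul_le_mul_of_nonneg_right _ hxp
      calc (4:ℝ) ^ (5/4 : ℝ) ≤ (4:ℝ) ^ (2:ℝ) :=
            Real.rpow_le_rpow_of_exponent_le (by norm_num) (by norm_num)
        _ = 16 := by norm_num
    calc C0 * (((2 ^ (J - 2) : ℕ) : ℝ) + 1) ^ (-(5/4) : ℝ)
        ≤ C0 * (16 * ((2:ℝ) ^ J) ^ (-(5/4) : ℝ)) :=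
          mul_le_mul_of_nonneg_left (h4.trans h5) (by linarith)
      _ ≤ 64 * C0 * ((2:ℝ) ^ J) ^ (-(5/4) : ℝ) := by nlinarith
  · refine h2.trans ?_
    have h3 : (2:ℝ) ^ J ≤ 8 := by
      calc (2:ℝ) ^ J ≤ 2 ^ 3 := pow_le_pow_right₀ (by norm_num) (by omega)
        _ = 8 := by norm_num
    have h4 : (8:ℝ) ^ (-(5/4) : ℝ) ≤ ((2:ℝ) ^ J) ^ (-(5/4) : ℝ) :=
      Real.rpow_le_rpow_of_nonpos hx h3 (by norm_num)
    have h5 : (1:ℝ) / 64 ≤ (8:ℝ) ^ (-(5/4) : ℝ) := by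
      rw [Real.rpow_neg (by norm_num), ← one_div]
      apply one_div_le_one_div_of_le (by positivity)
      calc (8:ℝ) ^ (5/4 : ℝ) ≤ (8:ℝ) ^ (2:ℝ) :=
            Real.rpow_le_rpow_of_exponent_le (by norm_num) (by norm_num)
        _ = 64 := by norm_num
    nlinarith

/-- The half-plane factor. -/
theorem beta_le {C : ℝ} (hC : 1 ≤ C) {J R : ℕ} {β : ℝ}
    (h : (8 * 2 ^ J < R ∧ β ≤ C * (((8 * 2 ^ J : ℕ) : ℝ) / R) ^ (7/24 : ℝ)) ∨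
      (R ≤ 8 * 2 ^ J ∧ β ≤ 1)) :
    β ≤ 16 * C * ((2:ℝ) ^ J / ((R:ℝ) + 1)) ^ (7/24 : ℝ) := by
  have hx : (0:ℝ) < 2 ^ J := by positivity
  have hR1 : (0:ℝ) < (R:ℝ) + 1 := by positivity
  have h16 := rpow_le_self16 (x := (2:ℝ) ^ J / ((R:ℝ) + 1)) (by positivity)
  have hp : 0 ≤ ((2:ℝ) ^ J / ((R:ℝ) + 1)) ^ (7/24 : ℝ) := by positivity
  rcases h with ⟨h1, h2⟩ | ⟨h1, h2⟩
  · have hR : 1 ≤ R := by omega
    have hRr : (1:ℝ) ≤ R := by exact_mod_cast hR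
    have h3 : ((8 * 2 ^ J : ℕ) : ℝ) / R ≤ 16 * ((2:ℝ) ^ J / ((R:ℝ) + 1)) := by
      push_cast
      rw [div_le_iff₀ (by linarith), ← mul_div_assoc, div_mul_eq_mul_div, le_div_iff₀ hR1]
      nlinarith
    have h4 : (((8 * 2 ^ J : ℕ) : ℝ) / R) ^ (7/24 : ℝ) ≤
        16 * ((2:ℝ) ^ J / ((R:ℝ) + 1)) ^ (7/24 : ℝ) :=
      (Real.rpow_le_rpow (by positivity) h3 (by norm_num)).trans h16
    nlinarith
  · have h3 : (1:ℝ) ≤ 16 * ((2:ℝ) ^ J / ((R:ℝ) + 1)) := by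
      rw [← mul_div_assoc, le_div_iff₀ hR1]
      have h4 : (R:ℝ) ≤ 8 * 2 ^ J := by exact_mod_cast h1
      have h5 : (1:ℝ) ≤ 2 ^ J := one_le_pow₀ (by norm_num)
      linarith
    have h4 : (1:ℝ) ≤ (16 * ((2:ℝ) ^ J / ((R:ℝ) + 1))) ^ (7/24 : ℝ) :=
      Real.one_le_rpow h3 (by norm_num)
    nlinarith

/-- The four-arm event alone. -/
theorem pr_four {D : Dm} {e : Edg} {κ : Bool} {k : ℕ} {q : ℝ} (h0 : 0 ≤ q) (h1 : q ≤ 1)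
    (hins : Ins D e k) :
    Pr (fun _ => q) D.edges (fun F => A4e k (ce κ e) (↑(cf κ D.edges F) : Set Edg)) ≤
      a4 (cq κ q) k := by
  rw [pr_cf κ q D.edges (fun F => A4e k (ce κ e) (↑F : Set Edg))]
  obtain ⟨c0, c1⟩ := cq_mem (κ := κ) h0 h1
  apply pr_A4e c0 c1
  have hcn := ce_near κ e
  intro g hg
  unfold ebx at hg
  unfold Ins at hins
  unfold Dm.edges
  cases κ
  · simp only [ce, Bool.false_eq_true, if_false] at hg hcn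
    simp only [cS, Bool.false_eq_true, if_false, mem_dmp]
    obtain ⟨x, y, _ | _⟩ := g
    · rw [dls_f, mem_RE_true]
      rw [mem_RE_false] at hg
      omega
    · rw [dls_t, mem_RE_false]
      rw [mem_RE_true] at hg
      omega
  · simp only [ce, if_true] at hg
    simp only [cS, if_true]
    obtain ⟨x, y, _ | _⟩ := g
    · rw [mem_RE_false] at hg ⊢
      omega
    · rw [mem_RE_true] at hg ⊢
      omega

theorem pr_false' {q : ℝ} {S : Finset Edg} {A : Finset Edg → Prop} (h : ∀ F, F ⊆ S → ¬ A F) :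
    Pr (fun _ => q) S A = 0 := by
  rw [Pr_congr (B := fun _ => ¬ True) (fun F hF => iff_of_false (h F hF) (fun h => h trivial)),
    Pr_not]
  have : Pr (fun _ => q) S (fun _ => True) = 1 := by
    unfold Pr
    rw [Ex_congr (g := fun _ => (1:ℝ)) (fun F _ => by simp [ind]), Ex_const]
  rw [this]; ring

/-- The bound for given types, line and scale. -/
theorem arms_pr : ∃ C ε : ℝ, 1 ≤ C ∧ 0 < ε ∧ ∀ (D : Dm) (n w : ℕ), D.h + 1 ≤ n → w ≤ n →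
    ∀ (e : Edg) (q : ℝ), 0 ≤ q → q ≤ 1 → |q - 1/2| ≤ ε * (n:ℝ) ^ (-(3/4) : ℝ) →
    ∀ (aa ss κ κ' : Bool) (X : ℤ) (J : ℕ),
      Pr (fun _ => q) D.edges (fun F => Arms D w e F aa ss κ κ' X J) ≤
        C * (((2:ℝ) ^ J) ^ (-(23/24) : ℝ) * ((Rr D w e : ℝ) + 1) ^ (-(7/24) : ℝ)) := by
  obtain ⟨C, ε1, hC, hε1, hhp⟩ := hp_use
  obtain ⟨κ0, C0, hκ0, hC0, hst⟩ := stU
  refine ⟨(64 * C0) * (16 * C), min ε1 (1 / C0), ?_, lt_min hε1 (by positivity), ?_⟩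
  · nlinarith
  intro D n w hn hw e q h0 h1 hq aa ss κ κ' X J
  have hC00 : (0:ℝ) < C0 := by linarith
  have hx : (0:ℝ) < 2 ^ J := by positivity
  have hR1 : (0:ℝ) < (Rr D w e : ℝ) + 1 := by positivity
  have hid : ((2:ℝ) ^ J) ^ (-(5/4) : ℝ) * ((2:ℝ) ^ J / ((Rr D w e : ℝ) + 1)) ^ (7/24 : ℝ) =
      ((2:ℝ) ^ J) ^ (-(23/24) : ℝ) * ((Rr D w e : ℝ) + 1) ^ (-(7/24) : ℝ) := by
    have hinv : ((Rr D w e : ℝ) + 1) ^ (-(7/24) : ℝ) = (((Rr D w e : ℝ) + 1) ^ (7/24 : ℝ))⁻¹ :=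
      Real.rpow_neg hR1.le _
    have hx2 : ((2:ℝ) ^ J) ^ (-(5/4) : ℝ) * ((2:ℝ) ^ J) ^ (7/24 : ℝ) =
        ((2:ℝ) ^ J) ^ (-(23/24) : ℝ) := by
      rw [← Real.rpow_add hx]; norm_num
    rw [Real.div_rpow hx.le hR1.le, hinv, ← hx2]
    ring
  -- outside the range of scales the event is empty
  by_cases hsc : (2:ℤ) ^ J ≤ D.h + 1
  swap
  · rw [pr_false' (fun F _ h => hsc h.scale)]
    positivity
  have hJn : 2 ^ J ≤ n := by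
    have : (2:ℤ) ^ J ≤ n := hsc.trans hn
    exact_mod_cast this
  have hn1 : 1 ≤ n := le_trans Nat.one_le_two_pow hJn
  by_cases hne : |co aa (src e) - X| ≤ 2 ^ (J + 1)
  swap
  · rw [pr_false' (fun F _ h => hne h.near)]
    positivity
  have hnp : 0 ≤ (n:ℝ) ^ (-(3/4) : ℝ) := by positivity
  have hq1 : |q - 1/2| ≤ ε1 * (n:ℝ) ^ (-(3/4) : ℝ) :=
    hq.trans (mul_le_mul_of_nonneg_right (min_le_left _ _) hnp)
  have hq2 : |cq κ q - 1/2| ≤ (n:ℝ) ^ (-(3/4 : ℝ)) / C0 := by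
    rw [cq_half]
    refine hq.trans ((mul_le_mul_of_nonneg_right (min_le_right _ _) hnp).trans (le_of_eq ?_))
    ring
  have hA4 := (hst n hn1 (cq κ q) hq2).2
  have hRn : Rr D w e ≤ n := by
    refine le_trans ?_ hw
    unfold Rr
    have := min_le_left w (min (sd (src e) (0, 0)).toNat (sd (src e) (D.t, D.h)).toNat)
    omega
  -- the three bounds
  have hkJ : 4 ≤ J → 2 ^ (J - 2) + 4 ≤ 2 ^ (J + 1) ∧ 1 ≤ 2 ^ (J - 2) ∧ 2 ^ (J - 2) ≤ n := by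
    intro h
    have h1 : J + 1 = (J - 2) + 3 := by omega
    have h2 : 1 ≤ 2 ^ (J - 2) := Nat.one_le_two_pow
    have h3 : J = (J - 2) + 2 := by omega
    have h4 : 2 ^ J = 4 * 2 ^ (J - 2) := by
      conv_lhs => rw [h3, pow_add]
      ring
    refine ⟨?_, h2, by omega⟩
    rw [h1, pow_add]
    omega
  have ha4 : 4 ≤ J → a4 (cq κ q) (2 ^ (J - 2)) ≤
      C0 * (((2 ^ (J - 2) : ℕ) : ℝ) + 1) ^ (-(5/4) : ℝ) := by
    intro h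
    have := hA4 (2 ^ (J - 2)) (hkJ h).2.2
    rwa [add_zero] at this
  have key : ∃ α β : ℝ, 0 ≤ α ∧ Pr (fun _ => q) D.edges (fun F => Arms D w e F aa ss κ κ' X J) ≤
      α * β ∧ ((4 ≤ J ∧ α ≤ C0 * (((2 ^ (J - 2) : ℕ) : ℝ) + 1) ^ (-(5/4) : ℝ)) ∨
        (J < 4 ∧ α ≤ 1)) ∧ ((8 * 2 ^ J < Rr D w e ∧
          β ≤ C * (((8 * 2 ^ J : ℕ) : ℝ) / (Rr D w e : ℕ)) ^ (7/24 : ℝ)) ∨
      (Rr D w e ≤ 8 * 2 ^ J ∧ β ≤ 1)) := by
    obtain ⟨c0, c1⟩ := cq_mem (κ := κ) h0 h1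
    rcases Nat.lt_or_ge J 4 with hJ4 | hJ4
    · rcases Nat.lt_or_ge (8 * 2 ^ J) (Rr D w e) with hR | hR
      · refine ⟨1, _, by norm_num, ?_, Or.inr ⟨hJ4, le_rfl⟩, Or.inl ⟨hR, le_rfl⟩⟩
        rw [one_mul]
        refine (Pr_mono (ok2 h0 h1) (B := fun F => Cr (zl aa X e) (8 * 2 ^ J) (Rr D w e)
          (↑(cf κ' D.edges F ∩ cS κ' (Th D aa ss X)) : Set Edg)) (fun F _ h => h.cross hR)).trans ?_
        rw [pr_cf κ' q D.edges (fun F => Cr (zl aa X e) (8 * 2 ^ J) (Rr D w e)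
          (↑(F ∩ cS κ' (Th D aa ss X)) : Set Edg))]
        exact hhp D aa ss κ' X (zl aa X e) (co_zl _ _ _) n q h0 h1 hq1 _ _
          (by have : 1 ≤ 2 ^ J := Nat.one_le_two_pow
              omega) hR.le hRn
      · exact ⟨1, 1, by norm_num, by rw [one_mul]; exact Pr_le_one (ok2 h0 h1) _ _,
          Or.inr ⟨hJ4, le_rfl⟩, Or.inr ⟨hR, le_rfl⟩⟩
    · obtain ⟨k1, k2, k3⟩ := hkJ hJ4
      by_cases hins : Ins D e (2 ^ (J - 2))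
      swap
      · have hz : Pr (fun _ => q) D.edges (fun F => Arms D w e F aa ss κ κ' X J) = 0 :=
          pr_false' (fun F _ h => hins (h.four hJ4).2)
        rcases Nat.lt_or_ge (8 * 2 ^ J) (Rr D w e) with hR | hR
        · exact ⟨0, _, le_rfl, by rw [hz, zero_mul], Or.inl ⟨hJ4, by positivity⟩,
            Or.inl ⟨hR, le_rfl⟩⟩
        · exact ⟨0, 1, le_rfl, by rw [hz, zero_mul], Or.inl ⟨hJ4, by positivity⟩,
            Or.inr ⟨hR, le_rfl⟩⟩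
      rcases Nat.lt_or_ge (8 * 2 ^ J) (Rr D w e) with hR | hR
      · refine ⟨a4 (cq κ q) (2 ^ (J - 2)), _, LP_a4_nonneg c0 c1 _, ?_, Or.inl ⟨hJ4, ha4 hJ4⟩,
          Or.inl ⟨hR, le_rfl⟩⟩
        refine (Pr_mono (ok2 h0 h1)
          (B := fun F => A4e (2 ^ (J - 2)) (ce κ e) (↑(cf κ D.edges F) : Set Edg) ∧
            Cr (zl aa X e) (8 * 2 ^ J) (Rr D w e)
              (↑(cf κ' D.edges F ∩ cS κ' (Th D aa ss X)) : Set Edg))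
          (fun F _ h => ⟨(h.four hJ4).1, h.cross hR⟩)).trans ?_
        exact pr_both hhp h0 h1 hq1 k2 k1 hins hne hR hRn
      · refine ⟨a4 (cq κ q) (2 ^ (J - 2)), 1, LP_a4_nonneg c0 c1 _, ?_, Or.inl ⟨hJ4, ha4 hJ4⟩,
          Or.inr ⟨hR, le_rfl⟩⟩
        rw [mul_one]
        exact (Pr_mono (ok2 h0 h1) (fun F _ h => (h.four hJ4).1)).trans (pr_four h0 h1 hins)
  obtain ⟨α, β, hα0, hP, hα, hβ⟩ := key
  have h2 := alpha_le hC0 hα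
  have h3 := beta_le hC hβ
  refine hP.trans ?_
  have h4 : 0 ≤ 16 * C * ((2:ℝ) ^ J / ((Rr D w e : ℝ) + 1)) ^ (7/24 : ℝ) := by positivity
  calc α * β ≤ α * (16 * C * ((2:ℝ) ^ J / ((Rr D w e : ℝ) + 1)) ^ (7/24 : ℝ)) :=
        mul_le_mul_of_nonneg_left h3 hα0
    _ ≤ (64 * C0 * ((2:ℝ) ^ J) ^ (-(5/4) : ℝ)) *
        (16 * C * ((2:ℝ) ^ J / ((Rr D w e : ℝ) + 1)) ^ (7/24 : ℝ)) :=
        mul_le_mul_of_nonneg_right h2 h4
    _ = (64 * C0) * (16 * C) * (((2:ℝ) ^ J) ^ (-(5/4) : ℝ) *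
        ((2:ℝ) ^ J / ((Rr D w e : ℝ) + 1)) ^ (7/24 : ℝ)) := by ring
    _ = _ := by rw [hid]

end Q291.EP
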