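import Pool.Agent.Q291.EP.Pc
import Pool.Agent.H974R2.Split
import Pool.Agent.H984R4.NP.SumB

/-!
The expected number of edges whose state changes the coarse path.
-/

set_option maxHeartbeats 2000000

namespace Q291.EP

open H974 Finset H12S H342P H984P H984N TH291.NW

theorem ph_ge {b : ℝ} (hb : 0 ≤ b) (d : ℤ) (hd : 0 ≤ d) : ((d:ℝ) + 1) ^ (-b) ≤ ph 1 b d := by
  unfold ph
  rcases eq_or_lt_of_le hd with h | h
  · rw [← h]; simp
  · rw [if_neg (by omega)]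
    have hd1 : (0:ℝ) < d := by exact_mod_cast h
    rw [one_mul]
    exact Real.rpow_le_rpow_of_nonpos hd1 (by linarith) (by linarith)

theorem ph_nonneg' (b : ℝ) (d : ℤ) : 0 ≤ ph 1 b d := by
  unfold ph
  split_ifs with h
  · norm_num
  · have : (0:ℝ) ≤ d := by
      have : 0 ≤ d := by omega
      exact_mod_cast this
    positivity

/-- The weight of an edge. -/
theorem wt_le {D : Dm} {w : ℕ} (hw : 1 ≤ w) (e : Edg) (a : Bool) :
    ((Rr D w e : ℝ) + 1) ^ (-(7/24) : ℝ) ≤ 64 * ((w:ℝ) ^ (-(7/24) : ℝ) +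
      ph 1 (7/24) |co a (0, 0) - co a (src e)| +
      ph 1 (7/24) |co a (D.t, D.h) - co a (src e)|) := by
  obtain ⟨m, hm⟩ : ∃ m : ℕ, m = min w (min (sd (src e) (0, 0)).toNat
    (sd (src e) (D.t, D.h)).toNat) := ⟨_, rfl⟩
  have hR : Rr D w e = m / 64 := by rw [hm]; rfl
  have hmp : (0:ℝ) < (m:ℝ) + 1 := by positivity
  have hw0 : (0:ℝ) < w := by exact_mod_cast hw
  have h1 : ((m:ℝ) + 1) / 64 ≤ (Rr D w e : ℝ) + 1 := by
    rw [div_le_iff₀ (by norm_num)]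
    have : m + 1 ≤ (Rr D w e + 1) * 64 := by rw [hR]; omega
    exact_mod_cast this
  have h2 : ((Rr D w e : ℝ) + 1) ^ (-(7/24) : ℝ) ≤ 64 * ((m:ℝ) + 1) ^ (-(7/24) : ℝ) := by
    refine (Real.rpow_le_rpow_of_nonpos (by positivity) h1 (by norm_num)).trans ?_
    rw [Real.div_rpow hmp.le (by norm_num), Real.rpow_neg (by norm_num : (0:ℝ) ≤ 64),
      div_inv_eq_mul, mul_comm]
    apply mul_le_mul_of_nonneg_right _ (by positivity)
    calc (64:ℝ) ^ (7/24 : ℝ) ≤ (64:ℝ) ^ (1:ℝ) :=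
          Real.rpow_le_rpow_of_exponent_le (by norm_num) (by norm_num)
      _ = 64 := Real.rpow_one _
  refine h2.trans (mul_le_mul_of_nonneg_left ?_ (by norm_num))
  have n1 : 0 ≤ (w:ℝ) ^ (-(7/24) : ℝ) := by positivity
  have n2 := ph_nonneg' (7/24) |co a (0, 0) - co a (src e)|
  have n3 := ph_nonneg' (7/24) |co a (D.t, D.h) - co a (src e)|
  have key : ∀ P : Vtx, m = (sd (src e) P).toNat →
      ((m:ℝ) + 1) ^ (-(7/24) : ℝ) ≤ ph 1 (7/24) |co a P - co a (src e)| := by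
    intro P hP
    refine le_trans ?_ (ph_ge (by norm_num) _ (abs_nonneg _))
    have h3 := co_sd a (src e) P
    rw [abs_sub_comm] at h3
    have h4 : |co a P - co a (src e)| ≤ (m:ℤ) := by
      rw [hP]
      exact h3.trans (Int.self_le_toNat _)
    have h5 : ((|co a P - co a (src e)| : ℤ) : ℝ) ≤ (m:ℝ) := by exact_mod_cast h4
    have h6 : (0:ℝ) ≤ ((|co a P - co a (src e)| : ℤ) : ℝ) := by
      exact_mod_cast abs_nonneg (co a P - co a (src e))
    exact Real.rpow_le_rpow_of_nonpos (by linarith) (by linarith) (by norm_num)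
  rcases min_choice w (min (sd (src e) (0, 0)).toNat (sd (src e) (D.t, D.h)).toNat) with h | h
  · rw [h] at hm
    have h3 : ((m:ℝ) + 1) ^ (-(7/24) : ℝ) ≤ (w:ℝ) ^ (-(7/24) : ℝ) := by
      rw [hm]
      exact Real.rpow_le_rpow_of_nonpos hw0 (by linarith) (by norm_num)
    linarith
  · rw [h] at hm
    rcases min_choice (sd (src e) (0, 0)).toNat (sd (src e) (D.t, D.h)).toNat with h' | h'
    · rw [h'] at hm
      linarith [key _ hm]
    · rw [h'] at hm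
      linarith [key _ hm]

/-- The edges near a line. -/
theorem strip : ∃ C : ℝ, 1 ≤ C ∧ ∀ (D : Dm) (n w : ℕ), D.Ok → 1 ≤ w → w ≤ n → D.r - D.l ≤ n →
    D.h ≤ n → ∀ (aa : Bool) (X : ℤ) (M : ℕ), 1 ≤ M →
      ∑ e ∈ D.edges, (if |co aa (src e) - X| ≤ M then ((Rr D w e : ℝ) + 1) ^ (-(7/24) : ℝ) else 0) ≤
        C * (M * (n * (w:ℝ) ^ (-(7/24) : ℝ))) := by
  refine ⟨64 * 6 * (3 + 8 * (1 + 1 / (1 - 7/24))), by norm_num, ?_⟩
  intro D n w hD hw hwn hn1 hn2 aa X M hM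
  classical
  have hlr := hD.l_neg
  have hr := hD.r_pos
  have hh := hD.h_pos
  have hle := hD.l_le
  have hre := hD.le_r
  have hw0 : (0:ℝ) < w := by exact_mod_cast hw
  have hn0 : (0:ℝ) < n := by exact_mod_cast lt_of_lt_of_le hw hwn
  have hn1' : (1:ℝ) ≤ n := by exact_mod_cast hw.trans hwn
  have hwn' : (w:ℝ) ≤ n := by exact_mod_cast hwn
  obtain ⟨φ, hφ⟩ : ∃ φ : ℤ → ℝ, φ = fun c => 64 * ((w:ℝ) ^ (-(7/24) : ℝ) +
      ph 1 (7/24) |co (!aa) (0, 0) - c| + ph 1 (7/24) |co (!aa) (D.t, D.h) - c|) := ⟨_, rfl⟩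
  have hφ0 : ∀ c, 0 ≤ φ c := by
    intro c
    rw [hφ]
    have n1 : 0 ≤ (w:ℝ) ^ (-(7/24) : ℝ) := by positivity
    have n2 := ph_nonneg' (7/24) |co (!aa) (0, 0) - c|
    have n3 := ph_nonneg' (7/24) |co (!aa) (D.t, D.h) - c|
    simp only
    positivity
  obtain ⟨f, hf⟩ : ∃ f : Edg → ℤ × ℤ × Bool,
      f = fun e => (co aa (src e), co (!aa) (src e), e.2.2) := ⟨_, rfl⟩
  have hinj : Function.Injective f := by
    rw [hf]
    rintro ⟨x, y, b⟩ ⟨x', y', b'⟩ h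
    cases aa
    · simp only [co, src_mk, Bool.not_false, Bool.false_eq_true, if_false, if_true,
        Prod.mk.injEq] at h
      obtain ⟨h1, h2, h3⟩ := h
      rw [h1, h2, h3]
    · simp only [co, src_mk, Bool.not_true, Bool.false_eq_true, if_false, if_true,
        Prod.mk.injEq] at h
      obtain ⟨h1, h2, h3⟩ := h
      rw [h1, h2, h3]
  -- the sum over the image
  have s1 : ∑ e ∈ D.edges, (if |co aa (src e) - X| ≤ M then
      ((Rr D w e : ℝ) + 1) ^ (-(7/24) : ℝ) else 0) ≤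
      ∑ e ∈ D.edges.filter (fun e => |co aa (src e) - X| ≤ M), φ (f e).2.1 := by
    rw [← Finset.sum_filter]
    apply Finset.sum_le_sum
    intro e _
    have := wt_le (D := D) hw e (!aa)
    rw [hφ, hf]
    exact this
  have s2 : ∑ e ∈ D.edges.filter (fun e => |co aa (src e) - X| ≤ M), φ (f e).2.1 ≤
      ∑ x ∈ Finset.Icc (X - M) (X + M) ×ˢ (Finset.Icc (-(n:ℤ)) n ×ˢ (Finset.univ : Finset Bool)),
        φ x.2.1 := by
    rw [← Finset.sum_image (f := fun x : ℤ × ℤ × Bool => φ x.2.1) (fun a _ b _ h => hinj h)]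
    apply Finset.sum_le_sum_of_subset_of_nonneg
    · intro x hx
      rw [Finset.mem_image] at hx
      obtain ⟨e, he, rfl⟩ := hx
      rw [Finset.mem_filter] at he
      obtain ⟨h1, h2⟩ := he
      rw [abs_le] at h2
      have h3 := (RE_ends h1).1
      unfold inR at h3
      rw [hf, Finset.mem_product, Finset.mem_product, Finset.mem_Icc, Finset.mem_Icc]
      refine ⟨⟨by simp only; omega, by simp only; omega⟩, ?_, Finset.mem_univ _⟩
      cases aa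
      · simp only [co, Bool.not_false, if_true]
        constructor <;> omega
      · simp only [co, Bool.not_true, Bool.false_eq_true, if_false]
        constructor <;> omega
    · intro x _ _
      exact hφ0 _
  have s3 : ∑ x ∈ Finset.Icc (X - M) (X + M) ×ˢ (Finset.Icc (-(n:ℤ)) n ×ˢ
      (Finset.univ : Finset Bool)), φ x.2.1 = (2 * M + 1) * (2 * ∑ c ∈ Finset.Icc (-(n:ℤ)) n, φ c) := by
    have e1 : ∀ x : ℤ, ∑ y ∈ Finset.Icc (-(n:ℤ)) n ×ˢ (Finset.univ : Finset Bool),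
        φ (x, y).2.1 = 2 * ∑ c ∈ Finset.Icc (-(n:ℤ)) n, φ c := by
      intro x
      show ∑ y ∈ Finset.Icc (-(n:ℤ)) n ×ˢ (Finset.univ : Finset Bool), φ y.1 = _
      rw [Finset.sum_product, Finset.mul_sum]
      apply Finset.sum_congr rfl
      intro c _
      show ∑ _y : Bool, φ c = 2 * φ c
      rw [Finset.sum_const, Finset.card_univ, Fintype.card_bool, nsmul_eq_mul]
      push_cast
      rfl
    have : (X + M + 1 - (X - M)).toNat = 2 * M + 1 := by omega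
    rw [Finset.sum_product, Finset.sum_congr rfl (fun x _ => e1 x), Finset.sum_const,
      Int.card_Icc, this, nsmul_eq_mul]
    push_cast
    rfl
  have s4 : ∑ c ∈ Finset.Icc (-(n:ℤ)) n, φ c ≤
      64 * ((3 + 8 * (1 + 1 / (1 - 7/24))) * (n * (w:ℝ) ^ (-(7/24) : ℝ))) := by
    rw [hφ]
    simp only
    rw [← Finset.mul_sum, Finset.sum_add_distrib, Finset.sum_add_distrib, Finset.sum_const,
      Int.card_Icc]
    have h2n : (1:ℝ) ≤ 2 * n := by linarith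
    have b1 := sumb_one (b := 7/24) (by norm_num) (by norm_num) h2n (2 * n) (by push_cast; exact le_rfl)
      (co (!aa) (0, 0)) (Finset.Icc (-(n:ℤ)) n) (by
        intro l hl
        rw [Finset.mem_Icc] at hl
        rw [abs_le]
        cases aa <;> simp only [co, Bool.not_false, Bool.not_true, Bool.false_eq_true, if_false,
          if_true] <;> push_cast <;> omega)
    have b2 := sumb_one (b := 7/24) (by norm_num) (by norm_num) h2n (2 * n) (by push_cast; exact le_rfl)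
      (co (!aa) (D.t, D.h)) (Finset.Icc (-(n:ℤ)) n) (by
        intro l hl
        rw [Finset.mem_Icc] at hl
        rw [abs_le]
        cases aa <;> simp only [co, Bool.not_false, Bool.not_true, Bool.false_eq_true, if_false,
          if_true] <;> push_cast <;> omega)
    have h3 : (2 * (n:ℝ)) ^ (1 - 7/24 : ℝ) ≤ 2 * (n * (w:ℝ) ^ (-(7/24) : ℝ)) := by
      rw [Real.mul_rpow (by norm_num) hn0.le]
      have c1 : (2:ℝ) ^ (1 - 7/24 : ℝ) ≤ 2 := by
        calc (2:ℝ) ^ (1 - 7/24 : ℝ) ≤ (2:ℝ) ^ (1:ℝ) :=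
              Real.rpow_le_rpow_of_exponent_le (by norm_num) (by norm_num)
          _ = 2 := Real.rpow_one _
      have c2 : (n:ℝ) ^ (1 - 7/24 : ℝ) ≤ n * (w:ℝ) ^ (-(7/24) : ℝ) := by
        rw [show (1 - 7/24 : ℝ) = 1 + -(7/24) by ring, Real.rpow_add hn0, Real.rpow_one]
        exact mul_le_mul_of_nonneg_left (Real.rpow_le_rpow_of_nonpos hw0 hwn' (by norm_num)) hn0.le
      exact mul_le_mul c1 c2 (by positivity) (by norm_num)
    have h4 : (((((n:ℤ) + 1 - -(n:ℤ)).toNat : ℕ) : ℝ)) ≤ 3 * n := by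
      have : ((n:ℤ) + 1 - -(n:ℤ)).toNat = 2 * n + 1 := by omega
      rw [this]
      push_cast
      linarith
    have h5 : (0:ℝ) ≤ (w:ℝ) ^ (-(7/24) : ℝ) := by positivity
    rw [nsmul_eq_mul]
    have h6 := mul_le_mul_of_nonneg_right h4 h5
    have h7 : (2:ℝ) * ((1 + 1 / (1 - 7/24)) * (2 * (n:ℝ)) ^ (1 - 7/24 : ℝ)) ≤
        4 * (1 + 1 / (1 - 7/24)) * (n * (w:ℝ) ^ (-(7/24) : ℝ)) := by
      nlinarith
    nlinarith
  refine s1.trans (s2.trans (s3.le.trans ?_))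
  have hM1 : (1:ℝ) ≤ M := by exact_mod_cast hM
  have h8 : 0 ≤ (n:ℝ) * (w:ℝ) ^ (-(7/24) : ℝ) := by positivity
  have h9 : 0 ≤ ∑ c ∈ Finset.Icc (-(n:ℤ)) n, φ c := Finset.sum_nonneg (fun c _ => hφ0 c)
  calc (2 * (M:ℝ) + 1) * (2 * ∑ c ∈ Finset.Icc (-(n:ℤ)) n, φ c)
      ≤ (3 * M) * (2 * (64 * ((3 + 8 * (1 + 1 / (1 - 7/24))) * (n * (w:ℝ) ^ (-(7/24) : ℝ))))) := by
        apply mul_le_mul (by linarith) (by linarith) (by positivity) (by positivity)
    _ = _ := by ring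

/-- The lines in the range. -/
noncomputable def Lf (D : Dm) (n w : ℕ) : Finset ℤ := by
  classical
  exact (((Finset.Icc (-((n / w + 1 : ℕ) : ℤ)) ((n / w + 1 : ℕ) : ℤ)).image (fun m => (w:ℤ) * m)) ∪
    ((Finset.Icc (-((n / w + 1 : ℕ) : ℤ)) ((n / w + 1 : ℕ) : ℤ)).image (fun m => (w:ℤ) * m - 1))) ∪
      {D.l, D.r, D.h}

theorem mem_Lf {D : Dm} {n w : ℕ} (hw : 1 ≤ w) {X : ℤ} (h : Ln D w X) (h1 : -(n:ℤ) ≤ X)
    (h2 : X ≤ n) : X ∈ Lf D n w := by
  classical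
  have hw0 : (0:ℤ) < w := by exact_mod_cast hw
  have hdiv : (n:ℤ) < w * ((n / w + 1 : ℕ) : ℤ) := by
    have := Nat.lt_mul_div_succ n (show 0 < w by omega)
    exact_mod_cast this
  unfold Lf
  rw [Finset.mem_union, Finset.mem_union, Finset.mem_image, Finset.mem_image]
  rcases h with ⟨m, rfl⟩ | ⟨m, hm⟩ | h | h | h
  · left; left
    refine ⟨m, ?_, rfl⟩
    rw [Finset.mem_Icc]
    constructor
    · by_contra h3
      push Not at h3
      have := mul_le_mul_of_nonneg_left (show m + 1 ≤ -((n / w + 1 : ℕ) : ℤ) by omega) hw0.le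
      nlinarith
    · by_contra h3
      push Not at h3
      have := mul_le_mul_of_nonneg_left (show ((n / w + 1 : ℕ) : ℤ) ≤ m - 1 by omega) hw0.le
      nlinarith
  · left; right
    refine ⟨m, ?_, by linarith⟩
    rw [Finset.mem_Icc]
    constructor
    · by_contra h3
      push Not at h3
      have := mul_le_mul_of_nonneg_left (show m + 1 ≤ -((n / w + 1 : ℕ) : ℤ) by omega) hw0.le
      nlinarith
    · by_contra h3
      push Not at h3
      have := mul_le_mul_of_nonneg_left (show ((n / w + 1 : ℕ) : ℤ) ≤ m - 1 by omega) hw0.le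
      nlinarith
  · right; rw [h]; simp
  · right; rw [h]; simp
  · right; rw [h]; simp

theorem card_Lf {D : Dm} {n w : ℕ} (hw : 1 ≤ w) (hwn : w ≤ n) :
    ((Lf D n w).card : ℝ) ≤ 13 * ((n:ℝ) / w) := by
  classical
  have hw0 : (0:ℝ) < w := by exact_mod_cast hw
  have h1 : (Lf D n w).card ≤ 4 * (n / w) + 9 := by
    unfold Lf
    refine (Finset.card_union_le _ _).trans ?_
    have c1 := (Finset.card_union_le ((Finset.Icc (-((n / w + 1 : ℕ) : ℤ))
      ((n / w + 1 : ℕ) : ℤ)).image (fun m => (w:ℤ) * m))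
      ((Finset.Icc (-((n / w + 1 : ℕ) : ℤ)) ((n / w + 1 : ℕ) : ℤ)).image (fun m => (w:ℤ) * m - 1)))
    have c2 : ∀ g : ℤ → ℤ, ((Finset.Icc (-((n / w + 1 : ℕ) : ℤ))
        ((n / w + 1 : ℕ) : ℤ)).image g).card ≤ 2 * (n / w) + 3 := by
      intro g
      refine Finset.card_image_le.trans ?_
      rw [Int.card_Icc]
      omega
    have c3 : ({D.l, D.r, D.h} : Finset ℤ).card ≤ 3 := Finset.card_le_three
    have c4 := c2 (fun m => (w:ℤ) * m)
    have c5 := c2 (fun m => (w:ℤ) * m - 1)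
    omega
  have h2 : (((n / w : ℕ)) : ℝ) ≤ (n:ℝ) / w := Nat.cast_div_le
  have h3 : (1:ℝ) ≤ (n:ℝ) / w := by
    rw [le_div_iff₀ hw0, one_mul]
    exact_mod_cast hwn
  have h4 : ((Lf D n w).card : ℝ) ≤ 4 * (((n / w : ℕ)) : ℝ) + 9 := by exact_mod_cast h1
  linarith

/-- A geometric sum. -/
theorem geo_le {n : ℕ} (hn : 1 ≤ n) :
    ∑ J ∈ Finset.range (Nat.log 2 n + 1), ((2:ℝ) ^ J) ^ (1/24 : ℝ) ≤
      49 * (n:ℝ) ^ (1/24 : ℝ) := by
  obtain ⟨g, hg⟩ : ∃ g : ℝ, g = (2:ℝ) ^ (1/24 : ℝ) := ⟨_, rfl⟩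
  have hg1 : 1 + 1/48 ≤ g := by
    rw [hg]
    have h1 : ((1 + 1/48 : ℝ) ^ (24:ℕ)) ^ (1/24 : ℝ) = 1 + 1/48 := by
      rw [← Real.rpow_natCast, ← Real.rpow_mul (by norm_num)]
      norm_num
    rw [← h1]
    exact Real.rpow_le_rpow (by positivity) (by norm_num) (by norm_num)
  have hg2 : g ≤ 2 := by
    rw [hg]
    calc (2:ℝ) ^ (1/24 : ℝ) ≤ (2:ℝ) ^ (1:ℝ) :=
          Real.rpow_le_rpow_of_exponent_le (by norm_num) (by norm_num)
      _ = 2 := Real.rpow_one _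
  have hpow : ∀ J : ℕ, ((2:ℝ) ^ J) ^ (1/24 : ℝ) = g ^ J := by
    intro J
    rw [hg, ← Real.rpow_natCast, ← Real.rpow_natCast, ← Real.rpow_mul (by norm_num),
      ← Real.rpow_mul (by norm_num), mul_comm]
  rw [Finset.sum_congr rfl (fun J _ => hpow J)]
  have key : ∀ m : ℕ, ∑ J ∈ Finset.range (m + 1), g ^ J ≤ 49 * g ^ m := by
    intro m
    induction m with
    | zero => simp
    | succ m ih =>
      rw [Finset.sum_range_succ, pow_succ]
      have h1 : 0 < g ^ m := by positivity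
      nlinarith
  refine (key _).trans (mul_le_mul_of_nonneg_left ?_ (by norm_num))
  rw [← hpow]
  apply Real.rpow_le_rpow (by positivity) _ (by norm_num)
  exact_mod_cast Nat.pow_log_le_self 2 (by omega)

theorem cp_wired {D : Dm} {w : ℕ} {e : Edg} (he : e ∈ D.wir) (F : Finset Edg) :
    cp D w (insert e F) = cp D w (F.erase e) := by
  have h : D.cfg (insert e F) = D.cfg (F.erase e) := by
    unfold Dm.cfg
    ext g
    simp only [Set.mem_union, Finset.mem_coe, Finset.mem_insert, Finset.mem_erase]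
    constructor
    · rintro ((rfl | h) | h)
      · exact Or.inr he
      · by_cases hg : g = e
        · rw [hg]; exact Or.inr he
        · exact Or.inl ⟨hg, h⟩
      · exact Or.inr h
    · rintro (⟨_, h⟩ | h)
      · exact Or.inl (Or.inr h)
      · exact Or.inr h
  have h1 : D.walk (insert e F) = D.walk (F.erase e) := by
    funext k
    unfold Dm.walk
    rw [h]
  have h2 : D.len (insert e F) = D.len (F.erase e) := by
    unfold Dm.len
    rw [h1]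
  unfold cp
  rw [h1, h2]

/-- The expected number of edges whose state changes the coarse path. -/
theorem piv_sum : ∃ C ε : ℝ, 1 ≤ C ∧ 0 < ε ∧ ∀ (D : Dm) (n w : ℕ), D.Ok → 1 ≤ w → w ≤ n →
    D.r - D.l ≤ n → D.h + 1 ≤ n → 8 * (w:ℤ) ≤ -D.l → 8 * (w:ℤ) ≤ D.r → 8 * (w:ℤ) ≤ D.h →
    ∀ q : ℝ, 0 ≤ q → q ≤ 1 → |q - 1/2| ≤ ε * (n:ℝ) ^ (-(3/4) : ℝ) →
      ∑ e ∈ D.edges, Pr (fun _ => q) D.edges
        (fun F => cp D w (insert e F) ≠ cp D w (F.erase e)) ≤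
        C * ((n:ℝ) ^ (3/4 : ℝ) * ((n:ℝ) / w) ^ (31/24 : ℝ)) := by
  classical
  obtain ⟨C1, ε, hC1, hε, harm⟩ := arms_pr
  obtain ⟨C2, hC2, hstrip⟩ := strip
  refine ⟨16 * (13 * (49 * (2 * (C1 * C2)))), ε, by nlinarith, hε, ?_⟩
  intro D n w hD hw hwn hn1 hn2 hl hr hh q h0 h1 hq
  have hw0 : (0:ℝ) < w := by exact_mod_cast hw
  have hn0 : (0:ℝ) < n := by exact_mod_cast lt_of_lt_of_le hw hwn
  obtain ⟨I, hI⟩ : ∃ I : Finset ((Bool × Bool × Bool × Bool) × (ℤ × ℕ)),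
      I = Finset.univ ×ˢ (Lf D n w ×ˢ Finset.range (Nat.log 2 n + 1)) := ⟨_, rfl⟩
  obtain ⟨hh', hhe⟩ : ∃ h : Edg → ℝ, h = fun e => ((Rr D w e : ℝ) + 1) ^ (-(7/24) : ℝ) := ⟨_, rfl⟩
  have hh0 : ∀ e, 0 ≤ hh' e := by intro e; rw [hhe]; positivity
  obtain ⟨u, hu⟩ : ∃ u : ((Bool × Bool × Bool × Bool) × (ℤ × ℕ)) → Edg → ℝ,
      u = fun i e => C1 * (((2:ℝ) ^ i.2.2) ^ (-(23/24) : ℝ) *
        (if |co i.1.1 (src e) - i.2.1| ≤ ((2 ^ (i.2.2 + 1) : ℕ) : ℤ) then hh' e else 0)) := ⟨_, rfl⟩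
  have hu0 : ∀ i e, 0 ≤ u i e := by
    intro i e
    rw [hu]
    have : 0 ≤ (if |co i.1.1 (src e) - i.2.1| ≤ ((2 ^ (i.2.2 + 1) : ℕ) : ℤ) then hh' e else 0) := by
      split_ifs
      · exact hh0 e
      · exact le_rfl
    simp only
    positivity
  have s1 : ∀ e ∈ D.edges, Pr (fun _ => q) D.edges
      (fun F => cp D w (insert e F) ≠ cp D w (F.erase e)) ≤ ∑ i ∈ I, u i e := by
    intro e he
    by_cases hwir : e ∈ D.wir
    · rw [pr_false' (fun F _ h => h (cp_wired hwir F))]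
      exact Finset.sum_nonneg (fun i _ => hu0 i e)
    · have he' : e ∈ rnd D := mem_rnd.mpr ⟨he, hwir⟩
      refine (Pr_mono (ok2 h0 h1) (B := fun F => ∃ i ∈ I,
        Arms D w e F i.1.1 i.1.2.1 i.1.2.2.1 i.1.2.2.2 i.2.1 i.2.2) ?_).trans
        ((Pr_exists_le (ok2 h0 h1) _ I _).trans (Finset.sum_le_sum ?_))
      · intro F hF hne
        obtain ⟨aa, ss, κ, κ', X, J, hA⟩ := arms_of hD hF he' (by omega) hl hr hh hne
        refine ⟨((aa, ss, κ, κ'), (X, J)), ?_, hA⟩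
        rw [hI, Finset.mem_product, Finset.mem_product]
        refine ⟨Finset.mem_univ _, ?_, ?_⟩
        · have hlneg := hD.l_neg
          have hrpos := hD.r_pos
          apply mem_Lf hw hA.line
          · cases aa
            · have := hA.rh rfl
              omega
            · have := hA.rv rfl
              omega
          · cases aa
            · have := hA.rh rfl
              omega
            · have := hA.rv rfl
              omega
        · rw [Finset.mem_range]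
          have h2 : (2:ℤ) ^ J ≤ n := hA.scale.trans hn2
          have h3 : 2 ^ J ≤ n := by exact_mod_cast h2
          have h4 : J ≤ Nat.log 2 n := Nat.le_log_of_pow_le (by norm_num) h3
          show J < Nat.log 2 n + 1
          omega
      · rintro ⟨⟨aa, ss, κ, κ'⟩, X, J⟩ _
        rw [hu]
        simp only
        by_cases hnear : |co aa (src e) - X| ≤ ((2 ^ (J + 1) : ℕ) : ℤ)
        · rw [if_pos hnear, hhe]
          exact harm D n w hn2 hwn e q h0 h1 hq aa ss κ κ' X J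
        · rw [if_neg hnear, pr_false' (fun F _ h => hnear (by push_cast; exact h.near))]
          simp
  refine (Finset.sum_le_sum s1).trans ?_
  rw [Finset.sum_comm]
  obtain ⟨Z, hZ⟩ : ∃ Z : ℝ, Z = (n:ℝ) * (w:ℝ) ^ (-(7/24) : ℝ) := ⟨_, rfl⟩
  have hZ0 : 0 ≤ Z := by rw [hZ]; positivity
  have s2 : ∀ i ∈ I, ∑ e ∈ D.edges, u i e ≤
      2 * (C1 * C2) * Z * ((2:ℝ) ^ i.2.2) ^ (1/24 : ℝ) := by
    rintro ⟨⟨aa, ss, κ, κ'⟩, X, J⟩ _
    rw [hu]
    simp only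
    rw [← Finset.mul_sum, ← Finset.mul_sum]
    have h2 := hstrip D n w hD hw hwn hn1 (by omega) aa X (2 ^ (J + 1)) Nat.one_le_two_pow
    rw [← hZ] at h2
    have hx : (0:ℝ) < 2 ^ J := by positivity
    have hp : 0 ≤ ((2:ℝ) ^ J) ^ (-(23/24) : ℝ) := by positivity
    have h3 : ((2:ℝ) ^ J) ^ (-(23/24) : ℝ) * (2:ℝ) ^ J = ((2:ℝ) ^ J) ^ (1/24 : ℝ) := by
      have : ((2:ℝ) ^ J) ^ (-(23/24) : ℝ) * ((2:ℝ) ^ J) ^ (1:ℝ) = ((2:ℝ) ^ J) ^ (1/24 : ℝ) := by
        rw [← Real.rpow_add hx]; norm_num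
      rwa [Real.rpow_one] at this
    have h4 : ∑ e ∈ D.edges, (if |co aa (src e) - X| ≤ ((2 ^ (J + 1) : ℕ) : ℤ) then hh' e else 0) ≤
        C2 * (2 * (2:ℝ) ^ J * Z) := by
      rw [hhe]
      refine h2.trans (le_of_eq ?_)
      push_cast
      rw [pow_succ]
      ring
    calc C1 * (((2:ℝ) ^ J) ^ (-(23/24) : ℝ) * ∑ e ∈ D.edges,
          (if |co aa (src e) - X| ≤ ((2 ^ (J + 1) : ℕ) : ℤ) then hh' e else 0))
        ≤ C1 * (((2:ℝ) ^ J) ^ (-(23/24) : ℝ) * (C2 * (2 * (2:ℝ) ^ J * Z))) :=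
          mul_le_mul_of_nonneg_left (mul_le_mul_of_nonneg_left h4 hp) (by linarith)
      _ = 2 * (C1 * C2) * Z * (((2:ℝ) ^ J) ^ (-(23/24) : ℝ) * (2:ℝ) ^ J) := by ring
      _ = _ := by rw [h3]
  refine (Finset.sum_le_sum s2).trans ?_
  rw [hI, ← Finset.mul_sum, Finset.sum_product]
  have e1 : ∀ t : Bool × Bool × Bool × Bool,
      ∑ y ∈ Lf D n w ×ˢ Finset.range (Nat.log 2 n + 1), ((2:ℝ) ^ (t, y).2.2) ^ (1/24 : ℝ) =
      ((Lf D n w).card : ℝ) * ∑ J ∈ Finset.range (Nat.log 2 n + 1), ((2:ℝ) ^ J) ^ (1/24 : ℝ) := by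
    intro t
    show ∑ y ∈ Lf D n w ×ˢ Finset.range (Nat.log 2 n + 1), ((2:ℝ) ^ y.2) ^ (1/24 : ℝ) = _
    rw [Finset.sum_product]
    show ∑ _x ∈ Lf D n w, ∑ J ∈ Finset.range (Nat.log 2 n + 1), ((2:ℝ) ^ J) ^ (1/24 : ℝ) = _
    rw [Finset.sum_const, nsmul_eq_mul]
  rw [Finset.sum_congr rfl (fun t _ => e1 t), Finset.sum_const, Finset.card_univ, nsmul_eq_mul]
  have hcard : Fintype.card (Bool × Bool × Bool × Bool) = 16 := by simp
  rw [hcard]
  have f1 := card_Lf (D := D) hw hwn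
  have f2 := geo_le (hw.trans hwn)
  have f3 : 0 ≤ ∑ J ∈ Finset.range (Nat.log 2 n + 1), ((2:ℝ) ^ J) ^ (1/24 : ℝ) :=
    Finset.sum_nonneg (fun J _ => by positivity)
  have f4 : ((Lf D n w).card : ℝ) * ∑ J ∈ Finset.range (Nat.log 2 n + 1),
      ((2:ℝ) ^ J) ^ (1/24 : ℝ) ≤ (13 * ((n:ℝ) / w)) * (49 * (n:ℝ) ^ (1/24 : ℝ)) :=
    mul_le_mul f1 f2 f3 (by positivity)
  have hid : ((n:ℝ) / w) * ((n:ℝ) ^ (1/24 : ℝ) * Z) =
      (n:ℝ) ^ (3/4 : ℝ) * ((n:ℝ) / w) ^ (31/24 : ℝ) := by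
    rw [hZ, Real.div_rpow hn0.le hw0.le]
    have a1 : (n:ℝ) * (n:ℝ) ^ (1/24 : ℝ) * n = (n:ℝ) ^ (3/4 : ℝ) * (n:ℝ) ^ (31/24 : ℝ) := by
      rw [← Real.rpow_add hn0]
      have : (n:ℝ) * (n:ℝ) ^ (1/24 : ℝ) * n = (n:ℝ) ^ (1:ℝ) * (n:ℝ) ^ (1/24 : ℝ) * (n:ℝ) ^ (1:ℝ) := by
        rw [Real.rpow_one]
      rw [this, ← Real.rpow_add hn0, ← Real.rpow_add hn0]
      norm_num
    have a2 : (w:ℝ)⁻¹ * (w:ℝ) ^ (-(7/24) : ℝ) = ((w:ℝ) ^ (31/24 : ℝ))⁻¹ := by
      rw [← Real.rpow_neg hw0.le]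
      have : (w:ℝ)⁻¹ = (w:ℝ) ^ (-1:ℝ) := by rw [Real.rpow_neg hw0.le, Real.rpow_one]
      rw [this, ← Real.rpow_add hw0]
      norm_num
    calc ((n:ℝ) / w) * ((n:ℝ) ^ (1/24 : ℝ) * ((n:ℝ) * (w:ℝ) ^ (-(7/24) : ℝ)))
        = ((n:ℝ) * (n:ℝ) ^ (1/24 : ℝ) * n) * ((w:ℝ)⁻¹ * (w:ℝ) ^ (-(7/24) : ℝ)) := by
          rw [div_eq_mul_inv]; ring
      _ = _ := by rw [a1, a2]; rw [div_eq_mul_inv]; ring
  have hCC : 0 ≤ 2 * (C1 * C2) * Z := by positivity
  push_cast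
  calc 2 * (C1 * C2) * Z * (16 * (((Lf D n w).card : ℝ) * ∑ J ∈ Finset.range (Nat.log 2 n + 1),
        ((2:ℝ) ^ J) ^ (1/24 : ℝ)))
      ≤ 2 * (C1 * C2) * Z * (16 * ((13 * ((n:ℝ) / w)) * (49 * (n:ℝ) ^ (1/24 : ℝ)))) :=
        mul_le_mul_of_nonneg_left (by linarith) hCC
    _ = 16 * (13 * (49 * (2 * (C1 * C2)))) * (((n:ℝ) / w) * ((n:ℝ) ^ (1/24 : ℝ) * Z)) := by ring
    _ = _ := by rw [hid]

end Q291.EP
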