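import Pool.Agent.Q291.EP.Sm
import Pool.Agent.Q291.EP.Curve
import Pool.Agent.Q291.EP.Tv
import Pool.Agent.H973R3.NC.AsmB

/-!
Stability of the law of the exploration path.
-/

set_option maxHeartbeats 2000000

namespace Q291.EP

open H974 Finset H12S H342P H984P H984N TH291.NW

theorem abs_Ex_le {p : Edg → ℝ} (hp : Ok p) {S : Finset Edg} {f g : Finset Edg → ℝ}
    (h : ∀ F, F ⊆ S → |f F| ≤ g F) : |Ex p S f| ≤ Ex p S g := by
  rw [abs_le]
  constructor
  · have h1 : Ex p S (fun F => (-1) * g F) ≤ Ex p S f :=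
      Ex_mono hp (fun F hF => by have := (abs_le.mp (h F hF)).1; linarith)
    rw [Ex_mul_left] at h1
    linarith
  · exact Ex_mono hp (fun F hF => (abs_le.mp (h F hF)).2)

/-- Stability of the law of the coarse path. -/
theorem coarse_stab : ∃ C : ℝ, 1 ≤ C ∧ ∀ (D : Dm) (n w : ℕ), D.Ok → 1 ≤ w → w ≤ n →
    D.r - D.l ≤ n → D.h + 1 ≤ n → 8 * (w:ℤ) ≤ -D.l → 8 * (w:ℤ) ≤ D.r → 8 * (w:ℤ) ≤ D.h →
    ∀ g : List (ℤ × ℤ) → ℝ, (∀ c, |g c| ≤ 1) → ∀ q : ℝ, 0 ≤ q → q ≤ 1 →
      |Ex (fun _ => q) D.edges (fun F => g (cp D w F)) -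
        Ex (fun _ => 1/2) D.edges (fun F => g (cp D w F))| ≤
        C * ((n:ℝ) ^ (3/4 : ℝ) * ((n:ℝ) / w) ^ (31/24 : ℝ)) * |q - 1/2| := by
  obtain ⟨C, ε, hC, hε, hmain⟩ := piv_sum
  refine ⟨2 * C + 2 / ε, by have : 0 < 2 / ε := by positivity
                            linarith, ?_⟩
  intro D n w hD hw hwn hn1 hn2 hl hr hh g hg q h0 h1
  have hw0 : (0:ℝ) < w := by exact_mod_cast hw
  have hn0 : (0:ℝ) < n := by exact_mod_cast lt_of_lt_of_le hw hwn
  obtain ⟨Z, hZ⟩ : ∃ Z : ℝ, Z = (n:ℝ) ^ (3/4 : ℝ) * ((n:ℝ) / w) ^ (31/24 : ℝ) := ⟨_, rfl⟩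
  have hZ0 : 0 ≤ Z := by rw [hZ]; positivity
  have hq0 := abs_nonneg (q - 1/2)
  have hp : 0 < 2 / ε := by positivity
  rw [← hZ]
  by_cases hq : |q - 1/2| ≤ ε * (n:ℝ) ^ (-(3/4) : ℝ)
  · have hl := H973N.lip (f := fun t => Ex (fun _ => t) D.edges (fun F => g (cp D w F)))
      (B := 2 * C * Z) (a := 1/2) (b := q) ?_
    · refine hl.trans (mul_le_mul_of_nonneg_right ?_ hq0)
      nlinarith
    · intro t ht
      have htq : |t - 1/2| ≤ |q - 1/2| := Set.abs_sub_left_of_mem_uIcc ht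
      have ht0 : 0 ≤ t := by
        rw [Set.mem_uIcc] at ht
        rcases ht with ⟨a, b⟩ | ⟨a, b⟩ <;> linarith
      have ht1 : t ≤ 1 := by
        rw [Set.mem_uIcc] at ht
        rcases ht with ⟨a, b⟩ | ⟨a, b⟩ <;> linarith
      refine ⟨_, Ex_hasDerivAt (fun t _ => t) (fun _ => 1) t (fun _ => hasDerivAt_id t) D.edges
        (fun F => g (cp D w F)), ?_⟩
      refine (Finset.abs_sum_le_sum_abs _ _).trans ?_
      have hsum := hmain D n w hD hw hwn hn1 hn2 hl hr hh t ht0 ht1 (htq.trans hq)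
      rw [← hZ] at hsum
      have hterm : ∀ e ∈ D.edges, |1 * Ex (fun _ => t) (D.edges.erase e)
          (fun F => g (cp D w (insert e F)) - g (cp D w F))| ≤
          2 * Pr (fun _ => t) D.edges (fun F => cp D w (insert e F) ≠ cp D w (F.erase e)) := by
        intro e _
        rw [one_mul]
        have e1 : Pr (fun _ => t) D.edges (fun F => cp D w (insert e F) ≠ cp D w (F.erase e)) =
            Pr (fun _ => t) (D.edges.erase e)
              (fun F => cp D w (insert e F) ≠ cp D w (F.erase e)) := by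
          apply Pr_local (Finset.erase_subset _ _)
          intro F hF
          have f1 : F ∩ D.edges.erase e = F.erase e := by
            ext x
            rw [Finset.mem_inter, Finset.mem_erase, Finset.mem_erase]
            constructor
            · rintro ⟨a, b, _⟩; exact ⟨b, a⟩
            · rintro ⟨b, a⟩; exact ⟨a, b, hF a⟩
          have f3 : insert e (F.erase e) = insert e F := by
            ext x
            rw [Finset.mem_insert, Finset.mem_insert, Finset.mem_erase]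
            tauto
          rw [f1, f3, Finset.erase_idem]
        rw [e1]
        unfold Pr
        rw [← Ex_mul_left]
        apply abs_Ex_le (ok2 ht0 ht1)
        intro F hF
        have f2 : F.erase e = F := by
          apply Finset.erase_eq_of_notMem
          intro h
          exact (Finset.mem_erase.mp (hF h)).1 rfl
        show |g (cp D w (insert e F)) - g (cp D w F)| ≤
          2 * ind (cp D w (insert e F) ≠ cp D w (F.erase e))
        rw [f2]
        by_cases hc : cp D w (insert e F) = cp D w F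
        · rw [hc, sub_self, abs_zero]
          have := ind_nonneg (cp D w F ≠ cp D w F)
          linarith
        · rw [ind_of hc]
          have a1 := abs_le.mp (hg (cp D w (insert e F)))
          have a2 := abs_le.mp (hg (cp D w F))
          rw [abs_le]
          constructor <;> linarith
      calc ∑ e ∈ D.edges, |1 * Ex (fun _ => t) (D.edges.erase e)
            (fun F => g (cp D w (insert e F)) - g (cp D w F))|
          ≤ ∑ e ∈ D.edges, 2 * Pr (fun _ => t) D.edges
            (fun F => cp D w (insert e F) ≠ cp D w (F.erase e)) := Finset.sum_le_sum hterm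
        _ = 2 * ∑ e ∈ D.edges, Pr (fun _ => t) D.edges
            (fun F => cp D w (insert e F) ≠ cp D w (F.erase e)) := by rw [Finset.mul_sum]
        _ ≤ 2 * C * Z := by linarith
  · push Not at hq
    have b1 := abs_Ex_le (ok2 h0 h1) (S := D.edges) (f := fun F => g (cp D w F))
      (g := fun _ => 1) (fun F _ => hg _)
    have b2 := abs_Ex_le (ok2 (q := 1/2) (by norm_num) (by norm_num)) (S := D.edges)
      (f := fun F => g (cp D w F)) (g := fun _ => 1) (fun F _ => hg _)
    rw [Ex_const] at b1 b2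
    rw [abs_le] at b1 b2
    have hle : |Ex (fun _ => q) D.edges (fun F => g (cp D w F)) -
        Ex (fun _ => 1/2) D.edges (fun F => g (cp D w F))| ≤ 2 := by
      rw [abs_le]
      constructor <;> linarith
    refine hle.trans ?_
    have hn34 : 0 < (n:ℝ) ^ (3/4 : ℝ) := by positivity
    have h3 : (n:ℝ) ^ (3/4 : ℝ) ≤ Z := by
      rw [hZ]
      have : 1 ≤ ((n:ℝ) / w) ^ (31/24 : ℝ) := by
        apply Real.one_le_rpow _ (by norm_num)
        rw [le_div_iff₀ hw0, one_mul]
        exact_mod_cast hwn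
      nlinarith
    have h4 : (n:ℝ) ^ (-(3/4) : ℝ) * (n:ℝ) ^ (3/4 : ℝ) = 1 := by
      rw [← Real.rpow_add hn0]; norm_num
    have h5 : 2 ≤ 2 / ε * (n:ℝ) ^ (3/4 : ℝ) * |q - 1/2| := by
      have : 2 / ε * (n:ℝ) ^ (3/4 : ℝ) * (ε * (n:ℝ) ^ (-(3/4) : ℝ)) = 2 := by
        have h6 : 2 / ε * (n:ℝ) ^ (3/4 : ℝ) * (ε * (n:ℝ) ^ (-(3/4) : ℝ)) =
            (2 / ε * ε) * ((n:ℝ) ^ (-(3/4) : ℝ) * (n:ℝ) ^ (3/4 : ℝ)) := by ring
        rw [h6, h4]
        field_simp
      calc (2:ℝ) = 2 / ε * (n:ℝ) ^ (3/4 : ℝ) * (ε * (n:ℝ) ^ (-(3/4) : ℝ)) := this.symm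
        _ ≤ _ := mul_le_mul_of_nonneg_left hq.le (by positivity)
    have h6 : 2 / ε * (n:ℝ) ^ (3/4 : ℝ) * |q - 1/2| ≤ (2 * C + 2 / ε) * Z * |q - 1/2| := by
      apply mul_le_mul_of_nonneg_right _ hq0
      have h7 : 2 / ε * (n:ℝ) ^ (3/4 : ℝ) ≤ 2 / ε * Z := mul_le_mul_of_nonneg_left h3 hp.le
      nlinarith
    linarith

end Q291.EP
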